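import Pool.Agent.Lib.CY.Blue

/-! Project cy: affine changes of charts. -/

open Set

noncomputable section

namespace Pool.Agent.Lib.CY

open Pool.Agent.Lib.HS32

theorem cAFF : St_AFF := by
  intro n M e he a L
  let ψ := ((Homeomorph.subRight a).trans L.symm.toHomeomorph).toOpenPartialHomeomorph
  have h : ∀ w, ψ.symm w = a + L w := fun w => add_comm _ _
  refine ⟨e.trans ψ, M.sat e he ψ
    (L.symm.differentiable.comp (differentiable_id.sub_const a)).differentiableOn
    (L.differentiable.add_const a).differentiableOn, inter_univ _, fun w => ?_,
    fun w => congrArg e.symm (h w), fun _ => rfl⟩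
  rw [← h]
  exact and_iff_right trivial

end Pool.Agent.Lib.CY
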