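import Pool.Agent.Lib.CY.Blue
import Pool.Agent.Lib.FI.B_LAG
import Pool.Agent.Lib.FI.B_SYL
import Pool.Agent.Lib.RAA.T_TOP

/-! Project cy, row ALG: the variation of the mixed determinant. -/

open scoped Classical ComplexOrder Matrix
open Polynomial

noncomputable section

namespace Pool.Agent.Lib.CY

open Pool.Agent.Lib.HS32 Pool.Agent.Lib.HS32.BCOH Pool.Agent.Lib.FI

namespace ALG

variable {g k : ℕ}

theorem ext : ∃ γ : Fin (g + k + 1 + 1) → ℝ, ∀ (B : Mat (g + k))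
    (P : Matrix (Fin k) (Fin (g + k)) ℂ), B.det ≠ 0 →
    ∑ j, γ j • ((((j : ℕ) : ℝ) + 1) • B + Pᴴ * P).det = mc B P ∧
    ∀ R : Matrix (Fin (g + k)) (Fin k) ℂ, ∑ j, (γ j * (((j : ℕ) : ℝ) + 1)) •
      (((((j : ℕ) : ℝ) + 1) • B + Pᴴ * P).adjugate * (R * P)).trace = 0 := by
  obtain ⟨γ, hγ⟩ := LAG.nodes (g + k + 1) g (by omega)
  refine ⟨γ, fun B P hB => ⟨?_, fun R => ?_⟩⟩
  · have h := hγ ℂ (X ^ g * (C B.det * pl (P * B⁻¹ * Pᴴ) 1)) (natDegree_mul_le.trans (by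
      have := (natDegree_C_mul_le B.det _).trans (LAG.deg (P * B⁻¹ * Pᴴ) 1)
      rw [natDegree_X_pow]
      omega))
    rw [coeff_X_pow_mul', if_pos le_rfl, Nat.sub_self, coeff_C_mul, coeff_zero_eq_eval_zero,
      pl_eval, zero_smul, add_zero] at h
    refine (Finset.sum_congr rfl fun j _ => congrArg (γ j • ·) ?_).trans h
    have e := SYL.one P Pᴴ 1 (Nat.le_add_left k g) hB (algebraMap ℝ ℂ (((j : ℕ) : ℝ) + 1))
    rw [Matrix.mul_one, Matrix.one_mul, Nat.add_sub_cancel, algebraMap_smul] at e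
    rw [e, eval_mul, eval_mul, eval_pow, eval_X, eval_C, pl_eval, add_comm (P * B⁻¹ * Pᴴ), mul_assoc]
  · obtain ⟨q, q1, q2⟩ := LAG.adj (Pᴴᵀ * Bᵀ⁻¹ * Pᵀ) (Rᵀ * (Bᵀ⁻¹ * Pᵀ))
    have h := hγ ℂ (X ^ (g + 1) * (C Bᵀ.det * q)) (natDegree_mul_le.trans (by
      have := (natDegree_C_mul_le Bᵀ.det q).trans q1
      rw [natDegree_X_pow]
      omega))
    rw [coeff_X_pow_mul', if_neg (by omega)] at h
    refine (Finset.sum_congr rfl fun j _ => ?_).trans h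
    have e := SYL.two Pᴴᵀ Pᵀ 1 (Nat.le_add_left k g) (B.det_transpose ▸ hB : Bᵀ.det ≠ 0)
      (algebraMap ℝ ℂ (((j : ℕ) : ℝ) + 1))
    rw [Matrix.mul_one, Matrix.one_mul, Nat.add_sub_cancel, algebraMap_smul,
      ← Matrix.transpose_mul, ← Matrix.transpose_smul, ← Matrix.transpose_add,
      ← Matrix.adjugate_transpose] at e
    rw [mul_smul, ← Matrix.trace_transpose, Matrix.transpose_mul, Matrix.transpose_mul,
      Matrix.trace_mul_comm, ← Matrix.mul_assoc, e, Matrix.smul_mul, Matrix.trace_smul,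
      eval_mul, eval_mul, eval_pow, eval_X, eval_C, q2, Matrix.mul_assoc _ _ Rᵀ,
      Matrix.trace_mul_comm, Matrix.mul_assoc _ Rᵀ, ← algebraMap_smul ℂ (((j : ℕ) : ℝ) + 1)]
    simp only [smul_eq_mul]
    congr 1
    ring

theorem int (n : ℕ) : ∃ w : Fin (n + 1) → ℝ, ∀ T D : Mat n,
    ∑ l, w l • ((T + (((l : ℕ) : ℝ) + 1)⁻¹ • D).adjugate * D).trace = (T + D).det - T.det := by
  obtain ⟨w, hw⟩ := RAA.TTop.quad n (fun l => (((l : ℕ) : ℝ) + 1)⁻¹)
    (fun a b h => Fin.ext (Nat.cast_injective (R := ℝ) (add_right_cancel (inv_injective h))))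
    fun l => (((l : ℕ) : ℝ) + 1)⁻¹
  refine ⟨w, fun T D => ?_⟩
  have h := hw (derivative (pl T D))
    ((natDegree_derivative_le _).trans ((Nat.sub_le _ _).trans (LAG.deg _ _)))
  have h1 := eval_eq_sum_range' (p := pl T D) (n := n + 1 + 1)
    ((LAG.deg T D).trans_lt (by omega)) 1
  rw [Finset.sum_range_succ', pl_eval, one_smul, coeff_zero_eq_eval_zero, pl_eval, zero_smul,
    add_zero, pow_zero, mul_one, Finset.sum_range] at h1
  simp only [pl_deriv, ← RAA.TTop.rs] at h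
  rw [h, h1, add_sub_cancel_right]
  refine Finset.sum_congr rfl fun m _ => ?_
  rw [coeff_derivative, one_pow, mul_one]
  have : ((m : ℕ) : ℂ) + 1 ≠ 0 := Nat.cast_add_one_ne_zero _
  push_cast
  field_simp

end ALG

theorem cALG : St_ALG := by
  intro g k
  obtain ⟨γ, hγ⟩ := ALG.ext (g := g) (k := k)
  obtain ⟨w, hw⟩ := ALG.int (g + k)
  let e := (finProdFinEquiv (m := g + k + 1 + 1) (n := g + k + 1)).symm
  refine ⟨_, fun i => γ (e i).1 * ((((e i).1 : ℕ) : ℝ) + 1) * w (e i).2,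
    fun i => (((e i).1 : ℕ) : ℝ) + 1, fun i => ((((e i).2 : ℕ) : ℝ) + 1)⁻¹,
    fun A D P hA hD => ⟨?_, fun R => ?_⟩⟩
  · rw [e.sum_comp fun x => (γ x.1 * (((x.1 : ℕ) : ℝ) + 1) * w x.2) • ((((((x.1 : ℕ) : ℝ) + 1) •
      (A + (((x.2 : ℕ) : ℝ) + 1)⁻¹ • D) + Pᴴ * P).adjugate * D).trace), Fintype.sum_prod_type,
      ← (hγ _ P hD.det_pos.ne').1, ← (hγ _ P hA.det_pos.ne').1, ← Finset.sum_sub_distrib]
    refine Finset.sum_congr rfl fun j _ => ?_
    have h := hw ((((j : ℕ) : ℝ) + 1) • A + Pᴴ * P) ((((j : ℕ) : ℝ) + 1) • D)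
    rw [← smul_sub, smul_add, add_right_comm _ _ (Pᴴ * P), ← h, Finset.smul_sum]
    refine Finset.sum_congr rfl fun l _ => ?_
    dsimp only
    rw [smul_add, add_right_comm _ _ (Pᴴ * P), smul_comm _ _ D, Matrix.mul_smul, Matrix.trace_smul,
      mul_right_comm, mul_smul, mul_smul]
  · rw [e.sum_comp fun x => (γ x.1 * (((x.1 : ℕ) : ℝ) + 1) * w x.2) • ((((((x.1 : ℕ) : ℝ) + 1) •
      (A + (((x.2 : ℕ) : ℝ) + 1)⁻¹ • D) + Pᴴ * P).adjugate * (R * P)).trace),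
      Fintype.sum_prod_type_right]
    refine Finset.sum_eq_zero fun l _ => ?_
    have t0 : (0 : ℝ) < (((l : ℕ) : ℝ) + 1)⁻¹ := by positivity
    have t1 : (((l : ℕ) : ℝ) + 1)⁻¹ ≤ 1 := inv_le_one_of_one_le₀ (by simp)
    have hB : (A + (((l : ℕ) : ℝ) + 1)⁻¹ • D).PosDef := by
      have := (hD.smul t0).posSemidef_add (hA.posSemidef.smul (sub_nonneg.2 t1))
      rwa [smul_add, sub_smul, one_smul, ← add_assoc, sub_add_cancel] at this
    simp only [mul_comm _ (w l), mul_smul (w l)]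
    rw [← Finset.smul_sum, (hγ _ P hB.det_pos.ne').2, smul_zero]

end Pool.Agent.Lib.CY
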