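import Pool.Agent.Lib.CY.Blue

/-! Row ARE: the area formula for a map that is locally injective. -/

open scoped Classical Topology ENNReal
open Set MeasureTheory Complex Metric Filter Function

noncomputable section

namespace Pool.Agent.Lib.CY

open Pool.Agent.Lib.SV (E nsq)
open Pool.Agent.Lib.HS32

namespace ARE

section alg

variable {X Y : Type} [Zero Y]

/-- The function on the image of `B`, zero elsewhere. -/
def pu (f : X → X) (B : Set X) (F : X → Y) : X → Y :=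
  Function.extend (B.domRestrict f) (B.domRestrict F) fun _ => 0

lemma pu_app {f : X → X} {B : Set X} (F : X → Y) (hf : InjOn f B) {w : X} (hw : w ∈ B) :
    pu f B F (f w) = F w :=
  (injOn_iff_injective.1 hf).extend_apply (B.domRestrict F) (fun _ => 0) ⟨w, hw⟩

lemma pu_off {f : X → X} {B : Set X} (F : X → Y) {v : X} (hv : v ∉ f '' B) : pu f B F v = 0 :=
  Function.extend_apply' _ _ _ fun ⟨w, hw⟩ => hv ⟨w, w.2, hw⟩

lemma pu_ind {f : X → X} {B : Set X} (F : X → Y) (T : Set X) :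
    T.indicator (pu f B F) = (f '' (B ∩ f ⁻¹' T)).indicator (pu f B F) := by
  funext v
  rw [image_inter_preimage]
  by_cases h : v ∈ f '' B
  · by_cases hT : v ∈ T
    · rw [indicator_of_mem hT, indicator_of_mem (mem_inter h hT)]
    · rw [indicator_of_notMem hT, indicator_of_notMem fun h' => hT h'.2]
  · rw [indicator_of_notMem fun h' : v ∈ f '' B ∩ T => h h'.1]
    exact indicator_apply_eq_zero.2 fun _ => pu_off F h

end alg

lemma tsum_fb {X Y : Type} [AddCommMonoid Y] [TopologicalSpace Y] {f : X → X} {B : ℕ → Set X}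
    (hd : Pairwise (Disjoint on B)) (hf : ∀ m, InjOn f (B m)) (F : X → Y) (v : X) :
    ∑' w : {w | w ∈ ⋃ m, B m ∧ f w = v}, F w = ∑' m, pu f (B m) F v := by
  choose ι hι using fun w : {w | w ∈ ⋃ m, B m ∧ f w = v} => mem_iUnion.1 w.2.1
  have hi : Injective ι := fun w w' h =>
    Subtype.ext (hf _ (hι w) (h ▸ hι w') (w.2.2.trans w'.2.2.symm))
  rw [← hi.tsum_eq (f := fun m => pu f (B m) F v)]
  · refine tsum_congr fun w => ?_
    have := pu_app F (hf _) (hι w)
    rw [w.2.2] at this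
    exact this.symm
  · intro m hm
    obtain ⟨w, hw, e⟩ : v ∈ f '' B m := by
      by_contra h
      exact hm (pu_off F h)
    refine ⟨⟨w, mem_iUnion.2 ⟨m, hw⟩, e⟩, ?_⟩
    by_contra h
    exact disjoint_left.1 (hd h) (hι _) hw

lemma cover {X : Type} [TopologicalSpace X] [SecondCountableTopology X] [MeasurableSpace X]
    [BorelSpace X] {f : X → X} {R : Set X} (h : ∀ w ∈ R, ∃ O ∈ 𝓝 w, O ⊆ R ∧ InjOn f O) :
    ∃ B : ℕ → Set X, (∀ m, MeasurableSet (B m)) ∧ Pairwise (Disjoint on B) ∧ ⋃ m, B m = R ∧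
      ∀ m, InjOn f (B m) := by
  obtain ⟨T, t1, t2, t3⟩ := TopologicalSpace.isOpen_sUnion_countable
    {O : Set X | IsOpen O ∧ O ⊆ R ∧ InjOn f O} fun O hO => hO.1
  obtain ⟨O, hO⟩ := (t1.insert ∅).exists_eq_range (insert_nonempty _ _)
  have hO' : ∀ m, IsOpen (O m) ∧ O m ⊆ R ∧ InjOn f (O m) := fun m => by
    have : O m ∈ insert ∅ T := hO ▸ mem_range_self m
    rcases this with h | h
    · rw [h]
      exact ⟨isOpen_empty, empty_subset _, injOn_empty _⟩
    · exact t2 h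
  refine ⟨disjointed O, MeasurableSet.disjointed fun m => (hO' m).1.measurableSet,
    disjoint_disjointed O, ?_, fun m => (hO' m).2.2.mono (disjointed_subset O m)⟩
  rw [iUnion_disjointed, ← sUnion_range, ← hO, sUnion_insert, empty_union, t3]
  refine Subset.antisymm (sUnion_subset fun O hO => hO.2.1) fun w hw => ?_
  obtain ⟨O, o1, o2, o3⟩ := h w hw
  exact ⟨interior O, ⟨isOpen_interior, interior_subset.trans o2, o3.mono interior_subset⟩,
    mem_interior_iff_mem_nhds.2 o1⟩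

variable {X : Type} [NormedAddCommGroup X] [NormedSpace ℝ X] [FiniteDimensional ℝ X]
  [MeasurableSpace X] [BorelSpace X] (μ : Measure X) [μ.IsAddHaarMeasure]

lemma pu_meas {Y : Type} [Zero Y] [TopologicalSpace Y] [MeasurableSpace Y] [BorelSpace Y]
    {f : X → X} {B : Set X} {F : X → Y} (hB : MeasurableSet B) (hc : ContinuousOn f B)
    (hf : InjOn f B) (hF : ContinuousOn F B) : Measurable (pu f B F) :=
  (hc.measurableEmbedding hB hf).measurable_extend hF.domRestrict.measurable measurable_const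

theorem area {f : X → X} {R : Set X} {J : X → ℝ} (hR : IsOpen R)
    (hd : ∀ w ∈ R, DifferentiableAt ℝ f w ∧ |(fderiv ℝ f w).det| = J w)
    (h : ∀ w ∈ R, ∃ O ∈ 𝓝 w, O ⊆ R ∧ InjOn f O) {T : Set X} (hT : MeasurableSet T) :
    MeasurableSet (R ∩ f ⁻¹' T) ∧
    (∀ F : X → ℝ≥0∞, ContinuousOn F R →
      AEMeasurable (fun v => ∑' w : {w | w ∈ R ∧ f w = v}, F w) μ ∧
      ∫⁻ w in R ∩ f ⁻¹' T, F w * ENNReal.ofReal (J w) ∂μ =
        ∫⁻ v in T, ∑' w : {w | w ∈ R ∧ f w = v}, F w ∂μ) ∧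
    ∀ φ : X → ℂ, ContinuousOn φ R → IntegrableOn (fun w => φ w * J w) (R ∩ f ⁻¹' T) μ →
      IntegrableOn (fun v => ∑' w : {w | w ∈ R ∧ f w = v}, φ w) T μ ∧
      ∫ w in R ∩ f ⁻¹' T, φ w * J w ∂μ = ∫ v in T, ∑' w : {w | w ∈ R ∧ f w = v}, φ w ∂μ := by
  have hc : ContinuousOn f R := fun w hw => (hd w hw).1.continuousAt.continuousWithinAt
  have hm : MeasurableSet (R ∩ f ⁻¹' T) := by
    have := hR.measurableSet.subtype_image (hc.domRestrict.measurable hT)
    rwa [domRestrict_eq, preimage_comp, Subtype.image_preimage_coe] at this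
  obtain ⟨B, b1, b2, rfl, b4⟩ := cover h
  have sub : ∀ m, B m ⊆ ⋃ m, B m := subset_iUnion B
  have e1 : (⋃ m, B m) ∩ f ⁻¹' T = ⋃ m, B m ∩ f ⁻¹' T := iUnion_inter _ _
  have m1 : ∀ m, MeasurableSet (B m ∩ f ⁻¹' T) := fun m => by
    have := (b1 m).inter hm
    rwa [← inter_assoc, inter_eq_left.2 (sub m)] at this
  have d1 : Pairwise (Disjoint on fun m => B m ∩ f ⁻¹' T) := fun m m' hne =>
    (b2 hne).mono inter_subset_left inter_subset_left
  have f1 : ∀ m, ∀ w ∈ B m ∩ f ⁻¹' T, HasFDerivWithinAt f (fderiv ℝ f w) (B m ∩ f ⁻¹' T) w :=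
    fun m w hw => (hd w (sub m hw.1)).1.hasFDerivAt.hasFDerivWithinAt
  have i1 : ∀ m, InjOn f (B m ∩ f ⁻¹' T) := fun m => (b4 m).mono inter_subset_left
  have m2 : ∀ m, MeasurableSet (f '' (B m ∩ f ⁻¹' T)) := fun m =>
    measurable_image_of_fderivWithin (m1 m) (f1 m) (i1 m)
  have one : ∀ F : X → ℝ≥0∞, ∀ m, ∫⁻ v in T, pu f (B m) F v ∂μ =
      ∫⁻ w in B m ∩ f ⁻¹' T, F w * ENNReal.ofReal (J w) ∂μ := fun F m => by
    rw [← lintegral_indicator hT, pu_ind, lintegral_indicator (m2 m),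
      lintegral_image_eq_lintegral_abs_det_fderiv_mul μ (m1 m) (f1 m) (i1 m)]
    refine setLIntegral_congr_fun (m1 m) fun w hw => ?_
    simp only [pu_app F (b4 m) hw.1, (hd w (sub m hw.1)).2, mul_comm]
  refine ⟨hm, fun F hF => ?_, fun φ hφ hi => ?_⟩
  · have mF : ∀ m, Measurable (pu f (B m) F) := fun m =>
      pu_meas (b1 m) (hc.mono (sub m)) (b4 m) (hF.mono (sub m))
    rw [funext (tsum_fb b2 b4 F)]
    refine ⟨(Measurable.tsum mF).aemeasurable, ?_⟩
    rw [lintegral_tsum fun m => (mF m).aemeasurable, e1, lintegral_iUnion m1 d1]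
    exact tsum_congr fun m => (one F m).symm
  · have mF : ∀ m, Measurable (pu f (B m) φ) := fun m =>
      pu_meas (b1 m) (hc.mono (sub m)) (b4 m) (hφ.mono (sub m))
    have en : ∀ m v, ‖pu f (B m) φ v‖ₑ = pu f (B m) (fun w => ‖φ w‖ₑ) v := fun m v => by
      by_cases hv : v ∈ f '' B m
      · obtain ⟨w, hw, rfl⟩ := hv
        rw [pu_app _ (b4 m) hw, pu_app _ (b4 m) hw]
      · rw [pu_off _ hv, pu_off _ hv, enorm_zero]
    have fin : ∑' m, ∫⁻ v in T, ‖pu f (B m) φ v‖ₑ ∂μ < ⊤ := by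
      simp only [en, one]
      rw [← lintegral_iUnion m1 d1, ← e1]
      refine lt_of_eq_of_lt (setLIntegral_congr_fun hm fun w hw => ?_) hi.2
      have h0 : 0 ≤ J w := (hd w hw.1).2 ▸ abs_nonneg _
      simp only [enorm_mul]
      rw [← ofReal_norm (J w : ℂ), Complex.norm_real, Real.norm_of_nonneg h0]
    rw [funext (tsum_fb b2 b4 φ)]
    refine ⟨⟨(Measurable.tsum mF).aestronglyMeasurable, ?_⟩, ?_⟩
    · refine lt_of_le_of_lt (lintegral_mono fun v => enorm_tsum_le_tsum_enorm) ?_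
      rw [lintegral_tsum fun m => (mF m).enorm.aemeasurable]
      exact fin
    · rw [integral_tsum (fun m => (mF m).aestronglyMeasurable) fin.ne, e1,
        integral_iUnion m1 d1 (e1 ▸ hi)]
      refine tsum_congr fun m => ?_
      rw [← integral_indicator hT, pu_ind, integral_indicator (m2 m),
        integral_image_eq_integral_abs_det_fderiv_smul μ (m1 m) (f1 m) (i1 m)]
      refine setIntegral_congr_fun (m1 m) fun w hw => ?_
      simp only [pu_app φ (b4 m) hw.1, (hd w (sub m hw.1)).2, real_smul, mul_comm]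

end ARE

theorem cARE (hJAC : St_JAC) : St_ARE := by
  intro g k U ψ hU hψ
  have hR : IsOpen (Rg U ψ) := isOpen_iff_mem_nhds.2 fun w hw => by
    have h1 : ContinuousAt (fun w => (jx ψ w).det) w :=
      (continuous_id.matrix_det.continuousAt).comp (hJAC g k ψ w (hψ w hw.1)).2.2.2.2.2.1
    filter_upwards [hU.mem_nhds hw.1, (continuous_norm.isOpen_preimage _ isOpen_Iio).mem_nhds hw.2.1,
      h1.eventually_ne hw.2.2] with u u1 u2 u3
    exact ⟨u1, u2, u3⟩
  refine ⟨hR, fun w hw => (hJAC g k ψ w (hψ w hw)).1.self_of_nhds.continuousAt.continuousWithinAt,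
    fun T hT => ARE.area volume hR (fun w hw => ?_) (fun w hw => ?_) hT⟩
  · obtain ⟨h1, -, h3, -⟩ := hJAC g k ψ w (hψ w hw.1)
    exact ⟨h1.self_of_nhds.restrictScalars ℝ, by rw [h3]; exact abs_of_nonneg (normSq_nonneg _)⟩
  · obtain ⟨-, σ, -, -, -, h4, -⟩ := (hJAC g k ψ w (hψ w hw.1)).2.2.2.2.2.2.2.2 hw.2.2
    refine ⟨_, inter_mem (hR.mem_nhds hw) h4, inter_subset_left, fun u hu u' hu' e => ?_⟩
    exact hu.2.symm.trans ((congrArg σ e).trans hu'.2)

end Pool.Agent.Lib.CY
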