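import Pool.Agent.Lib.CY.Blue

/-! Project cy, row ARS: the area formula for the sheets. -/

open scoped Classical Topology ContDiff ComplexOrder Matrix ENNReal
open Set MeasureTheory Complex Metric Filter

noncomputable section

namespace Pool.Agent.Lib.CY

open Pool.Agent.Lib.SV (E nsq)

theorem cARS (hSPL : St_SPL) (hARE : St_ARE) : St_ARS := by
  intro g k r U ψ V a hU hψ hS Y S hY hY1 hSo hSV F hF
  obtain ⟨h1, -, ⟨L, l1, l2, l3, -⟩, -⟩ := hSPL g k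
  obtain ⟨a1, a2, a3⟩ := hARE g k U ψ hU hψ
  have hT : IsOpen (L.symm ⁻¹' (Y ×ˢ S)) := (hY.prod hSo).preimage L.symm.continuous
  obtain ⟨b1, b2⟩ := (a3 _ hT.measurableSet).2.1 F hF
  have e1 : {w | w ∈ Rg U ψ ∧ pY w ∈ Y ∧ ψ w ∈ S} = Rg U ψ ∩ gp ψ ⁻¹' (L.symm ⁻¹' (Y ×ˢ S)) :=
    Set.ext fun w => by
      rw [mem_inter_iff, mem_preimage, mem_preimage, l2, gp, (h1 _ _).1, (h1 _ _).2]
      rfl
  have e2 : L ⁻¹' (L.symm ⁻¹' (Y ×ˢ S)) = Y ×ˢ S := Set.ext fun v => by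
    rw [mem_preimage, mem_preimage, L.symm_apply_apply]
  have e3 : (fun v : E g × E k => ∑' w : fb U ψ (L v), F w) =ᵐ[volume.restrict (Y ×ˢ S)]
      fun v => ∑ j, F (a v.1 v.2 j) := by
    filter_upwards [ae_restrict_of_ae hS.gen, ae_restrict_mem (hY.prod hSo).measurableSet]
      with v c1 c2
    obtain ⟨d1, d2, -⟩ := c1 ⟨hY1 c2.1, hSV c2.2⟩
    rw [l1, ← d2, tsum_range F d1, tsum_fintype]
  rw [e1]
  refine ⟨(a2.mono fun w hw => hw.1).isOpen_inter_preimage a1 hT,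
    (b1.comp_quasiMeasurePreserving l3.quasiMeasurePreserving).restrict.congr e3, ?_⟩
  rw [b2, ← lintegral_congr_ae e3, ← l3.setLIntegral_comp_preimage_emb
    L.toHomeomorph.measurableEmbedding, e2]

end Pool.Agent.Lib.CY
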