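import Pool.Agent.Lib.CY.Blue

/-! Project cy, row CMP: comparison with the flat objects of a chart. -/

open scoped Classical Topology ContDiff ComplexOrder Matrix ENNReal
open Set MeasureTheory Complex Metric Filter

noncomputable section

namespace Pool.Agent.Lib.CY

open Pool.Agent.Lib.SV (E nsq)
open Pool.Agent.Lib.HS32 Pool.Agent.Lib.FI Pool.Agent.Lib.KH Pool.Agent.Lib.RB9

namespace CMP

theorem inv_bd {n : ℕ} {H : Mat n} {C : ℝ} (hH : H.PosDef) (hC : 0 < C)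
    (h1 : (C • H - 1).PosSemidef) (h2 : (C • (1 : Mat n) - H).PosSemidef) :
    (C • (1 : Mat n) - H⁻¹).PosSemidef ∧ (C • H⁻¹ - 1).PosSemidef := by
  have hd : IsUnit H.det := hH.det_pos.ne'.isUnit
  have a := Matrix.mul_nonsing_inv H hd
  have b := Matrix.nonsing_inv_mul H hd
  have c0 : (0 : ℝ) ≤ C⁻¹ := (inv_pos.2 hC).le
  constructor
  · have := ((((Matrix.posSemidef_self_mul_conjTranspose (C • H - 1)).add h1).smul
      c0).mul_mul_conjTranspose_same H⁻¹)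
    rw [h1.1.eq, hH.inv.1.eq] at this
    have e : (C • H - 1) * (C • H - 1) + (C • H - 1) = C • (H * (C • H - 1)) := by
      rw [← Matrix.smul_mul, Matrix.sub_mul (C • H), Matrix.one_mul, sub_add_cancel]
    rwa [e, smul_smul, inv_mul_cancel₀ hC.ne', one_smul, ← Matrix.mul_assoc, b, Matrix.one_mul,
      Matrix.sub_mul, Matrix.smul_mul, a, Matrix.one_mul] at this
  · have := ((hH.inv.posSemidef.mul_mul_conjTranspose_same (C • (1 : Mat n) - H)).add h2).smul c0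
    rw [h2.1.eq] at this
    have e : (C • (1 : Mat n) - H) * H⁻¹ * (C • (1 : Mat n) - H) + (C • (1 : Mat n) - H) =
        C • ((C • (1 : Mat n) - H) * H⁻¹) := by
      rw [Matrix.mul_sub (_ * _), Matrix.mul_assoc _ _ H, b, Matrix.mul_one, sub_add_cancel,
        Matrix.mul_smul, Matrix.mul_one]
    rwa [e, smul_smul, inv_mul_cancel₀ hC.ne', one_smul, Matrix.sub_mul, Matrix.smul_mul,
      Matrix.one_mul, a] at this

theorem det_sm {k : ℕ} (C : ℝ) (A : Mat k) : (C • A).det.re = C ^ k * A.det.re := by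
  rw [← Complex.coe_smul, Matrix.det_smul, Fintype.card_fin, ← ofReal_pow, re_ofReal_mul]

theorem pt (hSPL : St_SPL) (hMAT : St_MAT) {g k : ℕ} {H : Mat (g + k)} {C : ℝ} (hH : H.PosDef)
    (hC : 1 ≤ C) (h1 : (C • H - 1).PosSemidef) (h2 : (C • (1 : Mat (g + k)) - H).PosSemidef)
    (P : Matrix (Fin k) (Fin (g + k)) ℂ) :
    0 ≤ (P * Pᴴ).det.re ∧ 0 ≤ (P * H⁻¹ * Pᴴ).det.re ∧
    (P * Pᴴ).det.re ≤ C ^ (k + 1) * (P * H⁻¹ * Pᴴ).det.re ∧
    (P * H⁻¹ * Pᴴ).det.re ≤ C ^ (k + 1) * (P * Pᴴ).det.re ∧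
    normSq (cX P).det ≤ (P * Pᴴ).det.re ∧ ∀ ξ : E k,
      nsq ((cX P).adjugate *ᵥ ξ) ≤ C ^ (k + 1) * nq (P * H⁻¹ * Pᴴ).adjugate ξ := by
  obtain ⟨i1, i2⟩ := inv_bd hH (one_pos.trans_le hC) h1 h2
  have j1 := i1.mul_mul_conjTranspose_same P
  have j2 := i2.mul_mul_conjTranspose_same P
  simp only [Matrix.mul_sub, Matrix.sub_mul, Matrix.mul_smul, Matrix.smul_mul,
    Matrix.mul_one] at j1 j2
  have pD := Matrix.posSemidef_self_mul_conjTranspose P
  have pG := hH.inv.posSemidef.mul_mul_conjTranspose_same P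
  have pX := Matrix.posSemidef_self_mul_conjTranspose (cX P)
  have j3 : (P * Pᴴ - cX P * (cX P)ᴴ).PosSemidef := by
    rw [((hSPL g k).2.2.2.1 P).2, add_sub_cancel_right]
    exact Matrix.posSemidef_self_mul_conjTranspose _
  obtain ⟨a0, a1, -⟩ := hMAT.1 k _ _ pD j2
  obtain ⟨b0, b1, b2, -⟩ := hMAT.1 k _ _ pG j1
  obtain ⟨-, c1, -⟩ := hMAT.1 k _ _ pX j3
  obtain ⟨-, -, -, d⟩ := hMAT.1 k _ (C • (P * H⁻¹ * Pᴴ)) pX (by
    simpa only [sub_add_sub_cancel] using j2.add j3)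
  rw [det_sm] at a1 b1
  have hk : C ^ k ≤ C ^ (k + 1) := pow_le_pow_right₀ hC (Nat.le_succ k)
  refine ⟨a0, b0, a1.trans (mul_le_mul_of_nonneg_right hk b0),
    b1.trans (mul_le_mul_of_nonneg_right hk a0), le_of_eq_of_le ?_ c1, fun ξ => ?_⟩
  · rw [Matrix.det_mul, Matrix.det_conjTranspose, star_def, mul_conj, ofReal_re]
  · have e1 := (Complex.le_def.1 (d.dotProduct_mulVec_nonneg ξ)).1
    have e2 := (Complex.le_def.1 (b2.dotProduct_mulVec_nonneg ξ)).1
    rw [← Complex.coe_smul, Matrix.adjugate_smul, Matrix.adjugate_mul_distrib,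
      ← Matrix.adjugate_conjTranspose, Matrix.sub_mulVec, dotProduct_sub, Matrix.smul_mulVec,
      dotProduct_smul, ← Matrix.mulVec_mulVec, Matrix.dotProduct_mulVec _ (_)ᴴ,
      ← Matrix.star_mulVec, Fintype.card_fin, smul_eq_mul, ← ofReal_pow, sub_re, re_ofReal_mul,
      zero_re] at e1
    have e3 : (star ((cX P).adjugate *ᵥ ξ) ⬝ᵥ (cX P).adjugate *ᵥ ξ).re =
        nsq ((cX P).adjugate *ᵥ ξ) := by
      simp only [dotProduct, re_sum, Pi.star_apply, star_def, ← normSq_eq_conj_mul_self, ofReal_re,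
        nsq]
    rw [e3] at e1
    exact (sub_nonneg.1 e1).trans
      (mul_le_mul_of_nonneg_right (pow_le_pow_right₀ hC (by omega)) e2)

end CMP

theorem cCMP (hSPL : St_SPL) (hMAT : St_MAT) (hBAS : FI.St_BAS) : St_CMP := by
  intro g k M _ H p z C e K hF he hK hKe
  have hH : M.Met H := hF.kae.toMet
  obtain ⟨c, c1, hc⟩ := (mBD _ M H hH).2.2.1 e he K hK hKe
  have ck : c ≤ c ^ (k + 1) := le_self_pow₀ c1 (Nat.succ_ne_zero k)
  have c0 : 0 < c := one_pos.trans_le c1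
  refine ⟨c ^ (k + 1), one_le_pow₀ c1, fun w hw hp => ?_, fun B hB hBK => ?_⟩
  · have := ((hBAS _ k M H p z C hF).2.2.2.1 e he w (hKe hw) hp).1
    rw [dn, this]
    exact CMP.pt hSPL hMAT (hH.pos e he w (hKe hw)) c1 (hc w hw).1 (hc w hw).2.1 _
  · obtain ⟨m, h5, -⟩ := (mMU _ M H hH).2.2.2.2.2.1 e he B hB (hBK.trans hKe)
    refine ⟨m, fun F => ?_⟩
    rw [h5, ← lintegral_const_mul' _ _ ENNReal.ofReal_ne_top,
      ← lintegral_const_mul' _ _ ENNReal.ofReal_ne_top]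
    refine ⟨setLIntegral_mono' hB fun w hw => mul_le_mul' (ENNReal.ofReal_le_ofReal
      ((hc w (hBK hw)).2.2.2.trans ck)) le_rfl, setLIntegral_mono' hB fun w hw => ?_⟩
    rw [← mul_assoc, ← ENNReal.ofReal_mul (by positivity)]
    refine le_mul_of_one_le_left' (ENNReal.one_le_ofReal.2 ?_)
    exact (mul_inv_cancel₀ c0.ne').symm.trans_le
      (mul_le_mul ck (hc w (hBK hw)).2.2.1 (by positivity) (by positivity))

end Pool.Agent.Lib.CY
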