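import Pool.Agent.Lib.CY.Blue

/-! Project cy, row CNT: the number of sheets is bounded and locally constant. -/

open scoped Classical Topology ContDiff ENNReal
open Set MeasureTheory Complex Metric Filter

set_option linter.unusedVariables false

noncomputable section

namespace Pool.Agent.Lib.CY

open Pool.Agent.Lib.SV (E nsq)

namespace CNT

theorem cpY {g k : ℕ} : Continuous (pY : E (g + k) → E g) :=
  continuous_pi fun i => continuous_apply _

theorem cpX {g k : ℕ} : Continuous (pX : E (g + k) → E k) :=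
  continuous_pi fun i => continuous_apply _

theorem oDz {g k : ℕ} {Z : Set (E k)} (h : IsOpen Z) : IsOpen (Dz g Z) :=
  (isOpen_lt cpY.norm continuous_const).inter (h.preimage cpX)

theorem nat_eq {a b : ℕ} (h : ‖(a : ℂ) - b‖ < 1) : a = b := by
  have h1 : ((a : ℂ) - b) = (((a : ℤ) - b : ℤ) : ℂ) := by push_cast; rfl
  rw [h1, Complex.norm_intCast, ← Int.cast_abs] at h
  have h2 : |(a : ℤ) - b| < 1 := by exact_mod_cast h
  have h3 := Int.abs_lt_one_iff.1 h2
  omega

/-- A continuous function with natural values almost everywhere. -/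
theorem loc {n : ℕ} {D : Set (E n)} {F : E n → ℂ} (hD : IsOpen D) (hF : ContinuousOn F D)
    (h : ∀ᵐ v, v ∈ D → F v ∈ range (Nat.cast : ℕ → ℂ)) :
    ∃ N : E n → ℕ, ∀ v ∈ D, F v = N v ∧ ∀ᶠ v' in 𝓝 v, N v' = N v := by
  have hc : IsClosed (range (Nat.cast : ℕ → ℂ)) :=
    (Complex.isometry_ofReal.isClosedEmbedding.comp Nat.isClosedEmbedding_coe_real).isClosed_range
  have h1 : ∀ v ∈ D, F v ∈ range (Nat.cast : ℕ → ℂ) := by
    have ho : IsOpen (D ∩ F ⁻¹' (range (Nat.cast : ℕ → ℂ))ᶜ) :=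
      hF.isOpen_inter_preimage hD hc.isOpen_compl
    have h0 : volume (D ∩ F ⁻¹' (range (Nat.cast : ℕ → ℂ))ᶜ) = 0 := by
      rw [ae_iff] at h
      refine measure_mono_null (fun v hv => ?_) h
      exact fun h' => hv.2 (h' hv.1)
    have he := (ho.measure_eq_zero_iff volume).1 h0
    intro v hv
    by_contra h'
    exact (he ▸ (⟨hv, h'⟩ : v ∈ D ∩ F ⁻¹' (range (Nat.cast : ℕ → ℂ))ᶜ) : v ∈ (∅ : Set (E n)))
  have h2 : ∀ v, ∃ m : ℕ, v ∈ D → F v = m := fun v => by
    by_cases hv : v ∈ D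
    · obtain ⟨m, hm⟩ := h1 v hv
      exact ⟨m, fun _ => hm.symm⟩
    · exact ⟨0, fun h => absurd h hv⟩
  choose N hN using h2
  refine ⟨N, fun v hv => ⟨hN v hv, ?_⟩⟩
  have h3 := (hF.continuousAt (hD.mem_nhds hv)).eventually (ball_mem_nhds (F v) one_pos)
  filter_upwards [h3, hD.mem_nhds hv] with v' h4 h5
  rw [dist_eq_norm, hN v' h5, hN v hv] at h4
  exact nat_eq h4

end CNT

open CNT in
theorem cCNT (hSPL : St_SPL) (hARE : St_ARE) (hTR1 : St_TR1) : St_CNT := by
  intro g k U ψ Z c hE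
  obtain ⟨s1, s2, ⟨L, l1, l2, l3, l4⟩, -⟩ := hSPL g k
  obtain ⟨t1, t2⟩ := hTR1 g k U ψ Z c hE
  obtain ⟨F, hF, hF'⟩ := t2 (fun _ => 1) (differentiableOn_const _)
  have hD := oDz (g := g) hE.oZ
  have a1 : ∀ᵐ v, v ∈ Dz g Z → F v = (fb U ψ v).ncard := by
    filter_upwards [hF'] with v h hv
    rw [h hv, tsum_const, nsmul_eq_mul, mul_one, Nat.card_coe_set_eq]
  obtain ⟨N, hN⟩ := loc hD hF.continuousOn (by
    filter_upwards [a1] with v h hv
    exact ⟨_, (h hv).symm⟩)
  have cap : Continuous fun v : E g × E k => ap v.1 v.2 := L.continuous.congr l1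
  have mem : ∀ y : E g, ‖y‖ < 1 → ∀ s ∈ Z, ap y s ∈ Dz g Z := fun y hy s hs =>
    ⟨by rwa [(s1 y s).1], by rwa [(s1 y s).2]⟩
  have cst : ∀ v ∈ Dz g Z, N v = N (ap 0 (pX v)) := by
    intro v hv
    have h1 : ContinuousOn (fun y : E g => N (ap y (pX v))) (ball 0 1) := by
      intro y hy
      have h2 : ContinuousAt (fun y : E g => ap y (pX v)) y :=
        (cap.comp (continuous_id.prodMk continuous_const)).continuousAt
      have h3 := h2.eventually (hN _ (mem y (mem_ball_zero_iff.1 hy) _ hv.2)).2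
      exact (continuousAt_const.congr (h3.mono fun _ h => h.symm)).continuousWithinAt
    have h4 := (convex_ball (0 : E g) 1).isPreconnected.constant h1 (mem_ball_zero_iff.2 hv.1)
      (mem_ball_self one_pos)
    rwa [(s2 v).1] at h4
  set ρ : E k → ℕ := fun s => if s ∈ Z then N (ap 0 s) else 0 with hρ
  have lc : ∀ s ∈ Z, ∀ᶠ s' in 𝓝 s, ρ s' = ρ s := by
    intro s hs
    have h2 : ContinuousAt (fun s : E k => ap (0 : E g) s) s :=
      (cap.comp (continuous_const.prodMk continuous_id)).continuousAt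
    have h3 := h2.eventually (hN _ (mem 0 (by simp) s hs)).2
    filter_upwards [h3, hE.oZ.mem_nhds hs] with s' h4 h5
    simp only [hρ, if_pos hs, if_pos h5]
    exact h4
  have ae : ∀ᵐ v, v ∈ Dz g Z → (fb U ψ v).encard = ρ (pX v) := by
    filter_upwards [a1, t1] with v h h' hv
    have h1 : (fb U ψ v).ncard = N v := by
      have := (h hv).symm.trans (hN v hv).1
      exact_mod_cast this
    rw [← (h' hv).cast_ncard_eq, h1, cst v hv]
    simp only [hρ, if_pos hv.2]
  have v0 : volume (ball (0 : E g) 1) ≠ 0 := (measure_ball_pos volume _ one_pos).ne'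
  have v1 : volume (ball (0 : E g) 1) ≠ ⊤ := measure_ball_lt_top.ne
  refine ⟨⌈c / (volume (ball (0 : E g) 1)).toReal⌉₊, ρ, fun s => ?_, lc, ae⟩
  by_cases hs : s ∈ Z
  swap
  · simp only [hρ, if_neg hs, Nat.zero_le]
  obtain ⟨r, r0, hr⟩ := Metric.eventually_nhds_iff_ball.1 ((lc s hs).and (hE.oZ.mem_nhds hs))
  have hT : MeasurableSet (Dz g (ball s r)) := (oDz isOpen_ball).measurableSet
  have h1 := (((hARE g k U ψ hE.oU hE.hol).2.2 _ hT).2.1 (fun _ => 1) continuousOn_const).2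
  have h2 : ∫⁻ v in Dz g (ball s r), ∑' w : fb U ψ v, (1 : ℝ≥0∞) =
      (ρ s : ℝ≥0∞) * volume (Dz g (ball s r)) := by
    rw [← setLIntegral_const]
    refine lintegral_congr_ae ?_
    rw [EventuallyEq, ae_restrict_iff' hT]
    filter_upwards [ae] with v h hv
    rw [ENNReal.tsum_set_one, h ⟨hv.1, (hr _ hv.2).2⟩, (hr _ hv.2).1]
    simp
  have h3 : volume (Dz g (ball s r)) = volume (ball (0 : E g) 1) * volume (ball s r) := by
    rw [← l3.measure_preimage hT.nullMeasurableSet, ← Measure.prod_prod, ← Measure.volume_eq_prod]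
    congr 1
    ext v
    simp only [mem_preimage, l1, Dz, mem_ofPred_eq, (s1 v.1 v.2).1, (s1 v.1 v.2).2, mem_prod,
      mem_ball_zero_iff]
  have h4 : ∫⁻ w in Rg U ψ ∩ gp ψ ⁻¹' Dz g (ball s r), 1 * ENNReal.ofReal (jq ψ w) ≤
      ENNReal.ofReal c * volume (ball s r) := by
    refine le_trans ?_ (hE.mas (ball s r) isOpen_ball)
    simp only [one_mul]
    refine lintegral_mono_set fun w hw => ⟨hw.1.1, hw.1.2.1, ?_⟩
    have := hw.2.2
    rwa [gp, (s1 _ _).2] at this
  rw [h1, h2, h3, ← mul_assoc] at h4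
  have h5 := (ENNReal.mul_le_mul_iff_left (measure_ball_pos volume s r0).ne'
    measure_ball_lt_top.ne).1 h4
  have h6 := ENNReal.toReal_mono ENNReal.ofReal_ne_top h5
  rw [ENNReal.toReal_mul, ENNReal.toReal_natCast, ENNReal.toReal_ofReal hE.c0,
    ← le_div_iff₀ (ENNReal.toReal_pos v0 v1)] at h6
  exact_mod_cast h6.trans (Nat.le_ceil _)

end Pool.Agent.Lib.CY
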