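import Pool.Agent.Lib.CY.Blue

/-! Project cy: the covering. -/

open scoped Classical Topology ENNReal
open Set MeasureTheory Metric Filter

noncomputable section

namespace Pool.Agent.Lib.CY

open Pool.Agent.Lib.SV (E)
open Pool.Agent.Lib.HS32 Pool.Agent.Lib.FI Pool.Agent.Lib.RB9

theorem cCVR (hGHB : St_GHB) (hUPL : St_UPL) : St_CVR := by
  intro g k M _ H p z C c Q A S V r a hF hA hV hS
  have sc := fun e : S => (hA.sc e.1 e.2).1
  choose κ κ0 hκ using fun e : S => hUPL g k (r e) M H p z C e.1 V (a e) hF (sc e) hV (hS e)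
  have s2 : ∀ e : S, ball 0 2 ⊆ e.1.target := fun e => ball_subset_closedBall.trans (sc e).sub
  have s1 : closedBall (0 : E (g + k)) 1 ⊆ ball 0 2 := closedBall_subset_ball one_lt_two
  let b : S → Box H p z V := fun e =>
    { g := g, r := r e, W := e.1.symm '' ball 0 2, B := e.1.symm '' closedBall 0 1, y0 := 0, R := 1
      a := fun y s j => e.1.symm (a e y s j), c := κ e, R0 := one_pos, c0 := κ0 e
      oW := e.1.symm.isOpen_image_of_subset_source isOpen_ball (s2 e)
      cB := (isCompact_closedBall _ _).image_of_continuousOn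
        (e.1.continuousOn_symm.mono (s1.trans (s2 e)))
      BW := image_mono s1
      hol := fun φ h => (hS e).hol (φ ∘ e.1.symm) fun w hw =>
        (h _ (sc e).mem w (s2 e hw) ⟨w, hw, rfl⟩).self_of_nhds.differentiableWithinAt
      con := fun φ h => (hS e).con (φ ∘ e.1.symm)
        (h.comp_continuousOn (e.1.continuousOn_symm.mono (s1.trans (s2 e))))
      fib := fun y hy s hs j => by
        obtain ⟨m1, -, m2⟩ := (hS e).mem y (mem_ball_zero_iff.1 hy) s hs j
        refine ⟨⟨_, mem_closedBall_zero_iff.2 m1, rfl⟩, fun h =>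
          (hGHB _ _ (Uc p e.1) (z ∘ e.1.symm)).2.2.1 inferInstance ?_ (fun w hw => ?_) _
            ⟨m1.trans_lt one_lt_two, h⟩ s m2⟩
        · simp only [Uc, ← mem_ball_zero_iff]
          exact (hF.sp.continuous.comp_continuousOn
            (e.1.continuousOn_symm.mono (s2 e))).isOpen_inter_preimage isOpen_ball isOpen_Ioi
        · exact (hF.hol _ (sc e).mem w (s2 e (mem_ball_zero_iff.2 hw.1))
            hw.2).self_of_nhds.continuousAt.continuousWithinAt
      up := fun φ ϑ h h0 h1 h2 => (hκ e φ h h0).1 ϑ h1 h2 }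
  have K0 : 0 ≤ ∑ e, κ e := Finset.sum_nonneg fun e _ => κ0 e
  refine ⟨⟨S.card, fun i => b (S.equivFin.symm i), c * ∑ e, κ e, mul_nonneg hA.c0 K0, hV,
    fun x h0 hx => ?_, fun φ T h h0 hT hTV => ?_⟩, fun i => (hA.sc _ (S.equivFin.symm i).2).2.2⟩
  · obtain ⟨e, he, x1, x2⟩ := hA.cov x trivial
    have k := (hGHB _ _ (Uc p e) (z ∘ e.symm)).2.1 (e x)
      ⟨by linarith, by rwa [e.left_inv x1]⟩
    rw [Function.comp_apply, e.left_inv x1] at k
    obtain ⟨j, hj⟩ := (hS ⟨e, he⟩).all _ hx _ k (by linarith)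
    obtain ⟨i, hi⟩ := S.equivFin.symm.surjective ⟨e, he⟩
    refine ⟨i, ?_⟩
    rw [hi]
    exact ⟨pY (e x), mem_ball_zero_iff.2 (lt_of_le_of_lt ((pi_norm_le_iff_of_nonneg
      (norm_nonneg _)).2 fun i => norm_le_pi_norm (e x) _) x2), j,
      (congrArg e.symm hj).trans (e.left_inv x1)⟩
  · rw [S.equivFin.symm.sum_comp fun e => ∫⁻ w in ball (b e).y0 ((b e).R / 2) ×ˢ T,
      ENNReal.ofReal (∑ j, φ ((b e).a w.1 w.2 j)), Finset.mul_sum]
    refine (lintegral_mono_set (t := ⋃ e : S, {x | (0 < p x ∧ z x ∈ T ∧ x ∈ e.1.source ∧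
      ‖e.1 x‖ < 1 / 2) ∧ dn H z x ≤ c * jq (z ∘ e.1.symm) (e.1 x)}) fun x hx => ?_).trans
      ((lintegral_iUnion_le _ _).trans ?_)
    · obtain ⟨e, he, x1, x2, x3⟩ := hA.low x trivial hx.1
      exact mem_iUnion.2 ⟨⟨e, he⟩, ⟨hx.1, hx.2, x1, x2⟩, x3⟩
    rw [tsum_fintype]
    refine Finset.sum_le_sum fun e _ => ?_
    obtain ⟨o1, o2, o3⟩ := (hκ e φ h h0).2 T hT hTV
    refine (setLIntegral_mono_ae (g := fun x => ENNReal.ofReal c *
      ENNReal.ofReal (φ x * jq (z ∘ e.1.symm) (e.1 x)))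
      (((o2.aemeasurable o1.measurableSet).mono_set fun x hx => hx.1).ennreal_ofReal.const_mul _)
      (.of_forall fun x hx => ?_)).trans ?_
    · rw [← ENNReal.ofReal_mul hA.c0, mul_left_comm]
      exact ENNReal.ofReal_le_ofReal (mul_le_mul_of_nonneg_left hx.2 (h0 x))
    rw [lintegral_const_mul' _ _ ENNReal.ofReal_ne_top, ENNReal.ofReal_mul hA.c0, mul_assoc]
    exact mul_le_mul_right (((lintegral_mono_set fun x hx => hx.1).trans o3).trans
      (mul_le_mul_left (ENNReal.ofReal_le_ofReal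
        (Finset.single_le_sum (fun e _ => κ0 e) (Finset.mem_univ e))) _)) _

end Pool.Agent.Lib.CY
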