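import Pool.Agent.Lib.CY.Blue
import Pool.Agent.Lib.SV.B_SUB
import Pool.Agent.Lib.SV.Hol85

/-! Project cy: the energy of a trace, in coordinates. -/

open scoped Classical Topology ContDiff ComplexOrder Matrix ENNReal
open Set MeasureTheory Complex Metric Filter

set_option linter.unusedVariables false

noncomputable section

namespace Pool.Agent.Lib.CY

open Pool.Agent.Lib.SV (E nsq)
open Pool.Agent.Lib.HS32 Pool.Agent.Lib.FI Pool.Agent.Lib.KH Pool.Agent.Lib.RB9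

namespace EN1

theorem nsq0 {k : ℕ} (v : E k) : 0 ≤ nsq v := Finset.sum_nonneg fun _ _ => normSq_nonneg _

theorem le_nsq {k : ℕ} (v : E k) : ‖v‖ ^ 2 ≤ nsq v := by
  have h : ‖v‖ ≤ √(nsq v) := (pi_norm_le_iff_of_nonneg (Real.sqrt_nonneg _)).2 fun i => by
    refine Real.le_sqrt_of_sq_le ?_
    rw [← Complex.normSq_eq_norm_sq]
    exact Finset.single_le_sum (f := fun i => normSq (v i)) (fun _ _ => normSq_nonneg _)
      (Finset.mem_univ i)
  exact (pow_le_pow_left₀ (norm_nonneg _) h 2).trans_eq (Real.sq_sqrt (nsq0 v))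

theorem cnsq {k : ℕ} : Continuous (nsq : E k → ℝ) :=
  continuous_finsetSum _ fun i _ => continuous_normSq.comp (continuous_apply i)

theorem inv_adj {k : ℕ} (A : Mat k) (ξ : E k) :
    nsq (A⁻¹ *ᵥ ξ) = nsq (A.adjugate *ᵥ ξ) / normSq A.det := by
  rw [Matrix.inv_def, Ring.inverse_eq_inv', Matrix.smul_mulVec]
  simp only [nsq, Pi.smul_apply, smul_eq_mul, map_mul, map_inv₀, Finset.sum_div]
  exact Finset.sum_congr rfl fun i _ => by rw [div_eq_inv_mul]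

theorem cs {r : ℕ} (t : Fin r → ℂ) (u : Fin r → ℝ) (h : ∀ j, ‖t j‖ ^ 2 ≤ u j) :
    ‖∑ j, t j‖ ^ 2 ≤ r * ∑ j, u j := by
  have h1 : ‖∑ j, t j‖ ^ 2 ≤ (∑ j, ‖t j‖) ^ 2 :=
    pow_le_pow_left₀ (norm_nonneg _) (norm_sum_le _ _) 2
  have h2 := sq_sum_le_card_mul_sum_sq (s := Finset.univ) (f := fun j => ‖t j‖)
  rw [Finset.card_univ, Fintype.card_fin] at h2
  exact (h1.trans h2).trans
    (mul_le_mul_of_nonneg_left (Finset.sum_le_sum fun j _ => h j) (Nat.cast_nonneg r))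

end EN1

theorem cEN1 (hSPL : St_SPL) (hJAC : St_JAC) (hARS : St_ARS) : St_EN1 := by
  intro g k r U ψ V a φ y hU hψ hV h hφ hy
  obtain ⟨s1, s2, -⟩ := hSPL g k
  have hΩ : IsOpen (ball (0 : E g) 1 ×ˢ V) := isOpen_ball.prod hV
  have hG := h.hol φ hφ
  obtain ⟨B, hB⟩ := (isCompact_closedBall (0 : E (g + k)) 1).exists_bound_of_continuousOn
    ((SV.H85.continuousOn_fderiv isOpen_ball hφ).mono (closedBall_subset_ball one_lt_two))
  have hδ : 0 < 1 - ‖y‖ := sub_pos.2 hy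
  have hY : ball y (1 - ‖y‖) ⊆ ball 0 1 := fun w hw => by
    rw [mem_ball_zero_iff]
    have h1 := mem_ball_iff_norm.1 hw
    have h2 := norm_add_le (w - y) y
    rw [sub_add_cancel] at h2
    linarith
  have hm0 : volume (ball y (1 - ‖y‖)) ≠ 0 := (measure_ball_pos _ _ hδ).ne'
  have hm1 : volume (ball y (1 - ‖y‖)) ≠ ⊤ := measure_ball_lt_top.ne
  have hmp := ENNReal.toReal_pos hm0 hm1
  refine ⟨r * B ^ 2 / (volume (ball y (1 - ‖y‖))).toReal, by positivity, fun θ θc θ0 ξ => ?_⟩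
  obtain ⟨D, hD, hs⟩ : ∃ D : E g × E k → ℂ, DifferentiableOn ℂ D (ball 0 1 ×ˢ V) ∧
      ∀ v ∈ ball (0 : E g) 1 ×ˢ V, fderiv ℂ (fun s => ∑ j, φ (a v.1 s j)) v.2 ξ = D v := by
    refine ⟨_, SV.H85.differentiableOn_fderiv_apply hΩ hG (0, ξ), fun v hv => ?_⟩
    have h1 := ((hG.differentiableAt (hΩ.mem_nhds hv)).hasFDerivAt.comp v.2
      (hasFDerivAt_prodMk_right (𝕜 := ℂ) v.1 v.2)).fderiv
    exact congrArg (fun T : E k →L[ℂ] ℂ => T ξ) h1
  have hYV : MeasurableSet (ball y (1 - ‖y‖) ×ˢ V) := (isOpen_ball.prod hV).measurableSet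
  have hsub : ball y (1 - ‖y‖) ×ˢ V ⊆ ball 0 1 ×ˢ V := prod_mono hY le_rfl
  have hF : ContinuousOn (fun w => ENNReal.ofReal
      (θ (ψ w) * (nsq ((jx ψ w).adjugate *ᵥ ξ) / jq ψ w))) (Rg U ψ) := fun w hw => by
    obtain ⟨-, -, -, -, -, j1, j2, -⟩ := hJAC g k ψ w (hψ w hw.1)
    have j3 : Continuous fun A : Mat k => nsq (A.adjugate *ᵥ ξ) :=
      EN1.cnsq.comp (continuous_id.matrix_adjugate.matrix_mulVec continuous_const)
    exact (ENNReal.continuous_ofReal.continuousAt.comp ((θc.continuousAt.comp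
      (hψ w hw.1).self_of_nhds.continuousAt).mul ((j3.continuousAt.comp j1).div j2
        (normSq_pos.2 hw.2.2).ne'))).continuousWithinAt
  obtain ⟨a1, a2, a3⟩ := hARS g k r U ψ V a hU hψ h _ V isOpen_ball hY hV le_rfl _ hF
  have k1 : ∀ s ∈ V, ENNReal.ofReal (θ s * normSq (fderiv ℂ (fun s => ∑ j, φ (a y s j)) s ξ)) *
      volume (ball y (1 - ‖y‖)) ≤
      ∫⁻ w in ball y (1 - ‖y‖), ENNReal.ofReal (θ s * ‖D (w, s)‖ ^ 2) := fun s hsV => by
    have h1 := SV.stSUB (E g) volume (fun w => D (w, s)) y _ 2 hδ two_pos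
      (hD.comp (differentiable_id.prodMk (differentiable_const s)).differentiableOn
        fun w hw => ⟨hY hw, hsV⟩)
    simp only [Real.rpow_two] at h1
    rw [hs (y, s) ⟨mem_ball_zero_iff.2 hy, hsV⟩, Complex.normSq_eq_norm_sq]
    simp only [ENNReal.ofReal_mul (θ0 s)]
    rw [lintegral_const_mul' _ _ ENNReal.ofReal_ne_top, mul_assoc]
    exact mul_le_mul' le_rfl h1
  have k2 : AEMeasurable (fun v : E g × E k => ENNReal.ofReal (θ v.2 * ‖D v‖ ^ 2))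
      ((volume.prod volume).restrict (ball y (1 - ‖y‖) ×ˢ V)) :=
    (((θc.comp continuous_snd).continuousOn.mul
      ((hD.continuousOn.mono hsub).norm.pow 2)).aemeasurable hYV).ennreal_ofReal
  have k3 : ∀ᵐ v : E g × E k ∂volume.restrict (ball y (1 - ‖y‖) ×ˢ V),
      ENNReal.ofReal (θ v.2 * ‖D v‖ ^ 2) ≤ ENNReal.ofReal (r * B ^ 2) * ∑ j, ENNReal.ofReal
        (θ (ψ (a v.1 v.2 j)) * (nsq ((jx ψ (a v.1 v.2 j)).adjugate *ᵥ ξ) / jq ψ (a v.1 v.2 j))) := by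
    rw [ae_restrict_iff' hYV]
    filter_upwards [h.gen] with v hv hv'
    obtain ⟨-, g2, g3⟩ := hv (hsub hv')
    have g4 : ∀ j, a v.1 v.2 j ∈ fb U ψ (ap v.1 v.2) := fun j => g2 ▸ mem_range_self j
    have g5 : ∀ j, ψ (a v.1 v.2 j) = v.2 := fun j => by
      have := congrArg pX (g4 j).2
      rwa [gp, (s1 _ _).2, (s1 _ _).2] at this
    have g6 : ‖D v‖ ^ 2 ≤ r * ∑ j, B ^ 2 * nsq ((jx ψ (a v.1 v.2 j))⁻¹ *ᵥ ξ) := by
      rw [← hs v (hsub hv'), g3 φ hφ ξ]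
      refine EN1.cs _ _ fun j => ?_
      have b1 := hB _ (mem_closedBall_zero_iff.2 (g4 j).1.2.1.le)
      have b2 : ‖ap (0 : E g) ((jx ψ (a v.1 v.2 j))⁻¹ *ᵥ ξ)‖ = ‖(jx ψ (a v.1 v.2 j))⁻¹ *ᵥ ξ‖ := by
        rw [(s2 _).2.1, (s1 _ _).1, (s1 _ _).2, norm_zero, max_eq_right (norm_nonneg _)]
      have b3 := (fderiv ℂ φ (a v.1 v.2 j)).le_of_opNorm_le b1
        (ap (0 : E g) ((jx ψ (a v.1 v.2 j))⁻¹ *ᵥ ξ))
      rw [b2] at b3
      refine (pow_le_pow_left₀ (norm_nonneg _) b3 2).trans ?_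
      rw [mul_pow]
      exact mul_le_mul_of_nonneg_left (EN1.le_nsq _) (sq_nonneg B)
    simp only [g5, jq, ← EN1.inv_adj]
    rw [← ENNReal.ofReal_sum_of_nonneg fun j _ => mul_nonneg (θ0 _) (EN1.nsq0 _),
      ← ENNReal.ofReal_mul (by positivity), ← Finset.mul_sum]
    refine ENNReal.ofReal_le_ofReal ?_
    rw [← Finset.mul_sum] at g6
    exact (mul_le_mul_of_nonneg_left g6 (θ0 _)).trans_eq (by ring)
  rw [ENNReal.ofReal_div_of_pos hmp, ENNReal.ofReal_toReal hm1, ← ENNReal.mul_div_right_comm,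
    ENNReal.le_div_iff_mul_le (Or.inl hm0) (Or.inl hm1), ← lintegral_mul_const' _ _ hm1]
  refine (setLIntegral_mono' hV.measurableSet k1).trans ?_
  rw [← setLIntegral_prod_symm _ k2, ← Measure.volume_eq_prod]
  refine (lintegral_mono_ae k3).trans ?_
  rw [lintegral_const_mul' _ _ ENNReal.ofReal_ne_top, a3]
  refine mul_le_mul' le_rfl (le_trans (le_of_eq ?_)
    (lintegral_mono_set (s := {w | w ∈ Rg U ψ ∧ pY w ∈ ball y (1 - ‖y‖) ∧ ψ w ∈ V})
      fun w hw => ⟨hw.1.1, hw.1.2.1⟩))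
  refine setLIntegral_congr_fun a1.measurableSet fun w hw => ?_
  have j1 : 0 < jq ψ w := normSq_pos.2 hw.1.2.2
  rw [← ENNReal.ofReal_mul' j1.le, mul_assoc, div_mul_cancel₀ _ j1.ne']

end Pool.Agent.Lib.CY
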