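import Pool.Agent.Lib.CY.Blue
import Pool.Agent.Lib.RB9.B_MOL
import Pool.Agent.Lib.FI.B_POT

/-! From the weak bound to the smoothed bound. -/

open scoped Classical Topology ContDiff ComplexOrder Matrix ENNReal
open Set MeasureTheory Complex Metric Filter

noncomputable section

namespace Pool.Agent.Lib.CY

open Pool.Agent.Lib.SV (E nsq)
open Pool.Agent.Lib.HS32 Pool.Agent.Lib.FI Pool.Agent.Lib.RB9

namespace EN2

theorem mol90 (hITG : FI.St_ITG) (hBAS : FI.St_BAS) {n k : ℕ} {M : Mf n} [M.Cpt]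
    {H : M.Fam (Mat n)} {p : M.X → ℝ} {z : M.X → E k} {C c : ℝ} {r Ψ : E k → ℝ} {Ω : Set (E k)}
    {A : E k → Mat k} (F : Fb H p z C) (hR : Rad r Ψ) (hΩ : IsOpen Ω) (hA : ContinuousOn A Ω)
    (hH : ∀ y ∈ Ω, (A y).IsHermitian)
    (hw : ∀ ϑ : E k → ℝ, Tst ϑ → (∀ y, 0 ≤ ϑ y) → tsupport ϑ ⊆ Ω → ∀ ξ : E k,
      ∫ y, ϑ y * nq (A y) ξ ≤
        c * ∫ x in {x | 0 < p x}, ϑ (z x) * nq (hz H z x).adjugate ξ ∂M.mu H)
    (K : Set (E k)) (hK : IsCompact K) (hs : K ⊆ Ω) (η : ℝ) (hη : 0 < η) :
    ∀ᶠ e in 𝓝[>] (0 : ℝ), ∀ y ∈ K, (c • ft H p z r e y + η • (1 : Mat k) - A y).PosSemidef := by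
  obtain ⟨h1, -, -, h4, -⟩ := hBAS n k M H p z C F
  have hp : ∀ x, 0 < p x → (hz H z x).PosSemidef := fun x hx =>
    (Mf.AllOn.ch h4 x (by rw [Mf.ch_symm]; exact hx)).2.1
  obtain ⟨δ, d0, hd⟩ := MOL.near hΩ hA hK hs hη
  filter_upwards [Ioo_mem_nhdsGT d0] with e he y hy
  have t := CON.tst_sub (CON.tst_sc hR.tr he.1) y
  have t0 : ∀ w, 0 ≤ sc r e (y - w) := fun w => CON.sc_nn hR.r0 he.1 _
  have tz : ∀ w, e < ‖y - w‖ → sc r e (y - w) = 0 := fun w h =>
    CON.sc_zero (fun y a => (hR.sr y a).1) he.1 h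
  have ts : tsupport (fun w => sc r e (y - w)) ⊆ Ω := by
    have s1 : (Function.support fun w => sc r e (y - w)) ⊆ {w | ‖y - w‖ ≤ e} := fun w h =>
      not_lt.1 fun a => h (tz w a)
    exact (closure_minimal s1 (isClosed_le (by fun_prop) continuous_const)).trans fun w h =>
      (hd y hy w (lt_of_le_of_lt h he.2)).1
  have it : ∀ i j, Integrable (fun x => (sc r e (y - z x) : ℂ) * (hz H z x).adjugate i j)
      ((M.mu H).restrict {x | 0 < p x}) := fun i j => by
    have := (hITG n k M H p z C (fun _ => 1) (fun w => (sc r e (y - w) : ℂ)) F continuous_const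
      (continuous_ofReal.comp t.sm.continuous) (t.cs.comp_left (g := ((↑) : ℝ → ℂ)) rfl)).2 i j
    exact this.congr (Eventually.of_forall fun x => congrArg (· * _) (one_mul _))
  have hf : (ft H p z r e y).IsHermitian := by
    ext i j
    simp only [ft, Matrix.conjTranspose_apply, Matrix.of_apply]
    rw [star_def, ← integral_conj]
    refine setIntegral_congr_fun h1.measurableSet fun x hx => ?_
    have := (hp x hx).isHermitian.adjugate.apply i j
    simp only [map_mul, conj_ofReal]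
    rw [← this, star_def]
  have hh : (c • ft H p z r e y + η • (1 : Mat k) - A y).IsHermitian :=
    ((hf.smul (IsSelfAdjoint.all c)).add (Matrix.isHermitian_one.smul (IsSelfAdjoint.all η))).sub
      (hH y (hs hy))
  refine .of_dotProduct_mulVec_nonneg hh fun ξ =>
    Complex.le_def.2 ⟨?_, (hh.im_star_dotProduct_mulVec_self ξ).symm⟩
  change 0 ≤ nq _ ξ
  have a1 := hw _ t t0 ts ξ
  have a2 : nq (ft H p z r e y) ξ =
      ∫ x in {x | 0 < p x}, sc r e (y - z x) * nq (hz H z x).adjugate ξ ∂M.mu H := MOL.nq_int it ξ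
  have i0 : Integrable fun w => sc r e (y - w) := t.sm.continuous.integrable_of_hasCompactSupport t.cs
  have o : ∫ w, sc r e (y - w) = 1 := by
    rw [integral_sub_left_eq_self (sc r e), CON.int_sc r he.1, hR.one]
  have cq : Continuous fun B : Mat k => nq B ξ := by
    simp only [MOL.nq_sum]
    exact continuous_re.comp (continuous_finsetSum _ fun i _ => continuous_finsetSum _ fun j _ =>
      continuous_const.mul (continuous_id.matrix_elem i j))
  have i1 : Integrable fun w => sc r e (y - w) * nq (A w) ξ :=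
    ((t.sm.continuous.continuousOn.mul (cq.comp_continuousOn hA)).continuous_of_tsupport_subset hΩ
      (tsupport_mul_subset_left.trans ts)).integrable_of_hasCompactSupport t.cs.mul_right
  have a3 : ∫ w, sc r e (y - w) * (nq (A y) ξ - η * nsq ξ) ≤ ∫ w, sc r e (y - w) * nq (A w) ξ := by
    refine integral_mono (i0.mul_const _) i1 fun w => ?_
    by_cases b : e < ‖y - w‖
    · simp only [tz w b, zero_mul, le_refl]
    · refine mul_le_mul_of_nonneg_left ?_ (t0 w)
      have b1 := (hd y hy w (lt_of_le_of_lt (not_lt.1 b) he.2)).2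
      have b2 := (le_abs_self _).trans (BBD.nq_abs (A y - A w) ξ)
      have b3 := mul_le_mul b1 (MOL.sq_le ξ) (by positivity) hη.le
      rw [MOL.nq_sub] at b2
      linarith
  rw [integral_mul_const, o, one_mul] at a3
  rw [MOL.nq_lin, a2]
  linarith

theorem gram90 {k m : ℕ} {f : E k → E m} {y : E k} (h : DifferentiableAt ℂ f y) (ξ : E k) :
    nq ((jr f y)ᴴ * jr f y) ξ = ∑ i, normSq (fderiv ℂ (fun s => f s i) y ξ) := by
  have e : ∀ i, (jr f y *ᵥ ξ) i = fderiv ℂ (fun s => f s i) y ξ := fun i => by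
    rw [fderiv_apply h i]
    conv_rhs => rw [pi_eq_sum_univ' ξ]
    simp only [Matrix.mulVec, dotProduct, jr, Matrix.of_apply, map_sum, map_smul,
      ContinuousLinearMap.comp_apply, ContinuousLinearMap.proj_apply, smul_eq_mul, mul_comm]
  rw [nq, ← Matrix.mulVec_mulVec, Matrix.dotProduct_mulVec, ← Matrix.star_mulVec, dotProduct, re_sum]
  refine Finset.sum_congr rfl fun i _ => ?_
  rw [Pi.star_apply, e, star_def, ← normSq_eq_conj_mul_self, ofReal_re]

end EN2

open EN2 in
theorem cEN2 (hITG : FI.St_ITG) (hBAS : FI.St_BAS) (hCHR : FI.St_CHR) : St_EN2 := by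
  intro n k m M _ H p z C c r Ψ V f F hR hV hf hc hE
  have hd : ∀ y ∈ V, DifferentiableAt ℂ f y := fun y hy => hf.differentiableAt (hV.mem_nhds hy)
  have cj : ContinuousOn (jr f) V := continuousOn_pi.2 fun i => continuousOn_pi.2 fun j y hy =>
    ((hCHR k m f y (mem_of_superset (hV.mem_nhds hy) hd)).2.1 i
      j).self_of_nhds.continuousAt.continuousWithinAt
  refine mol90 hITG hBAS F hR hV ((continuous_id.matrix_conjTranspose.matrix_mul
    continuous_id).comp_continuousOn cj) (fun y _ => Matrix.isHermitian_conjTranspose_mul_self _)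
    fun ϑ t t0 ts ξ => ?_
  obtain ⟨h1, -, -, h4, -⟩ := hBAS n k M H p z C F
  have nn : ∀ᵐ x ∂(M.mu H).restrict {x | 0 < p x}, 0 ≤ ϑ (z x) * nq (hz H z x).adjugate ξ :=
    (ae_restrict_iff' h1.measurableSet).2 (Eventually.of_forall fun x hx => mul_nonneg (t0 _)
      (Complex.nonneg_iff.1 ((POT.adj_psd (Mf.AllOn.ch h4 x (by
        rw [Mf.ch_symm]; exact hx)).2.1).dotProduct_mulVec_nonneg ξ)).1)
  have it : IntegrableOn (fun x => ϑ (z x) * nq (hz H z x).adjugate ξ) {x | 0 < p x} (M.mu H) := by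
    have h := (hITG n k M H p z C (fun _ => 1) (fun w => (ϑ w : ℂ)) F continuous_const
      (continuous_ofReal.comp t.sm.continuous) (t.cs.comp_left (g := ((↑) : ℝ → ℂ)) rfl)).2
    refine (integrable_finsetSum Finset.univ fun i _ => integrable_finsetSum Finset.univ fun j _ =>
      (h i j).const_mul (star (ξ i) * ξ j)).re.congr (Eventually.of_forall fun x => ?_)
    have : (∑ i, ∑ j, star (ξ i) * ξ j * (1 * (ϑ (z x) : ℂ) * (hz H z x).adjugate i j)) =
        ϑ (z x) * ∑ i, ∑ j, star (ξ i) * ξ j * (hz H z x).adjugate i j := by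
      simp only [Finset.mul_sum]
      exact Finset.sum_congr rfl fun a _ => Finset.sum_congr rfl fun b _ => by ring
    exact (congrArg re this).trans ((re_ofReal_mul _ _).trans (congrArg _ (MOL.nq_sum _ _).symm))
  have ms : ∀ i, Measurable fun s => ϑ s * normSq (fderiv ℂ (fun s => f s i) s ξ) := fun i =>
    t.sm.continuous.measurable.mul
      (continuous_normSq.measurable.comp (measurable_fderiv_apply_const ℂ _ ξ))
  have n0 : ∀ i s, 0 ≤ ϑ s * normSq (fderiv ℂ (fun s => f s i) s ξ) := fun i s =>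
    mul_nonneg (t0 s) (normSq_nonneg _)
  rw [← setIntegral_eq_integral_of_forall_compl_eq_zero (s := V) fun y hy => by
      rw [image_eq_zero_of_notMem_tsupport fun a => hy (ts a), zero_mul],
    setIntegral_congr_fun (g := fun s => ∑ i, ϑ s * normSq (fderiv ℂ (fun s => f s i) s ξ))
      hV.measurableSet fun y hy => by beta_reduce; rw [gram90 (hd y hy), Finset.mul_sum],
    integral_eq_lintegral_of_nonneg_ae
      (Eventually.of_forall fun s => Finset.sum_nonneg fun i _ => n0 i s)
      (Finset.measurable_sum _ fun i _ => ms i).aestronglyMeasurable]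
  refine ENNReal.toReal_le_of_le_ofReal (mul_nonneg (by positivity) (integral_nonneg_of_ae nn)) ?_
  simp only [ENNReal.ofReal_sum_of_nonneg fun i _ => n0 i _]
  rw [lintegral_finsetSum _ fun i _ => (ms i).ennreal_ofReal, ENNReal.ofReal_mul (by positivity),
    ofReal_integral_eq_lintegral_ofReal it nn, ENNReal.ofReal_mul (Nat.cast_nonneg m),
    ENNReal.ofReal_natCast, mul_assoc]
  refine (Finset.sum_le_sum fun i _ => hE i ϑ t.sm.continuous t0 ξ).trans_eq ?_
  rw [Finset.sum_const, Finset.card_univ, Fintype.card_fin, nsmul_eq_mul]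

end Pool.Agent.Lib.CY
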