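import Pool.Agent.Lib.CY.Blue

/-! Project cy, row ENM: the energy of a trace. -/

open scoped Classical Topology ContDiff ComplexOrder Matrix ENNReal
open Set MeasureTheory Complex Metric Filter

noncomputable section

namespace Pool.Agent.Lib.CY

open Pool.Agent.Lib.SV (E nsq)
open Pool.Agent.Lib.HS32 Pool.Agent.Lib.FI

theorem cENM (hEN1 : St_EN1) (hCMP : St_CMP) : St_ENM := by
  intro g k r M _ H p z C e V a φ y hF hS hV ha hφ hy
  have tg : ∀ w : E (g + k), ‖w‖ < 2 → w ∈ e.target := fun w h =>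
    hS.sub (mem_closedBall_zero_iff.2 h.le)
  have oU : IsOpen (Uc p e) := isOpen_iff_mem_nhds.2 fun w hw =>
    (continuous_norm.continuousAt.eventually_lt_const hw.1).and
      ((hF.sp e hS.mem w (tg w hw.1)).continuousAt.eventually_const_lt hw.2)
  obtain ⟨c₁, c₁0, h1⟩ := hEN1 g k r _ _ V a φ y oU
    (fun w hw => hF.hol e hS.mem w (tg w hw.1) hw.2) hV ha hφ hy
  obtain ⟨c, c1, h2, h3⟩ := hCMP g k M H p z C e (closedBall 0 1) hF hS.mem
    (isCompact_closedBall _ _) ((closedBall_subset_closedBall one_le_two).trans hS.sub)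
  have c0 : 0 ≤ c := zero_le_one.trans c1
  have mB : MeasurableSet {w | w ∈ Uc p e ∧ ‖w‖ < 1} :=
    (oU.inter (isOpen_lt continuous_norm continuous_const)).measurableSet
  refine ⟨c₁ * (c * c), by positivity, fun θ hθ θ0 ξ => (h1 θ hθ θ0 ξ).trans ?_⟩
  rw [ENNReal.ofReal_mul c₁0, ENNReal.ofReal_mul c0, mul_assoc, mul_assoc]
  refine mul_le_mul_right (le_trans ?_ (mul_le_mul_right (le_trans
    ((h3 _ mB fun w hw => mem_closedBall_zero_iff.2 hw.2.le).2 _).2 (mul_le_mul_right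
      (lintegral_mono_set ?_) _)) _)) _
  · rw [← lintegral_const_mul' _ _ ENNReal.ofReal_ne_top]
    refine setLIntegral_mono' mB fun w hw => ?_
    rw [← ENNReal.ofReal_mul c0, mul_left_comm]
    exact ENNReal.ofReal_le_ofReal (mul_le_mul_of_nonneg_left
      ((h2 w (mem_closedBall_zero_iff.2 hw.2.le) hw.1.2).2.2.2.2.2 ξ) (θ0 _))
  · rintro _ ⟨w, hw, rfl⟩
    exact hw.1.2

end Pool.Agent.Lib.CY
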