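import Pool.Agent.Lib.CY.Blue

/-! Project cy, row EUC: a scale read in its chart. -/

open scoped Classical Topology ENNReal
open Set MeasureTheory Complex Metric Filter

noncomputable section

namespace Pool.Agent.Lib.CY

open Pool.Agent.Lib.SV (E nsq)
open Pool.Agent.Lib.HS32 Pool.Agent.Lib.FI

namespace EUC

theorem shell_cpt (g k : ℕ) : IsCompact (shell g k) := by
  have hc : Continuous (pX : E (g + k) → E k) := continuous_pi fun j => continuous_apply _
  refine (isCompact_closedBall (0 : E (g + k)) 1).of_isClosed_subset ?_ fun w hw => ?_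
  · exact (isClosed_le continuous_norm continuous_const).inter
      (isClosed_eq hc.norm continuous_const)
  · exact mem_closedBall_zero_iff.2 hw.1

theorem uc_eq {n : ℕ} {M : Mf n} (p : M.X → ℝ) (e : M.Ch) :
    Uc p e = {w | w ∈ ball (0 : E n) 2 ∧ e.symm w ∈ {x | 0 < p x}} := by
  ext w
  simp only [Uc, mem_setOf_eq, mem_ball_zero_iff]

end EUC

theorem cEUC (hGHB : St_GHB) (hCMP : St_CMP) (hWHO : St_WHO) (hBAS : FI.St_BAS) : St_EUC := by
  intro g k M _ H p z C V e hF hV hS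
  obtain ⟨hO, hz, -⟩ := hBAS _ k M H p z C hF
  obtain ⟨-, -, -, g4, -, -, g7, -⟩ := hGHB M.X (E k) {x | 0 < p x} z
  have hb : ball (0 : E (g + k)) 2 ⊆ e.target := ball_subset_closedBall.trans hS.sub
  have h1 : closedBall (0 : E (g + k)) 1 ⊆ e.target :=
    (closedBall_subset_closedBall one_le_two).trans hS.sub
  have hK : IsCompact (Ks e) := (EUC.shell_cpt g k).image_of_continuousOn
    (e.continuousOn_symm.mono fun w hw => h1 (mem_closedBall_zero_iff.2 hw.1))
  have hU : IsOpen (Uc p e) := by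
    rw [EUC.uc_eq]
    exact (e.continuousOn_symm.mono hb).isOpen_inter_preimage isOpen_ball hO
  have hUt : ∀ w ∈ Uc p e, w ∈ e.target := fun w hw => hb (mem_ball_zero_iff.2 hw.1)
  have hψ : ContinuousOn (z ∘ e.symm) (Uc p e) :=
    hz.comp (e.continuousOn_symm.mono hUt) fun w hw => hw.2
  obtain ⟨c, hc, hpt, hI⟩ :=
    hCMP g k M H p z C e (closedBall 0 1) hF hS.mem (isCompact_closedBall 0 1) h1
  have hc0 : 0 ≤ c := zero_le_one.trans hc
  refine ⟨hK, ⟨c * (c * V), hU, fun w hw => hF.hol e hS.mem w (hUt w hw) hw.2, g4 _ hK, hS.den,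
    mul_nonneg hc0 (mul_nonneg hc0 hV.1), fun S hSo => ?_,
    hWHO g k M H p z C e hF hS.mem hS.sub⟩, fun w hw s => ?_⟩
  · have hB : IsOpen {w | w ∈ Uc p e ∧ ‖w‖ < 1 ∧ (z ∘ e.symm) w ∈ S} := by
      have h2 : {w | w ∈ Uc p e ∧ ‖w‖ < 1 ∧ (z ∘ e.symm) w ∈ S} =
          (Uc p e ∩ (z ∘ e.symm) ⁻¹' S) ∩ {w | ‖w‖ < 1} :=
        Set.ext fun w => ⟨fun h => ⟨⟨h.1, h.2.2⟩, h.2.1⟩, fun h => ⟨h.1.1, h.2, h.1.2⟩⟩
      rw [h2]
      exact (hψ.isOpen_inter_preimage hU hSo).inter (isOpen_lt continuous_norm continuous_const)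
    obtain ⟨hm, hJ⟩ := hI _ hB.measurableSet fun w hw => mem_closedBall_zero_iff.2 hw.2.1.le
    have h3 := (hJ fun x => ENNReal.ofReal (dn H z x)).2
    have h4 := hV.2 (S.indicator 1) (measurable_one.indicator hSo.measurableSet)
    rw [lintegral_indicator_one hSo.measurableSet] at h4
    have h5 : ∫⁻ x in e.symm '' {w | w ∈ Uc p e ∧ ‖w‖ < 1 ∧ (z ∘ e.symm) w ∈ S},
        ENNReal.ofReal (dn H z x) ∂M.mu H ≤ ENNReal.ofReal V * volume S := by
      rw [← h4]
      refine le_trans (setLIntegral_mono' hm ?_) (lintegral_mono_set ?_)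
      · rintro _ ⟨w, hw, rfl⟩
        have h6 : z (e.symm w) ∈ S := hw.2.2
        rw [indicator_of_mem h6, Pi.one_apply, one_mul]
      · rintro _ ⟨w, hw, rfl⟩
        exact hw.1.2
    calc _ ≤ ∫⁻ w in {w | w ∈ Uc p e ∧ ‖w‖ < 1 ∧ (z ∘ e.symm) w ∈ S},
          ENNReal.ofReal c * ENNReal.ofReal (dn H z (e.symm w)) := by
          refine setLIntegral_mono' hB.measurableSet fun w hw => ?_
          obtain ⟨-, -, a3, -, a5, -⟩ := hpt w (mem_closedBall_zero_iff.2 hw.2.1.le) hw.1.2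
          rw [← ENNReal.ofReal_mul hc0]
          exact ENNReal.ofReal_le_ofReal (a5.trans a3)
      _ ≤ ENNReal.ofReal c * (ENNReal.ofReal c * (ENNReal.ofReal V * volume S)) := by
          rw [lintegral_const_mul' _ _ ENNReal.ofReal_ne_top]
          exact mul_le_mul_right (h3.trans (mul_le_mul_right h5 _)) _
      _ = _ := by
          rw [ENNReal.ofReal_mul hc0, ENNReal.ofReal_mul hc0, mul_assoc, mul_assoc]
  · rw [EUC.uc_eq]
    exact g7 _ e _ isOpen_ball hb w (mem_ball_zero_iff.2 hw) s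

end Pool.Agent.Lib.CY
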