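import Pool.Agent.Lib.CY.Blue

/-! Row GEN: the graphs that are transversal to a kernel are open and dense. -/

open scoped Classical Topology Matrix
open Set

noncomputable section

namespace Pool.Agent.Lib.CY

namespace GEN

lemma fin {k : ℕ} (B C : Matrix (Fin k) (Fin k) ℂ) (t0 : ℂ) (h : (B + t0 • C).det ≠ 0) :
    {t : ℂ | (B + t • C).det = 0}.Finite := by
  have ev : ∀ t : ℂ, (B.map Polynomial.C + (Polynomial.X : Polynomial ℂ) •
      C.map Polynomial.C).det.eval t = (B + t • C).det := by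
    intro t
    have := (Polynomial.evalRingHom t).map_det (B.map Polynomial.C +
      (Polynomial.X : Polynomial ℂ) • C.map Polynomial.C)
    rw [Polynomial.coe_evalRingHom] at this
    rw [this]
    refine congrArg Matrix.det (Matrix.ext fun i j => ?_)
    simp only [RingHom.mapMatrix_apply, Matrix.map_apply, Matrix.add_apply, Matrix.smul_apply,
      smul_eq_mul, Polynomial.coe_evalRingHom, Polynomial.eval_add, Polynomial.eval_mul,
      Polynomial.eval_C, Polynomial.eval_X]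
  refine (Polynomial.finite_setOfPred_isRoot (p := (B.map Polynomial.C +
    (Polynomial.X : Polynomial ℂ) • C.map Polynomial.C).det) fun e => h ?_).subset fun t ht => ?_
  · rw [← ev, e, Polynomial.eval_zero]
  · exact (ev t).trans ht

lemma ex {g k : ℕ} (X : Matrix (Fin k) (Fin k) ℂ) (Y : Matrix (Fin k) (Fin g) ℂ)
    (h : (Y * Yᴴ + X * Xᴴ).det ≠ 0) : ∃ A : Matrix (Fin g) (Fin k) ℂ, (X + Y * A).det ≠ 0 := by
  obtain ⟨S, hS⟩ : ∃ S, S = (Y * Yᴴ + X * Xᴴ)⁻¹ := ⟨_, rfl⟩
  have h1 : Y * (Yᴴ * S) + X * (Xᴴ * S) = 1 := by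
    rw [← Matrix.mul_assoc, ← Matrix.mul_assoc, ← Matrix.add_mul, hS]
    exact Matrix.mul_nonsing_inv _ (Ne.isUnit h)
  have f1 := fin 1 X 0 (by simp)
  have f2 := (fin 1 (Xᴴ * S) 0 (by simp)).image fun s => s⁻¹
  obtain ⟨e, he⟩ := ((f1.union f2).insert 0).exists_notMem
  simp only [mem_insert_iff, mem_union, mem_ofPred_eq, not_or] at he
  obtain ⟨e0, e1, e2⟩ := he
  have e3 : (1 + e⁻¹ • (Xᴴ * S)).det ≠ 0 := fun z => e2 ⟨e⁻¹, z, inv_inv e⟩
  refine ⟨e⁻¹ • (Yᴴ * S) * (1 + e⁻¹ • (Xᴴ * S))⁻¹, fun z => ?_⟩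
  have k1 : (X + Y * (e⁻¹ • (Yᴴ * S) * (1 + e⁻¹ • (Xᴴ * S))⁻¹)) * (1 + e⁻¹ • (Xᴴ * S)) =
      e⁻¹ • (1 + e • X) := by
    rw [Matrix.add_mul, Matrix.mul_assoc, Matrix.mul_assoc,
      Matrix.nonsing_inv_mul _ (Ne.isUnit e3), Matrix.mul_one, Matrix.mul_add, Matrix.mul_one,
      Matrix.mul_smul, Matrix.mul_smul, add_assoc, ← smul_add, add_comm (X * _), h1, smul_add,
      smul_smul, inv_mul_cancel₀ e0, one_smul, add_comm]
  have k2 := congrArg Matrix.det k1
  rw [Matrix.det_mul, z, zero_mul, Matrix.det_smul] at k2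
  exact mul_ne_zero (pow_ne_zero _ (inv_ne_zero e0)) e1 k2.symm

end GEN

theorem cGEN (hSPL : St_SPL) : St_GEN := by
  intro g k P hP
  rw [((hSPL g k).2.2.2.1 P).2] at hP
  constructor
  · refine isOpen_ne_fun (Continuous.matrix_det (continuous_const.add
      (Continuous.matrix_mul continuous_const ?_))) continuous_const
    exact continuous_id
  · obtain ⟨A0, h0⟩ := GEN.ex _ _ hP
    intro A
    have e : ∀ t : ℂ, cX P + cY P * Matrix.of (A + t • (Matrix.of.symm A0 - A)) =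
        (cX P + cY P * Matrix.of A) + t • (cY P * (A0 - Matrix.of A)) := by
      intro t
      have : Matrix.of (A + t • (Matrix.of.symm A0 - A)) = Matrix.of A + t • (A0 - Matrix.of A) :=
        rfl
      rw [this, Matrix.mul_add, Matrix.mul_smul, add_assoc]
    have f := GEN.fin (cX P + cY P * Matrix.of A) (cY P * (A0 - Matrix.of A)) 1 (by
      rwa [one_smul, add_assoc, ← Matrix.mul_add, add_sub_cancel])
    have d : (0 : ℂ) ∈ closure {t : ℂ | (cX P + cY P * Matrix.of A +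
        t • (cY P * (A0 - Matrix.of A))).det = 0}ᶜ := f.countable.dense_compl ℂ 0
    have := map_mem_closure (f := fun t : ℂ => A + t • (Matrix.of.symm A0 - A))
      (t := {A : Mx g k | (cX P + cY P * Matrix.of A).det ≠ 0}) (by fun_prop) d
      fun t ht => by rw [mem_ofPred_eq, e]; exact ht
    simpa using this

end Pool.Agent.Lib.CY
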