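import Pool.Agent.Lib.CY.Blue

/-! Project cy: the closure of the graph. -/

open scoped Topology
open Set Filter

namespace Pool.Agent.Lib.CY

namespace GHB

variable {X Y : Type} [TopologicalSpace X] [TopologicalSpace Y] {O : Set X} {z : X → Y}

theorem iff {x : X} {y : Y} :
    x ∈ Gh O z y ↔ ∀ N ∈ 𝓝 x, ∀ W ∈ 𝓝 y, ∃ x' ∈ N, x' ∈ O ∧ z x' ∈ W := by
  rw [Gh, mem_setOf_eq, mem_closure_iff_nhds]
  refine ⟨fun h N hN W hW => ?_, fun h T hT => ?_⟩
  · obtain ⟨_, h1, x', h2, rfl⟩ := h _ (prod_mem_nhds hN hW)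
    exact ⟨x', h1.1, h2, h1.2⟩
  · obtain ⟨N, hN, W, hW, h1⟩ := mem_nhds_prod_iff.1 hT
    obtain ⟨x', h2, h3, h4⟩ := h N hN W hW
    exact ⟨_, h1 ⟨h2, h4⟩, x', h3, rfl⟩

theorem out {x : X} {y : Y} (h : x ∉ Gh O z y) : ∀ᶠ q : X × Y in 𝓝 (x, y), q.1 ∉ Gh O z q.2 :=
  isClosed_closure.isOpen_compl.mem_nhds h

end GHB

theorem cGHB : St_GHB := by
  intro X Y _ _ O z
  refine ⟨fun x y => GHB.iff, fun x hx => subset_closure ⟨x, hx, rfl⟩,
    fun _ hO hz x hx y h => ?_, fun K hK => ?_, fun L hL => ?_,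
    fun ι F x y x₀ y₀ _ h hx hy => isClosed_closure.mem_of_tendsto (hx.prodMk_nhds hy) h,
    fun X' _ e B hB hs w hw y => ?_, fun W => ⟨?_, fun _ N hN h => ?_, fun x x₀ h hx N hN => ?_⟩⟩
  · refine eq_of_nhds_neBot ⟨fun k => ?_⟩
    obtain ⟨U, hU, V, hV, d⟩ := Filter.disjoint_iff.1 (disjoint_iff.2 k)
    obtain ⟨x', h1, -, h2⟩ := GHB.iff.1 h _ ((hz.continuousAt (hO.mem_nhds hx)) hU) V hV
    exact d.notMem_of_mem_left h1 h2
  · refine isOpen_iff_eventually.2 fun y hy => ?_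
    refine (hK.eventually_forall_of_forall_eventually (P := fun y x => x ∉ Gh O z y)
      fun x hx => ?_).mono fun y' h => disjoint_right.2 h
    exact (continuous_swap.tendsto (y, x)).eventually (GHB.out (disjoint_right.1 hy hx))
  · refine isOpen_compl_iff.1 (isOpen_iff_eventually.2 fun x hx => ?_)
    refine (hL.eventually_forall_of_forall_eventually (P := fun x y => x ∉ Gh O z y)
      fun y hy => GHB.out fun k => hx ⟨y, hy, k⟩).mono fun x' h k => ?_
    obtain ⟨y, h1, h2⟩ := k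
    exact h y h1 h2
  · rw [GHB.iff, GHB.iff]
    refine ⟨fun h N hN W hW => ?_, fun h N hN W hW => ?_⟩
    · obtain ⟨w', h1, h2, h3⟩ := h _ (e.continuousAt_symm (hs hw) hN) W hW
      exact ⟨_, h1, h2.2, h3⟩
    · have hx := e.map_target (hs hw)
      have c : Tendsto e (𝓝 (e.symm w)) (𝓝 w) := by
        have := e.continuousAt hx
        rwa [ContinuousAt, e.right_inv (hs hw)] at this
      obtain ⟨x', ⟨h1, h2⟩, h3, h4⟩ := h _
        (inter_mem (c (inter_mem hN (hB.mem_nhds hw))) (e.open_source.mem_nhds hx)) W hW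
      refine ⟨e x', h1.1, ⟨h1.2, ?_⟩, ?_⟩
      · rwa [e.left_inv h2]
      · rwa [Function.comp, e.left_inv h2]
  · refine isClosed_of_closure_subset fun x hx N hN => ?_
    obtain ⟨x', h1, h2⟩ := mem_closure_iff_nhds.1 hx _ (interior_mem_nhds.2 hN)
    exact h2 N (mem_interior_iff_mem_nhds.1 h1)
  · have : ∀ᶠ y in W, Disjoint (Gh O z y) Nᶜ := by
      refine hN.isClosed_compl.isCompact.induction_on
        (p := fun K => ∀ᶠ y in W, Disjoint (Gh O z y) K) (by simp)
        (fun _ _ k l => l.mono fun _ d => d.mono_right k)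
        (fun _ _ k l => (k.and l).mono fun _ d => disjoint_union_right.2 d) fun x hx => ?_
      have : x ∉ Lm O z W := fun k => hx (h k)
      simp only [Lm, mem_setOf_eq, not_forall] at this
      obtain ⟨T, hT, k⟩ := this
      exact ⟨T, mem_nhdsWithin_of_mem_nhds hT, (Ultrafilter.eventually_not.2 k).mono fun y l =>
        disjoint_iff_inter_eq_empty.2 (not_nonempty_iff_eq_empty.1 l)⟩
    exact this.mono fun y d => disjoint_compl_right_iff_subset.1 d
  · exact (h.and (hx hN)).mono fun y k => ⟨x y, k⟩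

end Pool.Agent.Lib.CY
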