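import Pool.Agent.Lib.CY.Blue

/-! Project cy, row HA0: few separated points give a small dimension. -/

open scoped Classical Topology ENNReal NNReal
open Set MeasureTheory Metric Filter

noncomputable section

namespace Pool.Agent.Lib.CY

open Pool.Agent.Lib.SV (E)

namespace HA0

theorem net {n d : ℕ} {A : Set (E n)} {c ρ : ℝ} (h0 : 0 < ρ)
    (h : ∀ F : Finset (E n), (∀ a ∈ F, a ∈ A) →
      (∀ a ∈ F, ∀ b ∈ F, a ≠ b → ρ ≤ ‖a - b‖) → F.card * ρ ^ d ≤ c) :
    ∃ F : Finset (E n), F.card * ρ ^ d ≤ c ∧ A ⊆ ⋃ a : F, closedBall (a : E n) ρ := by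
  obtain ⟨N, hN⟩ := exists_nat_ge (c / ρ ^ d)
  have b : ∀ F : Finset (E n), (∀ a ∈ F, a ∈ A) ∧ (∀ a ∈ F, ∀ b ∈ F, a ≠ b → ρ ≤ ‖a - b‖) →
      F.card < N + 1 := fun F k => Nat.lt_succ_of_le (by
    exact_mod_cast ((le_div_iff₀ (pow_pos h0 d)).2 (h F k.1 k.2)).trans hN)
  obtain ⟨F, ⟨h1, h2⟩, h3⟩ := exists_minimalFor_of_wellFoundedLT
    (fun F : Finset (E n) => (∀ a ∈ F, a ∈ A) ∧ ∀ a ∈ F, ∀ b ∈ F, a ≠ b → ρ ≤ ‖a - b‖)
    (fun F => N + 1 - F.card) ⟨∅, by simp⟩
  refine ⟨F, h F h1 h2, fun x hx => ?_⟩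
  by_contra k
  simp only [mem_iUnion, not_exists, mem_closedBall, not_le, Subtype.forall, dist_eq_norm] at k
  have hxF : x ∉ F := fun j => by simpa [h0.not_gt] using k x j
  have := @h3 (insert x F) ⟨by simpa [hx] using h1, fun a ha b hb e => ?_⟩
  · have k' := b F ⟨h1, h2⟩
    simp only [Finset.card_insert_of_notMem hxF] at this
    omega
  rcases Finset.mem_insert.1 ha with ea | ha <;> rcases Finset.mem_insert.1 hb with eb | hb
  · exact (e (ea.trans eb.symm)).elim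
  · exact ea ▸ (k b hb).le
  · rw [eb, norm_sub_rev]
    exact (k a ha).le
  · exact h2 a ha b hb e

end HA0

theorem cHA0 : St_HA0 := by
  intro n d A c h
  borelize (E n)
  have p : ∀ j : ℕ, (0 : ℝ) < 1 / (j + 1) := fun j => Nat.one_div_pos_of_nat
  choose F h1 h2 using fun j : ℕ => HA0.net (p j) (h _ ⟨p j, by
    rw [div_le_one (by positivity)]
    linarith [j.cast_nonneg (α := ℝ)]⟩)
  have hd : ∀ (j : ℕ) (a : E n), ediam (closedBall a (1 / (j + 1) : ℝ)) ≤
      ENNReal.ofReal (2 * (1 / (j + 1))) := fun j a =>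
    ediam_le_of_forall_dist_le fun x hx y hy => by
      linarith [dist_triangle_right x y a, mem_closedBall.1 hx, mem_closedBall.1 hy]
  have k := Measure.hausdorffMeasure_le_liminf_sum (ι := fun j => F j) (d : ℝ) A
    (fun j : ℕ => ENNReal.ofReal (2 * (1 / (j + 1)))) (l := atTop)
    (by simpa using ENNReal.tendsto_ofReal
          (tendsto_one_div_add_atTop_nhds_zero_nat (𝕜 := ℝ).const_mul 2))
    (fun j a => closedBall (a : E n) (1 / (j + 1))) (Eventually.of_forall fun j a => hd j a)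
    (Eventually.of_forall h2)
  refine dimH_le_of_hausdorffMeasure_ne_top (d := (d : ℝ≥0)) (ne_top_of_le_ne_top
    (ENNReal.ofReal_ne_top (r := 2 ^ d * c)) (k.trans (liminf_le_of_frequently_le'
      (Frequently.of_forall fun j => ?_))))
  refine (Finset.sum_le_card_nsmul _ _ (ENNReal.ofReal ((2 * (1 / (j + 1))) ^ d))
    fun a _ => ?_).trans ?_
  · rw [ENNReal.rpow_natCast, ENNReal.ofReal_pow (mul_pos two_pos (p j)).le]
    exact pow_le_pow_left' (hd j a) d
  · rw [Finset.card_univ, Fintype.card_coe, nsmul_eq_mul, ← ENNReal.ofReal_natCast,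
      ← ENNReal.ofReal_mul (Nat.cast_nonneg _), mul_pow, mul_left_comm]
    exact ENNReal.ofReal_le_ofReal (mul_le_mul_of_nonneg_left (h1 j) (by positivity))

end Pool.Agent.Lib.CY
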