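import Pool.Agent.Lib.CY.Blue

/-! Project cy, row HAU: the limit of good fibres is small. -/

open scoped Classical Topology ContDiff ComplexOrder Matrix ENNReal
open Set MeasureTheory Complex Metric Filter

noncomputable section

namespace Pool.Agent.Lib.CY

open Pool.Agent.Lib.SV (E nsq)
open Pool.Agent.Lib.HS32 Pool.Agent.Lib.FI

theorem HAU.sum_le {ι : Type} (F : Finset ι) {t : ι → ℝ} (h1 : ∀ a ∈ F, t a ≤ 1)
    (h2 : ∀ a ∈ F, ∀ b ∈ F, a ≠ b → t a = 0 ∨ t b = 0) : ∑ a ∈ F, t a ≤ 1 := by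
  by_cases h : ∃ a ∈ F, t a ≠ 0
  · obtain ⟨a, ha, h0⟩ := h
    rw [Finset.sum_eq_single_of_mem a ha fun b hb hn => (h2 a ha b hb hn.symm).resolve_left h0]
    exact h1 a ha
  · push Not at h
    rw [Finset.sum_eq_zero h]
    exact zero_le_one

theorem cHAU (hLEL : St_LEL) (hHA0 : St_HA0) (hSMO : FI.St_SMO) : St_HAU := by
  intro g k M _ H p z C V r Ψ W hy hW e he h4
  obtain ⟨κ, k0, hκ⟩ := hLEL g k M H p z C V r Ψ e hy he h4
  refine hHA0 (g + k) (2 * g) _ (V / κ * 16 ^ (2 * g)) fun ρ hρ F hA hs => ?_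
  have r0 := hρ.1
  have r1 := hρ.2
  have sub : ∀ a ∈ F, ∀ t ≤ ρ, closedBall a t ⊆ e.target := fun a ha t ht =>
    (closedBall_subset_closedBall' (by
      rw [dist_zero_right]
      linarith [(hA a ha).1])).trans h4
  have op : ∀ a ∈ F, ∀ t ≤ ρ, IsOpen (e.symm '' ball a t) := fun a ha t ht =>
    e.isOpen_image_symm_of_subset_target isOpen_ball (ball_subset_closedBall.trans (sub a ha t ht))
  have bump : ∀ a ∈ F, ∃ χ : M.X → ℝ, M.Sm χ ∧ (∀ x, 0 ≤ χ x ∧ χ x ≤ 1) ∧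
      (∀ᶠ x in 𝓝ˢ (e.symm '' closedBall a (ρ / 4)), χ x = 1) ∧ tsupport χ ⊆ e.symm '' ball a (ρ / 2) :=
    fun a ha => (mCOV _ M).2.2.2.2.2 _ _ ((isCompact_closedBall a _).image_of_continuousOn
      (e.continuousOn_symm.mono (sub a ha _ (by linarith)))).isClosed (op a ha _ (by linarith))
      (image_mono (closedBall_subset_ball (by linarith)))
  choose! χ c1 c2 c3 c4 using bump
  obtain ⟨y, y1, y2⟩ := (hW.and ((F.eventually_all).2 fun a ha => (hA a ha).2 _
    ((op a ha (ρ / 8) (by linarith)).mem_nhds ⟨a, mem_ball_self (by linarith), rfl⟩))).exists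
  have low : ∀ a ∈ F, ∀ᶠ b in nb y, κ * (ρ / 16) ^ (2 * g) ≤ fi H p z r (χ a) b.1 b.2 := fun a ha => by
    obtain ⟨_, hx, a', h1, rfl⟩ := y2 a ha
    rw [mem_ball, dist_eq_norm] at h1
    refine hκ a' (ρ / 16) y (χ a) ?_ (by linarith) (by linarith) y1 hx (c1 a ha) (fun x => (c2 a ha x).1)
      fun w hw => (((c3 a ha).self_of_nhdsSet _ ⟨w, closedBall_subset_closedBall' ?_ hw, rfl⟩)).ge
    · linarith [norm_sub_norm_le a' a, (hA a ha).1]
    · rw [dist_eq_norm]
      linarith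
  have : (nb y).NeBot := inferInstanceAs (𝓝[>] (0 : ℝ) ×ˢ 𝓝 y).NeBot
  have pos : ∀ᶠ b in nb y, 0 < b.1 := tendsto_fst.eventually (self_mem_nhdsWithin (s := Ioi (0 : ℝ)))
  obtain ⟨b, b0, b1⟩ := (pos.and ((F.eventually_all).2 low)).exists
  obtain ⟨s1, s2⟩ := (hSMO _ k M H p z C V r Ψ hy.fb hy.vol hy.rad).1 b.1 b.2 b0
  have lin : ∀ G : Finset (E (g + k)), G ⊆ F → Continuous (fun x => ∑ a ∈ G, χ a x) ∧
      fi H p z r (fun x => ∑ a ∈ G, χ a x) b.1 b.2 = ∑ a ∈ G, fi H p z r (χ a) b.1 b.2 := fun G hG => by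
    refine ⟨continuous_finsetSum _ fun a ha => (c1 a (hG ha)).continuous, ?_⟩
    induction G using Finset.induction_on with
    | empty => simp [fi]
    | insert a G ha ih =>
      have h1 := Finset.insert_subset_iff.1 hG
      have := (s2 _ _ (c1 a h1.1).continuous
        (continuous_finsetSum G fun a ha => (c1 a (h1.2 ha)).continuous)).1 1
      simp only [one_mul] at this
      simp only [Finset.sum_insert ha]
      rw [this, ih h1.2]
  have le1 : ∀ x, ∑ a ∈ F, χ a x ≤ 1 := fun x => HAU.sum_le F (fun a ha => (c2 a ha x).2) fun a ha a' ha' hn => by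
    by_contra! c
    obtain ⟨u, u1, u2⟩ := c4 a ha (subset_tsupport _ c.1)
    obtain ⟨v, v1, v2⟩ := c4 a' ha' (subset_tsupport _ c.2)
    obtain rfl : u = v := e.symm.injOn (sub a ha _ (by linarith) (ball_subset_closedBall u1))
      (sub a' ha' _ (by linarith) (ball_subset_closedBall v1)) (u2.trans v2.symm)
    have := hs a ha a' ha' hn
    rw [← dist_eq_norm] at this
    linarith [dist_triangle_left a a' u, mem_ball.1 u1, mem_ball.1 v1]
  have tot : F.card * (κ * (ρ / 16) ^ (2 * g)) ≤ V := by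
    rw [← s1, ← nsmul_eq_mul]
    exact ((Finset.card_nsmul_le_sum F _ _ b1).trans (lin F subset_rfl).2.ge).trans
      ((s2 _ _ (lin F subset_rfl).1 continuous_const).2 le1)
  rw [div_pow] at tot
  rw [div_mul_eq_mul_div, le_div_iff₀ k0, ← div_le_iff₀ (by positivity)]
  exact le_trans (le_of_eq (by ring)) tot

end Pool.Agent.Lib.CY
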