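import Pool.Agent.Lib.CY.Blue

/-! Project cy, row ITP: entire functions separate finite families. -/

open scoped Classical
open Set

noncomputable section

namespace Pool.Agent.Lib.CY

open Pool.Agent.Lib.SV (E)

namespace ITP

variable {n r : ℕ}

theorem sep (T : Finset (E n)) (t : E n) (ht : t ∉ T) :
    ∃ ψ : E n → ℂ, Differentiable ℂ ψ ∧ ψ t = 1 ∧ ∀ u ∈ T, ψ u = 0 := by
  induction T using Finset.induction_on with
  | empty => exact ⟨fun _ => 1, differentiable_const _, rfl, fun _ h => absurd h (by simp)⟩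
  | insert u T hu ih =>
    rw [Finset.mem_insert, not_or] at ht
    obtain ⟨ψ, d, h1, h0⟩ := ih ht.2
    obtain ⟨i, hi⟩ := Function.ne_iff.1 ht.1
    refine ⟨fun w => ψ w * ((w i - u i) / (t i - u i)), by fun_prop, ?_, fun v hv => ?_⟩ <;>
      beta_reduce
    · rw [h1, one_mul, div_self (sub_ne_zero.2 hi)]
    · rcases Finset.mem_insert.1 hv with rfl | hv
      · rw [sub_self, zero_div, mul_zero]
      · rw [h0 v hv, zero_mul]

theorem ent (T : Finset (E n)) (F : E n → ℂ) :
    ∃ φ : E n → ℂ, Differentiable ℂ φ ∧ ∀ t ∈ T, φ t = F t := by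
  induction T using Finset.induction_on with
  | empty => exact ⟨fun _ => 0, differentiable_const _, fun _ h => absurd h (by simp)⟩
  | insert t T ht ih =>
    obtain ⟨φ, d, h⟩ := ih
    obtain ⟨ψ, d', h1, h0⟩ := sep T t ht
    refine ⟨fun w => φ w + (F t - φ t) * ψ w, by fun_prop, fun v hv => ?_⟩
    beta_reduce
    rcases Finset.mem_insert.1 hv with rfl | hv
    · rw [h1, mul_one, add_sub_cancel]
    · rw [h0 v hv, mul_zero, add_zero, h v hv]

theorem sub {a b : Fin r → E n} (h : ∀ F : E n → ℝ, ∑ j, F (a j) = ∑ j, F (b j)) :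
    range a ⊆ range b := by
  rintro _ ⟨i, rfl⟩
  by_contra c
  have := h fun w => if w = a i then 1 else 0
  rw [Finset.sum_eq_zero (s := Finset.univ) (f := fun j => if b j = a i then (1 : ℝ) else 0)
    fun j _ => if_neg fun e => c ⟨j, e⟩] at this
  have h1 := Finset.single_le_sum (s := Finset.univ) (f := fun j => if a j = a i then (1 : ℝ) else 0)
    (fun j _ => by split_ifs <;> norm_num) (Finset.mem_univ i)
  rw [if_pos rfl, this] at h1
  exact h1.not_gt one_pos

end ITP

theorem cITP : St_ITP := by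
  intro n r a b h
  have k : ∀ F : E n → ℝ, ∑ j, F (a j) = ∑ j, F (b j) := fun F => by
    obtain ⟨φ, d, hφ⟩ := ITP.ent (Finset.univ.image a ∪ Finset.univ.image b) fun w => (F w : ℂ)
    have := h φ d
    rw [Finset.sum_congr rfl fun j _ => hφ (a j)
        (Finset.mem_union_left _ (Finset.mem_image_of_mem _ (Finset.mem_univ j))),
      Finset.sum_congr rfl fun j _ => hφ (b j)
        (Finset.mem_union_right _ (Finset.mem_image_of_mem _ (Finset.mem_univ j)))] at this
    exact_mod_cast this
  exact ⟨k, (ITP.sub k).antisymm (ITP.sub fun F => (k F).symm)⟩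

end Pool.Agent.Lib.CY
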