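import Pool.Agent.Lib.CY.Blue
import Pool.Agent.Lib.FI.B_CHR

/-! Project cy, row JAC: the Jacobian matrix and the local inverses. -/

open scoped Classical Topology ContDiff ComplexOrder Matrix
open Set Complex Filter

set_option linter.unusedVariables false

noncomputable section

namespace Pool.Agent.Lib.CY

open Pool.Agent.Lib.SV (E nsq)
open Pool.Agent.Lib.HS32 Pool.Agent.Lib.FI

namespace JAC

theorem inv {n : ℕ} {φ : E n → E n} {w : E n} (h : HolN φ w) (hd : (jm φ w).det ≠ 0) :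
    map φ (𝓝 w) = 𝓝 (φ w) ∧ ∃ σ : E n → E n, HolN σ (φ w) ∧ σ (φ w) = w ∧
      (∀ᶠ v in 𝓝 (φ w), φ (σ v) = v) ∧ (∀ᶠ w' in 𝓝 w, σ (φ w') = w') ∧
      ∀ u, fderiv ℂ σ (φ w) (jm φ w *ᵥ u) = u := by
  have hc : ContDiffAt ℂ 1 φ w := contDiffAt_pi.2 fun i => by
    obtain ⟨U, ho, hz, hU⟩ := BHOL.smoothC (BCHN.hol_comp h i)
    exact (hU.contDiffAt (ho.mem_nhds hz)).of_le (by simp)
  rw [← BCHN.det_eq] at hd
  have hf : HasFDerivAt φ
      ((fderiv ℂ φ w).toContinuousLinearEquivOfDetNeZero hd : E n →L[ℂ] E n) w := by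
    rw [ContinuousLinearMap.coe_toContinuousLinearEquivOfDetNeZero]
    exact h.self_of_nhds.hasFDerivAt
  have hs := hc.hasStrictFDerivAt' hf one_ne_zero
  refine ⟨hs.map_nhds_eq_of_equiv, hc.localInverse hf one_ne_zero, ?_,
    hc.localInverse_apply_image hf one_ne_zero, hs.eventually_right_inverse,
    hs.eventually_left_inverse, fun u => ?_⟩
  · filter_upwards [(hc.to_localInverse hf one_ne_zero).eventually (by simp)] with v hv
    exact hv.differentiableAt one_ne_zero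
  · have := hs.to_localInverse.hasFDerivAt.fderiv
    refine (congrArg (fun T : E n →L[ℂ] E n => T (jm φ w *ᵥ u)) this).trans ?_
    rw [← BCHN.fderiv_mulVec]
    exact ((fderiv ℂ φ w).toContinuousLinearEquivOfDetNeZero hd).symm_apply_apply u

variable {g k : ℕ} {ψ : E (g + k) → E k} {w : E (g + k)}

theorem der (hSPL : St_SPL) (h : DifferentiableAt ℂ ψ w) : DifferentiableAt ℂ (gp ψ) w ∧
    ∀ v, jm (gp ψ) w *ᵥ v = ap (pY v) (jr ψ w *ᵥ v) := by
  obtain ⟨-, -, ⟨L, hL, hL', -⟩, -⟩ := hSPL g k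
  have e : gp ψ = fun x => L ((L.symm x).1, ψ x) := funext fun x => by rw [hL, hL']; rfl
  have h1 : HasFDerivAt (fun x => L ((L.symm x).1, ψ x)) _ w :=
    L.hasFDerivAt.comp w ((L.symm.hasFDerivAt (x := w)).fst.prodMk h.hasFDerivAt)
  rw [e]
  refine ⟨h1.differentiableAt, fun v => ?_⟩
  rw [← BCHN.fderiv_mulVec, h1.fderiv, ← CHR.fd]
  simp [hL, hL']

theorem det (hSPL : St_SPL) (h : DifferentiableAt ℂ ψ w) : (jm (gp ψ) w).det = (jx ψ w).det := by
  have e : ∀ i j, jm (gp ψ) w i j = ap (pY (Pi.single j 1)) (fun a => jr ψ w a j) i := fun i j => by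
    have := congrFun ((der hSPL h).2 (Pi.single j 1)) i
    rw [Matrix.mulVec_single_one, Matrix.mulVec_single_one] at this
    exact this
  have e2 : (jm (gp ψ) w).submatrix finSumFinEquiv finSumFinEquiv =
      Matrix.fromBlocks 1 0 (cY (jr ψ w)) (jx ψ w) := by
    ext (i | i) (j | j)
    · simp [e, ap, pY, Pi.single_apply, Matrix.one_apply]
    · have : Fin.castAdd k i ≠ Fin.natAdd g j := fun c => by
        have := congrArg Fin.val c
        simp only [Fin.val_castAdd, Fin.val_natAdd] at this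
        omega
      simp [e, ap, pY, this]
    · simp [e, ap, cY]
    · simp [e, ap, cX, jx]
  rw [← Matrix.det_submatrix_equiv_self finSumFinEquiv, e2, Matrix.det_fromBlocks_zero₁₂,
    Matrix.det_one, one_mul]

end JAC

theorem cJAC (hSPL : St_SPL) : St_JAC := by
  intro g k ψ w h
  have h0 := h.self_of_nhds
  have h1 : HolN (gp ψ) w := Eventually.mono h fun x hx => (JAC.der hSPL hx).1
  have c1 : ContinuousAt (jr ψ) w := continuousAt_pi.2 fun i => continuousAt_pi.2 fun j =>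
    (CHR.hol_jr h i j).self_of_nhds.continuousAt
  have c2 : ContinuousAt (jx ψ) w := continuousAt_pi.2 fun i => continuousAt_pi.2 fun j =>
    (CHR.hol_jr h i _).self_of_nhds.continuousAt
  refine ⟨h1, JAC.det hSPL h0, ?_, fun v => ⟨CHR.fd ψ w v, (JAC.der hSPL h0).2 v⟩, c1, c2, ?_, ?_,
    fun hd => ?_⟩
  · rw [BCHN.det_real h1.self_of_nhds, JAC.det hSPL h0, jq]
  · exact (continuous_normSq.comp continuous_id.matrix_det).continuousAt.comp c2
  · exact (continuous_re.comp (continuous_id.matrix_mul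
      continuous_id.matrix_conjTranspose).matrix_det).continuousAt.comp c1
  · obtain ⟨k1, σ, k2, k3, k4, k5, k6⟩ := JAC.inv h1 (by rwa [JAC.det hSPL h0])
    refine ⟨k1, σ, k2, k3, k4, k5, fun ξ => ?_⟩
    obtain ⟨s1, -, -, s4, -⟩ := hSPL g k
    rw [← k6 (ap 0 ((jx ψ w)⁻¹ *ᵥ ξ)), (JAC.der hSPL h0).2, (s4 _).1, (s1 _ _).1, (s1 _ _).2,
      Matrix.mulVec_zero, zero_add, Matrix.mulVec_mulVec, ← jx,
      Matrix.mul_nonsing_inv _ (Ne.isUnit hd), Matrix.one_mulVec]

end Pool.Agent.Lib.CY
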