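import Pool.Agent.Lib.CY.Blue

/-! The lower bound of the mass of the fibres. -/

open scoped Classical Topology ContDiff ComplexOrder Matrix ENNReal
open Set MeasureTheory Complex Metric Filter

set_option linter.unusedVariables false

noncomputable section

namespace Pool.Agent.Lib.CY

open Pool.Agent.Lib.SV (E nsq)
open Pool.Agent.Lib.HS32 Pool.Agent.Lib.FI Pool.Agent.Lib.KH Pool.Agent.Lib.RB9

namespace LEL

theorem nrm {n : ℕ} {v : E n} {s : ℝ} (hs : 0 ≤ s) (h : nsq v ≤ s ^ 2) : ‖v‖ ≤ s :=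
  (pi_norm_le_iff_of_nonneg hs).2 fun j => by
    have h1 : normSq (v j) ≤ nsq v := Finset.single_le_sum (f := fun a => normSq (v a))
      (fun a _ => normSq_nonneg _) (Finset.mem_univ j)
    rw [normSq_eq_norm_sq] at h1
    exact (pow_le_pow_iff_left₀ (norm_nonneg _) hs two_ne_zero).1 (h1.trans h)

theorem cl {n : ℕ} (a : E n) (t : ℝ) : IsClosed {w : E n | nsq (w - a) ≤ t} :=
  isClosed_le (continuous_finsetSum _ fun j _ =>
    continuous_normSq.comp ((continuous_apply j).comp (continuous_id.sub continuous_const)))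
    continuous_const

theorem tst {k : ℕ} {r Ψ : E k → ℝ} (h : Rad r Ψ) {ε : ℝ} (hε : 0 < ε) (y : E k) :
    Tst (fun w => sc r ε (y - w)) ∧ ∀ w, 0 ≤ sc r ε w :=
  ⟨⟨contDiff_const.mul (h.tr.sm.comp ((contDiff_const.sub contDiff_id).const_smul _)),
    (h.tr.cs.comp_homeomorph ((Homeomorph.subLeft y).trans (Homeomorph.smulOfNeZero
      ((ε⁻¹ : ℝ) : ℂ) (ofReal_ne_zero.2 (inv_pos.2 hε).ne')))).mul_left⟩,
    fun w => mul_nonneg (by positivity) (h.r0 _)⟩

end LEL

open LEL in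
theorem cLEL (hGHB : St_GHB) (hCMP : St_CMP) (hREG : St_REG) (hMO5 : St_MO5) (hGOO : FI.St_GOO)
    (hITG : FI.St_ITG) (hBAS : FI.St_BAS) : St_LEL := by
  intro g k M _ H p z C V r Ψ e hy he hK
  obtain ⟨cR, cR0, hR⟩ := hREG g k r Ψ hy.rad
  obtain ⟨cM, cM0, hM⟩ := hMO5 g k
  obtain ⟨c, c1, hc, hc'⟩ := hCMP g k M H p z C e _ hy.fb he (isCompact_closedBall 0 4) hK
  have c0 : 0 < c := one_pos.trans_le c1
  have hO := (hBAS _ k M H p z C hy.fb).1
  have hU : IsOpen (e.target ∩ e.symm ⁻¹' {x | 0 < p x}) := e.isOpen_inter_preimage_symm hO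
  have d0 : ∀ x, 0 < p x → 0 < dn H z x := fun x h => ((hy.jc.pos x).1 h).2
  refine ⟨cM * cR / (c * c) / 2, by positivity, fun a ρ y φ ha ρ0 ρ1 hg hx hφ φ0 φ1 => ?_⟩
  have A : ∀ a', ‖a' - a‖ < ρ → 0 < p (e.symm a') → ∃ᶠ ε in 𝓝[>] (0 : ℝ),
      cM * cR / (c * c) * ρ ^ (2 * g) ≤ fi H p z r φ ε (z (e.symm a')) := fun a' h1 h2 => by
    have sb : ∀ w, ‖w - a'‖ ≤ ρ → w ∈ closedBall a (2 * ρ) ∧ w ∈ closedBall (0 : E (g + k)) 4 :=
      fun w h => by
        have k1 : ‖w - a‖ ≤ 2 * ρ := (norm_sub_le_norm_sub_add_norm_sub w a' a).trans (by linarith)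
        refine ⟨mem_closedBall_iff_norm.2 k1, mem_closedBall_zero_iff.2 ?_⟩
        linarith [norm_sub_norm_le w a]
    have k4 := (sb a' (by simpa using ρ0.le)).2
    obtain ⟨e₀, e0, hs⟩ := hR _ a' (hy.fb.hol e he a' (hK k4) h2) fun h => by
      have := (hc a' k4 h2).2.2.2.1
      rw [h, mul_zero] at this
      exact (d0 _ h2).not_ge this
    have t : Tendsto (fun s : ℝ => s * e₀) (𝓝[>] 0) (𝓝[>] 0) :=
      tendsto_nhdsWithin_iff.2 ⟨by
        simpa using (tendsto_id.mul_const e₀ : Tendsto (fun s : ℝ => s * e₀) (𝓝 0) _).mono_left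
          nhdsWithin_le_nhds, eventually_mem_nhdsWithin.mono fun s h => mul_pos h e0⟩
    obtain ⟨δ, δ0, hδ⟩ := Metric.isOpen_iff.1 hU a' ⟨hK k4, h2⟩
    refine t.frequently (Eventually.frequently ?_)
    filter_upwards [hs, Ioo_mem_nhdsGT (lt_min δ0 (half_pos ρ0))] with s h3 ⟨s0, s1⟩
    obtain ⟨s2, s3⟩ := lt_min_iff.1 s1
    obtain ⟨t1, t2⟩ := tst hy.rad (mul_pos s0 e0) (z (e.symm a'))
    have h4 := hM M H p z C e a' s ρ _ hy.fb he s0 (by linarith)
      (fun w hw => hK (sb w (mem_closedBall_iff_norm.1 hw)).2) t1 fun _ => t2 _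
    have h5 := (mul_le_mul_right (h3.trans (lintegral_mono_set
      (t := {w | nsq (w - a') ≤ s ^ 2 ∧ 0 < p (e.symm w)}) fun w hw => ⟨hw,
      (hδ (mem_ball_iff_norm.2 ((nrm s0.le hw).trans_lt s2))).2⟩)) _).trans h4
    rw [← ENNReal.ofReal_mul (by positivity), show cM * ρ ^ (2 * g) * (cR * s ^ (2 * g)) =
      s ^ (2 * g) * (cM * cR * ρ ^ (2 * g)) by ring, ENNReal.ofReal_mul (by positivity),
      ENNReal.mul_le_mul_iff_right (ENNReal.ofReal_pos.2 (by positivity)).ne'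
        ENNReal.ofReal_ne_top] at h5
    have sB : ∀ w ∈ {w | nsq (w - a') ≤ ρ ^ 2 ∧ 0 < p (e.symm w)}, _ :=
      fun w hw => sb w (nrm ρ0.le hw.1)
    have mB : MeasurableSet {w | nsq (w - a') ≤ ρ ^ 2 ∧ 0 < p (e.symm w)} := by
      rw [show {w | nsq (w - a') ≤ ρ ^ 2 ∧ 0 < p (e.symm w)} = {w | nsq (w - a') ≤ ρ ^ 2} ∩
        (e.target ∩ e.symm ⁻¹' {x | 0 < p x}) from Set.ext fun w =>
          ⟨fun h => ⟨h.1, hK (sB w h).2, h.2⟩, fun h => ⟨h.1, h.2.2⟩⟩]
      exact (cl _ _).measurableSet.inter hU.measurableSet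
    have i1 : IntegrableOn (fun x => φ x * sc r (s * e₀) (z (e.symm a') - z x) * dn H z x)
        {x | 0 < p x} (M.mu H) :=
      (hITG _ k M H p z C (fun x => φ x) (fun w => sc r (s * e₀) (z (e.symm a') - w)) hy.fb
        (continuous_ofReal.comp hφ.continuous) (continuous_ofReal.comp t1.sm.continuous)
        (t1.cs.comp_left ofReal_zero)).1.re.congr (Eventually.of_forall fun x => by
          simp only [← ofReal_mul, RCLike.re_to_complex, ofReal_re])
    have n1 : ∀ x ∈ {x | 0 < p x}, 0 ≤ φ x * sc r (s * e₀) (z (e.symm a') - z x) * dn H z x :=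
      fun x h => mul_nonneg (mul_nonneg (φ0 x) (t2 _)) (d0 x h).le
    have h6 := ((hc' _ mB fun w hw => (sB w hw).2).2 fun x =>
      ENNReal.ofReal (φ x * sc r (s * e₀) (z (e.symm a') - z x) * dn H z x)).2.trans
      (mul_le_mul_right (lintegral_mono_set (t := {x | 0 < p x}) (by
        rintro _ ⟨w, hw, rfl⟩
        exact hw.2)) _)
    rw [← ofReal_integral_eq_lintegral_ofReal i1
      ((ae_restrict_iff' hO.measurableSet).2 (Eventually.of_forall n1))] at h6
    have h7 := (h5.trans (setLIntegral_mono' mB (g := fun w => ENNReal.ofReal c * ENNReal.ofReal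
      (φ (e.symm w) * sc r (s * e₀) (z (e.symm a') - z (e.symm w)) * dn H z (e.symm w)))
      fun w hw => by
        rw [← ENNReal.ofReal_mul c0.le]
        refine ENNReal.ofReal_le_ofReal ?_
        have k1 := mul_le_mul_of_nonneg_left (hc w (sB w hw).2 hw.2).2.2.1
          (t2 (z (e.symm a') - z (e.symm w)))
        have k2 := mul_le_mul_of_nonneg_right (φ1 w (sB w hw).1)
          (mul_nonneg (mul_nonneg c0.le (t2 (z (e.symm a') - z (e.symm w)))) (d0 _ hw.2).le)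
        linarith))
    rw [lintegral_const_mul' _ _ ENNReal.ofReal_ne_top] at h7
    have h8 := h7.trans (mul_le_mul_right h6 _)
    have n2 := setIntegral_nonneg (μ := M.mu H) hO.measurableSet n1
    rw [← mul_assoc, ← ENNReal.ofReal_mul c0.le, ← ENNReal.ofReal_mul (by positivity),
      ENNReal.ofReal_le_ofReal_iff (mul_nonneg (by positivity) n2)] at h8
    rw [div_mul_eq_mul_div, div_le_iff₀' (by positivity)]
    exact h8
  have B : ∃ᶠ b in nb y, cM * cR / (c * c) * ρ ^ (2 * g) ≤ fi H p z r φ b.1 b.2 := fun h => by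
    obtain ⟨P, hP, Q, hQ, hPQ⟩ := eventually_prod_iff.1 h
    have at' : a ∈ e.target := hK (mem_closedBall_zero_iff.2 (by linarith))
    obtain ⟨x, ⟨x1, x2⟩, x3, x4⟩ := ((hGHB _ _ _ z).1 _ y).1 hx (e.source ∩ e ⁻¹' ball a ρ)
      ((e.isOpen_inter_preimage isOpen_ball).mem_nhds ⟨e.map_target at', by
        rw [mem_preimage, e.right_inv at']
        exact mem_ball_self ρ0⟩) _ hQ
    obtain ⟨ε, h1, h2⟩ := ((A (e x) (mem_ball_iff_norm.1 x2)
      (by rwa [e.left_inv x1])).and_eventually hP).exists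
    rw [e.left_inv x1] at h1
    exact hPQ h2 x4 h1
  obtain ⟨l, hl⟩ := (hGOO _ k M H p z C V r Ψ p hy.fb hy.vol hy.rad hy.jc).2 y hg φ hφ
  have h1 : cM * cR / (c * c) * ρ ^ (2 * g) ≤ l := isClosed_Ici.mem_of_frequently_of_tendsto B hl
  have h2 : 0 < cM * cR / (c * c) * ρ ^ (2 * g) := by positivity
  exact (hl.eventually (lt_mem_nhds (by linarith))).mono fun b h => h.le

end Pool.Agent.Lib.CY
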