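import Pool.Agent.Lib.CY.Blue

/-! Project cy, row LIN: the linear model. -/

open scoped Classical Topology ContDiff ComplexOrder Matrix ENNReal
open Set MeasureTheory Complex Metric Filter

noncomputable section

namespace Pool.Agent.Lib.CY

open Pool.Agent.Lib.SV (E nsq)
open Pool.Agent.Lib.HS32 Pool.Agent.Lib.FI

namespace LIN

variable {m : ℕ}

theorem cmv {l : ℕ} (A : Matrix (Fin l) (Fin m) ℂ) : Continuous fun x : E m => A *ᵥ x :=
  continuous_const.matrix_mulVec continuous_id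

/-- The linear change of variables. -/
theorem chg (A : Mat m) (hA : A.det ≠ 0) {F : E m → ℝ≥0∞} (hF : Measurable F) :
    ∫⁻ x, F (A *ᵥ x) * ENNReal.ofReal (normSq A.det) = ∫⁻ y, F y := by
  have d : LinearMap.det ((Matrix.toLin' A).restrictScalars ℝ) = normSq A.det := by
    rw [LinearMap.det_restrictScalars, Algebra.norm_complex_apply, LinearMap.det_toLin']
  have p := normSq_pos.2 hA
  have k := Measure.map_linearMap_addHaar_eq_smul_addHaar (volume : Measure (E m))
    (f := (Matrix.toLin' A).restrictScalars ℝ) (d ▸ p.ne')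
  have e : ∫⁻ x, F (A *ᵥ x) = ENNReal.ofReal (normSq A.det)⁻¹ * ∫⁻ y, F y := by
    rw [← lintegral_map hF (cmv A).measurable]
    refine (congrArg (fun μ => ∫⁻ y, F y ∂μ) k).trans ?_
    rw [lintegral_smul_measure, d, abs_of_pos (inv_pos.2 p), smul_eq_mul]
  rw [lintegral_mul_const' _ _ ENNReal.ofReal_ne_top, e, mul_right_comm,
    ← ENNReal.ofReal_mul (inv_pos.2 p).le, inv_mul_cancel₀ p.ne', ENNReal.ofReal_one, one_mul]

theorem nsq_dot (v : E m) : nsq v = (star v ⬝ᵥ v).re := by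
  simp only [nsq, dotProduct, re_sum, Pi.star_apply, star_def, ← normSq_eq_conj_mul_self, ofReal_re]

theorem nsq_uni {Q : Mat m} (h : Qᴴ * Q = 1) (v : E m) : nsq (Q *ᵥ v) = nsq v := by
  rw [nsq_dot, nsq_dot, Matrix.star_mulVec, ← Matrix.dotProduct_mulVec, Matrix.mulVec_mulVec, h,
    Matrix.one_mulVec]

theorem cnsq : Continuous fun v : E m => nsq v :=
  continuous_finsetSum _ fun j _ => continuous_normSq.comp (continuous_apply j)

theorem norm_lt {v : E m} (h : nsq v < 1) : ‖v‖ < 1 :=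
  (pi_norm_lt_iff zero_lt_one).2 fun i => (sq_lt_one_iff₀ (norm_nonneg _)).1 (by
    rw [← normSq_eq_norm_sq]
    exact (Finset.single_le_sum (f := fun j => normSq (v j)) (fun j _ => normSq_nonneg _)
      (Finset.mem_univ i)).trans_lt h)

theorem det_gram (A : Mat m) : (A * Aᴴ).det = normSq A.det := by
  rw [Matrix.det_mul, Matrix.det_conjTranspose, star_def, mul_conj]

end LIN

open LIN

theorem cLIN (hSPL : St_SPL) (hORT : St_ORT) : St_LIN := by
  intro g k r Ψ hr
  obtain ⟨s1, s2, ⟨L, l1, -, l2, -⟩, s4, -⟩ := hSPL g k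
  have oB : IsOpen {y : E g | nsq y < 1 / 2} := isOpen_lt cnsq continuous_const
  have v0 : volume {y : E g | nsq y < 1 / 2} ≠ 0 := oB.measure_ne_zero _ ⟨0, by simp [nsq]⟩
  refine ⟨(min (volume {y : E g | nsq y < 1 / 2}) 1).toReal, ENNReal.toReal_pos
    (lt_min (pos_iff_ne_zero.2 v0) zero_lt_one).ne' (min_lt_of_right_lt ENNReal.one_lt_top).ne,
    fun P hP => ?_⟩
  obtain ⟨Q, q1, q2⟩ := hORT g k P
  have q3 : Q * Qᴴ = 1 := mul_eq_one_comm.1 q1
  have q4 : normSq Q.det = 1 := by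
    have := det_gram Q
    rw [q3, Matrix.det_one] at this
    exact_mod_cast this.symm
  have gr : (P * Pᴴ).det = normSq (cX (P * Q)).det := by
    rw [← det_gram, ← zero_add (cX _ * _), ← Matrix.zero_mul (cY (P * Q))ᴴ, ← q2, ← (s4 _).2,
      Matrix.conjTranspose_mul, Matrix.mul_assoc, ← Matrix.mul_assoc Q, q3, Matrix.one_mul]
  have d0 : (cX (P * Q)).det ≠ 0 := fun h => hP (by rw [gr, h]; simp)
  obtain ⟨e, e0, he⟩ := Metric.eventually_nhds_iff.1
    ((cnsq.comp (cmv (cX (P * Q))⁻¹)).continuousAt (x := 0) |>.eventually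
      (gt_mem_nhds (show _ < (1 / 2 : ℝ) by simp [nsq])))
  refine ⟨e, e0, ENNReal.ofReal_toReal_le.trans ((min_le_left _ _).trans ?_)⟩
  have e1 : ((e⁻¹ : ℝ) : ℂ) ≠ 0 := ofReal_ne_zero.2 (inv_ne_zero e0.ne')
  have cr : Continuous r := hr.tr.1.continuous
  have mr : Measurable fun y => ENNReal.ofReal (r y) := cr.measurable.ennreal_ofReal
  have oU : IsOpen {u : E (g + k) | nsq u < 1} := isOpen_lt cnsq continuous_const
  have cs : Continuous (sc r e) := continuous_const.mul (cr.comp (continuous_const_smul _))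
  obtain ⟨F, hF⟩ : ∃ F, F = {u : E (g + k) | nsq u < 1}.indicator
    fun u => ENNReal.ofReal (sc r e (P *ᵥ u) * (P * Pᴴ).det.re) := ⟨_, rfl⟩
  have mF : Measurable F := hF ▸ (((cs.comp (cmv P)).mul
      continuous_const).measurable.ennreal_ofReal).indicator oU.measurableSet
  have dA : (((e⁻¹ : ℝ) : ℂ) • cX (P * Q)).det ≠ 0 := by
    rw [Matrix.det_smul]
    exact mul_ne_zero (pow_ne_zero _ e1) d0
  have one := (chg _ dA mr).trans ((ofReal_integral_eq_lintegral_ofReal
    (cr.integrable_of_hasCompactSupport hr.tr.2) (ae_of_all _ hr.r0)).symm.trans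
      ((congrArg _ hr.one).trans ENNReal.ofReal_one))
  rw [← lintegral_indicator oU.measurableSet, ← hF, ← chg Q (fun h => by simp [h] at q4) mF, q4,
    ENNReal.ofReal_one]
  refine ((mul_one _).symm.trans (congrArg₂ (· * ·) (lintegral_indicator_one oB.measurableSet).symm
    one.symm)).trans_le ?_
  refine le_trans (le_of_eq (lintegral_prod_mul (measurable_one.indicator
    oB.measurableSet).aemeasurable ((mr.comp (cmv _).measurable).mul_const _).aemeasurable).symm)
    (le_trans (lintegral_mono fun v => ?_) (l2.lintegral_comp (f := fun x => F (Q *ᵥ x) * 1)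
      ((mF.comp (cmv Q).measurable).mul_const 1)).le)
  beta_reduce
  rw [Function.comp_apply]
  by_cases h1 : v.1 ∈ {y : E g | nsq y < 1 / 2}
  swap
  · rw [indicator_of_notMem h1, zero_mul]
    exact zero_le
  by_cases h2 : nsq ((((e⁻¹ : ℝ) : ℂ) • cX (P * Q)) *ᵥ v.2) < 1
  swap
  · simp only [(hr.sr _ (not_lt.1 h2)).1, ENNReal.ofReal_zero, zero_mul, mul_zero, zero_le]
  have h3 : nsq v.2 < 1 / 2 := by
    have a := norm_lt h2
    rw [Matrix.smul_mulVec, norm_smul, norm_real, Real.norm_of_nonneg (inv_pos.2 e0).le,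
      inv_mul_lt_iff₀ e0, mul_one] at a
    have b := he ((dist_zero_right _).trans_lt a)
    rwa [Function.comp_apply, Matrix.mulVec_mulVec, Matrix.nonsing_inv_mul _ d0.isUnit,
      Matrix.one_mulVec] at b
  have h4 : Q *ᵥ L v ∈ {u : E (g + k) | nsq u < 1} := by
    rw [mem_ofPred_eq, nsq_uni q1, (s2 _).2.2, l1, (s1 _ _).1, (s1 _ _).2]
    linarith [show nsq v.1 < 1 / 2 from h1]
  rw [indicator_of_mem h1, Pi.one_apply, one_mul, hF, indicator_of_mem h4, mul_one,
    Matrix.mulVec_mulVec, (s4 _).1, q2, Matrix.zero_mulVec, zero_add, l1, (s1 _ _).2, gr, ofReal_re,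
    sc, Matrix.smul_mulVec, ← ENNReal.ofReal_mul (hr.r0 _), Matrix.det_smul,
    map_mul, map_pow, normSq_ofReal, Fintype.card_fin]
  refine ENNReal.ofReal_le_ofReal (le_of_eq ?_)
  rw [← sq, ← pow_mul, inv_pow]
  ring

end Pool.Agent.Lib.CY
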