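import Pool.Agent.Lib.CY.Blue

/-! Project cy, row LOC: the sheets near a point with the right number of regular points. -/

open scoped Topology Matrix
open Set MeasureTheory Filter Function

noncomputable section

namespace Pool.Agent.Lib.CY

open Pool.Agent.Lib.SV (E)
open Pool.Agent.Lib.HS32

namespace LOC

variable {g k : ℕ} {U : Set (E (g + k))} {ψ : E (g + k) → E k} {v : E (g + k)}

theorem sec (hJ : St_JAC) (oU : IsOpen U) (hol : ∀ w ∈ U, HolN ψ w) {m : ℕ}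
    {w : Fin m → E (g + k)} (hw : Injective w) (hf : ∀ j, w j ∈ fb U ψ v) :
    ∃ σ : Fin m → E (g + k) → E (g + k), (∀ j, σ j v = w j) ∧
      (∀ j, HolN (σ j) v ∧
        ∀ ξ : E k, fderiv ℂ (σ j) v (ap 0 ξ) = ap 0 ((jx ψ (σ j v))⁻¹ *ᵥ ξ)) ∧
      ∀ᶠ v' in 𝓝 v, Injective (fun j => σ j v') ∧ ∀ j, σ j v' ∈ fb U ψ v' := by
  have h1 : ∀ j, ∃ σ : E (g + k) → E (g + k), σ v = w j ∧ (HolN σ v ∧
      ∀ ξ : E k, fderiv ℂ σ v (ap 0 ξ) = ap 0 ((jx ψ (σ v))⁻¹ *ᵥ ξ)) ∧
      ∀ᶠ v' in 𝓝 v, σ v' ∈ fb U ψ v' := fun j => by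
    obtain ⟨⟨a1, a2, a3⟩, a4⟩ := hf j
    obtain ⟨-, -, -, -, -, c, -, -, d⟩ := hJ g k ψ (w j) (hol _ a1)
    obtain ⟨-, σ, s1, s2, s3, -, s4⟩ := d a3
    rw [a4] at s1 s2 s3 s4
    have t : Tendsto σ (𝓝 v) (𝓝 (w j)) := s2 ▸ s1.self_of_nhds.continuousAt.tendsto
    refine ⟨σ, s2, ⟨s1, s2 ▸ s4⟩, ?_⟩
    filter_upwards [s3, t.eventually (oU.mem_nhds a1),
      t.eventually (continuous_norm.continuousAt.eventually_lt continuousAt_const a2),
      t.eventually ((continuous_id.matrix_det.continuousAt.comp c).eventually_ne a3)]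
      with v' b1 b2 b3 b4
    exact ⟨⟨b2, b3, b4⟩, b1⟩
  choose σ s1 s2 s3 using h1
  refine ⟨σ, s1, s2, Eventually.and ?_ (eventually_all.2 s3)⟩
  have h2 : ∀ i j, ∀ᶠ v' in 𝓝 v, σ i v' = σ j v' → i = j := fun i j => by
    by_cases e : i = j
    · exact .of_forall fun _ _ => e
    filter_upwards [((s2 i).1.self_of_nhds.continuousAt.sub
      (s2 j).1.self_of_nhds.continuousAt).eventually_ne (y := 0)
        (sub_ne_zero.2 (by rw [s1, s1]; exact hw.ne e))] with v' a b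
    exact absurd (sub_eq_zero.2 b) a
  exact (eventually_all.2 fun i => eventually_all.2 (h2 i)).mono fun v' a i j b => a i j b

end LOC

open LOC in
theorem cLOC (hJAC : St_JAC) : St_LOC := by
  intro g k U ψ Z c R r ρ hE hC v hv hρ hr
  obtain ⟨w, w1, w2⟩ : ∃ w : Fin r → E (g + k), Injective w ∧ range w = fb U ψ v := by
    have hf : (fb U ψ v).Finite := finite_of_encard_eq_coe hr
    obtain ⟨n, f, f1, f2⟩ := hf.fin_param
    obtain rfl : n = r := by
      rw [← f2, ← image_univ, f1.injOn.encard_image] at hr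
      simpa using hr
    exact ⟨f, f1, f2⟩
  obtain ⟨σ, -, s2, s3⟩ := sec hJAC hE.oU hE.hol w1 fun j => w2 ▸ mem_range_self j
  have cX : Continuous (pX : E (g + k) → E k) := continuous_pi fun j => continuous_apply _
  have cY : Continuous (pY : E (g + k) → E g) := continuous_pi fun j => continuous_apply _
  have h1 : ∀ᶠ v' in 𝓝 v, v' ∈ Dz g Z ∧ ρ (pX v') = r := by
    filter_upwards [cY.norm.continuousAt.eventually_lt continuousAt_const hv.1,
      (cX.tendsto v).eventually (hE.oZ.mem_nhds hv.2),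
      (cX.tendsto v).eventually (hC.lc _ hv.2)] with v' a b d
    exact ⟨⟨a, b⟩, d.trans hρ⟩
  refine ⟨σ, s2, ?_⟩
  filter_upwards [s3, h1.eventually_nhds] with v' ⟨a1, a2⟩ a3
  refine ⟨a1, Subset.antisymm (range_subset_iff.2 a2) fun x hx => by_contra fun hn => ?_⟩
  obtain ⟨τ, -, -, t⟩ := sec hJAC hE.oU hE.hol (v := v') (w := Fin.cons x fun j => σ j v')
    (Fin.cons_injective_iff.2 ⟨hn, a1⟩) (Fin.cases hx a2)
  obtain ⟨u, u1, ⟨u2, u3⟩, u4, u5⟩ := ((mem_closure_iff_frequently.1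
    (Measure.dense_of_ae hC.ae v')).and_eventually (t.and a3)).exists
  have h2 := u2.encard_range.trans (encard_le_encard (range_subset_iff.2 u3))
  rw [u1 u4, u5, ENat.card_eq_coe_fintype_card, Fintype.card_fin, Nat.cast_le] at h2
  omega

end Pool.Agent.Lib.CY
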