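import Pool.Agent.Lib.CY.Blue

/-! Project cy, row LSC: the fibres are lower semicontinuous at the good points. -/

open scoped Classical Topology ContDiff ComplexOrder Matrix ENNReal
open Set MeasureTheory Complex Metric Filter

noncomputable section

namespace Pool.Agent.Lib.CY

open Pool.Agent.Lib.SV (E nsq)
open Pool.Agent.Lib.HS32 Pool.Agent.Lib.FI

theorem LSC.sup {k : ℕ} {r Ψ : E k → ℝ} (h : Rad r Ψ) {e : ℝ} (he : 0 < e) {v : E k}
    (hv : sc r e v ≠ 0) : ‖v‖ ≤ e := by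
  have h1 : nsq (((e⁻¹ : ℝ) : ℂ) • v) < 1 := not_le.1 fun k => hv (by rw [sc, (h.sr _ k).1, mul_zero])
  have h2 : ‖((e⁻¹ : ℝ) : ℂ) • v‖ ≤ 1 := (pi_norm_le_iff_of_nonneg zero_le_one).2 fun i => by
    have : normSq ((((e⁻¹ : ℝ) : ℂ) • v) i) ≤ _ := Finset.single_le_sum
      (f := fun j => normSq ((((e⁻¹ : ℝ) : ℂ) • v) j)) (fun j _ => normSq_nonneg _) (Finset.mem_univ i)
    rw [normSq_eq_norm_sq] at this
    exact (sq_le_one_iff₀ (norm_nonneg _)).1 (this.trans h1.le)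
  rwa [norm_smul, norm_real, Real.norm_of_nonneg (inv_pos.2 he).le, inv_mul_le_iff₀ he,
    mul_one] at h2

theorem cLSC (hGHB : St_GHB) (hLEL : St_LEL) : St_LSC := by
  intro g k M _ H p z C V r Ψ hy y gy x hx N hN
  obtain ⟨-, g2, -, -, -, g6, -⟩ := hGHB M.X (E k) {x | 0 < p x} z
  obtain ⟨-, -, ⟨W, hW⟩, -, -, bump⟩ := mCOV (g + k) M
  obtain ⟨a, xs, xb, -⟩ := W.cov x
  have sb := W.sub a
  rw [(hW a).1, (hW a).2] at xb sb
  rw [mul_one] at sb
  obtain ⟨κ, κ0, hκ⟩ := hLEL g k M H p z C V r Ψ _ hy (W.mem a) sb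
  generalize W.e a = e at xs xb sb hκ
  obtain ⟨δ, δ0, hδ⟩ := nhds_basis_closedBall.mem_iff.1 (inter_mem
    (e.open_target.mem_nhds (e.map_source xs)) ((e.tendsto_symm xs) (interior_mem_nhds.2 hN)))
  have ρ0 : 0 < min (δ / 2) 1 := lt_min (half_pos δ0) one_pos
  have hρ : closedBall (e x) (2 * min (δ / 2) 1) ⊆ _ :=
    (closedBall_subset_closedBall (by linarith [min_le_left (δ / 2) 1])).trans hδ
  obtain ⟨χ, c1, c2, c3, c4⟩ := bump _ _ ((isCompact_closedBall (e x) _).image_of_continuousOn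
    (e.continuousOn_symm.mono fun w hw => (hρ hw).1)).isClosed isOpen_interior
    (image_subset_iff.2 fun w hw => (hρ hw).2)
  obtain ⟨pa, h1, pb, h2, h3⟩ := eventually_prod_iff.1 (hκ (e x) _ y χ
    ((mem_ball_zero_iff.1 xb).le.trans one_le_two) ρ0 (min_le_right _ _) gy
    (by rwa [e.left_inv xs]) c1 (fun x => (c2 x).1)
    fun w hw => (c3.self_of_nhdsSet _ (mem_image_of_mem _ hw)).ge)
  refine h2.mono fun y' hy' => ?_
  have ex : ∀ t : ℝ, ∃ u, pa t ∧ 0 < t → 0 < p u ∧ u ∈ tsupport χ ∧ ‖y' - z u‖ ≤ t := fun t => by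
    by_contra hn
    push Not at hn
    obtain ⟨⟨t1, t2⟩, -⟩ := hn x
    have := h3 t1 hy'
    rw [fi, setIntegral_eq_zero_of_forall_eq_zero fun u hu => ?_] at this
    · exact absurd this (not_le.2 (by positivity))
    · by_cases k1 : χ u = 0
      · rw [k1, zero_mul, zero_mul]
      · rw [not_not.1 fun k2 => not_lt.2 (LSC.sup hy.rad t2 k2)
          ((hn u).2 hu (subset_tsupport _ k1)), mul_zero, zero_mul]
  choose u hu using ex
  have ev : ∀ᶠ t in 𝓝[>] (0 : ℝ), 0 < p (u t) ∧ u t ∈ tsupport χ ∧ ‖y' - z (u t)‖ ≤ t :=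
    (h1.and self_mem_nhdsWithin).mono hu
  let F := Ultrafilter.of (𝓝[>] (0 : ℝ))
  have le : (F : Filter ℝ) ≤ 𝓝[>] 0 := Ultrafilter.of_le _
  obtain ⟨x₀, k1, k2⟩ := (isClosed_tsupport χ).isCompact.ultrafilter_le_nhds (F.map u)
    (le_principal_iff.2 (le (ev.mono fun t h => h.2.1)))
  refine ⟨x₀, g6 ℝ F u (fun t => z (u t)) x₀ y' inferInstance
    (le (ev.mono fun t h => g2 _ h.1)) k2 (Tendsto.mono_left ?_ le), interior_subset (c4 k1)⟩
  exact tendsto_iff_norm_sub_tendsto_zero.2 (squeeze_zero' (Eventually.of_forall fun _ =>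
    norm_nonneg _) (ev.mono fun t h => (norm_sub_rev _ _).trans_le h.2.2)
    (tendsto_id.mono_left nhdsWithin_le_nhds))

end Pool.Agent.Lib.CY
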