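import Pool.Agent.Lib.CY.Blue
import Pool.Agent.Lib.HS76.Diag

/-! Project cy, row MAT: monotony of determinants, adjugates and mixed determinants. -/

open scoped Classical Topology ComplexOrder Matrix
open Set Complex Filter

noncomputable section

namespace Pool.Agent.Lib.CY

open Pool.Agent.Lib.HS32

namespace MAT

variable {n : ℕ} {A B : Mat n}

theorem lim {f : ℝ → Mat n} (hf : Continuous f) (h0 : (f 0).IsHermitian)
    (h : ∀ t, 0 < t → (f t).PosSemidef) : (f 0).PosSemidef :=
  Matrix.PosSemidef.of_dotProduct_mulVec_nonneg h0 fun v =>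
    ge_of_tendsto (((continuous_const.dotProduct (hf.matrix_mulVec continuous_const)).tendsto
      0).mono_left (nhdsWithin_le_nhds (s := Ioi 0)))
      (eventually_nhdsWithin_of_forall fun t ht => (h t ht).dotProduct_mulVec_nonneg v)

theorem adj_eq (hA : A.PosDef) : A.adjugate = (A.det.re : ℂ) • A⁻¹ := by
  rw [← HS76.det_eq_re hA.posSemidef, Matrix.inv_def, smul_smul,
    Ring.mul_inverse_cancel _ hA.det_pos.ne'.isUnit, one_smul]

theorem up (hA : A.PosDef) (hB : (B - A).PosSemidef) : B.PosDef := by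
  have := hA.add_posSemidef hB
  rwa [add_sub_cancel] at this

theorem adj_pd (hA : A.PosDef) (hB : (B - A).PosSemidef) :
    (B.adjugate - A.adjugate).PosSemidef := by
  have hB' := up hA hB
  have g0 := HS76.det_re_pos hA
  have h1 := HS76.inv_le_of_le hA hB' (HS76.le_of_det_le (c := 1) (d := B.det.re / A.det.re) hA
    hB'.1 one_pos (by simpa using hB) (by rw [div_mul_cancel₀ _ g0.ne']))
  have h2 := h1.smul (a := (A.det.re : ℂ)) (by exact_mod_cast g0.le)
  rwa [one_pow, div_one, smul_sub, smul_smul, ← ofReal_mul, mul_div_cancel₀ _ g0.ne',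
    ← adj_eq hA, ← adj_eq hB'] at h2

theorem reg (hA : A.PosSemidef) {t : ℝ} (ht : 0 < t) : (A + (t : ℂ) • (1 : Mat n)).PosDef :=
  Matrix.PosDef.posSemidef_add hA (Matrix.PosDef.one.smul (by exact_mod_cast ht))

theorem cadj (A : Mat n) : Continuous fun t : ℝ => (A + (t : ℂ) • (1 : Mat n)).adjugate :=
  (continuous_const.add (continuous_ofReal.smul continuous_const)).matrix_adjugate

theorem one (hA : A.PosSemidef) (hB : (B - A).PosSemidef) :
    0 ≤ A.det.re ∧ A.det.re ≤ B.det.re ∧ A.adjugate.PosSemidef ∧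
      (B.adjugate - A.adjugate).PosSemidef := by
  have hB' : B.PosSemidef := by simpa using hA.add hB
  refine ⟨(Complex.le_def.mp hA.det_nonneg).1, ?_, ?_, ?_⟩
  · by_cases h0 : A.det = 0
    · simpa [h0] using (Complex.le_def.mp hB'.det_nonneg).1
    · exact HS76.det_mono (hA.posDef_iff_det_ne_zero.mpr h0) hB
  · simpa using lim (cadj A) (by simpa using hA.1.adjugate) fun t ht => by
      rw [adj_eq (reg hA ht)]
      exact (reg hA ht).inv.posSemidef.smul
        (by exact_mod_cast (HS76.det_re_pos (reg hA ht)).le)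
  · simpa using lim ((cadj B).sub (cadj A)) (by simpa using hB'.1.adjugate.sub hA.1.adjugate)
      fun t ht => adj_pd (reg hA ht) (by simpa using hB)

theorem two (hSYL : FI.St_SYL) {g k : ℕ} (P : Matrix (Fin k) (Fin (g + k)) ℂ)
    {A B : Mat (g + k)} (hA : A.PosDef) (hB : (B - A).PosSemidef) :
    (mc A P).re ≤ (mc B P).re := by
  have hc : ∀ C : Mat (g + k), Tendsto
      (fun s : ℝ => (C.det * ((s : ℂ) • (1 : Mat k) + 1 * (P * C⁻¹ * Pᴴ)).det).re) (𝓝[>] 0)
      (𝓝 (mc C P).re) := fun C => by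
    have : Continuous
        fun s : ℝ => (C.det * ((s : ℂ) • (1 : Mat k) + 1 * (P * C⁻¹ * Pᴴ)).det).re :=
      continuous_re.comp (continuous_const.mul
        ((continuous_ofReal.smul continuous_const).add continuous_const).matrix_det)
    simpa [mc] using (this.tendsto 0).mono_left (nhdsWithin_le_nhds (s := Ioi 0))
  refine le_of_tendsto_of_tendsto (hc A) (hc B) (eventually_nhdsWithin_of_forall fun s hs => ?_)
  have hs' : (0 : ℂ) < s := by exact_mod_cast hs
  have h1 : ((s : ℂ) • A + Pᴴ * (1 : Mat k) * P).PosDef :=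
    (hA.smul hs').add_posSemidef (Matrix.PosSemidef.one.conjTranspose_mul_mul_same P)
  have h2 := HS76.det_mono h1 (B := (s : ℂ) • B + Pᴴ * (1 : Mat k) * P)
    (by rw [add_sub_add_right_eq_sub, ← smul_sub]; exact hB.smul hs'.le)
  rw [(hSYL _ k A P 1 1 s (Nat.le_add_left k g) hA.det_pos.ne').1,
    (hSYL _ k B P 1 1 s (Nat.le_add_left k g) (up hA hB).det_pos.ne').1, mul_assoc, mul_assoc,
    ← ofReal_pow, re_ofReal_mul, re_ofReal_mul] at h2
  exact le_of_mul_le_mul_left h2 (pow_pos hs _)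

theorem three {g k : ℕ} (P : Matrix (Fin k) (Fin (g + k)) ℂ) {c : ℝ} (hc : 0 < c) :
    (mc (c • (1 : Mat (g + k))) P).re = c ^ g * (P * Pᴴ).det.re := by
  have h0 : (c : ℂ) ≠ 0 := by exact_mod_cast hc.ne'
  have e : (c • (1 : Mat (g + k))) = (c : ℂ) • (1 : Mat (g + k)) := (Complex.coe_smul _ _).symm
  have i : ((c : ℂ) • (1 : Mat (g + k)))⁻¹ = (c : ℂ)⁻¹ • (1 : Mat (g + k)) :=
    Matrix.inv_eq_left_inv (by
      rw [Matrix.smul_mul, Matrix.one_mul, smul_smul, inv_mul_cancel₀ h0, one_smul])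
  have : mc (c • (1 : Mat (g + k))) P = ((c ^ g : ℝ) : ℂ) * (P * Pᴴ).det := by
    rw [mc, e, i, Matrix.mul_smul, Matrix.smul_mul, Matrix.mul_one, Matrix.det_smul,
      Matrix.det_smul, Matrix.det_one, Fintype.card_fin, Fintype.card_fin, pow_add, inv_pow]
    push_cast
    field_simp
  rw [this, re_ofReal_mul]

end MAT

theorem cMAT (hSYL : FI.St_SYL) : St_MAT :=
  ⟨fun _ _ _ => MAT.one, fun _ _ P _ hA =>
    ⟨(Complex.le_def.mp (mul_nonneg hA.posSemidef.det_nonneg
        (hA.inv.posSemidef.mul_mul_conjTranspose_same P).det_nonneg)).1,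
      fun _ => MAT.two hSYL P hA, fun _ => MAT.three P⟩⟩

end Pool.Agent.Lib.CY
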