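import Pool.Agent.Lib.CY.Blue
import Pool.Agent.Lib.FI.B_G2
import Pool.Agent.Lib.SV.B_ZBD

/-! Project cy, row MO5: the monotony formula. -/

open scoped Classical Topology ContDiff ComplexOrder Matrix ENNReal
open Set MeasureTheory Complex Metric Filter

noncomputable section

namespace Pool.Agent.Lib.CY

open Pool.Agent.Lib.SV (E nsq)
open Pool.Agent.Lib.HS32 Pool.Agent.Lib.FI

namespace MO5

theorem lint {α : Type} [MeasurableSpace α] {μ : Measure α} {F u v : α → ℝ} (hF : Integrable F μ)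
    (h0 : ∫ x, F x ∂μ = 0) (h : ∀ᵐ x ∂μ, 0 ≤ u x ∧ 0 ≤ v x ∧ u x = v x + F x) :
    ∫⁻ x, ENNReal.ofReal (u x) ∂μ ≤ ∫⁻ x, ENNReal.ofReal (v x) ∂μ := by
  have a := hF.lintegral_lt_top.ne
  have b : ∫⁻ x, ENNReal.ofReal (-F x) ∂μ ≠ ⊤ := hF.neg.lintegral_lt_top.ne
  rw [integral_eq_lintegral_pos_part_sub_lintegral_neg_part hF, sub_eq_zero,
    ENNReal.toReal_eq_toReal_iff' a b] at h0
  refine (ENNReal.add_le_add_iff_right b).1 ((lintegral_add_right' _
    hF.neg.aemeasurable.ennreal_ofReal).symm.trans_le ((lintegral_mono_ae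
      (h.mono fun x ⟨p, q, r⟩ => ?_)).trans_eq ((lintegral_add_right' (fun x => .ofReal (v x))
        hF.aemeasurable.ennreal_ofReal).trans (by rw [h0]))))
  rw [Pi.neg_apply]
  rcases le_total 0 (F x) with c | c
  · rw [ENNReal.ofReal_of_nonpos (neg_nonpos.2 c), add_zero, r]
    exact ENNReal.ofReal_add_le
  · rw [← ENNReal.ofReal_add p (neg_nonneg.2 c), r, add_neg_cancel_right]
    exact le_self_add

variable {n k : ℕ} {w : E n}

theorem z1 {β u τ : E n → ℂ} (h : u =ᶠ[𝓝 w] fun _ => 0) : gI β u τ w = 0 := by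
  have : dd u τ w = 0 := by
    ext i j
    rw [dd_apply, dzb_congr h, dzb_const, zero_mul, Matrix.zero_apply]
  rw [gI, this, hess_congr h, hess_const, smul_zero, add_zero, mul_zero, Matrix.trace_zero]

theorem z2 {β u τ : E n → ℂ} (h : τ =ᶠ[𝓝 w] fun _ => 0) : gI β u τ w = 0 := by
  have : dd u τ w = 0 := by
    ext i j
    rw [dd_apply, dz_congr h, dz_const, mul_zero, Matrix.zero_apply]
  rw [gI, this, h.self_of_nhds, zero_smul, add_zero, mul_zero, Matrix.trace_zero]

theorem val (hCHR : St_CHR) {ψ : E n → E k} (hψ : HolN ψ w) {A : Mat n} (hA : A.PosSemidef)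
    {χ f : E n → ℝ} {β θ : E k → ℝ} (hχ : χ =ᶠ[𝓝 w] fun _ => 1) (hf : ContDiff ℝ ∞ f)
    (hβ : Tst β) (hθ : Tst θ) (h1 : hr β (ψ w) = 1) : ∃ B : Matrix (Fin n) (Fin k) ℂ, ∀ s t : ℝ,
    gI (fun v => ((s * (χ v * nq A v + t * f v) + β (ψ v) : ℝ) : ℂ)) (fun v => (f v : ℂ) + 0)
      (fun v => ((χ v * θ (ψ v) : ℝ) : ℂ)) w =
      ((s • (A + t • hr f w) + (jr ψ w)ᴴ * jr ψ w).adjugate * (B * jr ψ w)).trace +
        θ (ψ w) * ((s • (A + t • hr f w) + (jr ψ w)ᴴ * jr ψ w).adjugate * hr f w).trace := by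
  obtain ⟨c1, -, -, c2, -, c3⟩ := hCHR n k ψ w hψ
  obtain ⟨q1, q2⟩ := G2.quad90 hA
  have a1 := cd_ofReal (q1.contDiffAt (x := w))
  have a2 := cd_ofReal (hf.contDiffAt (x := w))
  have a3 := cd_ofReal (hβ.sm.contDiffAt (x := ψ w))
  refine ⟨Matrix.of fun i a => dzb i (fun v => (f v : ℂ)) w * dz a (fun y => (θ y : ℂ)) (ψ w),
    fun s t => ?_⟩
  have e1 : hess (fun v => ((s * (χ v * nq A v + t * f v) + β (ψ v) : ℝ) : ℂ)) w =
      s • (A + t • hr f w) + (jr ψ w)ᴴ * jr ψ w := by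
    rw [hess_congr (g := fun v => (s : ℂ) * ((nq A v : ℂ) + t * (f v : ℂ)) +
        ((fun y => (β y : ℂ)) ∘ ψ) v) (hχ.mono fun v hv => by
          simp only [hv, Function.comp]
          push_cast
          ring),
      hess_add (contDiffAt_const.mul (a1.add (contDiffAt_const.mul a2))) (a3.comp w c1),
      hess_const_mul _ (a1.add (contDiffAt_const.mul a2)),
      hess_add a1 (contDiffAt_const.mul a2), hess_const_mul _ a2, c3 _ a3]
    rw [show hess (fun y => (β y : ℂ)) (ψ w) = 1 from h1, Matrix.mul_one,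
      show hess (fun v => (nq A v : ℂ)) w = A from q2 w]
    rfl
  have e2 : (fun v => ((χ v * θ (ψ v) : ℝ) : ℂ)) =ᶠ[𝓝 w] (fun y => (θ y : ℂ)) ∘ ψ :=
    hχ.mono fun v hv => by simp only [hv, one_mul, Function.comp]
  simp only [add_zero]
  rw [gI, e1, dd_congr EventuallyEq.rfl e2, show χ w = 1 from hχ.self_of_nhds, one_mul, mul_add, Matrix.trace_add,
    Matrix.mul_smul, Matrix.trace_smul]
  refine congrArg₂ _ (congrArg Matrix.trace (congrArg _ ?_)) rfl
  ext i j
  rw [dd_apply, (c2 _ (cd_diff (cd_ofReal hθ.sm.contDiffAt)) j).1, Finset.mul_sum]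
  simp only [Matrix.mul_apply, Matrix.of_apply, mul_assoc]

end MO5

open MO5

theorem cMO5 (hGRC : St_GRC) (hALG : St_ALG) (hMAT : St_MAT) (hPSI : St_PSI)
    (hCHR : FI.St_CHR) : St_MO5 := by
  intro g k
  obtain ⟨c₀, c0, hc⟩ := hPSI (g + k)
  obtain ⟨N, c, σ, t, hN⟩ := hALG g k
  refine ⟨c₀ ^ g, pow_pos c0 g, fun M _ H p z C e a s ρ θ F he s0 hs hρ hθ θ0 => ?_⟩
  have r0 : 0 < ρ := by linarith
  obtain ⟨f, f1, f2, f3, f4⟩ := hc a s ρ s0 hs
  obtain ⟨δ, d0, hδ⟩ := (isCompact_closedBall a ρ).exists_cthickening_subset_open e.open_target hρ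
  rw [cthickening_closedBall d0.le r0.le] at hδ
  obtain ⟨β, b1, b2⟩ := G2.cut90 Matrix.PosSemidef.one hθ
  let χ : ContDiffBump a := ⟨δ / 2 + ρ, δ + ρ, by positivity, by linarith⟩
  have x0 : ∀ w ∉ closedBall a (δ + ρ), χ w = 0 := fun w hw =>
    χ.zero_of_le_dist (not_le.1 hw).le
  have n1 : ∀ w, nsq (w - a) ≤ ρ ^ 2 → dist w a ≤ ρ := fun w hw => by
    rw [dist_eq_norm]
    exact (pow_le_pow_iff_left₀ (norm_nonneg _) r0.le two_ne_zero).1 ((SV.ZBD.le_nsq _).trans hw)
  have x1 : ∀ w ∉ closedBall a (δ + ρ), f w = 0 := fun w hw => f2 w (le_of_not_ge fun h =>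
    hw ((n1 w h).trans (le_add_of_nonneg_left d0.le)))
  have hA : ((ρ ^ 2)⁻¹ • (1 : Mat (g + k))).PosDef := Matrix.PosDef.one.smul (by positivity)
  have G := fun i => hGRC _ k M H p z C e _
    (fun v => σ i * (χ v * nq ((ρ ^ 2)⁻¹ • (1 : Mat (g + k))) v + t i * f v)) β
    (fun v => (f v : ℂ)) (fun _ => 0) (fun q => ((χ q.1 * θ q.2 : ℝ) : ℂ)) F he
    (isCompact_closedBall a _) hδ (contDiff_const.mul ((χ.contDiff.mul (G2.quad90
      hA.posSemidef).1).add (contDiff_const.mul f1))) (fun w hw => by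
        simp only [x0 w hw, x1 w hw, zero_mul, mul_zero, add_zero]) b1
    (ofRealCLM.contDiff.comp f1) (fun w hw => by rw [x1 w hw, ofReal_zero]) contDiff_const
    HasCompactSupport.zero (ofRealCLM.contDiff.comp ((χ.contDiff.comp contDiff_fst).mul
      (hθ.sm.comp contDiff_snd))) (HasCompactSupport.intro ((isCompact_closedBall a (δ + ρ)).prod
        hθ.cs.isCompact) fun q hq => by
          rcases not_and_or.1 hq with h | h
          · rw [x0 _ h, zero_mul, ofReal_zero]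
          · rw [image_eq_zero_of_notMem_tsupport h, mul_zero, ofReal_zero])
    fun q hq => by rw [x0 _ hq, zero_mul, ofReal_zero]
  have cn : Continuous fun w : E (g + k) => nsq (w - a) := by
    unfold nsq
    fun_prop
  have mO : ∀ B : Set (E (g + k)), MeasurableSet B → B ⊆ e.target →
      MeasurableSet {w | w ∈ B ∧ 0 < p (e.symm w)} := fun B h1 h2 => by
    have := h1.inter (e.continuousOn_symm.isOpen_inter_preimage e.open_target
      (isOpen_lt continuous_const F.sp.continuous (f := fun _ => (0 : ℝ)))).measurableSet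
    rwa [← inter_assoc, inter_eq_left.2 h2] at this
  have mT : ∀ r ≤ ρ ^ 2, MeasurableSet {w | nsq (w - a) ≤ r ∧ 0 < p (e.symm w)} := fun r hr =>
    mO _ (isClosed_le cn continuous_const).measurableSet fun w h => hρ (n1 w (le_trans h hr))
  have mS := mO _ measurableSet_closedBall hδ
  have sub : {w | nsq (w - a) ≤ ρ ^ 2 ∧ 0 < p (e.symm w)} ⊆
      {w | w ∈ closedBall a (δ + ρ) ∧ 0 < p (e.symm w)} := fun w hw =>
    ⟨(n1 w hw.1).trans (le_add_of_nonneg_left d0.le), hw.2⟩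
  have I := (integrable_finsetSum Finset.univ fun i _ => ((G i).1.mono_set sub).const_mul
    (c i : ℂ)).re.const_mul (s ^ (2 * g) * ρ ^ (2 * g))
  have s2 : s ^ 2 ≤ ρ ^ 2 := pow_le_pow_left₀ s0.le (by linarith) 2
  have L := lint (u := fun w => s ^ (2 * g) * ρ ^ (2 * g) * (θ (z (e.symm w)) *
      (mc ((ρ ^ 2)⁻¹ • 1 + hr f w) (jr (z ∘ e.symm) w)).re))
    (v := fun w => s ^ (2 * g) * (θ (z (e.symm w)) * dP (z ∘ e.symm) w)) I (by
      rw [integral_const_mul, integral_re (integrable_finsetSum Finset.univ fun i _ =>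
        ((G i).1.mono_set sub).const_mul (c i : ℂ)), integral_finsetSum _ fun i _ =>
        ((G i).1.mono_set sub).const_mul (c i : ℂ), Finset.sum_eq_zero fun i _ => ?_, map_zero,
        mul_zero]
      rw [integral_const_mul, ← setIntegral_eq_of_subset_of_forall_sdiff_eq_zero mS sub
        fun w hw => z1 ?_, (G i).2, mul_zero]
      filter_upwards [cn.continuousAt.eventually (lt_mem_nhds
        (not_le.1 fun h => hw.2 ⟨h, hw.1.2⟩))] with v hv
      rw [f2 v hv.le, ofReal_zero, add_zero]) (by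
      filter_upwards [ae_restrict_mem (mT _ le_rfl)] with w hw
      have hψ := F.hol e he w (hρ (n1 w hw.1)) hw.2
      have m1 := hMAT.2 g k (jr (z ∘ e.symm) w) _ hA
      have m2 := m1.2.2 (ρ ^ 2)⁻¹ (by positivity)
      have m3 : ρ ^ (2 * g) * (ρ ^ 2)⁻¹ ^ g = 1 := by
        rw [pow_mul, ← mul_pow, mul_inv_cancel₀ (by positivity), one_pow]
      have m4 : 0 ≤ dP (z ∘ e.symm) w := (mul_nonneg_iff_of_pos_left (by positivity)).1
        (m1.1.trans_eq m2)
      have := θ0 (z (e.symm w))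
      refine ⟨mul_nonneg (by positivity) (mul_nonneg this (hMAT.2 g k _ _ (f3 w)).1),
        by positivity, ?_⟩
      by_cases hz : z (e.symm w) ∈ tsupport θ
      · obtain ⟨B, hB⟩ := val hCHR hψ hA.posSemidef (χ.eventuallyEq_one_of_mem_ball
          (mem_ball.2 ((n1 w hw.1).trans_lt (by simp only [χ]; linarith)))) f1 b1 hθ (b2 _ hz)
        obtain ⟨u1, u2⟩ := hN _ (hr f w) (jr (z ∘ e.symm) w) hA (f3 w)
        have u3 := u2 B
        simp only [real_smul] at u1 u3
        erw [Finset.sum_congr rfl fun i _ => congrArg ((c i : ℂ) * ·) (hB (σ i) (t i))]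
        simp only [Function.comp_apply, mul_add, Finset.sum_add_distrib, u3, mul_left_comm _ (θ (z (e.symm w)) : ℂ),
          ← Finset.mul_sum, u1, zero_add, RCLike.re_to_complex, re_ofReal_mul, sub_re, m2, dP]
        linear_combination (s ^ (2 * g) * θ (z (e.symm w)) *
          (jr (z ∘ e.symm) w * (jr (z ∘ e.symm) w)ᴴ).det.re) * m3
      · rw [Finset.sum_eq_zero fun i _ => ?_, image_eq_zero_of_notMem_tsupport hz]
        · simp
        rw [z2 ?_, mul_zero]
        filter_upwards [hψ.self_of_nhds.continuousAt.eventually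
          (notMem_tsupport_iff_eventuallyEq.1 hz)] with v hv
        rw [show θ (z (e.symm v)) = 0 from hv, mul_zero, ofReal_zero])
  rw [← lintegral_const_mul' _ _ ENNReal.ofReal_ne_top,
    ← lintegral_const_mul' _ _ ENNReal.ofReal_ne_top]
  refine ((setLIntegral_mono' (mT _ s2) fun w hw => ?_).trans ((lintegral_mono_set
    fun w hw => And.intro (hw.1.trans s2) hw.2).trans L)).trans_eq (lintegral_congr fun w =>
      ENNReal.ofReal_mul (by positivity))
  rw [← ENNReal.ofReal_mul (by positivity)]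
  have m1 := hMAT.2 g k (jr (z ∘ e.symm) w) ((c₀ / s ^ 2) • 1)
    (Matrix.PosDef.one.smul (by positivity))
  have m2 := (m1.2.2 _ (by positivity)).symm.trans_le (m1.2.1 _ (f4 w hw.1))
  refine ENNReal.ofReal_le_ofReal (le_trans (le_of_eq ?_) (mul_le_mul_of_nonneg_left
    (mul_le_mul_of_nonneg_left m2 (θ0 _)) (by positivity)))
  rw [dP, div_pow, ← pow_mul]
  field_simp

end Pool.Agent.Lib.CY
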