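import Pool.Agent.Lib.CY.Blue

/-! Project cy, row ORT: a unitary matrix whose first columns are in the kernel. -/

open scoped Matrix
open Set Complex Module

noncomputable section

namespace Pool.Agent.Lib.CY

theorem cORT : St_ORT := by
  intro g k P
  set T : EuclideanSpace ℂ (Fin (g + k)) →ₗ[ℂ] Fin k → ℂ :=
    P.mulVecLin ∘ₗ (WithLp.linearEquiv 2 ℂ (Fin (g + k) → ℂ)).toLinearMap with hT
  have h1 : g ≤ finrank ℂ (LinearMap.ker T) := by
    have e1 := T.finrank_range_add_finrank_ker
    have e2 := (LinearMap.range T).finrank_le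
    rw [finrank_euclideanSpace_fin] at e1
    rw [finrank_fin_fun] at e2
    omega
  set c := stdOrthonormalBasis ℂ (LinearMap.ker T) with hc
  have h2 : Orthonormal ℂ ({i : Fin (g + k) | i.val < g}.domRestrict fun i =>
      if h : i.val < g then (c ⟨i, h.trans_le h1⟩ : EuclideanSpace ℂ (Fin (g + k))) else 0) := by
    have h3 := (c.orthonormal.comp_linearIsometry (LinearMap.ker T).subtypeₗᵢ).comp
      (fun i : {i : Fin (g + k) | i.val < g} => ⟨i.1, lt_of_lt_of_le i.2 h1⟩)
      fun i j h => Subtype.ext (Fin.ext (Fin.mk.inj_iff.1 h))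
    refine (congrArg (Orthonormal ℂ) (funext fun i => ?_)).mp h3
    rw [domRestrict_apply, dif_pos (show i.1.val < g from i.2)]
    rfl
  obtain ⟨b, hb⟩ := h2.exists_orthonormalBasis_extension_of_card_eq finrank_euclideanSpace
  refine ⟨(EuclideanSpace.basisFun _ ℂ).toBasis.toMatrix b,
    (EuclideanSpace.basisFun _ ℂ).toMatrix_orthonormalBasis_conjTranspose_mul_self b, ?_⟩
  ext i j
  have h4 : T (b (Fin.castAdd k j)) = 0 := by
    rw [hb _ j.2, dif_pos (show (Fin.castAdd k j).val < g from j.2)]
    exact (c _).2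
  exact congrFun h4 i

end Pool.Agent.Lib.CY
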