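import Pool.Agent.Lib.CY.Blue

/-! Project cy, row PAT: the cell of an ultrafilter. -/

open scoped Classical Topology ContDiff ComplexOrder Matrix ENNReal
open Set MeasureTheory Complex Metric Filter

set_option linter.unusedVariables false

noncomputable section

namespace Pool.Agent.Lib.CY

open Pool.Agent.Lib.SV (E nsq)
open Pool.Agent.Lib.HS32 Pool.Agent.Lib.FI Pool.Agent.Lib.RB9

namespace PAT

variable {g k r : ℕ} {U : Set (E (g + k))} {ψ : E (g + k) → E k} {V V' : Set (E k)}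
  {a : E g → E k → Fin r → E (g + k)}

theorem mono (h : Sh U ψ V a) (hV : V' ⊆ V) : Sh U ψ V' a where
  mem y hy s hs := h.mem y hy s (hV hs)
  all s hs := h.all s (hV hs)
  hol φ hφ := (h.hol φ hφ).mono (prod_mono_right hV)
  con F hF := (h.con F hF).mono (prod_mono_right hV)
  gen := h.gen.mono fun v hv hm => hv ⟨hm.1, hV hm.2⟩

theorem hol (h : Sh U ψ V a) {φ : E (g + k) → ℂ} (hφ : Differentiable ℂ φ) {y : E g}
    (hy : ‖y‖ < 1) : DifferentiableOn ℂ (fun s => ∑ j, φ (a y s j)) V :=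
  (h.hol φ hφ.differentiableOn).comp
    ((differentiable_const y).prodMk differentiable_id).differentiableOn
    fun s hs => ⟨mem_ball_zero_iff.2 hy, hs⟩

theorem bd (h : Sh U ψ V a) {φ : E (g + k) → ℂ} (hφ : Differentiable ℂ φ) {y : E g}
    (hy : ‖y‖ < 1) : ∃ b : ℝ, ∀ s ∈ V, ‖∑ j, φ (a y s j)‖ ≤ b := by
  obtain ⟨b, hb⟩ := (isCompact_closedBall (0 : E (g + k)) 1).exists_bound_of_continuousOn
    hφ.continuous.continuousOn
  exact ⟨∑ j : Fin r, b, fun s hs => norm_sum_le_of_le _ fun j _ =>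
    hb _ (mem_closedBall_zero_iff.2 (h.mem y hy s hs j).1)⟩

theorem en {n : ℕ} {M : Mf n} {H : M.Fam (Mat n)} {p : M.X → ℝ} {z : M.X → E k} {f : E k → ℂ}
    {c c' t : ℝ} (l : ℂ) (hV : IsOpen V) (hf : DifferentiableOn ℂ f V) (h : En H p z V f c)
    (hc : t ^ 2 * c ≤ c') : En H p z V (fun s => (t : ℂ) * (f s - l)) c' := by
  intro θ h1 h2 ξ
  have e1 : ∫⁻ s in V, ENNReal.ofReal (θ s * normSq (fderiv ℂ (fun s => (t : ℂ) * (f s - l)) s ξ)) =
      ENNReal.ofReal (t ^ 2) * ∫⁻ s in V, ENNReal.ofReal (θ s * normSq (fderiv ℂ f s ξ)) := by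
    rw [← lintegral_const_mul' _ _ ENNReal.ofReal_ne_top]
    refine setLIntegral_congr_fun hV.measurableSet fun s hs => ?_
    have d := (((hf.differentiableAt (hV.mem_nhds hs)).hasFDerivAt.sub_const l).const_mul
      (t : ℂ)).fderiv
    rw [d, ← ENNReal.ofReal_mul (sq_nonneg t), smul_apply, smul_eq_mul, map_mul,
      normSq_ofReal]
    exact congrArg _ (by ring)
  rw [e1]
  refine (mul_le_mul_right (h θ h1 h2 ξ) _).trans ?_
  rw [← mul_assoc, ← ENNReal.ofReal_mul (sq_nonneg t)]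
  exact mul_le_mul_left (ENNReal.ofReal_le_ofReal hc) _

end PAT

open PAT in
theorem cPAT (hGHB : St_GHB) (hLSC : St_LSC) (hHAU : St_HAU) (hSC2 : St_SC2) (hEUC : St_EUC)
    (hCNT : St_CNT) (hSHT : St_SHT) (hCVR : St_CVR) (hENM : St_ENM) (hEN2 : St_EN2)
    (hSEP : St_SEP) : St_PAT := by
  intro g k M _ H p z C V₀ r Ψ Q W hy hQ hW
  obtain ⟨-, -, -, -, -, -, -, hL⟩ := hGHB M.X (E k) {x | 0 < p x} z
  obtain ⟨cA, ev, -⟩ := hL W
  obtain ⟨S, c, hF⟩ := hSC2 g k M H p z C V₀ r Ψ Q _ hy hQ cA (hHAU g k M H p z C V₀ r Ψ W hy hW)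
  have e1 := fun e : S => hEUC g k M H p z C V₀ e.1 hy.fb hy.vol (hF.sc e.1 e.2).1
  choose ce hE using fun e : S => (e1 e).2.1
  choose R ρ hC using fun e : S => hCNT g k _ _ _ _ (hE e)
  have e3 : ∀ e : S, ∃ n : ℕ, ∀ᶠ s in (W : Filter (E k)), ρ e s = n := fun e => by
    obtain ⟨n, hn⟩ := Ultrafilter.eventually_exists_iff.1 (Eventually.of_forall fun s =>
      (⟨⟨ρ e s, Nat.lt_succ_of_le ((hC e).le s)⟩, rfl⟩ : ∃ n : Fin (R e + 1), ρ e s = n) :
        ∀ᶠ s in (W : Filter (E k)), ∃ n : Fin (R e + 1), ρ e s = n)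
    exact ⟨n, hn⟩
  choose d hd using e3
  choose a hS using fun e : S => hSHT g k _ _ _ _ (R e) (d e) (ρ e) (hE e) (hC e)
  have oK : IsOpen (⋃ e : S, Ks e.1)ᶜ :=
    (isClosed_iUnion_of_finite fun e : S => (e1 e).1.isClosed).isOpen_compl
  have AK : Lm {x | 0 < p x} z W ⊆ (⋃ e : S, Ks e.1)ᶜ := fun x hx h => by
    obtain ⟨e, he⟩ := mem_iUnion.1 h
    exact disjoint_left.1 (hF.sc e.1 e.2).2.1 hx he
  obtain ⟨N, oN, AN, NK⟩ := normal_exists_closure_subset cA oK AK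
  have zs : ∀ s, Gh {x | 0 < p x} z s ⊆ (⋃ e : S, Ks e.1)ᶜ → ∀ e : S, s ∈ Zs p z e.1 :=
    fun s h e => disjoint_left.2 fun x hx hk => h hx (mem_iUnion.2 ⟨e, hk⟩)
  set V : Set (E k) := {s | ∀ e : S, s ∈ Zs p z e.1 ∧ ρ e s = d e} with hV
  have oV : IsOpen V := isOpen_iff_mem_nhds.2 fun s hs => eventually_all.2 fun e =>
    (((hC e).lc s (hs e).1).and ((hE e).oZ.mem_nhds (hs e).1)).mono fun s' h =>
      ⟨h.2, h.1.trans (hs e).2⟩
  have VW : V ∈ W := ((ev inferInstance _ oK AK).and (eventually_all.2 hd)).mono fun s h e =>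
    ⟨zs s h.1 e, h.2 e⟩
  have hS' : ∀ e : S, Sh (Uc p e.1) (z ∘ e.1.symm) V (a e) := fun e => mono (hS e) fun s h => h e
  obtain ⟨cv, hcv⟩ := hCVR g k M H p z C c Q _ S V d a hy.fb hF oV hS'
  obtain ⟨m, F, l, ε, e0, h1, h2⟩ := hSEP g k M H p z c Q _ S V d a W N hF hS' VW oN AN
  have e4 : ∀ i, DifferentiableOn ℂ (F i) V ∧ ∃ b : ℝ, 0 ≤ b ∧
      (∀ s ∈ V, ‖((4 / ε : ℝ) : ℂ) * (F i s - l i)‖ ≤ b) ∧ ∀ c', b ≤ c' →
        En H p z V (fun s => ((4 / ε : ℝ) : ℂ) * (F i s - l i)) c' := fun i => by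
    obtain ⟨e, φ, y, hφ, h3, h4⟩ := (h1 i).2
    obtain ⟨b, hb⟩ := bd (hS' e) hφ h3
    obtain ⟨c₁, c0, hc⟩ := hENM g k _ M H p z C e.1 V (a e) φ y hy.fb (hF.sc e.1 e.2).1 oV (hS' e)
      hφ.differentiableOn h3
    rw [h4]
    refine ⟨hol (hS' e) hφ h3, max ((4 / ε) ^ 2 * c₁) (‖((4 / ε : ℝ) : ℂ)‖ * (b + ‖l i‖)),
      le_max_of_le_left (by positivity), fun s hs => le_max_of_le_right ?_, fun c' h =>
        en _ oV (hol (hS' e) hφ h3) hc ((le_max_left _ _).trans h)⟩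
    rw [norm_mul]
    exact mul_le_mul_of_nonneg_left ((norm_sub_le _ _).trans (add_le_add_left (hb s hs) _))
      (norm_nonneg _)
  choose b b0 hb he using fun i => (e4 i).2
  have s0 : 0 ≤ ∑ i, b i := Finset.sum_nonneg fun i _ => b0 i
  have s1 : ∀ i, b i ≤ ∑ i, b i := fun i =>
    Finset.single_le_sum (fun i _ => b0 i) (Finset.mem_univ i)
  have hf : DifferentiableOn ℂ (fun s i => ((4 / ε : ℝ) : ℂ) * (F i s - l i)) V :=
    differentiableOn_pi.2 fun i => ((e4 i).1.sub_const _).const_mul _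
  refine ⟨⟨V, m, fun s i => ((4 / ε : ℝ) : ℂ) * (F i s - l i), cv, m * ∑ i, b i, by positivity, hcv,
    hf, fun y hy' => ?_, hEN2 _ k m M H p z C _ r Ψ V _ hy.fb hy.rad oV hf s0
      fun i => he i _ (s1 i), fun y hg => ?_⟩, ?_⟩
  · refine (pi_norm_le_iff_of_nonneg (by positivity)).2 fun i => (hb i y hy').trans
      ((s1 i).trans (le_mul_of_one_le_left s0 ?_))
    exact_mod_cast i.pos
  · refine or_iff_not_imp_right.2 fun hn => ?_
    have fr : ∃ᶠ y' in 𝓝 y, y' ∈ V ∧ Gh {x | 0 < p x} z y' ⊆ N := by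
      refine (not_eventually.1 hn).mono fun y' h => ?_
      obtain ⟨m1, m2⟩ := Classical.not_imp.1 h
      refine ⟨m1, h2 y' m1 fun i => ?_⟩
      have := (norm_le_pi_norm _ i).trans (not_lt.1 m2)
      rw [norm_mul, norm_real, Real.norm_of_nonneg (by positivity), div_mul_eq_mul_div,
        div_le_iff₀ e0] at this
      linarith
    have gz : Gh {x | 0 < p x} z y ⊆ closure N := fun x hx => mem_closure_iff_nhds.2 fun T hT => by
      obtain ⟨y', ⟨-, q1⟩, x', q2, q3⟩ :=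
        (fr.and_eventually (hLSC g k M H p z C V₀ r Ψ hy y hg x hx T hT)).exists
      exact ⟨x', q3, q1 q2⟩
    intro e
    have yz := zs y (gz.trans NK) e
    obtain ⟨y', ⟨q1, -⟩, q2⟩ := (fr.and_eventually ((hC e).lc y yz)).exists
    exact ⟨yz, q2.symm.trans (q1 e).2⟩
  · have t : Tendsto (fun s => nsq fun i => ((4 / ε : ℝ) : ℂ) * (F i s - l i)) W
        (𝓝 (∑ i, normSq (((4 / ε : ℝ) : ℂ) * (l i - l i)))) :=
      tendsto_finsetSum _ fun i _ => (continuous_normSq.tendsto _).comp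
        ((((h1 i).1).sub_const _).const_mul _)
    simp only [sub_self, mul_zero, map_zero, Finset.sum_const_zero] at t
    exact (show ∀ᶠ y in (W : Filter (E k)), y ∈ V from VW).and (t.eventually_lt_const one_pos)

/-- The theorem from the cells. -/
theorem cCY (hPAT : St_PAT) : St_CY := by
  intro n k M _ H p z C V r Ψ Q hy hQ
  obtain ⟨g, rfl⟩ : ∃ g, n = g + k := ⟨n - k, (Nat.sub_add_cancel hy.fb.kn).symm⟩
  by_contra hn
  set G : Set (E k) := {y | Good H p z r p V y} with hG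
  set B : Pat H p z r V Q → Set (E k) := fun P => {y | y ∈ P.V ∧ nsq (P.f y) < 1} with hB
  have ne : (⨅ P : Option (Pat H p z r V Q), 𝓟 (P.elim G fun P => (B P)ᶜ)).NeBot := by
    refine ⟨fun h => hn ?_⟩
    obtain ⟨I, hI, T, hT, h0⟩ := mem_iInf.1 (empty_mem_iff_bot.2 h)
    have hJ : (some ⁻¹' I).Finite := hI.preimage (Option.some_injective _).injOn
    obtain ⟨N, P, hP⟩ := hJ.fin_param
    refine ⟨N, P, fun y hg => ?_⟩
    by_contra hy'
    have : y ∈ ⋂ i, T i := mem_iInter.2 fun i => by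
      refine mem_principal.1 (hT i) ?_
      obtain ⟨_ | P', hi⟩ := i
      · exact hg
      · obtain ⟨j, rfl⟩ : P' ∈ range P := hP.2 ▸ hi
        exact fun h => hy' ⟨j, h⟩
    rw [← h0] at this
    exact this
  obtain ⟨W, hW⟩ := Ultrafilter.exists_le (⨅ P : Option (Pat H p z r V Q),
    𝓟 (P.elim G fun P => (B P)ᶜ))
  obtain ⟨P, hP⟩ := hPAT g k M H p z C V r Ψ Q W hy hQ
    (le_principal_iff.1 (hW.trans (iInf_le _ none)))
  exact Ultrafilter.compl_mem_iff_notMem.1 (le_principal_iff.1 (hW.trans (iInf_le _ (some P)))) hP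

end Pool.Agent.Lib.CY
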