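import Pool.Agent.Lib.CY.Blue
import Pool.Agent.Lib.FI.B_FS

/-! Project cy: the cut logarithm. -/

open scoped Classical Topology ContDiff ComplexOrder Matrix
open Set Complex Filter

noncomputable section

namespace Pool.Agent.Lib.CY

open Pool.Agent.Lib.SV (E nsq)
open Pool.Agent.Lib.HS32 Pool.Agent.Lib.FI

namespace PSI

variable {k : ℕ}

theorem he {G G' G'' : ℝ → ℝ} (h1 : ∀ u > 0, HasDerivAt G (G' u) u)
    (h2 : ∀ u > 0, HasDerivAt G' (G'' u) u) {R : ℝ} (hR : 0 < R) (y w : E k) :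
    hr (fun w => G (R + nsq (w - y))) w = G' (R + nsq (w - y)) • (1 : Mat k) -
      (-G'' (R + nsq (w - y))) • Matrix.vecMulVec (w - y) (star (w - y)) := by
  have q0 : ∀ w : E k, 0 < R + nsq (w - y) := fun w => by linarith [EX.K62.nsq_nn (w - y)]
  ext i j
  have e : dz j (fun w => (G (R + nsq (w - y)) : ℂ)) =
      fun w => (G' (R + nsq (w - y)) : ℂ) * star (w j - y j) := funext fun w => by
    rw [dz_comp_real (u := fun w => R + nsq (w - y)) (h1 _ (q0 w)) (cd_diff (FS.sm R y w)), FS.d1]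
  have h : DifferentiableAt ℝ (fun w : E k => w j - y j) w := by fun_prop
  have h3 : DifferentiableAt ℝ (fun w : E k => w j) w := by fun_prop
  have d : DifferentiableAt ℝ (fun w : E k => (G' (R + nsq (w - y)) : ℂ)) w :=
    ofRealCLM.differentiableAt.comp w ((h2 _ (q0 w)).differentiableAt.comp w (cd_diff (FS.sm R y w)))
  rw [hr, hess_apply, e, dzb_mul d (diff_star h),
    dzb_comp_real (u := fun w => R + nsq (w - y)) (h2 _ (q0 w)) (cd_diff (FS.sm R y w)),
    ← star_dz_ofReal (cd_diff (cd_ofReal (FS.sm R y w))), FS.d1, dzb_star h,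
    dz_sub h3 (differentiableAt_const _), dz_coord, dz_const]
  simp only [Matrix.sub_apply, Matrix.smul_apply, Matrix.one_apply, Matrix.vecMulVec_apply,
    real_smul, Pi.star_apply, Pi.sub_apply, star_star, ofReal_neg, eq_comm (a := j)]
  split_ifs <;> simp only [sub_zero, star_one, star_zero] <;> ring

theorem psd {α β : ℝ} {a : E k} (h0 : 0 ≤ α) (h : β * nsq a ≤ α) :
    (α • (1 : Mat k) - β • Matrix.vecMulVec a (star a)).PosSemidef := by
  rcases le_total 0 β with b | b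
  · exact FS.psd b h
  · refine .of_dotProduct_mulVec_nonneg (FS.herm α β a) fun v => ?_
    rw [FS.quad, zero_le_real]
    nlinarith [mul_nonneg h0 (EX.K62.nsq_nn v), normSq_nonneg (star a ⬝ᵥ v)]

theorem prof : ∃ (Θ η η' : ℝ → ℝ) (C : ℝ), 0 < C ∧ ContDiff ℝ ∞ Θ ∧
    (∀ x, HasDerivAt Θ (η x) x ∧ HasDerivAt η (η' x) x ∧ 0 ≤ η x ∧ -η' x * Real.exp (-x) ≤ C) ∧
    (∀ x, 0 ≤ x → Θ x = 0) ∧ ∀ x ≤ -1 / 2, η x = 1 ∧ η' x = 0 := by
  set η : ℝ → ℝ := fun x => Real.smoothTransition (-2 * x)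
  have c : ContDiff ℝ ∞ η := Real.smoothTransition.contDiff.comp (contDiff_const.mul contDiff_id)
  have d := fun x => (c.continuous.integral_hasStrictDerivAt 0 x).hasDerivAt
  have z : ∀ x, 0 ≤ x → η x = 0 := fun x h => Real.smoothTransition.zero_of_nonpos (by linarith)
  have o : ∀ x ≤ -1 / 2, η x = 1 ∧ deriv η x = 0 := fun x h =>
    have a : η x = 1 := Real.smoothTransition.one_of_one_le (by linarith)
    ⟨a, IsLocalMax.deriv_eq_zero (Eventually.of_forall fun y =>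
      (Real.smoothTransition.le_one _).trans_eq a.symm)⟩
  obtain ⟨C, hC⟩ := (isCompact_Icc (a := (-1 / 2 : ℝ)) (b := 0)).exists_bound_of_continuousOn
    (f := fun x => -deriv η x * Real.exp (-x))
    (((c.continuous_deriv (by simp)).neg.mul (by fun_prop)).continuousOn)
  refine ⟨fun x => ∫ t in (0 : ℝ)..x, η t, η, deriv η, |C| + 1, by positivity,
    contDiff_infty_iff_deriv.2 ⟨fun x => (d x).differentiableAt,
      (funext fun x => (d x).deriv : deriv _ = η).symm ▸ c⟩,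
    fun x => ⟨d x, (c.differentiable (by simp) x).hasDerivAt, Real.smoothTransition.nonneg _, ?_⟩,
    fun x h => ?_, o⟩
  · by_cases h : x ∈ Icc (-1 / 2 : ℝ) 0
    · linarith [le_abs_self C, (le_abs_self _).trans (hC x h)]
    have e : deriv η x = 0 := by
      rcases le_total x 0 with a | a
      · exact (o x (le_of_not_ge fun b => h ⟨b, a⟩)).2
      · exact IsLocalMin.deriv_eq_zero (Eventually.of_forall fun y =>
          (z x a).trans_le (Real.smoothTransition.nonneg _))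
    rw [e, neg_zero, zero_mul]
    positivity
  · exact (intervalIntegral.integral_congr (g := fun _ => 0) fun t ht => z t (by
      rw [uIcc_of_le h] at ht; exact ht.1)).trans intervalIntegral.integral_zero

end PSI

theorem cPSI : St_PSI := by
  intro n
  obtain ⟨Θ, η, η', C, C0, cΘ, hd, hz, ho⟩ := PSI.prof
  refine ⟨(2 * C)⁻¹ / 4, by positivity, fun a s ρ hs hρ => ?_⟩
  have ρ0 : 0 < ρ := by linarith
  have s2 : 0 < s ^ 2 := by positivity
  have q0 : ∀ w : E n, 0 < s ^ 2 + nsq (w - a) := fun w => by linarith [EX.K62.nsq_nn (w - a)]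
  have l : ∀ u > 0, HasDerivAt (fun u => Real.log u - Real.log (ρ ^ 2)) u⁻¹ u := fun u h =>
    (Real.hasDerivAt_log h.ne').sub_const _
  have e := PSI.he (G := fun u => (2 * C)⁻¹ * Θ (Real.log u - Real.log (ρ ^ 2)))
    (G' := fun u => (2 * C)⁻¹ * (η (Real.log u - Real.log (ρ ^ 2)) * u⁻¹))
    (G'' := fun u => (2 * C)⁻¹ * (η' (Real.log u - Real.log (ρ ^ 2)) * u⁻¹ * u⁻¹ +
      η (Real.log u - Real.log (ρ ^ 2)) * -(u ^ 2)⁻¹))
    (fun u h => ((hd _).1.comp u (l u h)).const_mul _)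
    (fun u h => (((hd _).2.1.comp u (l u h)).fun_mul (hasDerivAt_inv h.ne')).const_mul _) s2 a
  refine ⟨fun w => (2 * C)⁻¹ * Θ (Real.log (s ^ 2 + nsq (w - a)) - Real.log (ρ ^ 2)),
    contDiff_const.mul (cΘ.comp (contDiff_iff_contDiffAt.2 fun w =>
      ((FS.sm _ a w).log (q0 w).ne').sub contDiffAt_const)), fun w h => ?_, fun w => ?_,
    fun w h => ?_⟩
  · beta_reduce
    rw [hz _ (sub_nonneg.2 (Real.log_le_log (by positivity) (by linarith))), mul_zero]
  · obtain ⟨-, -, a1, a2⟩ := hd (Real.log (s ^ 2 + nsq (w - a)) - Real.log (ρ ^ 2))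
    have t0 := EX.K62.nsq_nn (w - a)
    have u0 := q0 w
    rw [neg_sub, Real.exp_sub, Real.exp_log (by positivity), Real.exp_log u0] at a2
    rw [e, ← add_halves (ρ ^ 2)⁻¹, add_smul, add_assoc, ← add_sub_assoc, ← add_smul]
    refine (Matrix.PosDef.one.smul (by positivity)).add_posSemidef (PSI.psd (by positivity) ?_)
    generalize η' _ = x at *
    generalize η _ = y at *
    generalize nsq (w - a) = t at *
    rw [← sub_nonneg]
    have b : (ρ ^ 2)⁻¹ / 2 + (2 * C)⁻¹ * (y * (s ^ 2 + t)⁻¹) - -((2 * C)⁻¹ * (x * (s ^ 2 + t)⁻¹ *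
        (s ^ 2 + t)⁻¹ + y * -((s ^ 2 + t) ^ 2)⁻¹)) * t = (2 * C * ρ ^ 2 * (s ^ 2 + t))⁻¹ *
        (C * s ^ 2 + (C - -x * (ρ ^ 2 / (s ^ 2 + t))) * t + y * s ^ 2 * ρ ^ 2 / (s ^ 2 + t)) := by
      field_simp
      ring
    have := sub_nonneg.2 a2
    rw [b]
    positivity
  · have t0 := EX.K62.nsq_nn (w - a)
    have u0 := q0 w
    obtain ⟨a1, a2⟩ := ho (Real.log (s ^ 2 + nsq (w - a)) - Real.log (ρ ^ 2)) (by
      rw [← Real.log_div u0.ne' (by positivity)]
      refine (Real.log_le_sub_one_of_pos (by positivity)).trans ?_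
      rw [sub_le_iff_le_add, div_le_iff₀ (by positivity)]
      nlinarith)
    rw [e, a1, a2, ← add_sub_assoc, ← add_smul, sub_right_comm, ← sub_smul]
    set t := nsq (w - a)
    have b : (2 * C)⁻¹ * (1 * (s ^ 2 + t)⁻¹) - (2 * C)⁻¹ / 4 / s ^ 2 -
        (2 * C)⁻¹ * ((s ^ 2 + t) ^ 2)⁻¹ * t = (8 * C * s ^ 2 * (s ^ 2 + t) ^ 2)⁻¹ * ((s ^ 2 - t) * (3 * s ^ 2 + t)) := by
      field_simp
      ring
    have b1 : 0 ≤ (8 * C * s ^ 2 * (s ^ 2 + t) ^ 2)⁻¹ * ((s ^ 2 - t) * (3 * s ^ 2 + t)) := by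
      have := sub_nonneg.2 h
      positivity
    have b2 : 0 ≤ (2 * C)⁻¹ * ((s ^ 2 + t) ^ 2)⁻¹ * t := by positivity
    have b3 : 0 ≤ (ρ ^ 2)⁻¹ := by positivity
    exact PSI.psd (by linarith) (by linarith)

end Pool.Agent.Lib.CY
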