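import Pool.Agent.Lib.CY.Blue
import Pool.Agent.Lib.FI.B_CON

/-! Project cy, row REG: the density at a regular point. -/

open scoped Classical Topology ContDiff ComplexOrder Matrix ENNReal
open Set MeasureTheory Complex Metric Filter

set_option linter.unusedVariables false

noncomputable section

namespace Pool.Agent.Lib.CY

open Pool.Agent.Lib.SV (E nsq)
open Pool.Agent.Lib.HS32 Pool.Agent.Lib.FI

namespace REG

variable {n : ℕ}

theorem chg (h : E n → ℝ≥0∞) (a : E n) {s : ℝ} (hs : 0 < s) :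
    ∫⁻ w, h w = ENNReal.ofReal (s ^ (2 * n)) * ∫⁻ u, h (a + s • u) := by
  have f : Module.finrank ℝ (E n) = 2 * n := by
    rw [Module.finrank_pi_fintype]
    simp [mul_comm]
  have e := lintegral_map_equiv (μ := (volume : Measure (E n))) (fun u => h (a + u))
    (Homeomorph.smulOfNeZero s hs.ne').toMeasurableEquiv
  have e2 : Measure.map (Homeomorph.smulOfNeZero s hs.ne').toMeasurableEquiv
      (volume : Measure (E n)) = ENNReal.ofReal |(s ^ Module.finrank ℝ (E n))⁻¹| • volume :=
    Measure.map_addHaar_smul volume hs.ne'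
  rw [e2, lintegral_smul_measure, lintegral_add_left_eq_self, f,
    abs_of_pos (by positivity)] at e
  refine Eq.trans ?_ (congrArg _ e)
  rw [smul_eq_mul, ← mul_assoc, ← ENNReal.ofReal_mul (by positivity),
    mul_inv_cancel₀ (by positivity), ENNReal.ofReal_one, one_mul]

theorem nsm (a : ℝ) (y : E n) : nsq (a • y) = a ^ 2 * nsq y := by
  simp only [nsq, Pi.smul_apply, real_smul, normSq_mul, normSq_ofReal, Finset.mul_sum, sq]

theorem nle {u : E n} (h : nsq u < 1) : ‖u‖ ≤ 1 := by
  refine (pi_norm_le_iff_of_nonneg zero_le_one).2 fun j => ?_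
  have h1 : normSq (u j) ≤ nsq u :=
    Finset.single_le_sum (f := fun j => normSq (u j)) (fun _ _ => normSq_nonneg _) (Finset.mem_univ j)
  rw [Complex.normSq_eq_norm_sq] at h1
  nlinarith [norm_nonneg (u j)]

theorem scm (r : E n → ℝ) (s e : ℝ) (y : E n) :
    sc r (s * e) y = (s ^ (2 * n))⁻¹ * sc r e (s⁻¹ • y) := by
  simp only [sc, coe_smul, smul_smul, mul_pow, mul_inv, mul_assoc, mul_comm e⁻¹ s⁻¹]

end REG

theorem cREG (hLIN : St_LIN) (hJAC : St_JAC) : St_REG := by
  intro g k r Ψ hR
  obtain ⟨c, c0, hc⟩ := hLIN g k r Ψ hR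
  refine ⟨c / 2, half_pos c0, fun ψ a hψ hd => ?_⟩
  obtain ⟨e, e0, he⟩ := hc (jr ψ a) fun h => hd (by rw [dP, h, zero_re])
  refine ⟨e, e0, ?_⟩
  obtain ⟨δ, δ0, hδ⟩ := Metric.mem_nhds_iff.1 (eventually_eventually_nhds.2 hψ)
  have cs := (CON.tst_sc hR.tr e0).sm.continuous
  have cn : Continuous fun u : E (g + k) => nsq u := by unfold nsq; fun_prop
  have mB : MeasurableSet {u : E (g + k) | nsq u < 1} := (isOpen_lt cn continuous_const).measurableSet
  let F : ℝ → E (g + k) → ℝ≥0∞ := fun s u =>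
    ENNReal.ofReal (sc r e (s⁻¹ • (ψ a - ψ (a + s • u))) * dP ψ (a + s • u))
  have lim : ∀ u, Tendsto (fun s => F s u) (𝓝[>] 0)
      (𝓝 (ENNReal.ofReal (sc r e (jr ψ a *ᵥ u) * (jr ψ a * (jr ψ a)ᴴ).det.re))) := fun u => by
    have h1 := ((hψ.self_of_nhds.hasFDerivAt.restrictScalars ℝ).hasLineDerivAt
      u).tendsto_slope_zero_right.neg
    have h2 : Tendsto (fun s : ℝ => a + s • u) (𝓝[>] 0) (𝓝 a) :=
      ((show Continuous fun s : ℝ => a + s • u by fun_prop).tendsto' 0 a (by simp)).mono_left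
        nhdsWithin_le_nhds
    have h3 : sc r e (jr ψ a *ᵥ u) = sc r e (-fderiv ℂ ψ a u) := by
      rw [((hJAC g k ψ a hψ).2.2.2.1 u).1]
      unfold sc
      rw [(hR.rad _ (((e⁻¹ : ℝ) : ℂ) • -(jr ψ a *ᵥ u)) (by simp [nsq])).1]
    rw [h3]
    refine ENNReal.tendsto_ofReal (((cs.tendsto _).comp (h1.congr fun s => ?_)).mul
      ((hJAC g k ψ a hψ).2.2.2.2.2.2.2.1.tendsto.comp h2))
    rw [← smul_neg, neg_sub]
  have key : ∀ᶠ s in 𝓝[>] (0 : ℝ), ENNReal.ofReal (c / 2) ≤ ∫⁻ u in {u | nsq u < 1}, F s u := by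
    by_contra hn
    obtain ⟨x, x1, x2⟩ := exists_seq_forall_of_frequently
      ((not_eventually.1 hn).and_eventually (Ioo_mem_nhdsGT δ0))
    have mF : ∀ i, AEMeasurable (F (x i)) (volume.restrict {u | nsq u < 1}) := fun i => by
      refine (ContinuousOn.aemeasurable (fun u hu => ?_) mB).ennreal_ofReal
      have h1 : HolN ψ (a + x i • u) := hδ (by
        rw [mem_ball_iff_norm, add_sub_cancel_left, norm_smul, Real.norm_of_nonneg (x2 i).2.1.le]
        exact (mul_le_of_le_one_right (x2 i).2.1.le (REG.nle hu)).trans_lt (x2 i).2.2)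
      have h2 : ContinuousAt (fun u : E (g + k) => a + x i • u) u := by fun_prop
      have h3 := h1.self_of_nhds.continuousAt.comp (f := fun u => a + x i • u) h2
      have h4 := (hJAC g k ψ _ h1).2.2.2.2.2.2.2.1.comp (f := fun u => a + x i • u) h2
      exact ((cs.continuousAt.comp ((continuousAt_const.sub h3).const_smul (x i)⁻¹)).mul
        h4).continuousWithinAt
    have h6 := (he.trans (le_of_eq (lintegral_congr fun u =>
      ((lim u).comp x1).liminf_eq.symm))).trans (lintegral_liminf_le' (u := atTop) mF)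
    have h7 := h6.trans (liminf_le_of_frequently_le'
      (Frequently.of_forall fun i => (not_le.1 (x2 i).1).le))
    rw [ENNReal.ofReal_le_ofReal_iff (half_pos c0).le] at h7
    linarith
  filter_upwards [key, self_mem_nhdsWithin] with s hs s0
  have s0 : 0 < s := s0
  have mS : MeasurableSet {w : E (g + k) | nsq (w - a) ≤ s ^ 2} :=
    (isClosed_le (cn.comp (continuous_id.sub continuous_const)) continuous_const).measurableSet
  rw [← lintegral_indicator mS, REG.chg _ a s0]
  calc _ = ENNReal.ofReal (s ^ (2 * (g + k))) *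
        (ENNReal.ofReal (s ^ (2 * k))⁻¹ * ENNReal.ofReal (c / 2)) := by
        rw [← ENNReal.ofReal_mul (by positivity), ← ENNReal.ofReal_mul (by positivity)]
        refine congrArg _ ?_
        rw [mul_add, pow_add]
        field_simp
    _ ≤ _ := by
        refine mul_le_mul' le_rfl ((mul_le_mul' le_rfl hs).trans ?_)
        rw [← lintegral_const_mul' _ _ ENNReal.ofReal_ne_top, ← lintegral_indicator mB]
        refine lintegral_mono fun u => ?_
        by_cases hu : u ∈ {u : E (g + k) | nsq u < 1}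
        swap
        · exact (indicator_of_notMem hu _).trans_le zero_le
        have h1 : a + s • u ∈ {w : E (g + k) | nsq (w - a) ≤ s ^ 2} := by
          show nsq (a + s • u - a) ≤ s ^ 2
          rw [add_sub_cancel_left, REG.nsm]
          exact mul_le_of_le_one_right (sq_nonneg s) (le_of_lt hu)
        rw [indicator_of_mem h1, indicator_of_mem hu, REG.scm, mul_assoc, ENNReal.ofReal_mul (by positivity)]

end Pool.Agent.Lib.CY
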