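import Pool.Agent.Lib.CY.Blue

/-! Project cy, row SC1: the scales around a point. -/

open scoped Classical Topology
open Set Metric Filter

noncomputable section

namespace Pool.Agent.Lib.CY

open Pool.Agent.Lib.SV (E)
open Pool.Agent.Lib.HS32 Pool.Agent.Lib.FI

theorem cSC1 (hAFF : St_AFF) (hSC0 : St_SC0) (hCMP : St_CMP) (hBAS : St_BAS) : St_SC1 := by
  intro g k M _ H p z C V r Ψ Q A hy hQ hA hS x
  obtain ⟨W, hW⟩ := (mCOV _ M).2.2.1
  obtain ⟨b, hx, ha, -⟩ := W.cov x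
  have h4 := W.sub b
  have he := W.mem b
  rw [(hW b).1, (hW b).2] at ha h4
  rw [mul_one] at h4
  generalize W.e b = e at hx ha h4 he
  have h1 : closedBall 0 1 ⊆ e.target := (closedBall_subset_closedBall (by norm_num)).trans h4
  have tg : ∀ w, ‖w‖ < 1 → w ∈ e.target := fun w hw => h1 (mem_closedBall_zero_iff.2 hw.le)
  have cs := e.continuousOn_symm.mono h1
  obtain ⟨c', c1, hc', -⟩ := hCMP g k M H p z C e _ hy.fb he (isCompact_closedBall 0 1) h1
  obtain ⟨m, L, c, c0, hL, hc⟩ := hSC0 g k (ball 0 1 ∩ e.symm ⁻¹' {x | 0 < p x})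
    {a | ‖a‖ ≤ 1 ∧ e.symm a ∈ A} (ball 0 1 ∩ e.symm ⁻¹' Q x) (z ∘ e.symm) (e x)
    ((cs.mono ball_subset_closedBall).isOpen_inter_preimage isOpen_ball
      (hBAS _ k M H p z C hy.fb).1)
    (fun w hw => ⟨hy.fb.hol e he w (h1 (ball_subset_closedBall hw.1)) hw.2, fun h0 => by
      have := (hc' w (ball_subset_closedBall hw.1) hw.2).2.2.2.1
      rw [h0, mul_zero] at this
      exact this.not_gt ((hy.jc.pos _).1 hw.2).2⟩)
    (by
      simp only [← mem_closedBall_zero_iff]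
      exact (isCompact_closedBall 0 1).of_isClosed_subset
        (cs.preimage_isClosed_of_isClosed isClosed_closedBall hA) inter_subset_left)
    (hS e he h4) (inter_mem (isOpen_ball.mem_nhds ha)
      ((e.continuousAt_symm (e.map_source hx)).preimage_mem_nhds (by rw [e.left_inv hx]; exact hQ x)))
  choose e' m' s' t' y' a' using fun i => hAFF _ M e he (e x) (L i)
  have ez : ∀ i, z ∘ (e' i).symm = fun u => (z ∘ e.symm) (e x + L i u) := fun i =>
    funext fun u => congrArg z (y' i u)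
  refine ⟨⋂ i, (e' i).source ∩ e' i ⁻¹' ball 0 (1 / 2), Finset.univ.image e', c' * c,
    ⟨fun d hd => ?_, isOpen_iInter_of_finite fun i => (e' i).isOpen_inter_preimage isOpen_ball,
      mul_nonneg (zero_le_one.trans c1) c0, fun y hy' => ?_, fun y hy' hp => ?_⟩,
    mem_iInter.2 fun i => ⟨(s' i).symm ▸ hx, by simp [a']⟩⟩
  · obtain ⟨i, -, rfl⟩ := Finset.mem_image.1 hd
    obtain ⟨l1, l2, l3⟩ := hL i
    refine ⟨⟨m' i, fun w hw => (t' i w).2 (h1 (ball_subset_closedBall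
      (l1 w (mem_closedBall_zero_iff.1 hw)).1)), fun w hw hn => ?_⟩, disjoint_left.2 ?_, x, ?_⟩
    · refine closure_mono (fun u hu => ?_) (isOpen_ball.inter_closure ⟨mem_ball_zero_iff.2 hn,
        l3 w ⟨(l1 w hw.1.le).1, hw.2.trans_eq (congrArg p (y' i w))⟩⟩)
      have := mem_ball_zero_iff.1 hu.1
      exact ⟨⟨this.trans one_lt_two, lt_of_lt_of_eq hu.2.1.2 (congrArg p (y' i u).symm)⟩, this,
        ez i ▸ hu.2.2⟩
    · rintro _ h ⟨w, hw, rfl⟩
      exact l2 w hw ⟨(mem_ball_zero_iff.1 (l1 w (hw.1.trans one_le_two)).1).le, y' i w ▸ h⟩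
    · rintro _ ⟨w, hw, rfl⟩
      exact (y' i w).symm ▸ (l1 w (mem_ball_zero_iff.1 hw).le).2
  · have := mem_iInter.1 hy' 0
    exact ⟨_, Finset.mem_image_of_mem _ (Finset.mem_univ 0), this.1, mem_ball_zero_iff.1 this.2⟩
  · have h0 := mem_iInter.1 hy' 0
    have hs : y ∈ e.source := s' 0 ▸ h0.1
    have hb := ((hL 0).1 _ ((mem_ball_zero_iff.1 h0.2).le.trans (by norm_num))).1
    rw [a', ContinuousLinearEquiv.apply_symm_apply, add_sub_cancel] at hb
    have hp' : 0 < p (e.symm (e y)) := by rwa [e.left_inv hs]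
    obtain ⟨i, hi⟩ := hc (e y) ⟨hb, hp'⟩
    have := (hc' _ (ball_subset_closedBall hb) hp').2.2.2.1
    rw [e.left_inv hs] at this
    have hi' := mem_iInter.1 hy' i
    refine ⟨_, Finset.mem_image_of_mem _ (Finset.mem_univ i), hi'.1, mem_ball_zero_iff.1 hi'.2, ?_⟩
    rw [ez, a', mul_assoc]
    exact this.trans (mul_le_mul_of_nonneg_left hi (zero_le_one.trans c1))

end Pool.Agent.Lib.CY
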