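import Pool.Agent.Lib.CY.Blue

/-! Project cy, row SC2. -/

open scoped Classical Topology
open Set Complex Filter

noncomputable section

namespace Pool.Agent.Lib.CY

theorem cSC2 (hSC1 : St_SC1) : St_SC2 := by
  intro g k M _ H p z C V r Ψ Q A hy hQ hA hs
  choose N S c h1 h2 using hSC1 g k M H p z C V r Ψ Q A hy hQ hA hs
  obtain ⟨T, hT⟩ := isCompact_univ.elim_finite_subcover N (fun x => (h1 x).oN)
    fun x _ => mem_iUnion.2 ⟨x, h2 x⟩
  have ex : ∀ x, ∃ y ∈ T, x ∈ N y := fun x => by simpa using hT (mem_univ x)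
  refine ⟨T.biUnion S, ∑ y ∈ T, c y, fun e he => ?_, isOpen_univ,
    Finset.sum_nonneg fun y _ => (h1 y).c0, fun x _ => ?_, fun x _ hx => ?_⟩
  · obtain ⟨y, -, hy⟩ := Finset.mem_biUnion.1 he
    exact (h1 y).sc e hy
  · obtain ⟨y, hy, hx⟩ := ex x
    obtain ⟨e, he, h⟩ := (h1 y).cov x hx
    exact ⟨e, Finset.mem_biUnion.2 ⟨y, hy, he⟩, h⟩
  · obtain ⟨y, hy, hn⟩ := ex x
    obtain ⟨e, he, a, b, d⟩ := (h1 y).low x hn hx
    exact ⟨e, Finset.mem_biUnion.2 ⟨y, hy, he⟩, a, b, d.trans (mul_le_mul_of_nonneg_right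
      (Finset.single_le_sum (fun y _ => (h1 y).c0) hy) (normSq_nonneg _))⟩

end Pool.Agent.Lib.CY
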