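import Pool.Agent.Lib.CY.Blue

/-! Project cy, row SCL: a generic shell misses a small compact set. -/

open scoped Classical Topology ContDiff ComplexOrder Matrix ENNReal
open Set MeasureTheory Complex Metric Filter

noncomputable section

namespace Pool.Agent.Lib.CY

open Pool.Agent.Lib.SV (E nsq)

namespace SCL

theorem cl {X Y : Type} [TopologicalSpace X] [TopologicalSpace Y] {A : Set X} (hA : IsCompact A)
    {C : Set (X × Y)} (hC : IsClosed C) : IsClosed {y | ∃ w ∈ A, (w, y) ∈ C} := by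
  have := isCompact_iff_compactSpace.1 hA
  have h := isClosedMap_snd_of_compactSpace (X := A) (Y := Y) _
    (hC.preimage ((continuous_subtype_val.comp continuous_fst).prodMk continuous_snd))
  have e : {y | ∃ w ∈ A, (w, y) ∈ C} =
      Prod.snd '' ((fun x : A × Y => ((Subtype.val ∘ Prod.fst) x, x.2)) ⁻¹' C) :=
    Set.ext fun y => ⟨fun ⟨w, hw, h⟩ => ⟨(⟨w, hw⟩, y), h, rfl⟩,
      fun ⟨x, h, e⟩ => ⟨x.1, x.1.2, e ▸ h⟩⟩
  rwa [e]

variable {g k : ℕ}

theorem dX (a : E (g + k)) (j : Fin k) : ContDiff ℝ 1 fun w : E (g + k) => pX (w - a) j :=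
  (contDiff_apply ℝ ℂ (Fin.natAdd g j)).comp (contDiff_id.sub contDiff_const)

theorem dY (a : E (g + k)) (i : Fin g) : ContDiff ℝ 1 fun w : E (g + k) => pY (w - a) i :=
  (contDiff_apply ℝ ℂ (Fin.castAdd k i)).comp (contDiff_id.sub contDiff_const)

theorem eqc (a : E (g + k)) :
    IsClosed {x : E (g + k) × Mx g k | pY (x.1 - a) = Matrix.of x.2 *ᵥ pX (x.1 - a)} :=
  isClosed_eq (continuous_pi fun i => (dY a i).continuous.comp continuous_fst)
    (continuous_pi fun i => continuous_finsetSum Finset.univ fun l _ =>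
      ((continuous_apply l).comp ((continuous_apply i).comp continuous_snd)).mul
        ((dX a l).continuous.comp continuous_fst))

theorem den {A : Set (E (g + k))} (a : E (g + k)) {δ : ℝ}
    (hd : dimH A ≤ ((2 * g : ℕ) : ℝ≥0∞)) (h0 : 0 < δ) (j : Fin k) :
    Dense {q : Mx g k × ℝ | ∃ w ∈ A, δ ≤ q.2 ∧ ‖pX (w - a) j‖ = q.2 ∧
      pY (w - a) = Matrix.of q.1 *ᵥ pX (w - a)}ᶜ := by
  rw [← interior_eq_empty_iff_dense_compl, eq_empty_iff_forall_notMem]
  rintro ⟨B, s⟩ hq
  let F : E (g + k) → E g × ℝ := fun w => (fun i => (pY (w - a) i -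
    ∑ l ∈ Finset.univ.erase j, B i l * pX (w - a) l) / pX (w - a) j, ‖pX (w - a) j‖)
  have h1 : dimH (F '' {w | w ∈ A ∧ pX (w - a) j ≠ 0}) ≤ dimH {w | w ∈ A ∧ pX (w - a) j ≠ 0} := by
    refine dimH_image_le_of_locally_lipschitzOn fun w hw => ?_
    have h2 : ContDiffAt ℝ 1 F w := (contDiffAt_pi.2 fun i => (((dY a i).sub
      (ContDiff.sum fun l _ => contDiff_const.mul (dX a l))).contDiffAt.mul
        ((dX a j).contDiffAt.inv hw.2)).congr_of_eventuallyEq
          (Eventually.of_forall fun _ => div_eq_mul_inv _ _)).prodMk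
      ((dX a j).contDiffAt.norm ℂ hw.2)
    obtain ⟨K, t, ht, hK⟩ := h2.exists_lipschitzOnWith
    exact ⟨K, t, mem_nhdsWithin_of_mem_nhds ht, hK⟩
  have h3 : Dense (F '' {w | w ∈ A ∧ pX (w - a) j ≠ 0})ᶜ := by
    refine dense_compl_of_dimH_lt_finrank
      ((h1.trans ((dimH_mono fun _ h => h.1).trans hd)).trans_lt ?_)
    rw [Module.finrank_prod, Module.finrank_pi_fintype, Module.finrank_self]
    simp only [finrank_real_complex, Finset.sum_const, Finset.card_univ, Fintype.card_fin,
      smul_eq_mul, Nat.cast_lt]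
    omega
  have c1 : Continuous fun v : E g × ℝ =>
      ((fun i => Function.update (B i) j (v.1 i), v.2) : Mx g k × ℝ) :=
    (continuous_pi fun i => (continuous_const (y := B i)).update j
      (g := fun v : E g × ℝ => v.1 i)
      ((continuous_apply i).comp continuous_fst)).prodMk continuous_snd
  obtain ⟨v, v1, v2⟩ := h3.inter_open_nonempty _ (isOpen_interior.preimage c1)
    ⟨(fun i => B i j, s), by simpa only [mem_preimage, Function.update_eq_self] using hq⟩
  obtain ⟨w, hw, w1, w2, w3⟩ := interior_subset v1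
  have w0 : pX (w - a) j ≠ 0 := norm_pos_iff.1 (w2 ▸ h0.trans_le w1)
  refine v2 ⟨w, ⟨hw, w0⟩, Prod.ext (funext fun i => ?_) w2⟩
  have w4 : pY (w - a) i = ∑ l, Function.update (B i) j (v.1 i) l * pX (w - a) l := congrFun w3 i
  rw [← Finset.add_sum_erase _ _ (Finset.mem_univ j), Function.update_self,
    Finset.sum_congr rfl fun l hl => by rw [Function.update_of_ne (Finset.ne_of_mem_erase hl)]]
    at w4
  change (_ - _) / _ = _
  rw [w4, add_sub_cancel_right, mul_div_cancel_right₀ _ w0]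

end SCL

theorem cSCL : St_SCL := by
  intro g k A a δ hA hd h0
  have cx : Continuous fun w : E (g + k) => pX (w - a) :=
    continuous_pi fun j => (SCL.dX a j).continuous
  refine ⟨isOpen_iff_mem_nhds.2 fun B ⟨s, hs, hB⟩ => ?_, dense_iff_inter_open.2 fun U hU ⟨B, hB⟩ => ?_⟩
  · have h := SCL.cl hA ((isClosed_eq (cx.comp continuous_fst).norm
      (continuous_const (y := s))).inter (SCL.eqc a))
    filter_upwards [h.isOpen_compl.mem_nhds fun ⟨w, hw, h1, h2⟩ => hB w hw h1 h2] with B' hB'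
    exact ⟨s, hs, fun w hw h1 h2 => hB' ⟨w, hw, h1, h2⟩⟩
  · have h2 := half_pos h0
    have h := dense_iInter_of_isOpen (fun j => (SCL.cl hA
      ((isClosed_le continuous_const (continuous_snd.comp continuous_snd)).inter
        ((isClosed_eq ((SCL.dX a j).continuous.comp continuous_fst).norm
          (continuous_snd.comp continuous_snd)).inter ((SCL.eqc a).preimage
            (continuous_fst.prodMk (continuous_fst.comp continuous_snd)))))).isOpen_compl)
      fun j => SCL.den a hd h2 j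
    obtain ⟨q, ⟨q1, q2⟩, q3⟩ := h.inter_open_nonempty _ (hU.prod (isOpen_Ioo (a := δ / 2) (b := δ)))
      ⟨(B, 3 * δ / 4), hB, by linarith, by linarith⟩
    refine ⟨q.1, q1, q.2, ⟨h2.trans q2.1, q2.2⟩, fun w hw h1 h3 => ?_⟩
    refine ((pi_norm_lt_iff (h2.trans q2.1)).2 fun j => ?_).ne h1
    exact ((norm_le_pi_norm _ j).trans h1.le).lt_of_ne fun h4 =>
      mem_iInter.1 q3 j ⟨w, hw, q2.1.le, h4, h3⟩

end Pool.Agent.Lib.CY
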