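import Pool.Agent.Lib.CY.Blue

/-! Project cy: finitely many traces keep the fibres near the limit set. -/

open scoped Classical Topology
open Set Metric Filter

noncomputable section

namespace Pool.Agent.Lib.CY

open Pool.Agent.Lib.SV (E)
open Pool.Agent.Lib.HS32

namespace SEP

theorem lim {α β : Type} [NormedAddCommGroup β] [ProperSpace β] (U : Ultrafilter α) (f : α → β)
    (C : ℝ) (h : ∀ᶠ d in U, ‖f d‖ ≤ C) : ∃ b, Tendsto f U (𝓝 b) := by
  obtain ⟨b, -, hb⟩ := (isCompact_closedBall (0 : β) C).ultrafilter_le_nhds' (U.map f)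
    (h.mono fun d hd => mem_closedBall_zero_iff.2 hd)
  exact ⟨b, hb⟩

variable {g k r : ℕ} {U : Set (E (g + k))} {ψ : E (g + k) → E k} {V : Set (E k)}
  {a : E g → E k → Fin r → E (g + k)}

theorem bd (h : Sh U ψ V a) {φ : E (g + k) → ℂ} (hφ : Differentiable ℂ φ) :
    ∃ C : ℝ, ∀ y, ‖y‖ < 1 → ∀ s ∈ V, ‖∑ j, φ (a y s j)‖ ≤ C := by
  obtain ⟨C, hC⟩ := (isCompact_closedBall (0 : E (g + k)) 1).exists_bound_of_continuousOn
    hφ.continuous.continuousOn
  exact ⟨∑ _j : Fin r, C, fun y hy s hs => norm_sum_le_of_le _ fun j _ =>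
    hC _ (mem_closedBall_zero_iff.2 (h.mem y hy s hs j).1)⟩

theorem lip (h : Sh U ψ V a) {φ : E (g + k) → ℂ} (hφ : Differentiable ℂ φ) {y₀ : E g}
    (h0 : ‖y₀‖ < 1 / 2) : ∃ C : ℝ, ∀ y ∈ ball y₀ (1 / 2), ∀ s ∈ V,
      dist (∑ j, φ (a y s j)) (∑ j, φ (a y₀ s j)) ≤ C * dist y y₀ := by
  obtain ⟨C, hC⟩ := bd h hφ
  have b : ∀ y ∈ ball y₀ (1 / 2), ‖y‖ < 1 := fun y hy => by
    have := norm_le_norm_add_norm_sub' y y₀
    rw [mem_ball_iff_norm] at hy
    linarith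
  refine ⟨(C + C) / (1 / 2), fun y hy s hs =>
    Complex.dist_le_div_mul_dist_of_mapsTo_ball (f := fun y => ∑ j, φ (a y s j)) ?_ ?_ hy⟩
  · exact (h.hol φ hφ.differentiableOn).comp (f := fun y : E g => (y, s)) (by fun_prop)
      fun y hy => ⟨mem_ball_zero_iff.2 (b y hy), hs⟩
  · exact fun y hy => mem_closedBall_iff_norm.2 ((norm_sub_le _ _).trans
      (add_le_add (hC y (b y hy) s hs) (hC y₀ (by linarith) s hs)))

theorem npY (w : E (g + k)) : ‖pY w‖ ≤ ‖w‖ :=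
  (pi_norm_le_iff_of_nonneg (norm_nonneg _)).2 fun _ => norm_le_pi_norm w _

theorem cpY : Continuous (pY : E (g + k) → E g) := continuous_pi fun _ => continuous_apply _

theorem nrm (h : Sh U ψ V a) {y : E g} (hy : ‖y‖ < 1) {s : E k} (hs : s ∈ V) : ‖a y s‖ ≤ 1 :=
  (pi_norm_le_iff_of_nonneg zero_le_one).2 fun j => (h.mem y hy s hs j).1

theorem key (hITP : St_ITP) (h : Sh U ψ V a) {D : Type} (F : Ultrafilter D)
    (W : Ultrafilter (E k)) (hV : V ∈ W) (s : D → E k) (w : D → E (g + k)) (w₀ : E (g + k))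
    (h0 : ‖w₀‖ < 1 / 2) (hs : ∀ d, s d ∈ V) (hw : Tendsto w F (𝓝 w₀))
    (hg : ∀ᶠ d in F, w d ∈ Gh U ψ (s d))
    (hl : ∀ φ : E (g + k) → ℂ, Differentiable ℂ φ → ∃ l,
      Tendsto (fun s => ∑ j, φ (a (pY w₀) s j)) W (𝓝 l) ∧
      Tendsto (fun d => ∑ j, φ (a (pY w₀) (s d) j)) F (𝓝 l)) :
    ∃ j, Tendsto (fun s => a (pY w₀) s j) W (𝓝 w₀) := by
  have y0 : ‖pY w₀‖ < 1 / 2 := (npY _).trans_lt h0
  have w1 : ∀ᶠ d in F, ‖w d‖ < 1 := hw.norm.eventually_lt_const (by linarith)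
  have hy : Tendsto (fun d => pY (w d)) F (𝓝 (pY w₀)) := (cpY.tendsto _).comp hw
  obtain ⟨b, hb⟩ := lim F (fun d => a (pY (w d)) (s d)) 1
    (w1.mono fun d hd => nrm h ((npY _).trans_lt hd) (hs d))
  obtain ⟨b', hb'⟩ := lim W (fun s => a (pY w₀) s) 1
    (mem_of_superset hV fun s hs => nrm h (by linarith) hs)
  have e : range b = range b' := (hITP _ _ b b' fun φ hφ => by
    obtain ⟨l, h1, h2⟩ := hl φ hφ
    obtain ⟨C, hC⟩ := lip h hφ y0
    have c : Continuous fun b : Fin r → E (g + k) => ∑ j, φ (b j) := by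
      have := hφ.continuous
      fun_prop
    refine (tendsto_nhds_unique ((c.tendsto _).comp hb) (h2.congr_dist ?_)).trans
      (tendsto_nhds_unique h1 ((c.tendsto _).comp hb'))
    refine squeeze_zero' (Eventually.of_forall fun _ => dist_nonneg)
      ((hy.eventually (ball_mem_nhds _ one_half_pos)).mono fun d hd =>
        (dist_comm _ _).trans_le (hC _ hd _ (hs d))) ?_
    simpa using (tendsto_iff_dist_tendsto_zero.1 hy).const_mul C).2
  obtain ⟨j, hj⟩ := Ultrafilter.eventually_exists_iff.1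
    ((w1.and hg).mono fun d hd => h.all _ (hs d) _ hd.2 hd.1)
  have : b j = w₀ := tendsto_nhds_unique ((tendsto_pi_nhds.1 hb j).congr' hj) hw
  obtain ⟨j', hj'⟩ := e.subset ⟨j, this⟩
  exact ⟨j', hj' ▸ tendsto_pi_nhds.1 hb' j'⟩

end SEP

open SEP in
theorem cSEP (hGHB : St_GHB) (hITP : St_ITP) : St_SEP := by
  intro g k M _ H p z c Q A S V r a W N hF hS hV hN hL
  let I := {t : S × (E (g + k) → ℂ) × E g // Differentiable ℂ t.2.1 ∧ ‖t.2.2‖ < 1}
  let P : I → E k → ℂ := fun t s => ∑ j, t.1.2.1 (a t.1.1 t.1.2.2 s j)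
  have hl : ∀ t : I, ∃ l, Tendsto (P t) W (𝓝 l) := fun t => by
    obtain ⟨C, hC⟩ := bd (hS t.1.1) t.2.1
    exact lim W _ C (mem_of_superset hV fun s hs => hC _ t.2.2 s hs)
  choose l hl using hl
  by_contra hc
  have hd : ∀ d : Finset I × ℕ, ∃ s ∈ V, (∀ t ∈ d.1, ‖P t s - l t‖ ≤ 1 / ((d.2 : ℝ) + 1)) ∧
      ∃ x ∈ Gh {x | 0 < p x} z s, x ∉ N := fun d => by
    by_contra h
    refine hc ⟨d.1.card, fun i => P (d.1.equivFin.symm i), fun i => l (d.1.equivFin.symm i),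
      1 / ((d.2 : ℝ) + 1), Nat.one_div_pos_of_nat, fun i => ⟨hl _, _, _, _,
        (d.1.equivFin.symm i).1.2.1, (d.1.equivFin.symm i).1.2.2, rfl⟩, fun s hs hi x hx => ?_⟩
    by_contra hx'
    exact h ⟨s, hs, fun t ht => by simpa using hi (d.1.equivFin ⟨t, ht⟩), x, hx, hx'⟩
  choose s hs hP x hx hxN using hd
  let F : Ultrafilter (Finset I × ℕ) := Ultrafilter.of atTop
  have hF' : (F : Filter (Finset I × ℕ)) ≤ atTop := Ultrafilter.of_le _
  obtain ⟨x₀, hx₀, hx₁⟩ := hN.isClosed_compl.isCompact.ultrafilter_le_nhds' (F.map x)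
    (Ultrafilter.mem_map.2 (univ_mem' hxN))
  have hx₂ : Tendsto x F (𝓝 x₀) := hx₁
  obtain ⟨e, he, hxe, h0⟩ := hF.cov x₀ (mem_univ _)
  obtain ⟨-, -, -, -, -, -, h7, h8⟩ := hGHB M.X (E k) {x | 0 < p x} z
  have hU : {w | w ∈ ball (0 : E (g + k)) 2 ∧ e.symm w ∈ {x | 0 < p x}} = Uc p e :=
    Set.ext fun w => and_congr_left' mem_ball_zero_iff
  have h7' := h7 _ e _ isOpen_ball (ball_subset_closedBall.trans (hF.sc e he).1.sub)
  rw [hU] at h7'
  have hw : Tendsto (fun d => e (x d)) F (𝓝 (e x₀)) := (e.continuousAt hxe).tendsto.comp hx₂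
  have y0 : ‖pY (e x₀)‖ < 1 := by linarith [npY (e x₀)]
  obtain ⟨j, hj⟩ := key hITP (hS ⟨e, he⟩) F W hV s _ _ h0 hs hw (by
    filter_upwards [hw.norm.eventually_lt_const (show ‖e x₀‖ < 2 by linarith),
      hx₂.eventually (e.open_source.mem_nhds hxe)] with d h1 h2
    rw [h7' _ (mem_ball_zero_iff.2 h1), e.left_inv h2]
    exact hx d) fun φ hφ => by
    let t : I := ⟨(⟨e, he⟩, φ, pY (e x₀)), hφ, y0⟩
    refine ⟨l t, hl t, tendsto_iff_norm_sub_tendsto_zero.2 (Tendsto.mono_left ?_ hF')⟩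
    refine squeeze_zero' (Eventually.of_forall fun _ => norm_nonneg _)
      ((eventually_ge_atTop ({t}, 0)).mono fun d hd => hP d t (hd.1 (Finset.mem_singleton_self t)))
      (tendsto_one_div_add_atTop_nhds_zero_nat.comp ?_)
    rw [← prod_atTop_atTop_eq]
    exact tendsto_snd
  refine hx₀ (hL ((h8 W).2.2 (fun s => e.symm (a ⟨e, he⟩ (pY (e x₀)) s j)) x₀ ?_ ?_))
  · refine mem_of_superset hV fun s hs => ?_
    have := (hS ⟨e, he⟩).mem _ y0 s hs j
    exact (h7' _ (mem_ball_zero_iff.2 (by linarith [this.1])) _).1 this.2.2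
  · simpa only [e.left_inv hxe, Function.comp_def] using
      (e.continuousAt_symm (e.map_source hxe)).tendsto.comp hj

end Pool.Agent.Lib.CY
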