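import Pool.Agent.Lib.CY.Blue

/-! Project cy, row SHT: the sheets exist. -/

open scoped Classical Topology ContDiff ComplexOrder Matrix ENNReal
open Set MeasureTheory Complex Metric Filter

set_option linter.unusedVariables false

noncomputable section

namespace Pool.Agent.Lib.CY

open Pool.Agent.Lib.SV (E nsq)
open Pool.Agent.Lib.HS32 Pool.Agent.Lib.FI

namespace SHT

theorem enum {α : Type} {s : Set α} {r : ℕ} (h : s.encard = r) :
    ∃ a : Fin r → α, Function.Injective a ∧ range a = s := by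
  have hf : s.Finite := finite_of_encard_eq_coe h
  have : Finite s := hf.to_subtype
  have hc : Nat.card s = r := by
    have h1 := hf.cast_ncard_eq
    rw [h] at h1
    exact_mod_cast h1
  refine ⟨fun j => ((Finite.equivFinOfCardEq hc).symm j : α),
    Subtype.val_injective.comp (Equiv.injective _), ?_⟩
  ext x
  refine ⟨?_, fun hx => ⟨Finite.equivFinOfCardEq hc ⟨x, hx⟩, by simp⟩⟩
  rintro ⟨j, rfl⟩
  exact Subtype.property _

theorem tsum_eq {α : Type} {s : Set α} {r : ℕ} {a : Fin r → α} (hi : Function.Injective a)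
    (hr : range a = s) (φ : α → ℂ) : ∑' w : s, φ w = ∑ j, φ (a j) := by
  subst hr
  rw [tsum_range φ hi, tsum_fintype]

variable {g k : ℕ}

theorem cY' : Continuous (pY : E (g + k) → E g) := continuous_pi fun _ => continuous_apply _

theorem cX' : Continuous (pX : E (g + k) → E k) := continuous_pi fun _ => continuous_apply _

theorem oD {Z : Set (E k)} (h : IsOpen Z) : IsOpen (Dz g Z) :=
  (isOpen_lt cY'.norm continuous_const).inter (h.preimage cX')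

/-- `F` is the trace of `φ`. -/
def Tr (U : Set (E (g + k))) (ψ : E (g + k) → E k) (Z : Set (E k)) (φ F : E (g + k) → ℂ) : Prop :=
  DifferentiableOn ℂ φ (ball 0 2) ∧ DifferentiableOn ℂ F (Dz g Z) ∧
    ∀ᵐ v, v ∈ Dz g Z → F v = ∑' w : fb U ψ v, φ w

/-- `b` is a family of sheets over `v`. -/
def Ok (U : Set (E (g + k))) (ψ : E (g + k) → E k) (Z : Set (E k)) {r : ℕ} (v : E (g + k))
    (b : Fin r → E (g + k)) : Prop :=
  (∀ j, ‖b j‖ ≤ 1 ∧ pY (b j) = pY v ∧ b j ∈ Gh U ψ (pX v)) ∧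
    ∀ φ F, Tr U ψ Z φ F → F v = ∑ j, φ (b j)

variable {U : Set (E (g + k))} {ψ : E (g + k) → E k} {Z : Set (E k)} {r : ℕ}

theorem cb {w : E (g + k)} (h : ‖w‖ ≤ 1) : ball (0 : E (g + k)) 2 ∈ 𝓝 w :=
  isOpen_ball.mem_nhds (mem_ball_zero_iff.2 (by linarith))

theorem lim (hGHB : St_GHB) (hZ : IsOpen Z) {ι : Type} (u : Ultrafilter ι) {v : ι → E (g + k)}
    {b : ι → Fin r → E (g + k)} {v₀ : E (g + k)} (h0 : v₀ ∈ Dz g Z) (hv : Tendsto v u (𝓝 v₀))
    (hb : ∀ᶠ i in u, Ok U ψ Z (v i) (b i)) :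
    ∃ b₀, (∀ j, Tendsto (fun i => b i j) u (𝓝 (b₀ j))) ∧ Ok U ψ Z v₀ b₀ := by
  have h1 : ∀ j, ∃ x ∈ closedBall (0 : E (g + k)) 1, Tendsto (fun i => b i j) u (𝓝 x) := fun j =>
    (isCompact_closedBall (0 : E (g + k)) 1).ultrafilter_le_nhds' (u.map fun i => b i j)
      (Ultrafilter.mem_map.2 (hb.mono fun i hi => mem_closedBall_zero_iff.2 (hi.1 j).1))
  choose b₀ m t using h1
  refine ⟨b₀, t, fun j => ⟨mem_closedBall_zero_iff.1 (m j), ?_, ?_⟩, fun φ F hT => ?_⟩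
  · exact tendsto_nhds_unique_of_eventuallyEq ((cY'.tendsto _).comp (t j))
      ((cY'.tendsto _).comp hv) (hb.mono fun i hi => (hi.1 j).2.1)
  · exact (hGHB _ _ U ψ).2.2.2.2.2.1 ι u _ _ _ _ u.neBot (hb.mono fun i hi => (hi.1 j).2.2) (t j)
      ((cX'.tendsto _).comp hv)
  · refine tendsto_nhds_unique_of_eventuallyEq
      ((hT.2.1.continuousOn.continuousAt ((oD hZ).mem_nhds h0)).tendsto.comp hv)
      (tendsto_finsetSum _ fun j _ => (hT.1.continuousOn.continuousAt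
        (cb (mem_closedBall_zero_iff.1 (m j)))).tendsto.comp (t j))
      (hb.mono fun i hi => hi.2 φ F hT)

theorem uniq (hITP : St_ITP) (hT : ∀ φ, DifferentiableOn ℂ φ (ball 0 2) → ∃ F, Tr U ψ Z φ F)
    {v : E (g + k)} {a b : Fin r → E (g + k)} (ha : Ok U ψ Z v a) (hb : Ok U ψ Z v b) :
    (∀ F : E (g + k) → ℝ, ∑ j, F (a j) = ∑ j, F (b j)) ∧ range a = range b := by
  refine hITP _ _ a b fun φ hφ => ?_
  obtain ⟨F, hF⟩ := hT φ hφ.differentiableOn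
  rw [← ha.2 φ F hF, ← hb.2 φ F hF]

/-- Near a point with local sheets the trace is the sum over the sheets. -/
theorem near (hZ : IsOpen Z) {v : E (g + k)} (hv : v ∈ Dz g Z) {σ : Fin r → E (g + k) → E (g + k)}
    (h1 : ∀ j, HolN (σ j) v)
    (h2 : ∀ᶠ v' in 𝓝 v, Function.Injective (fun j => σ j v') ∧ range (fun j => σ j v') = fb U ψ v')
    {φ F : E (g + k) → ℂ} (hT : Tr U ψ Z φ F) : F =ᶠ[𝓝 v] fun v' => ∑ j, φ (σ j v') := by
  obtain ⟨B, hB, oB, vB⟩ := _root_.eventually_nhds_iff.1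
    (h2.and ((eventually_all.2 h1).and ((oD hZ).mem_nhds hv)))
  have hm : ∀ v' ∈ B, ∀ j, ‖σ j v'‖ ≤ 1 := fun v' h j => by
    have : σ j v' ∈ fb U ψ v' := (hB v' h).1.2 ▸ mem_range_self j
    exact this.1.2.1.le
  refine eventuallyEq_of_mem (oB.mem_nhds vB) (Measure.eqOn_open_of_ae_eq (μ := volume) ?_ oB
    (hT.2.1.continuousOn.mono fun v' h => (hB v' h).2.2) ?_)
  · refine (ae_restrict_iff' oB.measurableSet).2 (hT.2.2.mono fun v' h hv' => ?_)
    rw [h (hB v' hv').2.2, tsum_eq (hB v' hv').1.1 (hB v' hv').1.2]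
  · exact fun v' h => (tendsto_finsetSum _ fun j _ =>
      ((hT.1.continuousOn.continuousAt (cb (hm v' h j))).comp
        ((hB v' h).2.1 j).continuousAt).tendsto).mono_left nhdsWithin_le_nhds

end SHT

open SHT in
theorem cSHT (hGHB : St_GHB) (hSPL : St_SPL) (hJAC : St_JAC) (hITP : St_ITP) (hTR1 : St_TR1)
    (hLOC : St_LOC) : St_SHT := by
  intro g k U ψ Z c R r ρ hE hC
  obtain ⟨s1, s2, ⟨L, L1, L2, L3, -⟩, -⟩ := hSPL g k
  have hT : ∀ φ, DifferentiableOn ℂ φ (ball 0 2) → ∃ F, Tr U ψ Z φ F := fun φ hφ => by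
    obtain ⟨F, h⟩ := (hTR1 g k U ψ Z c hE).2 φ hφ
    exact ⟨F, hφ, h⟩
  set V : Set (E k) := {s | s ∈ Z ∧ ρ s = r} with hV
  have oV : IsOpen V := isOpen_iff_mem_nhds.2 fun s hs =>
    ((hC.lc s hs.1).and (hE.oZ.mem_nhds hs.1)).mono fun s' h => ⟨h.2, h.1.trans hs.2⟩
  have DZ : Dz g V ⊆ Dz g Z := fun v h => ⟨h.1, h.2.1⟩
  set Ω : Set (E (g + k)) := {v | v ∈ Dz g V ∧ (fb U ψ v).encard = r} with hΩ
  have ae : ∀ᵐ v, v ∈ Dz g V → v ∈ Ω := hC.ae.mono fun v h hv => ⟨hv, by rw [h (DZ hv), hv.2.2]⟩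
  have den : ∀ v ∈ Dz g V, v ∈ closure Ω := fun v hv => by
    have := (Measure.dense_of_ae ae).open_subset_closure_inter (oD oV) hv
    exact closure_mono (fun w h => h.2 h.1) this
  have ok0 : ∀ v ∈ Ω, ∀ b : Fin r → E (g + k), Function.Injective b → range b = fb U ψ v →
      Ok U ψ Z v b := fun v hv b hi hr => by
    have hm : ∀ j, b j ∈ fb U ψ v := fun j => hr ▸ mem_range_self j
    refine ⟨fun j => ⟨(hm j).1.2.1.le, ?_, ?_⟩, fun φ F hF => ?_⟩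
    · rw [← (hm j).2]
      exact (s1 _ _).1.symm
    · rw [← (hm j).2]
      exact (s1 _ _).2.symm ▸ (hGHB _ _ U ψ).2.1 _ (hm j).1.1
    · obtain ⟨σ, h1, h2⟩ := hLOC g k U ψ Z c R r ρ hE hC v (DZ hv.1) hv.1.2.2 hv.2
      refine (near hE.oZ (DZ hv.1) (fun j => (h1 j).1) h2 hF).self_of_nhds.trans ?_
      exact (tsum_eq h2.self_of_nhds.1 h2.self_of_nhds.2 φ).symm.trans (tsum_eq hi hr φ)
  have ex : ∀ v, ∃ b : Fin r → E (g + k), (v ∈ Dz g V → Ok U ψ Z v b) ∧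
      (v ∈ Ω → Function.Injective b ∧ range b = fb U ψ v) := by
    have e0 : ∀ v, ∃ b : Fin r → E (g + k), v ∈ Ω → Function.Injective b ∧ range b = fb U ψ v :=
      fun v => by
        by_cases hv : v ∈ Ω
        · obtain ⟨b, h⟩ := enum hv.2
          exact ⟨b, fun _ => h⟩
        · exact ⟨0, fun h => absurd h hv⟩
    choose b₁ hb using e0
    intro v
    by_cases hv : v ∈ Ω
    · exact ⟨b₁ v, fun _ => ok0 v hv _ (hb v hv).1 (hb v hv).2, hb v⟩
    by_cases hD : v ∈ Dz g V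
    · obtain ⟨u, hu, hl⟩ := mem_closure_iff_ultrafilter.1 (den v hD)
      obtain ⟨b₀, -, h⟩ := lim hGHB hE.oZ u (v := id) (b := b₁) (DZ hD) hl
        (mem_of_superset hu fun w hw => ok0 w hw _ (hb w hw).1 (hb w hw).2)
      exact ⟨b₀, fun _ => h, fun h => absurd h hv⟩
    · exact ⟨0, fun h => absurd h hD, fun h => absurd h hv⟩
  choose A ok gen using ex
  have mD : ∀ v : E g × E k, v ∈ ball (0 : E g) 1 ×ˢ V → ap v.1 v.2 ∈ Dz g V := fun v h =>
    ⟨(s1 _ _).1.symm ▸ mem_ball_zero_iff.1 h.1, (s1 _ _).2.symm ▸ h.2⟩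
  have cL : Continuous fun v : E g × E k => ap v.1 v.2 := funext L1 ▸ L.continuous
  refine ⟨fun y s => A (ap y s), fun y hy s hs j => ?_, fun s hs w hw h1 => ?_, fun φ hφ => ?_,
    fun F hF v hv => ?_, ?_⟩
  · have := (ok _ (mD (y, s) ⟨mem_ball_zero_iff.2 hy, hs⟩)).1 j
    rwa [(s1 _ _).1, (s1 _ _).2] at this
  · have nY : ∀ w : E (g + k), ‖pY w‖ ≤ ‖w‖ := fun w => (s2 w).2.1 ▸ le_max_left _ _
    have h2 : w ∈ Gh {w | w ∈ Rg U ψ ∧ gp ψ w ∈ Ω} ψ s := by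
      refine ((hGHB _ _ _ ψ).1 w s).2 fun N hN W hW => ?_
      obtain ⟨w₁, n1, u1, p1⟩ := ((hGHB _ _ U ψ).1 w s).1 hw (interior N ∩ ball 0 1)
        (inter_mem (interior_mem_nhds.2 hN) (isOpen_ball.mem_nhds (mem_ball_zero_iff.2 h1)))
        (interior W ∩ V) (inter_mem (interior_mem_nhds.2 hW) (oV.mem_nhds hs))
      have c1 : ∀ w ∈ U, ψ w ∈ interior W ∩ V → ψ ⁻¹' (interior W ∩ V) ∈ 𝓝 w := fun w hw h =>
        (hE.hol w hw).self_of_nhds.continuousAt ((isOpen_interior.inter oV).mem_nhds h)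
      obtain ⟨w₂, n2, r2⟩ := mem_closure_iff_nhds.1 (hE.den w₁ u1 (mem_ball_zero_iff.1 n1.2)) _
        (inter_mem (isOpen_interior.mem_nhds n1.1) (c1 w₁ u1 p1))
      obtain ⟨-, -, -, -, -, cx, -, -, hm⟩ := hJAC g k ψ w₂ (hE.hol w₂ r2.1)
      have o2 : Rg U ψ ∈ 𝓝 w₂ := by
        filter_upwards [hE.oU.mem_nhds r2.1, isOpen_ball.mem_nhds (mem_ball_zero_iff.2 r2.2.1),
          ((continuous_id.matrix_det.continuousAt.comp cx).eventually_ne r2.2.2)] with x a b c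
        exact ⟨a, mem_ball_zero_iff.1 b, c⟩
      have d2 : gp ψ w₂ ∈ Dz g V := mD (pY w₂, ψ w₂)
        ⟨mem_ball_zero_iff.2 ((nY w₂).trans_lt r2.2.1), n2.2.2⟩
      obtain ⟨_, ⟨w₃, n3, rfl⟩, h3⟩ := mem_closure_iff_nhds.1 (den _ d2) _
        ((hm r2.2.2).1 ▸ image_mem_map (inter_mem (inter_mem (isOpen_interior.mem_nhds n2.1)
          (c1 w₂ r2.1 n2.2)) o2))
      exact ⟨w₃, interior_subset n3.1.1, ⟨n3.2, h3⟩, interior_subset n3.1.2.1⟩
    obtain ⟨u, hu, hl⟩ := mem_closure_iff_ultrafilter.1 h2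
    have t1 : Tendsto (fun i : E (g + k) × E k => i.1) u (𝓝 w) :=
      (continuous_fst.tendsto _).mono_left hl
    have t2 : Tendsto (fun i : E (g + k) × E k => ap (pY i.1) i.2) u (𝓝 (ap (pY w) s)) :=
      ((cL.comp ((cY'.comp continuous_fst).prodMk continuous_snd)).tendsto (w, s)).mono_left hl
    have d0 : ap (pY w) s ∈ Dz g V := mD (pY w, s) ⟨mem_ball_zero_iff.2 ((nY w).trans_lt h1), hs⟩
    have e1 : ∀ᶠ i in (u : Filter (E (g + k) × E k)),
        ap (pY i.1) i.2 ∈ Ω ∧ i.1 ∈ fb U ψ (ap (pY i.1) i.2) := by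
      refine mem_of_superset hu ?_
      rintro _ ⟨x, hx, rfl⟩
      exact ⟨hx.2, hx.1, rfl⟩
    obtain ⟨b₀, t, h⟩ := lim hGHB hE.oZ u (b := fun i => A (ap (pY i.1) i.2)) (DZ d0) t2
      (e1.mono fun i hi => ok _ hi.1.1)
    obtain ⟨j, hj⟩ := Ultrafilter.eventually_exists_iff.1
      (e1.mono fun i hi => ((gen _ hi.1).2 ▸ hi.2 : i.1 ∈ range (A (ap (pY i.1) i.2))))
    have : w ∈ range (A (ap (pY w) s)) :=
      (uniq hITP hT h (ok _ d0)).2 ▸ ⟨j, tendsto_nhds_unique_of_eventuallyEq (t j) t1 hj⟩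
    exact this
  · obtain ⟨F, hF⟩ := hT φ hφ
    refine (hF.2.1.comp L.differentiable.differentiableOn fun v hv => ?_).congr fun v hv => ?_
    · exact L1 v ▸ DZ (mD v hv)
    · rw [Function.comp_apply, L1]
      exact ((ok _ (mD v hv)).2 φ F hF).symm
  · refine tendsto_iff_ultrafilter _ _ _ |>.2 fun u hu => ?_
    have e1 : ∀ᶠ i in (u : Filter (E g × E k)), Ok U ψ Z (ap i.1 i.2) (A (ap i.1 i.2)) :=
      mem_of_superset (hu self_mem_nhdsWithin) fun i hi => ok _ (mD i hi)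
    obtain ⟨b₀, t, h⟩ := lim hGHB hE.oZ u (DZ (mD v hv))
      ((cL.tendsto v).mono_left (hu.trans nhdsWithin_le_nhds)) e1
    beta_reduce
    rw [← (uniq hITP hT h (ok _ (mD v hv))).1 F]
    exact tendsto_finsetSum _ fun j _ =>
      (hF _ (mem_closedBall_zero_iff.2 (h.1 j).1)).tendsto.comp (tendsto_nhdsWithin_iff.2
        ⟨t j, e1.mono fun i hi => mem_closedBall_zero_iff.2 (hi.1 j).1⟩)
  · filter_upwards [L3.quasiMeasurePreserving.ae ae] with v h hv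
    rw [L1] at h
    have hΩv := h (mD v hv)
    refine ⟨(gen _ hΩv).1, (gen _ hΩv).2, fun φ hφ ξ => ?_⟩
    obtain ⟨F, hF⟩ := hT φ hφ
    obtain ⟨σ, h1, h2⟩ := hLOC g k U ψ Z c R r ρ hE hC _ (DZ hΩv.1) hΩv.1.2.2 hΩv.2
    have d1 : HasFDerivAt (fun s => ap v.1 s)
        ((L : E g × E k →L[ℂ] E (g + k)).comp (ContinuousLinearMap.inr ℂ _ _)) v.2 := by
      have := L.hasFDerivAt.comp v.2 (hasFDerivAt_prodMk_right (𝕜 := ℂ) v.1 v.2)
      simpa only [Function.comp_def, L1] using this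
    have q1 : (fun s => ∑ j, φ (A (ap v.1 s) j)) =ᶠ[𝓝 v.2] fun s => ∑ j, φ (σ j (ap v.1 s)) := by
      filter_upwards [oV.mem_nhds hv.2, d1.continuousAt.tendsto.eventually
        (near hE.oZ (DZ hΩv.1) (fun j => (h1 j).1) h2 hF)] with s a b
      rw [← b]
      exact ((ok _ (mD (v.1, s) ⟨hv.1, a⟩)).2 φ F hF).symm
    have hm : ∀ j, ‖σ j (ap v.1 v.2)‖ ≤ 1 := fun j => by
      have : σ j (ap v.1 v.2) ∈ fb U ψ _ := h2.self_of_nhds.2 ▸ mem_range_self j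
      exact this.1.2.1.le
    have d2 := HasFDerivAt.fun_sum (u := Finset.univ) fun j _ =>
      ((hφ.differentiableAt (cb (hm j))).hasFDerivAt.comp v.2
        ((h1 j).1.self_of_nhds.hasFDerivAt.comp v.2 d1))
    rw [q1.fderiv_eq, (show fderiv ℂ (fun s => ∑ j, φ (σ j (ap v.1 s))) v.2 = _ from d2.fderiv),
      ← tsum_eq (gen _ hΩv).1 (gen _ hΩv).2 fun w => fderiv ℂ φ w (ap 0 ((jx ψ w)⁻¹ *ᵥ ξ)),
      tsum_eq h2.self_of_nhds.1 h2.self_of_nhds.2 fun w => fderiv ℂ φ w (ap 0 ((jx ψ w)⁻¹ *ᵥ ξ)),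
      sum_apply]
    refine Finset.sum_congr rfl fun j _ => ?_
    simp only [ContinuousLinearMap.comp_apply, ContinuousLinearMap.inr_apply,
      ContinuousLinearEquiv.coe_coe, L1, (h1 j).2]

end Pool.Agent.Lib.CY
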