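import Pool.Agent.Lib.CY.Blue

/-! Project cy, row SPL: splitting of the coordinates. -/

open scoped Classical Topology ContDiff ComplexOrder Matrix ENNReal
open Set MeasureTheory Complex Metric Filter

set_option linter.unusedVariables false

noncomputable section

namespace Pool.Agent.Lib.CY

open Pool.Agent.Lib.SV (E nsq)
open Pool.Agent.Lib.HS32 Pool.Agent.Lib.FI Pool.Agent.Lib.KH Pool.Agent.Lib.RB9

namespace SPL

variable {g k : ℕ}

theorem pY_ap (y : E g) (s : E k) : pY (ap y s) = y := by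
  funext i
  simp [pY, ap]

theorem pX_ap (y : E g) (s : E k) : pX (ap y s) = s := by
  funext i
  simp [pX, ap]

theorem ap_p (w : E (g + k)) : ap (pY w) (pX w) = w := by
  funext i
  refine Fin.addCases (fun a => ?_) (fun b => ?_) i
  · simp [pY, ap]
  · simp [pX, ap]

theorem ext_p {v w : E (g + k)} (h1 : pY v = pY w) (h2 : pX v = pX w) : v = w := by
  rw [← ap_p v, ← ap_p w, h1, h2]

theorem norm_p (w : E (g + k)) : ‖w‖ = max ‖pY w‖ ‖pX w‖ := by
  apply le_antisymm
  · refine (pi_norm_le_iff_of_nonneg (le_max_of_le_left (norm_nonneg _))).2 fun i => ?_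
    refine Fin.addCases (fun a => ?_) (fun b => ?_) i
    · exact le_max_of_le_left (norm_le_pi_norm (pY w) a)
    · exact le_max_of_le_right (norm_le_pi_norm (pX w) b)
  · refine max_le ?_ ?_
    · exact (pi_norm_le_iff_of_nonneg (norm_nonneg _)).2 fun i => norm_le_pi_norm w _
    · exact (pi_norm_le_iff_of_nonneg (norm_nonneg _)).2 fun i => norm_le_pi_norm w _

theorem nsq_p (w : E (g + k)) : nsq w = nsq (pY w) + nsq (pX w) := by
  simp only [nsq, Fin.sum_univ_add, pY, pX]

theorem pY_add (v w : E (g + k)) : pY (v + w) = pY v + pY w := rfl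

theorem pX_add (v w : E (g + k)) : pX (v + w) = pX v + pX w := rfl

theorem pY_smul (c : ℂ) (w : E (g + k)) : pY (c • w) = c • pY w := rfl

theorem pX_smul (c : ℂ) (w : E (g + k)) : pX (c • w) = c • pX w := rfl

/-- The splitting as a linear equivalence. -/
def spL (g k : ℕ) : E (g + k) ≃ₗ[ℂ] (E g × E k) where
  toFun w := (pY w, pX w)
  map_add' v w := rfl
  map_smul' c w := rfl
  invFun v := ap v.1 v.2
  left_inv w := ap_p w
  right_inv v := Prod.ext (pY_ap _ _) (pX_ap _ _)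

theorem mp_sp (g k : ℕ) :
    MeasurePreserving (fun w : E (g + k) => ((pY w, pX w) : E g × E k)) volume volume := by
  have h1 := (volume_measurePreserving_piCongrLeft (fun _ : Fin (g + k) => ℂ)
    (finSumFinEquiv : Fin g ⊕ Fin k ≃ Fin (g + k))).symm
  have h2 := volume_measurePreserving_sumPiEquivProdPi (fun _ : Fin g ⊕ Fin k => ℂ)
  have h3 := h2.comp h1
  have he : (fun w : E (g + k) => ((pY w, pX w) : E g × E k)) =
      (MeasurableEquiv.sumPiEquivProdPi (fun _ : Fin g ⊕ Fin k => ℂ)) ∘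
        (MeasurableEquiv.piCongrLeft (fun _ : Fin (g + k) => ℂ)
          (finSumFinEquiv : Fin g ⊕ Fin k ≃ Fin (g + k))).symm := by
    funext w
    rfl
  rw [he]
  exact h3

theorem part3 (g k : ℕ) : ∃ L : (E g × E k) ≃L[ℂ] E (g + k), (∀ v, L v = ap v.1 v.2) ∧
    (∀ w, L.symm w = (pY w, pX w)) ∧ MeasurePreserving L ∧ MeasurePreserving L.symm := by
  let L : (E g × E k) ≃L[ℂ] E (g + k) := (spL g k).symm.toContinuousLinearEquiv
  have h2 : MeasurePreserving L.symm := mp_sp g k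
  refine ⟨L, fun v => rfl, fun w => rfl, ?_, h2⟩
  exact MeasurePreserving.symm L.symm.toHomeomorph.toMeasurableEquiv h2

theorem mv_p (P : Matrix (Fin k) (Fin (g + k)) ℂ) (v : E (g + k)) :
    P *ᵥ v = cY P *ᵥ pY v + cX P *ᵥ pX v := by
  funext i
  simp [Matrix.mulVec, dotProduct, Fin.sum_univ_add, cY, cX, pY, pX]

theorem mm_p (P : Matrix (Fin k) (Fin (g + k)) ℂ) :
    P * Pᴴ = cY P * (cY P)ᴴ + cX P * (cX P)ᴴ := by
  ext i j
  simp [Matrix.mul_apply, Fin.sum_univ_add, cY, cX]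

/-- The shear as a linear equivalence. -/
def shL (A : Mx g k) (s t : ℂ) (hs : s ≠ 0) (ht : t ≠ 0) : E (g + k) ≃ₗ[ℂ] E (g + k) where
  toFun w := ap (t • pY w + s • (Matrix.of A *ᵥ pX w)) (s • pX w)
  map_add' v w := by
    refine ext_p ?_ ?_
    · simp only [pY_add, pX_add, pY_ap, Matrix.mulVec_add, smul_add]
      abel
    · simp only [pX_add, pX_ap, smul_add]
  map_smul' c w := by
    refine ext_p ?_ ?_
    · simp only [RingHom.id_apply, pY_smul, pX_smul, pY_ap, Matrix.mulVec_smul]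
      rw [smul_add c, smul_comm c t, smul_comm c s]
    · simp only [RingHom.id_apply, pX_smul, pX_ap]
      rw [smul_comm c s]
  invFun v := ap (t⁻¹ • (pY v - Matrix.of A *ᵥ pX v)) (s⁻¹ • pX v)
  left_inv w := by
    refine ext_p ?_ ?_
    · simp only [pY_ap, pX_ap]
      rw [Matrix.mulVec_smul, add_sub_cancel_right, smul_smul, inv_mul_cancel₀ ht, one_smul]
    · simp only [pX_ap]
      rw [smul_smul, inv_mul_cancel₀ hs, one_smul]
  right_inv v := by
    refine ext_p ?_ ?_
    · simp only [pY_ap, pX_ap]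
      rw [Matrix.mulVec_smul, smul_smul, smul_smul, mul_inv_cancel₀ ht, mul_inv_cancel₀ hs,
        one_smul, one_smul, sub_add_cancel]
    · simp only [pX_ap]
      rw [smul_smul, mul_inv_cancel₀ hs, one_smul]

theorem fd_mv {n : ℕ} (ψ : E n → E k) (w v : E n) : fderiv ℂ ψ w v = jr ψ w *ᵥ v := by
  have hv : v = ∑ l, v l • (Pi.single l (1 : ℂ) : E n) := by
    funext j
    simp [Finset.sum_apply, Pi.single_apply]
  funext i
  conv_lhs => rw [hv, map_sum]
  simp [jr, Matrix.mulVec, dotProduct, Finset.sum_apply, mul_comm]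

theorem pY_single (j : Fin k) : pY (Pi.single (Fin.natAdd g j) (1 : ℂ) : E (g + k)) = 0 := by
  funext i
  have : Fin.castAdd k i ≠ Fin.natAdd g j := by
    intro h
    have := congrArg Fin.val h
    simp at this
    omega
  simp [pY, this]

theorem pX_single (j : Fin k) :
    pX (Pi.single (Fin.natAdd g j) (1 : ℂ) : E (g + k)) = Pi.single j 1 := by
  funext i
  simp [pX, Pi.single_apply]

theorem part5 (A : Mx g k) (s t : ℂ) (hs : s ≠ 0) (ht : t ≠ 0) :
    ∃ L : E (g + k) ≃L[ℂ] E (g + k),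
    (∀ w, pY (L w) = t • pY w + s • (Matrix.of A *ᵥ pX w) ∧ pX (L w) = s • pX w) ∧
    ∀ (ψ : E (g + k) → E k) (a w : E (g + k)), DifferentiableAt ℂ ψ (a + L w) →
      jx (fun u => ψ (a + L u)) w =
        s • (cX (jr ψ (a + L w)) + cY (jr ψ (a + L w)) * Matrix.of A) := by
  let L : E (g + k) ≃L[ℂ] E (g + k) := (shL A s t hs ht).toContinuousLinearEquiv
  have hL : ∀ w, pY (L w) = t • pY w + s • (Matrix.of A *ᵥ pX w) ∧ pX (L w) = s • pX w :=
    fun w => ⟨pY_ap _ _, pX_ap _ _⟩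
  refine ⟨L, hL, fun ψ a w hψ => ?_⟩
  have h1 : HasFDerivAt (fun u => a + L u) (L : E (g + k) →L[ℂ] E (g + k)) w :=
    (L.hasFDerivAt (x := w)).const_add a
  have h2 := (hψ.hasFDerivAt.comp w h1).fderiv
  ext i j
  have h3 : jx (fun u => ψ (a + L u)) w i j =
      fderiv ℂ (ψ ∘ fun u => a + L u) w (Pi.single (Fin.natAdd g j) 1) i := rfl
  rw [h3, h2, ContinuousLinearMap.comp_apply, ContinuousLinearEquiv.coe_coe, fd_mv, mv_p,
    (hL _).1, (hL _).2, pY_single, pX_single]
  simp [Matrix.mulVec_smul, Matrix.mul_apply, Matrix.mulVec, dotProduct, Finset.mul_sum,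
    mul_add, add_comm]

end SPL

theorem cSPL : St_SPL := fun g k =>
  ⟨fun y s => ⟨SPL.pY_ap y s, SPL.pX_ap y s⟩,
    fun w => ⟨SPL.ap_p w, SPL.norm_p w, SPL.nsq_p w⟩, SPL.part3 g k,
    fun P => ⟨SPL.mv_p P, SPL.mm_p P⟩, fun A s t hs ht => SPL.part5 A s t hs ht⟩

end Pool.Agent.Lib.CY
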