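import Pool.Agent.Lib.CY.Blue

/-! Project cy: finitely many graphs are enough. -/

open scoped Classical Topology ComplexOrder Matrix MatrixOrder
open Set Complex Metric Filter

noncomputable section

namespace Pool.Agent.Lib.CY

open Pool.Agent.Lib.HS32

namespace STI

variable {g k : ℕ}

theorem cpt : IsCompact {U : Mx k (g + k) | Matrix.of U * (Matrix.of U)ᴴ = 1} := by
  have hc : Continuous fun U : Mx k (g + k) => Matrix.of U := continuous_id
  refine (isCompact_closedBall 0 1).of_isClosed_subset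
    (isClosed_eq (hc.matrix_mul hc.matrix_conjTranspose) continuous_const) fun U hU => ?_
  rw [mem_closedBall_zero_iff]
  refine (pi_norm_le_iff_of_nonneg zero_le_one).2 fun i =>
    (pi_norm_le_iff_of_nonneg zero_le_one).2 fun j => ?_
  have h := congrArg re (congrFun (congrFun hU i) i)
  simp only [Matrix.mul_apply, Matrix.of_apply, Matrix.conjTranspose_apply, RCLike.star_def,
    mul_conj, re_sum, ofReal_re, Matrix.one_apply_eq, one_re] at h
  have h1 : normSq (U i j) ≤ 1 :=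
    h ▸ Finset.single_le_sum (f := fun j => normSq (U i j)) (fun j _ => normSq_nonneg _)
      (Finset.mem_univ j)
  rw [normSq_eq_norm_sq] at h1
  exact (sq_le_one_iff₀ (norm_nonneg _)).1 h1

theorem fin (hGEN : St_GEN) {D : Set (Mx g k)} (hD : Dense D) :
    ∃ (S : Finset (Mx g k)) (c : ℝ), 0 ≤ c ∧ (∀ A ∈ S, A ∈ D) ∧
      ∀ U ∈ {U : Mx k (g + k) | Matrix.of U * (Matrix.of U)ᴴ = 1}, ∃ A ∈ S,
        1 ≤ c * normSq (cX (Matrix.of U) + cY (Matrix.of U) * Matrix.of A).det := by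
  refine cpt.induction_on (p := fun s => ∃ (S : Finset (Mx g k)) (c : ℝ), 0 ≤ c ∧
    (∀ A ∈ S, A ∈ D) ∧ ∀ U ∈ s, ∃ A ∈ S,
      1 ≤ c * normSq (cX (Matrix.of U) + cY (Matrix.of U) * Matrix.of A).det)
    ⟨∅, 0, le_rfl, by simp, by simp⟩
    (fun s t hst ⟨S, c, h0, h1, h2⟩ => ⟨S, c, h0, h1, fun U hU => h2 U (hst hU)⟩) ?_ ?_
  · rintro s t ⟨S, c, h0, h1, h2⟩ ⟨S', c', h0', h1', h2'⟩
    refine ⟨S ∪ S', c + c', add_nonneg h0 h0',
      fun A hA => (Finset.mem_union.1 hA).elim (h1 A) (h1' A), fun U hU => ?_⟩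
    rcases hU with hU | hU
    · obtain ⟨A, a1, a2⟩ := h2 U hU
      exact ⟨A, Finset.mem_union_left _ a1, a2.trans
        (mul_le_mul_of_nonneg_right (le_add_of_nonneg_right h0') (normSq_nonneg _))⟩
    · obtain ⟨A, a1, a2⟩ := h2' U hU
      exact ⟨A, Finset.mem_union_right _ a1, a2.trans
        (mul_le_mul_of_nonneg_right (le_add_of_nonneg_left h0) (normSq_nonneg _))⟩
  · intro U hU
    obtain ⟨g1, g2⟩ := hGEN g k (Matrix.of U) (by rw [hU, Matrix.det_one]; exact one_ne_zero)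
    obtain ⟨A, a1, a2⟩ := hD.inter_open_nonempty _ g1 g2.nonempty
    have hc : Continuous fun U : Mx k (g + k) => Matrix.of U := continuous_id
    have hf : Continuous fun U : Mx k (g + k) =>
        normSq (cX (Matrix.of U) + cY (Matrix.of U) * Matrix.of A).det :=
      continuous_normSq.comp ((hc.matrix_submatrix _ _).add
        ((hc.matrix_submatrix _ _).matrix_mul continuous_const)).matrix_det
    have hp := normSq_pos.2 a1
    refine ⟨_, mem_nhdsWithin_of_mem_nhds
      (hf.continuousAt.eventually (lt_mem_nhds (half_lt_self hp))), {A}, _,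
      (inv_pos.2 (half_pos hp)).le, fun B hB => Finset.mem_singleton.1 hB ▸ a2, fun V hV =>
        ⟨A, Finset.mem_singleton_self _, ?_⟩⟩
    rw [← div_eq_inv_mul, one_le_div (half_pos hp)]
    exact le_of_lt hV

end STI

theorem cSTI (hGEN : St_GEN) : St_STI := by
  intro g k D hD
  obtain ⟨S, c, h0, h1, h2⟩ := STI.fin hGEN hD
  obtain ⟨A₀, a0⟩ := hD.nonempty
  refine ⟨insert A₀ S, c, h0, fun A hA => (Finset.mem_insert.1 hA).elim (· ▸ a0) (h1 A),
    fun P => ?_⟩
  by_cases hP : (P * Pᴴ).det = 0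
  · exact ⟨A₀, Finset.mem_insert_self _ _, by
      rw [hP, zero_re]; exact mul_nonneg h0 (normSq_nonneg _)⟩
  obtain ⟨B, hB⟩ := CStarAlgebra.nonneg_iff_eq_mul_star_self.1
    (Matrix.posSemidef_self_mul_conjTranspose P).nonneg
  rw [Matrix.star_eq_conjTranspose] at hB
  have hd : (P * Pᴴ).det = normSq B.det := by
    rw [hB, Matrix.det_mul, Matrix.det_conjTranspose, RCLike.star_def, mul_conj]
  have hu : IsUnit B.det := isUnit_iff_ne_zero.2 fun h => hP (by rw [hd, h, map_zero, ofReal_zero])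
  obtain ⟨A, a1, a2⟩ := h2 (B⁻¹ * P) (show B⁻¹ * P * (B⁻¹ * P)ᴴ = 1 by
    rw [Matrix.conjTranspose_mul, Matrix.mul_assoc, ← Matrix.mul_assoc P, hB, Matrix.mul_assoc,
      ← Matrix.conjTranspose_mul, Matrix.nonsing_inv_mul _ hu, Matrix.conjTranspose_one,
      Matrix.mul_one, Matrix.nonsing_inv_mul _ hu])
  refine ⟨A, Finset.mem_insert_of_mem a1, ?_⟩
  have he : cX P + cY P * Matrix.of A = B * (cX (B⁻¹ * P) + cY (B⁻¹ * P) * Matrix.of A) := by
    have e1 : cX (B⁻¹ * P) = B⁻¹ * cX P := rfl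
    have e2 : cY (B⁻¹ * P) = B⁻¹ * cY P := rfl
    rw [e1, e2, Matrix.mul_assoc, ← Matrix.mul_add, ← Matrix.mul_assoc,
      Matrix.mul_nonsing_inv _ hu, Matrix.one_mul]
  rw [hd, he, Matrix.det_mul, map_mul, ofReal_re, mul_left_comm]
  exact le_mul_of_one_le_right (normSq_nonneg _) a2

end Pool.Agent.Lib.CY
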