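import Pool.Agent.Lib.CY.Blue

/-! Project cy, row TM2: tame functions of the coordinates and of the map. -/

open scoped Classical Topology ContDiff ComplexOrder Matrix ENNReal
open Set MeasureTheory Complex Metric Filter

noncomputable section

namespace Pool.Agent.Lib.CY

open Pool.Agent.Lib.SV (E nsq)
open Pool.Agent.Lib.HS32 Pool.Agent.Lib.FI Pool.Agent.Lib.KH Pool.Agent.Lib.RB9

namespace TM2

variable {n k : ℕ}

theorem lin (D : E n →L[ℝ] ℂ) (v : E n) :
    D v = ∑ j, ((v j).re * D (Pi.single j 1) + (v j).im * D (Pi.single j I)) := by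
  have h : v = ∑ j, ((v j).re • (Pi.single j 1 : E n) + (v j).im • (Pi.single j I : E n)) := by
    ext i
    simp [Finset.sum_apply, Pi.single_apply, Finset.sum_add_distrib]
  conv_lhs => rw [h]
  simp only [map_sum, map_add, map_smul, real_smul]

theorem sz (f : E n → ℂ) (w v : E n) :
    ∑ j, v j * dz j f w = (fderiv ℝ f w v - I * fderiv ℝ f w (I • v)) / 2 ∧
    ∑ j, star (v j) * dzb j f w = (fderiv ℝ f w v + I * fderiv ℝ f w (I • v)) / 2 := by
  rw [lin _ v, lin _ (I • v), Finset.mul_sum, ← Finset.sum_sub_distrib, ← Finset.sum_add_distrib,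
    Finset.sum_div, Finset.sum_div]
  refine ⟨Finset.sum_congr rfl fun j _ => ?_, Finset.sum_congr rfl fun j _ => ?_⟩
  · have h := (re_add_im (v j)).symm
    simp only [dz, Pi.smul_apply, smul_eq_mul, I_mul_re, I_mul_im, ofReal_neg]
    generalize (v j).re = a at h ⊢
    generalize (v j).im = b at h ⊢
    rw [h]
    linear_combination (-(b : ℂ) * fderiv ℝ f w (Pi.single j I) / 2) * I_mul_I
  · have h : star (v j) = (v j).re - (v j).im * I := by
      apply Complex.ext <;> simp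
    simp only [dzb, Pi.smul_apply, smul_eq_mul, I_mul_re, I_mul_im, ofReal_neg]
    rw [h]
    linear_combination (-((v j).im : ℂ) * fderiv ℝ f w (Pi.single j I) / 2) * I_mul_I

theorem nq_I (G : Mat n) (v : E n) : nq G (I • v) = nq G v := by
  simp only [nq, Matrix.mulVec_smul, star_smul, smul_dotProduct, dotProduct_smul, smul_smul]
  simp

variable {M : Mf n} {p : M.X → ℝ} {G : M.Fam (Mat n)}

/-- The real derivative is bounded. -/
def Rb {F : Type} [NormedAddCommGroup F] [NormedSpace ℝ F] (p : M.X → ℝ) (G : M.Fam (Mat n))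
    (f : M.X → F) : Prop :=
  ∃ c : ℝ, 0 ≤ c ∧ Ao M p fun e w => ∀ v, ‖fderiv ℝ (f ∘ e.symm) w v‖ ≤ c * √(nq (G e w) v)

theorem rb_of {u : M.X → ℂ} (h : Gb p G u) : Rb p G u := by
  obtain ⟨c, c0, hc⟩ := h
  refine ⟨2 * √c, by positivity, fun e he w hw hp v => ?_⟩
  obtain ⟨h1, h2⟩ := hc e he w hw hp v
  have e1 : fderiv ℝ (u ∘ e.symm) w v =
      ∑ j, v j * dz j (u ∘ e.symm) w + ∑ j, star (v j) * dzb j (u ∘ e.symm) w := by
    rw [(sz _ w v).1, (sz _ w v).2]
    ring
  have a1 := Real.le_sqrt_of_sq_le h1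
  have a2 := Real.le_sqrt_of_sq_le h2
  rw [Real.sqrt_mul c0] at a1 a2
  rw [e1]
  linarith [norm_add_le (∑ j, v j * dz j (u ∘ e.symm) w) (∑ j, star (v j) * dzb j (u ∘ e.symm) w)]

theorem gb_of {u : M.X → ℂ} (hG : Ao M p fun e w => (G e w).PosDef) (h : Rb p G u) : Gb p G u := by
  obtain ⟨c, c0, hc⟩ := h
  refine ⟨c ^ 2, by positivity, fun e he w hw hp v => ?_⟩
  have h1 := hc e he w hw hp v
  have h2 := hc e he w hw hp (I • v)
  rw [nq_I] at h2
  have q0 : 0 ≤ nq (G e w) v :=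
    (Complex.le_def.1 ((hG e he w hw hp).posSemidef.dotProduct_mulVec_nonneg v)).1
  have key : ∀ a : ℂ, ‖a‖ ≤ c * √(nq (G e w) v) → ‖a‖ ^ 2 ≤ c ^ 2 * nq (G e w) v := fun a ha =>
    (pow_le_pow_left₀ (norm_nonneg _) ha 2).trans_eq (by rw [mul_pow, Real.sq_sqrt q0])
  have b : ‖I * fderiv ℝ (u ∘ e.symm) w (I • v)‖ ≤ c * √(nq (G e w) v) := by
    rwa [norm_mul, norm_I, one_mul]
  rw [(sz _ w v).1, (sz _ w v).2]
  refine ⟨key _ ?_, key _ ?_⟩
  · rw [norm_div, Complex.norm_two]
    linarith [norm_sub_le (fderiv ℝ (u ∘ e.symm) w v) (I * fderiv ℝ (u ∘ e.symm) w (I • v))]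
  · rw [norm_div, Complex.norm_two]
    linarith [norm_add_le (fderiv ℝ (u ∘ e.symm) w v) (I * fderiv ℝ (u ∘ e.symm) w (I • v))]

theorem rb_pi {f : M.X → E k} (hs : So p f) (h : ∀ i, Rb p G fun x => f x i) : Rb p G f := by
  choose c c0 hc using h
  have s0 : 0 ≤ ∑ i, c i := Finset.sum_nonneg fun i _ => c0 i
  refine ⟨∑ i, c i, s0, fun e he w hw hp v => ?_⟩
  refine (pi_norm_le_iff_of_nonneg (by positivity)).2 fun i => ?_
  have d := (hs e he w hw hp).differentiableAt (by simp)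
  have e1 : fderiv ℝ ((fun x => f x i) ∘ e.symm) w v = fderiv ℝ (f ∘ e.symm) w v i :=
    congrArg (fun L : E n →L[ℝ] ℂ => L v) ((hasFDerivAt_pi'.1 d.hasFDerivAt) i).fderiv
  rw [← e1]
  exact (hc i e he w hw hp v).trans (mul_le_mul_of_nonneg_right
    (Finset.single_le_sum (fun i _ => c0 i) (Finset.mem_univ i)) (Real.sqrt_nonneg _))

theorem core {f : M.X → E n} {g : M.X → E k} {Θ : E n × E k → ℂ} {u : M.X → ℂ} (sf : So p f)
    (sg : So p g) (rf : Rb p G f) (rg : Rb p G g) (hΘ : ContDiff ℝ ∞ Θ) (hs : HasCompactSupport Θ)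
    (hu : ∀ x, 0 < p x → (∀ᶠ x' in 𝓝 x, u x' = 0) ∨ ∀ᶠ x' in 𝓝 x, u x' = Θ (f x', g x')) :
    So p u ∧ Rb p G u := by
  obtain ⟨a, a0, ha⟩ := rf
  obtain ⟨b, b0, hb⟩ := rg
  obtain ⟨B, hB⟩ := (hs.fderiv (𝕜 := ℝ)).exists_bound_of_continuous (hΘ.continuous_fderiv (by simp))
  have B0 : 0 ≤ B := (norm_nonneg _).trans (hB 0)
  have main : Ao M p fun e w => ContDiffAt ℝ ∞ (u ∘ e.symm) w ∧
      ∀ v, ‖fderiv ℝ (u ∘ e.symm) w v‖ ≤ B * (a + b) * √(nq (G e w) v) := fun e he w hw hp => by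
    rcases hu _ hp with h | h
    · have h1 : u ∘ e.symm =ᶠ[𝓝 w] fun _ => 0 := (e.continuousAt_symm hw).eventually h
      refine ⟨contDiffAt_const.congr_of_eventuallyEq h1, fun v => ?_⟩
      rw [h1.fderiv_eq, fderiv_fun_const, Pi.zero_apply, zero_apply, norm_zero]
      positivity
    · have h1 : u ∘ e.symm =ᶠ[𝓝 w] Θ ∘ fun w => ((f ∘ e.symm) w, (g ∘ e.symm) w) :=
        (e.continuousAt_symm hw).eventually h
      have d1 := (sf e he w hw hp).differentiableAt (by simp)
      have d2 := (sg e he w hw hp).differentiableAt (by simp)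
      refine ⟨(hΘ.contDiffAt.comp w ((sf e he w hw hp).prodMk (sg e he w hw hp))).congr_of_eventuallyEq
        h1, fun v => ?_⟩
      have d3 := ((hΘ.differentiable (by simp)) _).hasFDerivAt.comp w
        (d1.hasFDerivAt.prodMk d2.hasFDerivAt)
      rw [h1.fderiv_eq, d3.fderiv, ContinuousLinearMap.comp_apply, mul_assoc]
      refine (ContinuousLinearMap.le_opNorm _ _).trans (mul_le_mul (hB _) ?_ (norm_nonneg _) B0)
      have s0 := Real.sqrt_nonneg (nq (G e w) v)
      refine norm_prod_le_iff.2 ⟨(ha e he w hw hp v).trans ?_, (hb e he w hw hp v).trans ?_⟩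
      · exact mul_le_mul_of_nonneg_right (by linarith) s0
      · exact mul_le_mul_of_nonneg_right (by linarith) s0
  exact ⟨fun e he w hw hp => (main e he w hw hp).1, B * (a + b), by positivity,
    fun e he w hw hp => (main e he w hw hp).2⟩

end TM2

theorem cTM2 (hTAM : St_TAM) (hBAS : St_BAS) : St_TM2 := by
  intro n k M _ H p z C e K Θ hF he hK hKe hΘ hs h0
  obtain ⟨-, t2, t3, -⟩ := hTAM n k M H p z C hF
  obtain ⟨b1, b2, -, b4, -⟩ := hBAS n k M H p z C hF
  obtain ⟨-, -, -, c4, -, c6⟩ := mCOV n M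
  have hA : IsClosed (e.symm '' K) := (hK.image_of_continuousOn (e.continuousOn_symm.mono hKe)).isClosed
  have hAe : e.symm '' K ⊆ e.source := by
    rintro _ ⟨w, hw, rfl⟩
    exact e.map_target (hKe hw)
  obtain ⟨χ, χ1, -, χ3, χ4⟩ := c6 _ _ hA e.open_source hAe
  have sη : M.Sm (e.source.indicator fun x => (fun w => χ (e.symm w) • w) (e x)) := by
    refine c4 (E n) e he (e '' tsupport χ) (fun w => χ (e.symm w) • w)
      ((isClosed_tsupport χ).isCompact.image_of_continuousOn (e.continuousOn.mono χ4)) ?_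
      (fun w hw => (χ1 e he w hw).smul contDiffAt_id) fun w hw hn => ?_
    · rintro _ ⟨x, hx, rfl⟩
      exact e.map_source (χ4 hx)
    · rw [image_eq_zero_of_notMem_tsupport fun h => hn ⟨_, h, e.right_inv hw⟩, zero_smul]
  obtain ⟨R, R0, hR⟩ := hs.isCompact.isBounded.subset_ball_lt 0 (0 : E n × E k)
  let φ : ContDiffBump (0 : E k) := ⟨2 * R, 3 * R, by linarith, by linarith⟩
  have tθ := fun i : Fin k => t3 (fun y => (φ y : ℂ) * y i)
    ((ofRealCLM.contDiff.comp φ.contDiff).mul (contDiff_apply ℝ ℂ i))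
    (φ.hasCompactSupport.comp_left (g := ((↑) : ℝ → ℂ)) rfl).mul_right
  have sg : So p fun x => fun i => (φ (z x) : ℂ) * z x i := fun e' he' w hw hp =>
    contDiffAt_pi.2 fun i => (tθ i).1 e' he' w hw hp
  have sf : So p (e.source.indicator fun x => (fun w => χ (e.symm w) • w) (e x)) :=
    fun e' he' w hw _ => sη e' he' w hw
  have r := TM2.core (G := g0 H p z C) (u := e.source.indicator fun x => Θ (e x, z x)) sf sg
    (TM2.rb_pi sf fun i => TM2.rb_of (t2 (fun x => e.source.indicator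
      (fun x => (fun w => χ (e.symm w) • w) (e x)) x i)
      fun e' he' w hw => contDiffAt_pi.1 (sη e' he' w hw) i).2.2)
    (TM2.rb_pi sg fun i => TM2.rb_of (tθ i).2.2) hΘ hs fun x hx => by
      have cz : ContinuousAt z x := b2.continuousAt (b1.mem_nhds hx)
      by_cases hxA : x ∈ e.symm '' K
      swap
      · refine Or.inl ((hA.isOpen_compl.eventually_mem hxA).mono fun x' hx' => ?_)
        by_cases a : x' ∈ e.source
        · rw [indicator_of_mem a]
          exact h0 _ fun b => hx' ⟨_, b, e.left_inv a⟩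
        · exact indicator_of_notMem a _
      by_cases hz : ‖z x‖ < 2 * R
      · refine Or.inr ?_
        filter_upwards [e.open_source.eventually_mem (hAe hxA), (nhds_le_nhdsSet hxA) χ3,
          cz.norm.eventually (gt_mem_nhds hz)] with x' a1 a2 a3
        have a4 : φ (z x') = 1 := φ.one_of_mem_closedBall (mem_closedBall_zero_iff.2 a3.le)
        have a5 : χ x' = 1 := a2
        simp only [indicator_of_mem a1, e.left_inv a1, a4, a5, one_smul, ofReal_one, one_mul]
      · refine Or.inl ((cz.norm.eventually (lt_mem_nhds (a := R) (by linarith))).mono fun x' a => ?_)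
        refine indicator_apply_eq_zero.2 fun _ => image_eq_zero_of_notMem_tsupport fun b => ?_
        have := mem_ball_zero_iff.1 (hR b)
        exact absurd ((norm_snd_le (e x', z x')).trans_lt this) (not_lt.2 a.le)
  obtain ⟨c, hc⟩ := hs.exists_bound_of_continuous hΘ.continuous
  exact ⟨r.1, TM2.gb_of (fun e' he' w hw hp => (b4 e' he' w hw hp).2.2.2.1) r.2, c,
    fun x => (norm_indicator_le_norm_self _ _).trans (hc _)⟩

end Pool.Agent.Lib.CY
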