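import Pool.Agent.Lib.CY.Blue

/-! Project cy, row TR1: the traces are holomorphic. -/

open scoped Classical Topology ContDiff ComplexOrder Matrix ENNReal
open Set MeasureTheory Complex Metric Filter

noncomputable section

namespace Pool.Agent.Lib.CY

open Pool.Agent.Lib.SV (E nsq)
open Pool.Agent.Lib.HS32

namespace TR1

variable {g k : ℕ}

theorem coY : Continuous (pY : E (g + k) → E g) := continuous_pi fun _ => continuous_apply _

theorem coX : Continuous (pX : E (g + k) → E k) := continuous_pi fun _ => continuous_apply _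

theorem open_Dz {Z : Set (E k)} (h : IsOpen Z) : IsOpen (Dz g Z) :=
  (isOpen_lt coY.norm continuous_const).inter (h.preimage coX)

theorem dz_off {n : ℕ} {θ : E n → ℂ} {v : E n} (h : v ∉ tsupport θ) (j : Fin n) : dz j θ v = 0 := by
  simp [dz, fderiv_of_notMem_tsupport ℝ h]

theorem dz_cont {n : ℕ} {θ : E n → ℂ} (h : ContDiff ℝ ∞ θ) (j : Fin n) : Continuous (dz j θ) := by
  have c := h.continuous_fderiv (by simp)
  exact ((c.clm_apply continuous_const).sub
    (continuous_const.mul (c.clm_apply continuous_const))).div_const 2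

end TR1

open TR1 in
theorem cTR1 (hSPL : St_SPL) (hJAC : St_JAC) (hARE : St_ARE) (hWEU : St_WEU) : St_TR1 := by
  intro g k U ψ Z c h
  obtain ⟨oR, cg, hA⟩ := hARE g k U ψ h.oU h.hol
  have sub : Rg U ψ ⊆ U := fun w hw => hw.1
  have oD : IsOpen (Dz g Z) := open_Dz h.oZ
  let T : ℕ → Set (E (g + k)) := fun m => Dz g Z ∩ {v | ‖pX v‖ < m}
  have oT : ∀ m, IsOpen (T m) := fun m => oD.inter (isOpen_lt coX.norm continuous_const)
  have mT := fun m => (hA (T m) (oT m).measurableSet).1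
  have j0 : ∀ w, 0 ≤ jq ψ w := fun w => normSq_nonneg _
  have cj : ContinuousOn (jq ψ) (Rg U ψ) := fun w hw =>
    (hJAC g k ψ w (h.hol w hw.1)).2.2.2.2.2.2.1.continuousWithinAt
  have fin : ∀ m, ∫⁻ w in Rg U ψ ∩ gp ψ ⁻¹' T m, ENNReal.ofReal (jq ψ w) < ⊤ := fun m => by
    refine ((lintegral_mono_set fun w hw => ?_).trans (h.mas (ball 0 m) isOpen_ball)).trans_lt
      (ENNReal.mul_lt_top ENNReal.ofReal_lt_top measure_ball_lt_top)
    refine ⟨hw.1.1, hw.1.2.1, mem_ball_zero_iff.2 ?_⟩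
    have := hw.2.2
    rwa [mem_ofPred_eq, gp, ((hSPL g k).1 _ _).2] at this
  have int : ∀ (φ : E (g + k) → ℂ) (B : ℝ), ContinuousOn φ (Rg U ψ) → (∀ w ∈ Rg U ψ, ‖φ w‖ ≤ B) →
      ∀ m, IntegrableOn (fun w => φ w * jq ψ w) (Rg U ψ ∩ gp ψ ⁻¹' T m) := fun φ B hc hB m => by
    have i1 : IntegrableOn (jq ψ) (Rg U ψ ∩ gp ψ ⁻¹' T m) :=
      ⟨(cj.mono inter_subset_left).aestronglyMeasurable (mT m),
        (hasFiniteIntegral_iff_ofReal (ae_of_all _ j0)).2 (fin m)⟩
    exact i1.ofReal.bdd_mul ((hc.mono inter_subset_left).aestronglyMeasurable (mT m))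
      ((ae_restrict_iff' (mT m)).2 (ae_of_all _ fun w hw => hB w hw.1))
  have cov : ∀ v ∈ Dz g Z, ∃ m, v ∈ T m := fun v hv =>
    (exists_nat_gt ‖pX v‖).imp fun m hm => ⟨hv, hm⟩
  refine ⟨?_, fun φ hφ => ?_⟩
  · have a : ∀ m, ∀ᵐ v, v ∈ T m → (fb U ψ v).Finite := fun m => by
      obtain ⟨a1, a2⟩ := (hA (T m) (oT m).measurableSet).2.1 (fun _ => 1) continuousOn_const
      simp only [one_mul] at a2
      refine (ae_restrict_iff' (oT m).measurableSet).1
        ((ae_lt_top' a1.restrict (a2 ▸ (fin m).ne)).mono fun v hv => ?_)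
      rw [ENNReal.tsum_set_one] at hv
      exact encard_lt_top_iff.1 (ENat.toENNReal_lt_top.1 hv)
    filter_upwards [ae_all_iff.2 a] with v hv hD
    obtain ⟨m, hm⟩ := cov v hD
    exact hv m hm
  have s1 : closedBall (0 : E (g + k)) 1 ⊆ ball 0 2 := closedBall_subset_ball one_lt_two
  have s2 : Rg U ψ ⊆ closedBall 0 1 := fun w hw => mem_closedBall_zero_iff.2 hw.2.1.le
  obtain ⟨B, hB⟩ := (isCompact_closedBall (0 : E (g + k)) 1).exists_bound_of_continuousOn
    (hφ.continuousOn.mono s1)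
  have cφ : ContinuousOn φ (Rg U ψ) := hφ.continuousOn.mono (s2.trans s1)
  refine hWEU _ _ _ oD (fun v hv => ?_) fun θ hθ hs hD j => ?_
  · obtain ⟨m, hm⟩ := cov v hv
    exact ⟨T m, nhdsWithin_le_nhds ((oT m).mem_nhds hm), ((hA (T m) (oT m).measurableSet).2.2 φ cφ
      (int φ B cφ (fun w hw => hB w (s2 hw)) m)).1⟩
  obtain ⟨B', hB'⟩ := (dz_cont hθ j).bounded_above_of_compact_support
    (HasCompactSupport.intro hs fun v hv => dz_off hv j)
  obtain ⟨R, hR⟩ := hs.isCompact.exists_bound_of_continuousOn (coX (g := g) (k := k)).continuousOn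
  obtain ⟨m, hm⟩ := exists_nat_gt R
  have sT : tsupport θ ⊆ T m := fun v hv => ⟨hD hv, (hR v hv).trans_lt hm⟩
  have cχ : ContinuousOn (fun w => dz j θ (gp ψ w) * star (φ w)) (Rg U ψ) :=
    ((dz_cont hθ j).comp_continuousOn (cg.mono sub)).mul cφ.star
  have e := ((hA (T m) (oT m).measurableSet).2.2 _ cχ (int _ (B' * B) cχ (fun w hw => by
    rw [norm_mul, norm_star]
    exact mul_le_mul (hB' _) (hB w (s2 hw)) (norm_nonneg _) ((norm_nonneg _).trans (hB' 0))) m)).2
  rw [setIntegral_eq_of_subset_of_forall_sdiff_eq_zero oD.measurableSet (inter_subset_left : T m ⊆ _)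
    fun v hv => by rw [dz_off (fun k => hv.2 (sT k)), zero_mul], ← h.wk φ hφ θ hθ hs hD j,
    setIntegral_eq_of_subset_of_forall_sdiff_eq_zero (s := Rg U ψ ∩ gp ψ ⁻¹' T m)
      (t := {w | w ∈ U ∧ ‖w‖ < 1})
      (h.oU.inter (isOpen_lt continuous_norm continuous_const)).measurableSet
      (fun w hw => ⟨hw.1.1, hw.1.2.1⟩) fun w hw => ?_, e]
  · refine integral_congr_ae (ae_of_all _ fun v => ?_)
    beta_reduce
    rw [tsum_star, ← tsum_mul_left]
    exact tsum_congr fun w => by rw [w.2.2]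
  · by_cases k1 : (jx ψ w).det = 0
    · rw [jq, k1, map_zero, ofReal_zero, mul_zero]
    · rw [dz_off fun k => hw.2 ⟨⟨hw.1.1, hw.1.2, k1⟩, sT k⟩, zero_mul, zero_mul]

end Pool.Agent.Lib.CY
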