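import Pool.Agent.Lib.CY.Blue

/-! Project cy, row UPL: the two inequalities of a scale. -/

open scoped Classical Topology ContDiff ComplexOrder Matrix ENNReal
open Set MeasureTheory Complex Metric Filter

noncomputable section

namespace Pool.Agent.Lib.CY

open Pool.Agent.Lib.SV (E nsq)
open Pool.Agent.Lib.HS32 Pool.Agent.Lib.FI Pool.Agent.Lib.KH Pool.Agent.Lib.RB9

theorem cUPL (hSPL : St_SPL) (hJAC : St_JAC) (hARS : St_ARS) (hCMP : St_CMP) (hBAS : FI.St_BAS) :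
    St_UPL := by
  intro g k r M _ H p z C e V a hF hS hV hA
  obtain ⟨hO, zc, -⟩ := hBAS _ k M H p z C hF
  obtain ⟨s1, s2, -⟩ := hSPL g k
  have tg : ∀ {w : E (g + k)}, ‖w‖ < 2 → w ∈ e.target := fun h =>
    hS.sub (mem_closedBall_zero_iff.2 h.le)
  have sc : ContinuousOn e.symm (Uc p e) := e.continuousOn_symm.mono fun w h => tg h.1
  have oU : IsOpen (Uc p e) := isOpen_iff_mem_nhds.2 fun w h => inter_mem
    ((isOpen_lt continuous_norm continuous_const).mem_nhds h.1)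
    ((e.continuousAt_symm (tg h.1)).preimage_mem_nhds (hO.mem_nhds h.2))
  have hol : ∀ w ∈ Uc p e, HolN (z ∘ e.symm) w := fun w h => hF.hol e hS.mem w (tg h.1) h.2
  have yc : ContinuousOn (z ∘ e.symm) (Uc p e) := zc.comp sc fun w h => h.2
  obtain ⟨c, c1, hc, hm⟩ := hCMP g k M H p z C e (closedBall 0 1) hF hS.mem (isCompact_closedBall _ _)
    ((closedBall_subset_closedBall one_le_two).trans hS.sub)
  have c0 : 0 ≤ c := zero_le_one.trans c1
  have ar := hARS g k r _ _ V a oU hol hA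
  refine ⟨c * c, by positivity, fun φ hφ φ0 => ⟨fun ϑ hϑ ϑ0 => ?_, fun S oS SV => ?_⟩⟩
  · obtain ⟨o, -, q⟩ := ar (ball 0 1) V isOpen_ball Subset.rfl hV Subset.rfl
      (fun w => ENNReal.ofReal (ϑ (z (e.symm w)) * φ (e.symm w)))
      (ENNReal.continuous_ofReal.comp_continuousOn (((hϑ.comp_continuousOn yc).mul
        (hφ.comp_continuousOn sc)).mono fun w h => h.1))
    have h1 := (hm _ o.measurableSet fun w h => mem_closedBall_zero_iff.2 h.1.2.1.le).2
      fun x => ENNReal.ofReal (ϑ (z x) * φ x * dn H z x)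
    refine le_trans (le_of_eq ((setLIntegral_congr_fun_ae (measurableSet_ball.prod hV.measurableSet)
      (hA.gen.mono fun v hv h => ?_)).trans q)) ?_
    · rw [Finset.mul_sum, ENNReal.ofReal_sum_of_nonneg fun j _ => mul_nonneg (ϑ0 _) (φ0 _)]
      refine Finset.sum_congr rfl fun j _ => ?_
      have h2 : a v.1 v.2 j ∈ fb (Uc p e) (z ∘ e.symm) (ap v.1 v.2) := (hv h).2.1 ▸ mem_range_self j
      have h3 : z (e.symm (a v.1 v.2 j)) = v.2 :=
        (s1 _ _).2.symm.trans ((congrArg pX h2.2).trans (s1 _ _).2)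
      rw [h3]
    · rw [ENNReal.ofReal_mul c0, mul_assoc]
      refine le_trans ?_ (mul_le_mul_right (h1.2.trans (mul_le_mul_right (lintegral_mono_set
        (by rintro _ ⟨w, h, rfl⟩; exact h.1.1.2)) _)) _)
      rw [← lintegral_const_mul' _ _ ENNReal.ofReal_ne_top]
      refine setLIntegral_mono' o.measurableSet fun w h => ?_
      have h2 := hc w (mem_closedBall_zero_iff.2 h.1.2.1.le) h.1.1.2
      have h3 := mul_nonneg (ϑ0 (z (e.symm w))) (φ0 (e.symm w))
      rw [← ENNReal.ofReal_mul h3, ← ENNReal.ofReal_mul c0, mul_left_comm]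
      exact ENNReal.ofReal_le_ofReal (mul_le_mul_of_nonneg_left (h2.2.2.2.2.1.trans h2.2.2.1) h3)
  · have lt : ∀ {w : E (g + k)}, ‖w‖ < 1 / 2 → ‖w‖ < 1 := fun h => h.trans one_half_lt_one
    have oB : IsOpen {w | (w ∈ Uc p e ∧ (z ∘ e.symm) w ∈ S) ∧ ‖w‖ < 1 / 2} :=
      (yc.isOpen_inter_preimage oU oS).inter (isOpen_lt continuous_norm continuous_const)
    have mu : ∀ {x}, 0 < p x → x ∈ e.source → ‖e x‖ < 1 / 2 → e x ∈ Uc p e := fun h1 h2 h3 =>
      ⟨(lt h3).trans one_lt_two, by rwa [e.left_inv h2]⟩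
    have eT : {x | 0 < p x ∧ z x ∈ S ∧ x ∈ e.source ∧ ‖e x‖ < 1 / 2} =
        e.symm '' {w | (w ∈ Uc p e ∧ (z ∘ e.symm) w ∈ S) ∧ ‖w‖ < 1 / 2} := by
      refine Set.ext fun x => ⟨fun h => ⟨e x, ⟨⟨mu h.1 h.2.2.1 h.2.2.2, ?_⟩, h.2.2.2⟩,
        e.left_inv h.2.2.1⟩, ?_⟩
      · rw [Function.comp_apply, e.left_inv h.2.2.1]
        exact h.2.1
      · rintro ⟨w, h, rfl⟩
        exact ⟨h.1.1.2, h.1.2, e.map_target (tg h.1.1.1), by rw [e.right_inv (tg h.1.1.1)]; exact h.2⟩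
    refine ⟨eT ▸ e.isOpen_image_symm_of_subset_target oB fun w h => tg h.1.1.1, fun x h =>
      (hφ.continuousAt.mul ((hJAC g k _ _ (hol _ (mu h.1 h.2.2.1 h.2.2.2))).2.2.2.2.2.2.1.comp
        (e.continuousAt h.2.2.1))).continuousWithinAt, ?_⟩
    obtain ⟨o, -, q⟩ := ar (ball 0 (1 / 2)) S isOpen_ball (ball_subset_ball one_half_lt_one.le) oS SV
      (fun w => ENNReal.ofReal (φ (e.symm w)))
      (ENNReal.continuous_ofReal.comp_continuousOn ((hφ.comp_continuousOn sc).mono fun w h => h.1))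
    rw [eT]
    refine ((hm _ oB.measurableSet fun w h => mem_closedBall_zero_iff.2 (lt h.2).le).2 _).1.trans
      (mul_le_mul' (ENNReal.ofReal_le_ofReal (le_mul_of_one_le_left c0 c1)) ?_)
    rw [lintegral_congr fun v => ENNReal.ofReal_sum_of_nonneg fun j _ => φ0 _, q,
      ← lintegral_indicator o.measurableSet]
    refine le_trans (setLIntegral_mono' oB.measurableSet fun w h => ?_) (setLIntegral_le_lintegral _ _)
    rw [e.right_inv (tg h.1.1.1), ENNReal.ofReal_mul (φ0 _)]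
    by_cases d : (jx (z ∘ e.symm) w).det = 0
    · simp [jq, d]
    · rw [indicator_of_mem (s := {w | w ∈ Rg (Uc p e) (z ∘ e.symm) ∧ pY w ∈ ball 0 (1 / 2) ∧
        (z ∘ e.symm) w ∈ S}) ⟨⟨h.1.1, lt h.2, d⟩, mem_ball_zero_iff.2
          (((le_max_left _ _).trans_eq (s2 w).2.1.symm).trans_lt h.2), h.1.2⟩]

end Pool.Agent.Lib.CY
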