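import Pool.Agent.Lib.CY.Blue
import Pool.Agent.Lib.KH.B_WE0

/-! Project cy, row WEU: the lemma of Weyl on an open set. -/

open scoped Classical Topology ContDiff
open Set MeasureTheory Complex Metric Filter

set_option linter.unusedVariables false

noncomputable section

namespace Pool.Agent.Lib.CY

open Pool.Agent.Lib.SV (E)
open Pool.Agent.Lib.HS32

namespace WEU

theorem zero {n : ℕ} {θ : E n → ℂ} {v : E n} (h : v ∉ tsupport θ) (j : Fin n) : dz j θ v = 0 := by
  have : fderiv ℝ θ v = 0 := Function.notMem_support.1 fun c => h (support_fderiv_subset ℝ c)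
  simp [dz, this]

end WEU

theorem cWEU : St_WEU := by
  intro n D G hD hG h
  have A : ∀ c ∈ D, ∃ r > (0 : ℝ), ∃ F : E n → ℂ, DifferentiableOn ℂ F (ball c r) ∧
      ∀ᵐ v, v ∈ ball c r → F v = G v := fun c hc => by
    obtain ⟨N, n1, n2⟩ := hG c hc
    rw [hD.nhdsWithin_eq hc] at n1
    obtain ⟨R, R0, hR⟩ := Metric.mem_nhds_iff.1 (inter_mem n1 (hD.mem_nhds hc))
    obtain ⟨r, rfl⟩ : ∃ r, R = 4 * r := ⟨R / 4, by ring⟩
    have r0 : 0 < r := by linarith
    refine ⟨r, r0, KH.bWE0 n G c r r0 (n2.mono_set fun v hv => (hR hv).1) fun θ h1 h2 h3 j => ?_⟩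
    rw [← h θ h1 h2 (fun v hv => (hR (h3 hv)).2) j,
      setIntegral_eq_integral_of_forall_compl_eq_zero fun v hv => by
        rw [WEU.zero (fun k => hv (h3 k)), zero_mul],
      setIntegral_eq_integral_of_forall_compl_eq_zero fun v hv => by
        rw [WEU.zero (fun k => hv (hR (h3 k)).2), zero_mul]]
  choose! r r0 F hF ha using A
  have B : ∀ c ∈ D, ∀ v ∈ D, v ∈ ball c (r c) → F v v = F c v := fun c hc v hv hm =>
    Measure.eqOn_open_of_ae_eq (μ := volume) (U := ball v (r v) ∩ ball c (r c))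
      ((ae_restrict_iff' (measurableSet_ball.inter measurableSet_ball)).2
        (((ha v hv).and (ha c hc)).mono fun w hw k => (hw.1 k.1).trans (hw.2 k.2).symm))
      (isOpen_ball.inter isOpen_ball) ((hF v hv).continuousOn.mono inter_subset_left)
      ((hF c hc).continuousOn.mono inter_subset_right) ⟨mem_ball_self (r0 v hv), hm⟩
  refine ⟨fun v => F v v, fun c hc => ?_, ?_⟩
  · refine (((hF c hc).differentiableAt (ball_mem_nhds c (r0 c hc))).congr_of_eventuallyEq
      ?_).differentiableWithinAt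
    filter_upwards [hD.mem_nhds hc, ball_mem_nhds c (r0 c hc)] with v h1 h2 using B c hc v h1 h2
  · refine measure_null_of_locally_null _ fun c hc => ?_
    have hc' : c ∈ D := by
      by_contra k
      exact hc fun k' => absurd k' k
    refine ⟨_, inter_mem_nhdsWithin _ (ball_mem_nhds c (r0 c hc')),
      measure_mono_null (fun v hv => ?_) (ae_iff.1 (ha c hc'))⟩
    exact fun k => hv.1 fun h1 => (B c hc' v h1 hv.2).trans (k hv.2)

end Pool.Agent.Lib.CY
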