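import Pool.Agent.Lib.CY.Blue

/-! Project cy, row WHO: weak holomorphy of the traces. -/

open scoped Classical Topology ContDiff ComplexOrder Matrix ENNReal
open Set MeasureTheory Complex Metric Filter

noncomputable section

namespace Pool.Agent.Lib.CY

open Pool.Agent.Lib.SV (E nsq)
open Pool.Agent.Lib.HS32 Pool.Agent.Lib.FI

namespace WHO

variable {n : ℕ}

theorem coe (a : E n) : (nsq a : ℂ) = ∑ i, a i * star (a i) := by
  simp only [nsq, ofReal_sum, star_def, mul_conj]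

theorem crd (i : Fin n) (w : E n) : ContDiffAt ℝ ∞ (fun w : E n => w i) w := by fun_prop

theorem smc (w : E n) : ContDiffAt ℝ ∞ (fun w : E n => (nsq w : ℂ)) w := by
  simp only [coe]
  exact ContDiffAt.sum fun i _ => (crd i w).mul (cd_star (crd i w))

theorem smr : ContDiff ℝ ∞ (nsq : E n → ℝ) := contDiff_iff_contDiffAt.2 fun w => by
  simpa only [ofReal_re] using cd_re (smc w)

theorem d1 (w : E n) (j : Fin n) : dz j (fun w : E n => (nsq w : ℂ)) w = star (w j) := by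
  have h : ∀ i, DifferentiableAt ℝ (fun w : E n => w i) w := fun i => cd_diff (crd i w)
  simp only [coe]
  rw [dz_sum fun i _ => (h i).fun_mul (diff_star (h i))]
  simp only [dz_mul (h _) (diff_star (h _)), dz_star (h _), dz_coord, dzb_coord]
  simp

theorem d2 (w : E n) (i j : Fin n) :
    dzb i (fun w : E n => star (w j)) w = if j = i then 1 else 0 := by
  rw [dzb_star (cd_diff (crd j w)), dz_coord]
  split_ifs <;> simp

theorem hnsq (w : E n) : hess (fun w : E n => (nsq w : ℂ)) w = 1 := by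
  ext i j
  rw [hess_apply, show dz j (fun w : E n => (nsq w : ℂ)) = fun w => star (w j) from
    funext fun w => d1 w j, d2, Matrix.one_apply]
  simp only [eq_comm]

theorem hst (w : E n) (j : Fin n) : hess (fun w : E n => star (w j)) w = 0 := by
  ext a b
  rw [hess_apply, show dz b (fun w : E n => star (w j)) = fun _ => 0 from funext fun w => by
    rw [dz_star (cd_diff (crd j w)), dzb_coord, star_zero]]
  simp

theorem alg (J D : Mat n) : ((Jᴴ * J).adjugate * (Jᴴ * D * J)).trace = D.trace * normSq J.det := by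
  rw [Matrix.adjugate_mul_distrib, ← mul_assoc, Matrix.trace_mul_comm, ← mul_assoc, ← mul_assoc,
    ← mul_assoc, Matrix.mul_adjugate, mul_assoc _ _ Jᴴ, Matrix.adjugate_mul,
    Matrix.det_conjTranspose]
  simp only [Matrix.smul_mul, Matrix.mul_smul, one_mul, mul_one, Matrix.trace_smul, smul_eq_mul,
    star_def, ← mul_conj]
  ring

theorem core {Φ : E n → E n} {w : E n} {φ θ β u τ : E n → ℂ} (j : Fin n) (hΦ : HolN Φ w)
    (hφ : HolN φ w) (hθ : ContDiff ℝ ∞ θ) (eβ : β =ᶠ[𝓝 w] fun v => (nsq (Φ v) : ℂ))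
    (eu : u =ᶠ[𝓝 w] fun v => star (Φ v j)) (eτ : τ =ᶠ[𝓝 w] fun v => star (φ v) * θ (Φ v)) :
    gI β u τ w = dz j θ (Φ w) * star (φ w) * normSq (jm Φ w).det := by
  obtain ⟨c0, -, -, -, -, -, -, -, -, -, c1, c2⟩ := mCHN n Φ w hΦ
  have h1 : hess β w = (jm Φ w)ᴴ * jm Φ w := by
    rw [hess_congr eβ]
    exact (c2 _ (smc _)).trans (by rw [hnsq, mul_one])
  have h2 : hess u w = 0 := by
    rw [hess_congr eu]
    exact (c2 _ (cd_star (crd j _))).trans (by rw [hst, mul_zero, zero_mul])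
  have dφ : DifferentiableAt ℝ φ w := hφ.self_of_nhds.restrictScalars ℝ
  have dθ : DifferentiableAt ℝ (fun v => θ (Φ v)) w :=
    (cd_diff hθ.contDiffAt).comp w (cd_diff c0)
  have h3 : dd u τ w = star (φ w) • ((jm Φ w)ᴴ * dd (fun v => star (v j)) θ (Φ w) * jm Φ w) := by
    rw [dd_congr eu eτ, ← c1 _ _ (cd_diff (cd_star (crd j _))) (cd_diff hθ.contDiffAt)]
    ext a b
    rw [Matrix.smul_apply, dd_apply, dd_apply, dz_mul (diff_star dφ) dθ, dz_star dφ,
      ((mHOL n φ w).1 dφ).1 hφ.self_of_nhds b, smul_eq_mul]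
    change _ = star (φ w) * (dzb a (fun v => star (Φ v j)) w * dz b (fun v => θ (Φ v)) w)
    rw [star_zero]
    ring
  have h4 : (dd (fun v => star (v j)) θ (Φ w)).trace = dz j θ (Φ w) := by
    simp only [Matrix.trace, Matrix.diag_apply, dd_apply, d2]
    simp
  rw [gI, h1, h2, h3, smul_zero, add_zero, Matrix.mul_smul, Matrix.trace_smul, alg, h4, smul_eq_mul]
  ring

theorem van {w : E n} {β u τ : E n → ℂ} (eτ : τ =ᶠ[𝓝 w] fun _ => 0) : gI β u τ w = 0 := by
  have h : dd u τ w = 0 := by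
    rw [dd_congr (EventuallyEq.refl _ u) eτ]
    ext a b
    simp
  rw [gI, h, eτ.self_of_nhds]
  simp

theorem bump (r R : ℝ) (h0 : 0 < r) (h : r < R) : ∃ χ : E n → ℝ, ContDiff ℝ ∞ χ ∧
    HasCompactSupport χ ∧ tsupport χ ⊆ closedBall 0 R ∧ ∀ w ∈ ball (0 : E n) r, χ =ᶠ[𝓝 w] 1 := by
  let b : ContDiffBump (0 : E n) := ⟨r, R, h0, h⟩
  exact ⟨b, b.contDiff, b.hasCompactSupport, b.tsupport_eq.le, fun w hw =>
    b.eventuallyEq_one_of_mem_ball hw⟩

end WHO

theorem cWHO (hGHB : St_GHB) (hSPL : St_SPL) (hJAC : St_JAC) (hGRC : St_GRC) : St_WHO := by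
  intro g k M _ H p z C e hF he hsub φ hφ θ hθ hθc hθs j
  obtain ⟨s1, s2, ⟨L, hL, hL', -⟩, -⟩ := hSPL g k
  obtain ⟨-, g2, -, -, g5, -⟩ := hGHB M.X (E k) {x | 0 < p x} z
  have cY : Continuous (pY : E (g + k) → E g) := continuous_pi fun i => continuous_apply _
  have cX : Continuous (pX : E (g + k) → E k) := continuous_pi fun i => continuous_apply _
  have sY : ContDiff ℝ ∞ (pY : E (g + k) → E g) :=
    contDiff_pi.2 fun i => contDiff_iff_contDiffAt.2 fun w => WHO.crd _ w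
  have sL : ContDiff ℝ ∞ fun v : E g × E k => ap v.1 v.2 := by
    rw [← funext hL]
    exact (L.toContinuousLinearMap.restrictScalars ℝ).contDiff
  have hT : IsCompact (tsupport θ) := hθc
  have hLX := hT.image cX
  -- the compact set
  obtain ⟨ρ, ⟨hρ0, hρ1⟩, hA⟩ : ∃ ρ ∈ Ioo (0 : ℝ) 1, closedBall (0 : E (g + k)) 1 ∩
      e.symm ⁻¹' {x | ∃ y ∈ pX '' tsupport θ, x ∈ Gh {x | 0 < p x} z y} ∩
      pY ⁻¹' (pY '' tsupport θ) ⊆ ball 0 ρ := by
    refine exists_pos_lt_subset_ball one_pos (((e.continuousOn_symm.mono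
      ((closedBall_subset_closedBall one_le_two).trans hsub)).preimage_isClosed_of_isClosed
      isClosed_closedBall (g5 _ hLX)).inter ((hT.image cY).isClosed.preimage cY)) ?_
    rintro w ⟨⟨h1, _, ⟨v, hv, rfl⟩, h2⟩, v', hv', h3⟩
    rw [mem_closedBall_zero_iff] at h1
    rw [mem_ball_zero_iff]
    refine h1.lt_of_ne fun h4 => ?_
    have h5 : ‖pY w‖ < 1 := h3 ▸ (hθs hv').1
    have h6 := (s2 w).2.1
    rw [h4] at h6
    refine Set.disjoint_left.1 (hθs hv).2 h2 ⟨w, ⟨h1, ?_⟩, rfl⟩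
    rcases max_choice ‖pY w‖ ‖pX w‖ with h7 | h7
    · exact absurd (h6.trans h7) h5.ne'
    · exact (h6.trans h7).symm
  obtain ⟨R, hR0, hR⟩ := hLX.isBounded.subset_ball_lt 0 0
  obtain ⟨χ, χ1, χ2, χ3, χ4⟩ := WHO.bump (n := g + k) ρ ((ρ + 1) / 2) hρ0 (by linarith)
  obtain ⟨κ, κ1, -, κ3, κ4⟩ := WHO.bump (n := g + k) 1 (3 / 2) one_pos (by norm_num)
  obtain ⟨γ, γ1, γ2, -, γ4⟩ := WHO.bump (n := k) R (R + 1) hR0 (by linarith)
  have χ5 : ∀ w : E (g + k), ¬‖w‖ < 1 → χ =ᶠ[𝓝 w] 0 := fun w hw =>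
    notMem_tsupport_iff_eventuallyEq.1 fun h => hw ((mem_closedBall_zero_iff.1 (χ3 h)).trans_lt
      (by linarith))
  have κ5 : ∀ w, w ∉ closedBall (0 : E (g + k)) (3 / 2) → κ w = 0 := fun w hw =>
    image_eq_zero_of_notMem_tsupport fun h => hw (κ3 h)
  have hφ' : ∀ w : E (g + k), ‖w‖ < 2 → HolN φ w := fun w hw =>
    (isOpen_ball.eventually_mem (mem_ball_zero_iff.2 hw)).mono fun v hv =>
      hφ.differentiableAt (isOpen_ball.mem_nhds hv)
  have oC : ContDiff ℝ ∞ fun t : ℝ => (t : ℂ) := ofRealCLM.contDiff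
  have sC : ContDiff ℝ ∞ fun t : ℂ => star t := conjCLE.contDiff
  have sφ : ContDiff ℝ ∞ fun w => (χ w : ℂ) * star (φ w) := contDiff_iff_contDiffAt.2 fun w => by
    by_cases hw : ‖w‖ < 1
    · exact (oC.comp χ1).contDiffAt.mul
        (cd_star ((mHOL _ φ w).2.2 (hφ' w (hw.trans one_lt_two))).1)
    · refine (contDiffAt_const (c := (0 : ℂ))).congr_of_eventuallyEq ((χ5 w hw).mono fun v hv => ?_)
      simp [show χ v = 0 from hv]
  have hK : closedBall (0 : E (g + k)) (3 / 2) ⊆ e.target :=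
    (closedBall_subset_closedBall (by norm_num)).trans hsub
  have key := (hGRC (g + k) k M H p z C e (closedBall 0 (3 / 2)) (fun w => κ w * nsq (pY w))
    (fun y => γ y * nsq y) (fun w => κ w * star (ap (pY w) 0 j)) (fun y => γ y * star (ap 0 y j))
    (fun v => χ v.1 * star (φ v.1) * θ (ap (pY v.1) v.2)) hF he (isCompact_closedBall _ _) hK
    (κ1.mul (WHO.smr.comp sY)) (fun w hw => by simp only [κ5 w hw, zero_mul])
    ⟨γ1.mul WHO.smr, γ2.mul_right⟩
    ((oC.comp κ1).mul (sC.comp (contDiff_pi.1 (sL.comp (sY.prodMk contDiff_const)) j)))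
    (fun w hw => by simp only [κ5 w hw, ofReal_zero, zero_mul])
    ((oC.comp γ1).mul (sC.comp (contDiff_pi.1 (sL.comp (contDiff_const.prodMk contDiff_id)) j)))
    ((γ2.comp_left (g := fun t : ℝ => (t : ℂ)) ofReal_zero).mul_right)
    ((sφ.comp contDiff_fst).mul (hθ.comp (sL.comp ((sY.comp contDiff_fst).prodMk contDiff_snd))))
    (HasCompactSupport.intro (IsCompact.prod χ2 hLX) fun v hv => by
      by_cases h1 : v.1 ∈ tsupport χ
      · have h2 : θ (ap (pY v.1) v.2) = 0 := image_eq_zero_of_notMem_tsupport fun h =>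
          hv ⟨h1, _, h, (s1 _ _).2⟩
        simp only [h2, mul_zero]
      · simp only [image_eq_zero_of_notMem_tsupport h1, ofReal_zero, zero_mul])
    (fun v hv => by
      have h1 : χ v.1 = 0 := (χ5 v.1 fun h => hv (mem_closedBall_zero_iff.2
        (by linarith))).self_of_nhds
      simp only [h1, ofReal_zero, zero_mul])).2
  have hO : IsOpen (e.target ∩ e.symm ⁻¹' {x | 0 < p x}) :=
    e.continuousOn_symm.isOpen_inter_preimage e.open_target
      (isOpen_lt continuous_const hF.sp.continuous)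
  have m1 : MeasurableSet {w | w ∈ closedBall (0 : E (g + k)) (3 / 2) ∧ 0 < p (e.symm w)} := by
    have e1 : {w | w ∈ closedBall (0 : E (g + k)) (3 / 2) ∧ 0 < p (e.symm w)} =
        closedBall 0 (3 / 2) ∩ (e.target ∩ e.symm ⁻¹' {x | 0 < p x}) :=
      Set.ext fun w => ⟨fun h => ⟨h.1, hK h.1, h.2⟩, fun h => ⟨h.1, h.2.2⟩⟩
    rw [e1]
    exact isClosed_closedBall.measurableSet.inter hO.measurableSet
  have hs : {w | w ∈ Uc p e ∧ ‖w‖ < 1} ⊆
      {w | w ∈ closedBall (0 : E (g + k)) (3 / 2) ∧ 0 < p (e.symm w)} := fun w hw =>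
    ⟨mem_closedBall_zero_iff.2 (by linarith [hw.2]), hw.1.2⟩
  have m2 : MeasurableSet {w | w ∈ Uc p e ∧ ‖w‖ < 1} := by
    have e1 : {w | w ∈ Uc p e ∧ ‖w‖ < 1} = ball 0 1 ∩ (e.target ∩ e.symm ⁻¹' {x | 0 < p x}) :=
      Set.ext fun w => ⟨fun h => ⟨mem_ball_zero_iff.2 h.2, hK (hs h).1, h.1.2⟩, fun h =>
        ⟨⟨(mem_ball_zero_iff.1 h.1).trans one_lt_two, h.2.2⟩, mem_ball_zero_iff.1 h.1⟩⟩
    rw [e1]
    exact (isOpen_ball.inter hO).measurableSet
  rw [setIntegral_eq_of_subset_of_forall_sdiff_eq_zero m1 hs fun w hw => WHO.van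
    ((χ5 w fun h => hw.2 ⟨⟨h.trans one_lt_two, hw.1.2⟩, h⟩).mono fun v hv => by
      simp [show χ v = 0 from hv])] at key
  refine (setIntegral_congr_fun m2 fun w hw => ?_).trans key
  have hψ := hF.hol e he w (hK (hs hw).1) hw.1.2
  obtain ⟨j1, j2, -⟩ := hJAC g k (z ∘ e.symm) w hψ
  by_cases hw' : gp (z ∘ e.symm) w ∈ tsupport θ
  · have hx : z (e.symm w) ∈ pX '' tsupport θ := ⟨_, hw', (s1 _ _).2⟩
    have a1 := χ4 w (hA ⟨⟨mem_closedBall_zero_iff.2 hw.2.le, _, hx, g2 _ hw.1.2⟩, _, hw',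
      (s1 _ _).1⟩)
    have a2 := κ4 w (mem_ball_zero_iff.2 hw.2)
    have a3 := hψ.self_of_nhds.continuousAt.eventually (γ4 _ (hR hx))
    refine Eq.trans ?_ (WHO.core j j1 (hφ' w hw.1.1) hθ ?_ ?_ ?_).symm
    · rw [j2]
      rfl
    · filter_upwards [a2, a3] with v h2 h3
      rw [show κ v = 1 from h2, show γ (z (e.symm v)) = 1 from h3, one_mul, one_mul,
        (s2 (gp (z ∘ e.symm) v)).2.2, gp, (s1 _ _).1, (s1 _ _).2]
      rfl
    · filter_upwards [a2, a3] with v h2 h3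
      have e1 := L.map_add (pY v, 0) (0, z (e.symm v))
      rw [hL, hL, hL] at e1
      simp only [Prod.mk_add_mk, add_zero, zero_add] at e1
      rw [show κ v = 1 from h2, show γ (z (e.symm v)) = 1 from h3, ofReal_one, one_mul, one_mul,
        ← star_add]
      exact congrArg star (congrFun e1 j).symm
    · filter_upwards [a1] with v h1
      rw [show χ v = 1 from h1, ofReal_one, one_mul]
      rfl
  · have a1 : θ =ᶠ[𝓝 (gp (z ∘ e.symm) w)] 0 := notMem_tsupport_iff_eventuallyEq.1 hw'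
    have a2 := j1.self_of_nhds.continuousAt.eventually a1
    refine Eq.trans ?_ (WHO.van (a2.mono fun v hv => ?_)).symm
    · rw [dz_congr (g := fun _ => 0) a1, dz_const, zero_mul, zero_mul]
    · exact mul_eq_zero_of_right _ hv

end Pool.Agent.Lib.CY
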