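import Pool.Agent.Lib.FI.All
import Pool.Agent.Lib.CY.B_AFF
import Pool.Agent.Lib.CY.B_ALG
import Pool.Agent.Lib.CY.B_ARE
import Pool.Agent.Lib.CY.B_ARS
import Pool.Agent.Lib.CY.B_CMP
import Pool.Agent.Lib.CY.B_CNT
import Pool.Agent.Lib.CY.B_CVR
import Pool.Agent.Lib.CY.B_EN1
import Pool.Agent.Lib.CY.B_EN2
import Pool.Agent.Lib.CY.B_ENM
import Pool.Agent.Lib.CY.B_EUC
import Pool.Agent.Lib.CY.B_GEN
import Pool.Agent.Lib.CY.B_GHB
import Pool.Agent.Lib.CY.B_GRC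
import Pool.Agent.Lib.CY.B_HA0
import Pool.Agent.Lib.CY.B_HAU
import Pool.Agent.Lib.CY.B_ITP
import Pool.Agent.Lib.CY.B_JAC
import Pool.Agent.Lib.CY.B_LEL
import Pool.Agent.Lib.CY.B_LIN
import Pool.Agent.Lib.CY.B_LOC
import Pool.Agent.Lib.CY.B_LSC
import Pool.Agent.Lib.CY.B_MAT
import Pool.Agent.Lib.CY.B_MO5
import Pool.Agent.Lib.CY.B_ORT
import Pool.Agent.Lib.CY.B_PAT
import Pool.Agent.Lib.CY.B_PSI
import Pool.Agent.Lib.CY.B_REG
import Pool.Agent.Lib.CY.B_SC0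
import Pool.Agent.Lib.CY.B_SC1
import Pool.Agent.Lib.CY.B_SC2
import Pool.Agent.Lib.CY.B_SCL
import Pool.Agent.Lib.CY.B_SEP
import Pool.Agent.Lib.CY.B_SHT
import Pool.Agent.Lib.CY.B_SPL
import Pool.Agent.Lib.CY.B_STI
import Pool.Agent.Lib.CY.B_TM2
import Pool.Agent.Lib.CY.B_TR1
import Pool.Agent.Lib.CY.B_UPL
import Pool.Agent.Lib.CY.B_WEU
import Pool.Agent.Lib.CY.B_WHO

/-! Project cy: all rows without hypotheses. -/

namespace Pool.Agent.Lib.CY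

theorem aGHB : St_GHB := cGHB

theorem aSPL : St_SPL := cSPL

theorem aMAT : St_MAT := cMAT FI.bSYL

theorem aCMP : St_CMP := cCMP aSPL aMAT FI.aBAS

theorem aORT : St_ORT := cORT

theorem aLIN : St_LIN := cLIN aSPL aORT

theorem aJAC : St_JAC := cJAC aSPL

theorem aREG : St_REG := cREG aLIN aJAC

theorem aTM2 : St_TM2 := cTM2 FI.aTAM FI.aBAS

theorem aGRC : St_GRC := cGRC aTM2 FI.aGRO FI.aTAM FI.aBAS

theorem aALG : St_ALG := cALG

theorem aPSI : St_PSI := cPSI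

theorem aMO5 : St_MO5 := cMO5 aGRC aALG aMAT aPSI FI.bCHR

theorem aLEL : St_LEL :=
  cLEL aGHB aCMP aREG aMO5 FI.aGOO FI.aITG FI.aBAS

theorem aLSC : St_LSC := cLSC aGHB aLEL

theorem aHA0 : St_HA0 := cHA0

theorem aHAU : St_HAU := cHAU aLEL aHA0 FI.aSMO

theorem aAFF : St_AFF := cAFF

theorem aGEN : St_GEN := cGEN aSPL

theorem aSTI : St_STI := cSTI aGEN

theorem aSCL : St_SCL := cSCL

theorem aSC0 : St_SC0 := cSC0 aSPL aGEN aSTI aSCL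

theorem aSC1 : St_SC1 := cSC1 aAFF aSC0 aCMP FI.aBAS

theorem aSC2 : St_SC2 := cSC2 aSC1

theorem aWHO : St_WHO := cWHO aGHB aSPL aJAC aGRC

theorem aEUC : St_EUC := cEUC aGHB aCMP aWHO FI.aBAS

theorem aARE : St_ARE := cARE aJAC

theorem aWEU : St_WEU := cWEU

theorem aTR1 : St_TR1 := cTR1 aSPL aJAC aARE aWEU

theorem aCNT : St_CNT := cCNT aSPL aARE aTR1

theorem aITP : St_ITP := cITP

theorem aLOC : St_LOC := cLOC aJAC

theorem aSHT : St_SHT := cSHT aGHB aSPL aJAC aITP aTR1 aLOC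

theorem aARS : St_ARS := cARS aSPL aARE

theorem aUPL : St_UPL := cUPL aSPL aJAC aARS aCMP FI.aBAS

theorem aCVR : St_CVR := cCVR aGHB aUPL

theorem aEN1 : St_EN1 := cEN1 aSPL aJAC aARS

theorem aENM : St_ENM := cENM aEN1 aCMP

theorem aEN2 : St_EN2 := cEN2 FI.aITG FI.aBAS FI.bCHR

theorem aSEP : St_SEP := cSEP aGHB aITP

theorem aPAT : St_PAT :=
  cPAT aGHB aLSC aHAU aSC2 aEUC aCNT aSHT aCVR aENM aEN2 aSEP

theorem aCY : St_CY := cCY aPAT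

end Pool.Agent.Lib.CY
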