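import Pool.Agent.Lib.CY.Blue
import Pool.Agent.Lib.FI.B_GRO

/-! Project cy, row GRC: the formula of Green in a chart. -/

open scoped Classical Topology ContDiff ComplexOrder Matrix ENNReal
open Set MeasureTheory Complex Metric Filter

noncomputable section

namespace Pool.Agent.Lib.CY

open Pool.Agent.Lib.SV (E nsq)
open Pool.Agent.Lib.HS32 Pool.Agent.Lib.HS32.Mf Pool.Agent.Lib.FI

namespace GRC

variable {n : ℕ} {M : Mf n} {p : M.X → ℝ} {G : M.Fam (Mat n)} {e : M.Ch} {K : Set (E n)}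

theorem van [M.Cpt] {F : Type} [Zero F] {f : M.X → F} (hK : IsCompact K) (hs : K ⊆ e.target)
    (h0 : ∀ x, e x ∉ K → f x = 0) {x : M.X} (hx : x ∉ e.symm '' K) :
    ∀ᶠ y in 𝓝 x, e.source.indicator f y = 0 := by
  filter_upwards [(hK.image_of_continuousOn
    (e.continuousOn_symm.mono hs)).isClosed.isOpen_compl.mem_nhds hx] with y hy
  exact indicator_apply_eq_zero.2 fun h => h0 y fun k => hy ⟨_, k, e.left_inv h⟩

theorem loc {F : Type} [Zero F] (f : M.X → F) {w : E n} (hw : w ∈ e.target) :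
    ∀ᶠ v in 𝓝 w, e.source.indicator f (e.symm v) = f (e.symm v) ∧ e (e.symm v) = v :=
  mem_of_superset (e.open_target.mem_nhds hw) fun _ hv =>
    ⟨indicator_of_mem (e.map_target hv) _, e.right_inv hv⟩

theorem sm_ind [M.Cpt] {F : Type} [NormedAddCommGroup F] [NormedSpace ℝ F] {f : E n → F}
    (he : e ∈ M.C) (hK : IsCompact K) (hs : K ⊆ e.target) (hf : ContDiff ℝ ∞ f)
    (h0 : ∀ w, w ∉ K → f w = 0) : M.Sm (e.source.indicator fun x => f (e x)) := by
  refine ((mTR n M).2.2.2.1 F _).2.2 fun x => ?_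
  by_cases hx : x ∈ e.source
  · refine ⟨e, he, hx, hf.contDiffAt.congr_of_eventuallyEq
      ((loc (fun x => f (e x)) (e.map_source hx)).mono fun v hv => ?_)⟩
    rw [Function.comp_apply, hv.1, hv.2]
  · refine ⟨_, ch_mem x, mem_ch x, (contDiffAt_const (c := 0)).congr_of_eventuallyEq
      (((M.ch x).continuousAt_symm (ch_tgt x)).eventually (van hK hs (fun y => h0 _) ?_))⟩
    rintro ⟨w, hw, h⟩
    exact hx (ch_symm x ▸ h ▸ e.map_target (hs hw))

theorem sq_add {a b : ℂ} {c d t : ℝ} (h : ‖a‖ ^ 2 ≤ c * t) (h' : ‖b‖ ^ 2 ≤ d * t) :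
    ‖a + b‖ ^ 2 ≤ (2 * c + 2 * d) * t := by
  nlinarith [pow_le_pow_left₀ (norm_nonneg _) (norm_add_le a b) 2, sq_nonneg (‖a‖ - ‖b‖)]

theorem tame_add {u v : M.X → ℂ} (h : So p u ∧ Mb p G (hc u) ∧ Gb p G u)
    (h' : So p v ∧ Mb p G (hc v) ∧ Gb p G v) : So p (fun x => u x + v x) ∧
      Mb p G (hc fun x => u x + v x) ∧ Gb p G fun x => u x + v x := by
  obtain ⟨s, ⟨a, a0, m⟩, c, c0, g⟩ := h
  obtain ⟨s', ⟨b, b0, m'⟩, d, d0, g'⟩ := h'
  refine ⟨fun e he w hw k => (s e he w hw k).add (s' e he w hw k),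
    ⟨a + b, by positivity, fun e he w hw k y => ?_⟩,
    2 * c + 2 * d, by positivity, fun e he w hw k y => ?_⟩
  · have : hc (fun x => u x + v x) e w = hc u e w + hc v e w :=
      hess_add (s e he w hw k) (s' e he w hw k)
    rw [this, Matrix.add_mulVec, dotProduct_add, add_mul]
    exact (norm_add_le _ _).trans (add_le_add (m e he w hw k y) (m' e he w hw k y))
  · have h1 : ∀ j, dz j ((fun x => u x + v x) ∘ e.symm) w =
        dz j (u ∘ e.symm) w + dz j (v ∘ e.symm) w := fun j =>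
      dz_add (cd_diff (s e he w hw k)) (cd_diff (s' e he w hw k))
    have h2 : ∀ j, dzb j ((fun x => u x + v x) ∘ e.symm) w =
        dzb j (u ∘ e.symm) w + dzb j (v ∘ e.symm) w := fun j =>
      dzb_add (cd_diff (s e he w hw k)) (cd_diff (s' e he w hw k))
    simp only [h1, h2, mul_add, Finset.sum_add_distrib]
    exact ⟨sq_add (g e he w hw k y).1 (g' e he w hw k y).1,
      sq_add (g e he w hw k y).2 (g' e he w hw k y).2⟩

end GRC

open GRC in
theorem cGRC (hTM2 : St_TM2) (hGRO : St_GRO) (hTAM : St_TAM) (hBAS : St_BAS) : St_GRC := by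
  intro n k M _ H p z C e K β₁ β₂ u₁ u₂ Θ hF he hK hs s1 z1 t2 s3 z3 s4 c4 sΘ cΘ zΘ
  obtain ⟨sw, gw, c, bw⟩ := hTM2 n k M H p z C e K Θ hF he hK hs sΘ cΘ zΘ
  obtain ⟨-, t1, t3, -⟩ := hTAM n k M H p z C hF
  obtain ⟨hO, -, -, -, b5⟩ := hBAS n k M H p z C hF
  have hH := hF.kae.toMet
  set W := e.source.indicator fun x => Θ (e x, z x) with hW
  set b : M.X → ℝ := fun x => e.source.indicator (fun x => β₁ (e x)) x + β₂ (z x) with hb
  set u : M.X → ℂ := fun x => e.source.indicator (fun x => u₁ (e x)) x + u₂ (z x) with hu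
  obtain ⟨su, mu, gu⟩ : So p u ∧ Mb p _ (hc u) ∧ Gb p _ u :=
    tame_add (t1 _ (sm_ind he hK hs s3 z3)) (t3 u₂ s4 c4)
  obtain ⟨sb, mb, -⟩ : So p (fun x => (b x : ℂ)) ∧ Mb p _ (hc fun x => (b x : ℂ)) ∧
      Gb p _ fun x => (b x : ℂ) := by
    simp only [hb, ofReal_add]
    exact tame_add (t1 _ (sm_ind he hK hs s1 z1).ofReal)
      (t3 (fun y => (β₂ y : ℂ)) (ofRealCLM.contDiff.comp t2.sm) (t2.cs.comp_left ofReal_zero))
  obtain ⟨i1, i2, i3⟩ := hGRO n k M H p z C 0 b u W c hF clo_zero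
    (fun e he w hw h => cd_re (sb e he w hw h)) mb su mu gu sw gw fun x _ => bw x
  rw [zero_add] at i1 i2 i3
  rw [← integral_add i1 i2] at i3
  have iF := i1.add i2
  set F := fun x => ad H (M.hs b) (dc u W) x + W x * ad H (M.hs b) (hc u) x with hF'
  set B := {w | w ∈ K ∧ 0 < p (e.symm w)} with hB
  have mB : MeasurableSet B := by
    have : B = K ∩ (e.target ∩ e.symm ⁻¹' {x | 0 < p x}) :=
      Set.ext fun w => ⟨fun h => ⟨h.1, hs h.1, h.2⟩, fun h => ⟨h.1, h.2.2⟩⟩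
    exact this ▸ hK.measurableSet.inter (e.isOpen_inter_preimage_symm hO).measurableSet
  obtain ⟨-, m1, -, m3, -⟩ := (mMU n M H hH).2.2.2.2.2.1 e he B mB fun w hw => hs hw.1
  have sub : e.symm '' B ⊆ {x | 0 < p x} := by
    rintro _ ⟨w, hw, rfl⟩
    exact hw.2
  have tb := (GRO.to_both sb sb).1
  have r1 := (b5 (M.hs b) (dc u W) fun e he e' he' x hx hx' h =>
    ⟨tb.cmp e he e' he' x hx hx' h, (GRO.to_both su sw).2.cmp e he e' he' x hx hx' h⟩).1 e he
  have r2 := (b5 (M.hs b) (hc u) fun e he e' he' x hx hx' h =>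
    ⟨tb.cmp e he e' he' x hx hx' h, (GRO.to_both su sw).1.cmp e he e' he' x hx hx' h⟩).1 e he
  generalize hβ : (fun w => ((β₁ w + β₂ (z (e.symm w)) : ℝ) : ℂ)) = β
  generalize hv : (fun w => u₁ w + u₂ (z (e.symm w))) = v
  generalize hτ : (fun w => Θ (w, z (e.symm w))) = τ
  have ev : ∀ w ∈ B, M.lc b e =ᶠ[𝓝 w] β ∧ u ∘ e.symm =ᶠ[𝓝 w] v ∧ W ∘ e.symm =ᶠ[𝓝 w] τ :=
    fun w hw => ⟨(loc (fun x => β₁ (e x)) (hs hw.1)).mono fun y hy => by
        simp only [← hβ, Mf.lc, hb, hy.1, hy.2],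
      (loc (fun x => u₁ (e x)) (hs hw.1)).mono fun y hy => by
        simp only [← hv, Function.comp_apply, hu, hy.1, hy.2],
      (loc (fun x => Θ (e x, z x)) (hs hw.1)).mono fun y hy => by
        simp only [← hτ, Function.comp_apply, hW, hy.1, hy.2]⟩
  have pt : ∀ w ∈ B, (H e w).det * F (e.symm w) = gI β v τ w := fun w hw => by
    obtain ⟨e1, e2, e3⟩ := ev w hw
    have := hH.det_ne e he w (hs hw.1)
    simp only [hF', r1 w (hs hw.1) hw.2, r2 w (hs hw.1) hw.2, gI, Mf.hs, hc, dc, hess_congr e1,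
      hess_congr e2, dd_congr e2 e3, ← e3.eq_of_nhds, Function.comp_apply, Matrix.mul_add,
      Matrix.mul_smul, Matrix.trace_add, Matrix.trace_smul, smul_eq_mul]
    field_simp
  refine ⟨⟨ContinuousOn.aestronglyMeasurable (fun w hw => ?_) mB, ?_⟩, ?_⟩
  · obtain ⟨e1, e2, e3⟩ := ev w hw
    have a1 := (sb e he w (hs hw.1) hw.2).congr_of_eventuallyEq e1.symm
    have a2 := (su e he w (hs hw.1) hw.2).congr_of_eventuallyEq e2.symm
    have a3 := (sw e he w (hs hw.1) hw.2).congr_of_eventuallyEq e3.symm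
    exact ((smM_hess a1).adjugate.mul ((smM_dd a2 a3).add
      ((smM_hess a2).smul a3))).trace.continuousAt.continuousWithinAt
  · have := (iF.mono_set sub).2
    rw [HasFiniteIntegral, m1] at this
    refine (setLIntegral_congr_fun mB fun w hw => ?_).trans_lt this
    have hp := hH.pos e he w (hs hw.1)
    rw [← pt w hw, enorm_mul, ← herm_det hp.1, ofReal_re, ← ofReal_norm_eq_enorm, norm_real,
      Real.norm_of_nonneg (pd_det_re hp).le]
    rfl
  · rw [← setIntegral_congr_fun mB pt, ← m3, ← i3]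
    refine (setIntegral_eq_of_subset_of_forall_diff_eq_zero hO.measurableSet sub
      fun x hx => ?_).symm
    have a := van (f := fun x => Θ (e x, z x)) hK hs (fun y h => zΘ _ h) (x := x)
      fun ⟨w, hw, h⟩ => hx.2 ⟨w, ⟨hw, h ▸ hx.1⟩, h⟩
    have a0 : dc u W (M.ch x) (M.ch x x) = 0 := by
      rw [dc, dd_congr .rfl (g := W ∘ (M.ch x).symm) (g' := fun _ => 0)
        (((M.ch x).continuousAt_symm (ch_tgt x)).eventually (p := fun y => W y = 0)
          (by rwa [ch_symm]))]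
      ext i j
      simp [dd]
    have a1 : W x = 0 := a.self_of_nhds
    simp [hF', ad, Mf.ev, a0, a1]

end Pool.Agent.Lib.CY
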