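import Pool.Agent.Lib.CY.Blue

/-! Project cy, row SC0: the scales around a point, in coordinates. -/

open scoped Classical Topology Matrix
open Set Complex Metric Filter

noncomputable section

namespace Pool.Agent.Lib.CY

open Pool.Agent.Lib.SV (E nsq)
open Pool.Agent.Lib.HS32 Pool.Agent.Lib.FI

namespace SC0

theorem one (hSPL : St_SPL) {g k : ℕ} {A N : Set (E (g + k))} {a : E (g + k)} (hA : IsClosed A)
    (hN : N ∈ 𝓝 a) (B : Mx g k) (hB : ∀ m : ℕ, ∃ s ∈ Ioo (0 : ℝ) (1 / (m + 1)), ∀ w ∈ A,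
      ‖pX (w - a)‖ = s → pY (w - a) ≠ Matrix.of B *ᵥ pX (w - a)) :
    ∃ (L : E (g + k) ≃L[ℂ] E (g + k)) (s : ℂ), s ≠ 0 ∧ (∀ w, ‖w‖ ≤ 2 → a + L w ∈ N) ∧
      (∀ w ∈ shell g k, a + L w ∉ A) ∧
      ∀ (ψ : E (g + k) → E k) (w : E (g + k)), DifferentiableAt ℂ ψ (a + L w) →
        jx (fun u => ψ (a + L u)) w =
          s • (cX (jr ψ (a + L w)) + cY (jr ψ (a + L w)) * Matrix.of B) := by
  obtain ⟨s1, s2, ⟨L₀, l1, -⟩, -, s5⟩ := hSPL g k
  have cX : Continuous (pX : E (g + k) → E k) := continuous_pi fun _ => continuous_apply _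
  have cY : Continuous (pY : E (g + k) → E g) := continuous_pi fun _ => continuous_apply _
  set F : ℂ → ℂ → E (g + k) → E (g + k) := fun s t w =>
    a + L₀ (t • pY w + s • (Matrix.of B *ᵥ pX w), s • pX w) with hF
  have cF : Continuous fun v : (ℂ × ℂ) × E (g + k) => F v.1.1 v.1.2 v.2 :=
    continuous_const.add (L₀.continuous.comp ((((continuous_snd.comp continuous_fst).smul
      (cY.comp continuous_snd)).add ((continuous_fst.comp continuous_fst).smul
        (continuous_const.matrix_mulVec (cX.comp continuous_snd)))).prodMk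
          ((continuous_fst.comp continuous_fst).smul (cX.comp continuous_snd))))
  have e1 : ∀ᶠ v : ℂ × ℂ in 𝓝 (0, 0), ∀ w ∈ closedBall (0 : E (g + k)) 2, F v.1 v.2 w ∈ N :=
    (isCompact_closedBall _ _).eventually_forall_of_forall_eventually fun w _ =>
      cF.continuousAt.eventually_mem (by simpa [hF, Prod.mk_zero_zero] using hN)
  obtain ⟨ε, ε0, hε⟩ := Metric.eventually_nhds_iff.1 e1
  obtain ⟨m, hm⟩ := exists_nat_one_div_lt ε0
  obtain ⟨s, ⟨s0, s1'⟩, hs⟩ := hB m
  have K : IsCompact (shell g k) := (isCompact_closedBall 0 1).of_isClosed_subset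
    ((isClosed_le continuous_norm continuous_const).inter
      (isClosed_eq (continuous_norm.comp cX) continuous_const))
    fun w hw => mem_closedBall_zero_iff.2 hw.1
  have e2 : ∀ᶠ t : ℂ in 𝓝 0, ∀ w ∈ shell g k, F s t w ∉ A :=
    K.eventually_forall_of_forall_eventually fun w hw =>
      (cF.comp ((continuous_const.prodMk continuous_fst).prodMk continuous_snd)).continuousAt
        |>.eventually_mem (hA.isOpen_compl.mem_nhds fun h => by
          have h' : F s 0 w ∈ A := h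
          refine hs _ h' ?_ ?_
          · simp only [hF, add_sub_cancel_left, l1, (s1 _ _).2, norm_smul, hw.2, norm_real,
              Real.norm_of_nonneg s0.le, mul_one]
          · simp only [hF, add_sub_cancel_left, l1, (s1 _ _).1, (s1 _ _).2, zero_smul, zero_add,
              Matrix.mulVec_smul])
  obtain ⟨t, ⟨t1, t2⟩, t0⟩ := (((e2.and (ball_mem_nhds (0 : ℂ) ε0)).filter_mono
    nhdsWithin_le_nhds).and (self_mem_nhdsWithin (s := {0}ᶜ))).exists
  have s0' : (s : ℂ) ≠ 0 := ofReal_ne_zero.2 s0.ne'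
  obtain ⟨L, L1, L2⟩ := s5 B s t s0' t0
  have e : ∀ w, a + L w = F s t w := fun w => by
    simp only [hF, l1, ← (L1 w).1, ← (L1 w).2, (s2 _).1]
  refine ⟨L, s, s0', fun w hw => ?_, fun w hw => e w ▸ t1 w hw, fun ψ w => L2 ψ a w⟩
  rw [e]
  refine hε (y := (s, t)) ?_ w (mem_closedBall_zero_iff.2 hw)
  rw [Prod.dist_eq, max_lt_iff, dist_zero_right, norm_real, Real.norm_of_nonneg s0.le]
  exact ⟨s1'.trans hm, t2⟩

end SC0

theorem cSC0 (hSPL : St_SPL) (hGEN : St_GEN) (hSTI : St_STI) (hSCL : St_SCL) : St_SC0 := by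
  intro g k U A N ψ a _ hψ hA hd hN
  obtain ⟨T, T1, T2, T3⟩ :=
    (TopologicalSpace.IsSeparable.of_separableSpace U).exists_countable_dense_subset
  have G := fun x (hx : x ∈ T) => hGEN g k (jr ψ x) fun h => (hψ x (T1 hx)).2 (by
    rw [dP, h, zero_re])
  have H := fun m : ℕ => hSCL g k A a (1 / (m + 1)) hA hd (by positivity)
  obtain ⟨S, c, c0, S1, S2⟩ := hSTI g k _
    ((dense_biInter_of_isOpen (fun x hx => (G x hx).1) T2 fun x hx => (G x hx).2).inter_of_Gδ
      (.biInter_of_isOpen T2 fun x hx => (G x hx).1) (.iInter_of_isOpen fun m => (H m).1)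
      (dense_iInter_of_isOpen (fun m => (H m).1) fun m => (H m).2))
  choose L s s0 L1 L2 L3 using fun B : S =>
    SC0.one hSPL hA.isClosed hN B.1 (mem_iInter.1 (S1 B.1 B.2).2)
  obtain ⟨B₀, hB₀, -⟩ := S2 0
  obtain ⟨m, hm⟩ := Nat.exists_eq_succ_of_ne_zero (Finset.card_pos.2 ⟨B₀, hB₀⟩).ne'
  let e := S.equivFinOfCardEq hm
  have q : ∀ B : S, ∀ x, a + L B ((L B).symm (x - a)) = x := fun B x => by
    rw [ContinuousLinearEquiv.apply_symm_apply, add_sub_cancel]
  have j : ∀ B : S, ∀ x ∈ U, (jx (fun u => ψ (a + L B u)) ((L B).symm (x - a))).det =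
      s B ^ k * (cX (jr ψ x) + cY (jr ψ x) * Matrix.of B.1).det := fun B x hx => by
    rw [L3 B ψ _ (by rw [q]; exact (hψ x hx).1.self_of_nhds), q, Matrix.det_smul, Fintype.card_fin]
  have p : ∀ B : S, 0 < normSq (s B) ^ k := fun B => pow_pos (normSq_pos.2 (s0 B)) k
  refine ⟨m, fun i => L (e.symm i), c * ∑ B, (normSq (s B) ^ k)⁻¹,
    mul_nonneg c0 (Finset.sum_nonneg fun B _ => (inv_pos.2 (p B)).le),
    fun i => ⟨L1 _, L2 _, fun w hw => ?_⟩, fun w hw => ?_⟩
  · have := map_mem_closure (f := fun x => (L (e.symm i)).symm (x - a))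
      ((L _).symm.continuous.comp (continuous_sub_right a)) (T3 hw)
      (t := {w' | a + L (e.symm i) w' ∈ U ∧ (jx (fun u => ψ (a + L (e.symm i) u)) w').det ≠ 0})
      fun x hx => ⟨(q _ x).symm ▸ T1 hx, by
        rw [j _ x (T1 hx)]
        exact mul_ne_zero (pow_ne_zero _ (s0 _)) (mem_iInter₂.1 (S1 _ (e.symm i).2).1 x hx)⟩
    simpa using this
  · obtain ⟨B, hB, h⟩ := S2 (jr ψ w)
    refine ⟨e ⟨B, hB⟩, h.trans ?_⟩
    simp only [Equiv.symm_apply_apply]
    rw [jq, j _ w hw, map_mul, map_pow, mul_assoc]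
    refine mul_le_mul_of_nonneg_left ?_ c0
    refine le_trans (le_of_eq ?_) (mul_le_mul_of_nonneg_right (Finset.single_le_sum
      (fun B _ => (inv_pos.2 (p B)).le) (Finset.mem_univ ⟨B, hB⟩))
      (mul_nonneg (p _).le (normSq_nonneg _)))
    rw [inv_mul_cancel_left₀ (p _).ne']

end Pool.Agent.Lib.CY
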