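import Pool.Agent.Lib.RB9.Defs

/-! Project cy: the fibres of a meromorphic map as branched coverings. Blueprint. -/

open scoped Classical Topology ContDiff ComplexOrder Matrix ENNReal
open Set MeasureTheory Complex Metric Filter

set_option linter.unusedVariables false

noncomputable section

namespace Pool.Agent.Lib.CY

open Pool.Agent.Lib.SV (E nsq)
open Pool.Agent.Lib.HS32 Pool.Agent.Lib.FI Pool.Agent.Lib.KH Pool.Agent.Lib.RB9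

/-! ### Definitions -/

section top

variable {X Y : Type} [TopologicalSpace X] [TopologicalSpace Y]

/-- The fibre over `y` of the closure of the graph. -/
def Gh (O : Set X) (z : X → Y) (y : Y) : Set X :=
  {x | (x, y) ∈ closure ((fun x => (x, z x)) '' O)}

/-- The limit of the fibres along a filter. -/
def Lm (O : Set X) (z : X → Y) (W : Filter Y) : Set X :=
  {x | ∀ N ∈ 𝓝 x, ∀ᶠ y in W, (Gh O z y ∩ N).Nonempty}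

end top

section euc

variable {n g k : ℕ}

/-- The first coordinates. -/
def pY (w : E (g + k)) : E g := fun i => w (Fin.castAdd k i)

/-- The last coordinates. -/
def pX (w : E (g + k)) : E k := fun j => w (Fin.natAdd g j)

/-- The point with given first and last coordinates. -/
def ap (y : E g) (s : E k) : E (g + k) := Fin.append y s

/-- The first columns. -/
def cY (P : Matrix (Fin k) (Fin (g + k)) ℂ) : Matrix (Fin k) (Fin g) ℂ :=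
  P.submatrix id (Fin.castAdd k)

/-- The last columns. -/
def cX (P : Matrix (Fin k) (Fin (g + k)) ℂ) : Mat k := P.submatrix id (Fin.natAdd g)

/-- Rectangular matrices with the norm of the supremum. -/
abbrev Mx (g k : ℕ) : Type := Fin g → Fin k → ℂ

/-- The mixed determinant. -/
def mc (A : Mat n) (P : Matrix (Fin k) (Fin n) ℂ) : ℂ := A.det * (P * A⁻¹ * Pᴴ).det

/-- The Gram determinant of the differential. -/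
def dP (ψ : E n → E k) (w : E n) : ℝ := (jr ψ w * (jr ψ w)ᴴ).det.re

/-- The Jacobian matrix in the last coordinates. -/
def jx (ψ : E (g + k) → E k) (w : E (g + k)) : Mat k := cX (jr ψ w)

/-- The real Jacobian determinant of `gp ψ`. -/
def jq (ψ : E (g + k) → E k) (w : E (g + k)) : ℝ := normSq (jx ψ w).det

/-- The map that keeps the first coordinates. -/
def gp (ψ : E (g + k) → E k) (w : E (g + k)) : E (g + k) := ap (pY w) (ψ w)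

/-- The vertical boundary of the unit polydisc. -/
def shell (g k : ℕ) : Set (E (g + k)) := {w | ‖w‖ ≤ 1 ∧ ‖pX w‖ = 1}

/-- The regular points in the unit polydisc. -/
def Rg (U : Set (E (g + k))) (ψ : E (g + k) → E k) : Set (E (g + k)) :=
  {w | w ∈ U ∧ ‖w‖ < 1 ∧ (jx ψ w).det ≠ 0}

/-- The regular points over `v`. -/
def fb (U : Set (E (g + k))) (ψ : E (g + k) → E k) (v : E (g + k)) : Set (E (g + k)) :=
  {w | w ∈ Rg U ψ ∧ gp ψ w = v}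

/-- The base of a scale. -/
def Dz (g : ℕ) (Z : Set (E k)) : Set (E (g + k)) := {v | ‖pY v‖ < 1 ∧ pX v ∈ Z}

/-- The integrand of the formula of Green. -/
def gI (β u τ : E n → ℂ) (w : E n) : ℂ :=
  ((hess β w).adjugate * (dd u τ w + τ w • hess u w)).trace

/-- The traces are weakly holomorphic over `Z`. -/
def Wk (U : Set (E (g + k))) (ψ : E (g + k) → E k) (Z : Set (E k)) : Prop :=
  ∀ φ : E (g + k) → ℂ, DifferentiableOn ℂ φ (ball 0 2) → ∀ θ : E (g + k) → ℂ, ContDiff ℝ ∞ θ →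
    HasCompactSupport θ → tsupport θ ⊆ Dz g Z → ∀ j,
    ∫ w in {w | w ∈ U ∧ ‖w‖ < 1}, dz j θ (gp ψ w) * star (φ w) * jq ψ w = 0

/-- A scale read in its chart. -/
structure Eu (U : Set (E (g + k))) (ψ : E (g + k) → E k) (Z : Set (E k)) (c : ℝ) : Prop where
  oU : IsOpen U
  hol : ∀ w ∈ U, HolN ψ w
  oZ : IsOpen Z
  den : ∀ w ∈ U, ‖w‖ < 1 → w ∈ closure (Rg U ψ)
  c0 : 0 ≤ c
  mas : ∀ S, IsOpen S → ∫⁻ w in {w | w ∈ U ∧ ‖w‖ < 1 ∧ ψ w ∈ S}, ENNReal.ofReal (jq ψ w) ≤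
    ENNReal.ofReal c * volume S
  wk : Wk U ψ Z

/-- The number of sheets. -/
structure Cn (U : Set (E (g + k))) (ψ : E (g + k) → E k) (Z : Set (E k)) (R : ℕ) (ρ : E k → ℕ) :
    Prop where
  le : ∀ s, ρ s ≤ R
  lc : ∀ s ∈ Z, ∀ᶠ s' in 𝓝 s, ρ s' = ρ s
  ae : ∀ᵐ v, v ∈ Dz g Z → (fb U ψ v).encard = ρ (pX v)

/-- The sheets over the product of the unit polydisc and `V`. -/
structure Sh (U : Set (E (g + k))) (ψ : E (g + k) → E k) (V : Set (E k)) {r : ℕ}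
    (a : E g → E k → Fin r → E (g + k)) : Prop where
  mem : ∀ y, ‖y‖ < 1 → ∀ s ∈ V, ∀ j, ‖a y s j‖ ≤ 1 ∧ pY (a y s j) = y ∧ a y s j ∈ Gh U ψ s
  all : ∀ s ∈ V, ∀ w ∈ Gh U ψ s, ‖w‖ < 1 → ∃ j, a (pY w) s j = w
  hol : ∀ φ : E (g + k) → ℂ, DifferentiableOn ℂ φ (ball 0 2) →
    DifferentiableOn ℂ (fun v : E g × E k => ∑ j, φ (a v.1 v.2 j)) (ball 0 1 ×ˢ V)
  con : ∀ F : E (g + k) → ℝ, ContinuousOn F (closedBall 0 1) →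
    ContinuousOn (fun v : E g × E k => ∑ j, F (a v.1 v.2 j)) (ball 0 1 ×ˢ V)
  gen : ∀ᵐ v : E g × E k, v ∈ ball 0 1 ×ˢ V → Function.Injective (a v.1 v.2) ∧
    range (a v.1 v.2) = fb U ψ (ap v.1 v.2) ∧
    ∀ φ : E (g + k) → ℂ, DifferentiableOn ℂ φ (ball 0 2) → ∀ ξ : E k,
      fderiv ℂ (fun s => ∑ j, φ (a v.1 s j)) v.2 ξ =
        ∑ j, fderiv ℂ φ (a v.1 v.2 j) (ap 0 ((jx ψ (a v.1 v.2 j))⁻¹ *ᵥ ξ))

end euc

section mfd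

variable {n g k : ℕ}

/-- The standing hypotheses. -/
structure Hy {M : Mf n} (H : M.Fam (Mat n)) (p : M.X → ℝ) (z : M.X → E k) (C V : ℝ)
    (r Ψ : E k → ℝ) : Prop where
  fb : Fb H p z C
  vol : Vol H p z V
  rad : Rad r Ψ
  jc : Jc H p z p C

/-- The part of the polydisc of radius two that lies over the open set. -/
def Uc {M : Mf n} (p : M.X → ℝ) (e : M.Ch) : Set (E n) := {w | ‖w‖ < 2 ∧ 0 < p (e.symm w)}

/-- The set is small in the charts. -/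
def Sml {M : Mf n} (d : ℕ) (A : Set M.X) : Prop := ∀ e ∈ M.C, closedBall 0 4 ⊆ e.target →
  dimH {a : E n | ‖a‖ ≤ 1 ∧ e.symm a ∈ A} ≤ (d : ℝ≥0∞)

/-- The energy of `f` on `V` is bounded by the current, weakly. -/
def En {M : Mf n} (H : M.Fam (Mat n)) (p : M.X → ℝ) (z : M.X → E k) (V : Set (E k))
    (f : E k → ℂ) (c : ℝ) : Prop := ∀ θ : E k → ℝ, Continuous θ → (∀ s, 0 ≤ θ s) → ∀ ξ : E k,
  ∫⁻ s in V, ENNReal.ofReal (θ s * normSq (fderiv ℂ f s ξ)) ≤ ENNReal.ofReal c *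
    ∫⁻ x in {x | 0 < p x}, ENNReal.ofReal (θ (z x) * nq (hz H z x).adjugate ξ) ∂M.mu H

/-- The energy of `f` on `V` is bounded by the smoothed current. -/
def Cu {M : Mf n} {m : ℕ} (H : M.Fam (Mat n)) (p : M.X → ℝ) (z : M.X → E k) (r : E k → ℝ)
    (V : Set (E k)) (f : E k → E m) (c : ℝ) : Prop := ∀ K, IsCompact K → K ⊆ V → ∀ η : ℝ, 0 < η →
  ∀ᶠ e in 𝓝[>] (0 : ℝ), ∀ y ∈ K,
    (c • ft H p z r e y + η • (1 : Mat k) - (jr f y)ᴴ * jr f y).PosSemidef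

variable {M : Mf (g + k)}

/-- A chart that is a scale. -/
structure Sc (p : M.X → ℝ) (z : M.X → E k) (e : M.Ch) : Prop where
  mem : e ∈ M.C
  sub : closedBall 0 2 ⊆ e.target
  den : ∀ w ∈ Uc p e, ‖w‖ < 1 → w ∈ closure (Rg (Uc p e) (z ∘ e.symm))

/-- The vertical boundary of a scale. -/
def Ks (e : M.Ch) : Set M.X := e.symm '' shell g k

/-- The points whose fibre does not meet the vertical boundary. -/
def Zs (p : M.X → ℝ) (z : M.X → E k) (e : M.Ch) : Set (E k) :=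
  {s | Disjoint (Gh {x | 0 < p x} z s) (Ks e)}

/-- A finite family of scales whose boundaries miss `A` and whose inner parts cover `N`. -/
structure Fa (H : M.Fam (Mat (g + k))) (p : M.X → ℝ) (z : M.X → E k) (Q : M.X → Set M.X)
    (A N : Set M.X) (S : Finset M.Ch) (c : ℝ) : Prop where
  sc : ∀ e ∈ S, Sc p z e ∧ Disjoint A (Ks e) ∧ ∃ x, e.symm '' ball 0 2 ⊆ Q x
  oN : IsOpen N
  c0 : 0 ≤ c
  cov : ∀ x ∈ N, ∃ e ∈ S, x ∈ e.source ∧ ‖e x‖ < 1 / 2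
  low : ∀ x ∈ N, 0 < p x → ∃ e ∈ S, x ∈ e.source ∧ ‖e x‖ < 1 / 2 ∧
    dn H z x ≤ c * jq (z ∘ e.symm) (e x)

end mfd

/-- A cell: a covering over `V` and a holomorphic map `f` that cuts it out near the good points. -/
structure Pat {n k : ℕ} {M : Mf n} (H : M.Fam (Mat n)) (p : M.X → ℝ) (z : M.X → E k)
    (r : E k → ℝ) (V₀ : ℝ) (Q : M.X → Set M.X) where
  V : Set (E k)
  m : ℕ
  f : E k → E m
  cv : Cov H p z V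
  c : ℝ
  c0 : 0 ≤ c
  sub : ∀ i, ∃ x, (cv.b i).W ⊆ Q x
  hol : DifferentiableOn ℂ f V
  bd : ∀ y ∈ V, ‖f y‖ ≤ c
  cur : Cu H p z r V f c
  sep : ∀ y, Good H p z r p V₀ y → y ∈ V ∨ ∀ᶠ y' in 𝓝 y, y' ∈ V → 4 < ‖f y'‖

/-! ### Topology and algebra -/

/-- The closure of the graph. -/
def St_GHB : Prop := ∀ (X Y : Type) [TopologicalSpace X] [TopologicalSpace Y] (O : Set X)
  (z : X → Y),
  (∀ x y, x ∈ Gh O z y ↔ ∀ N ∈ 𝓝 x, ∀ W ∈ 𝓝 y, ∃ x' ∈ N, x' ∈ O ∧ z x' ∈ W) ∧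
  (∀ x ∈ O, x ∈ Gh O z (z x)) ∧
  (T2Space Y → IsOpen O → ContinuousOn z O → ∀ x ∈ O, ∀ y, x ∈ Gh O z y → z x = y) ∧
  (∀ K, IsCompact K → IsOpen {y | Disjoint (Gh O z y) K}) ∧
  (∀ L, IsCompact L → IsClosed {x | ∃ y ∈ L, x ∈ Gh O z y}) ∧
  (∀ (ι : Type) (F : Filter ι) (x : ι → X) (y : ι → Y) (x₀ : X) (y₀ : Y), F.NeBot →
    (∀ᶠ i in F, x i ∈ Gh O z (y i)) → Tendsto x F (𝓝 x₀) → Tendsto y F (𝓝 y₀) → x₀ ∈ Gh O z y₀) ∧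
  (∀ (X' : Type) [TopologicalSpace X'] (e : OpenPartialHomeomorph X X') (B : Set X'), IsOpen B →
    B ⊆ e.target → ∀ w ∈ B, ∀ y,
      w ∈ Gh {w | w ∈ B ∧ e.symm w ∈ O} (z ∘ e.symm) y ↔ e.symm w ∈ Gh O z y) ∧
  ∀ W : Ultrafilter Y, IsClosed (Lm O z W) ∧
    (CompactSpace X → ∀ N, IsOpen N → Lm O z W ⊆ N → ∀ᶠ y in W, Gh O z y ⊆ N) ∧
    ∀ (x : Y → X) (x₀ : X), (∀ᶠ y in W, x y ∈ Gh O z y) → Tendsto x W (𝓝 x₀) → x₀ ∈ Lm O z W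

/-- The splitting of the coordinates. -/
def St_SPL : Prop := ∀ g k : ℕ,
  (∀ (y : E g) (s : E k), pY (ap y s) = y ∧ pX (ap y s) = s) ∧
  (∀ w : E (g + k), ap (pY w) (pX w) = w ∧ ‖w‖ = max ‖pY w‖ ‖pX w‖ ∧
    nsq w = nsq (pY w) + nsq (pX w)) ∧
  (∃ L : (E g × E k) ≃L[ℂ] E (g + k), (∀ v, L v = ap v.1 v.2) ∧ (∀ w, L.symm w = (pY w, pX w)) ∧
    MeasurePreserving L ∧ MeasurePreserving L.symm) ∧
  (∀ P : Matrix (Fin k) (Fin (g + k)) ℂ, (∀ v, P *ᵥ v = cY P *ᵥ pY v + cX P *ᵥ pX v) ∧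
    P * Pᴴ = cY P * (cY P)ᴴ + cX P * (cX P)ᴴ) ∧
  ∀ (A : Mx g k) (s t : ℂ), s ≠ 0 → t ≠ 0 → ∃ L : E (g + k) ≃L[ℂ] E (g + k),
    (∀ w, pY (L w) = t • pY w + s • (Matrix.of A *ᵥ pX w) ∧ pX (L w) = s • pX w) ∧
    ∀ (ψ : E (g + k) → E k) (a w : E (g + k)), DifferentiableAt ℂ ψ (a + L w) →
      jx (fun u => ψ (a + L u)) w =
        s • (cX (jr ψ (a + L w)) + cY (jr ψ (a + L w)) * Matrix.of A)

/-- The Jacobian matrix and the local inverses. -/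
def St_JAC : Prop := ∀ (g k : ℕ) (ψ : E (g + k) → E k) (w : E (g + k)), HolN ψ w →
  HolN (gp ψ) w ∧ (jm (gp ψ) w).det = (jx ψ w).det ∧ (fderiv ℝ (gp ψ) w).det = jq ψ w ∧
  (∀ v, fderiv ℂ ψ w v = jr ψ w *ᵥ v ∧ jm (gp ψ) w *ᵥ v = ap (pY v) (jr ψ w *ᵥ v)) ∧
  ContinuousAt (jr ψ) w ∧ ContinuousAt (jx ψ) w ∧ ContinuousAt (jq ψ) w ∧ ContinuousAt (dP ψ) w ∧
  ((jx ψ w).det ≠ 0 → map (gp ψ) (𝓝 w) = 𝓝 (gp ψ w) ∧ ∃ σ : E (g + k) → E (g + k),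
    HolN σ (gp ψ w) ∧ σ (gp ψ w) = w ∧ (∀ᶠ v in 𝓝 (gp ψ w), gp ψ (σ v) = v) ∧
    (∀ᶠ w' in 𝓝 w, σ (gp ψ w') = w') ∧
    ∀ ξ : E k, fderiv ℂ σ (gp ψ w) (ap 0 ξ) = ap 0 ((jx ψ w)⁻¹ *ᵥ ξ))

/-- Interpolation: entire functions separate finite families. -/
def St_ITP : Prop := ∀ (n r : ℕ) (a b : Fin r → E n),
  (∀ φ : E n → ℂ, Differentiable ℂ φ → ∑ j, φ (a j) = ∑ j, φ (b j)) →
  (∀ F : E n → ℝ, ∑ j, F (a j) = ∑ j, F (b j)) ∧ range a = range b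

/-- Monotony of determinants. -/
def St_MAT : Prop :=
  (∀ (k : ℕ) (A B : Mat k), A.PosSemidef → (B - A).PosSemidef →
    0 ≤ A.det.re ∧ A.det.re ≤ B.det.re ∧ A.adjugate.PosSemidef ∧
      (B.adjugate - A.adjugate).PosSemidef) ∧
  ∀ (g k : ℕ) (P : Matrix (Fin k) (Fin (g + k)) ℂ) (A : Mat (g + k)), A.PosDef →
    0 ≤ (mc A P).re ∧ (∀ B, (B - A).PosSemidef → (mc A P).re ≤ (mc B P).re) ∧
    ∀ c : ℝ, 0 < c → (mc (c • (1 : Mat (g + k))) P).re = c ^ g * (P * Pᴴ).det.re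

/-- The variation of the mixed determinant as a sum of traces. -/
def St_ALG : Prop := ∀ g k : ℕ, ∃ (N : ℕ) (c s t : Fin N → ℝ),
  ∀ (A D : Mat (g + k)) (P : Matrix (Fin k) (Fin (g + k)) ℂ), A.PosDef → (A + D).PosDef →
    ∑ i, c i • ((s i • (A + t i • D) + Pᴴ * P).adjugate * D).trace = mc (A + D) P - mc A P ∧
    ∀ B : Matrix (Fin (g + k)) (Fin k) ℂ,
      ∑ i, c i • ((s i • (A + t i • D) + Pᴴ * P).adjugate * (B * P)).trace = 0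

/-- A unitary matrix whose first columns are in the kernel. -/
def St_ORT : Prop := ∀ (g k : ℕ) (P : Matrix (Fin k) (Fin (g + k)) ℂ),
  ∃ Q : Mat (g + k), Qᴴ * Q = 1 ∧ cY (P * Q) = 0

/-- A generic graph is transversal. -/
def St_GEN : Prop := ∀ (g k : ℕ) (P : Matrix (Fin k) (Fin (g + k)) ℂ), (P * Pᴴ).det ≠ 0 →
  IsOpen {A : Mx g k | (cX P + cY P * Matrix.of A).det ≠ 0} ∧
  Dense {A : Mx g k | (cX P + cY P * Matrix.of A).det ≠ 0}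

/-- Finitely many graphs are enough. -/
def St_STI : Prop := ∀ (g k : ℕ) (D : Set (Mx g k)), Dense D → ∃ (S : Finset (Mx g k)) (c : ℝ),
  0 ≤ c ∧ (∀ A ∈ S, A ∈ D) ∧ ∀ P : Matrix (Fin k) (Fin (g + k)) ℂ, ∃ A ∈ S,
    (P * Pᴴ).det.re ≤ c * normSq (cX P + cY P * Matrix.of A).det

/-! ### Analysis in coordinates -/

/-- The cut logarithm. -/
def St_PSI : Prop := ∀ n : ℕ, ∃ c : ℝ, 0 < c ∧ ∀ (a : E n) (s ρ : ℝ), 0 < s → 2 * s ≤ ρ →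
  ∃ f : E n → ℝ, ContDiff ℝ ∞ f ∧ (∀ w, ρ ^ 2 ≤ nsq (w - a) → f w = 0) ∧
    (∀ w, ((ρ ^ 2)⁻¹ • (1 : Mat n) + hr f w).PosDef) ∧ ∀ w, nsq (w - a) ≤ s ^ 2 →
      ((ρ ^ 2)⁻¹ • (1 : Mat n) + hr f w - (c / s ^ 2) • (1 : Mat n)).PosSemidef

/-- The linear model. -/
def St_LIN : Prop := ∀ (g k : ℕ) (r Ψ : E k → ℝ), Rad r Ψ → ∃ c : ℝ, 0 < c ∧
  ∀ P : Matrix (Fin k) (Fin (g + k)) ℂ, (P * Pᴴ).det ≠ 0 → ∃ e : ℝ, 0 < e ∧ ENNReal.ofReal c ≤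
    ∫⁻ u in {u | nsq u < 1}, ENNReal.ofReal (sc r e (P *ᵥ u) * (P * Pᴴ).det.re)

/-- The density at a regular point. -/
def St_REG : Prop := ∀ (g k : ℕ) (r Ψ : E k → ℝ), Rad r Ψ → ∃ c : ℝ, 0 < c ∧
  ∀ (ψ : E (g + k) → E k) (a : E (g + k)), HolN ψ a → dP ψ a ≠ 0 → ∃ e : ℝ, 0 < e ∧
    ∀ᶠ s in 𝓝[>] (0 : ℝ), ENNReal.ofReal (c * s ^ (2 * g)) ≤
      ∫⁻ w in {w | nsq (w - a) ≤ s ^ 2}, ENNReal.ofReal (sc r (s * e) (ψ a - ψ w) * dP ψ w)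

/-- Few separated points give a small dimension. -/
def St_HA0 : Prop := ∀ (n d : ℕ) (A : Set (E n)) (c : ℝ),
  (∀ ρ ∈ Ioc (0 : ℝ) 1, ∀ F : Finset (E n), (∀ a ∈ F, a ∈ A) →
    (∀ a ∈ F, ∀ b ∈ F, a ≠ b → ρ ≤ ‖a - b‖) → F.card * ρ ^ d ≤ c) → dimH A ≤ (d : ℝ≥0∞)

/-- A generic shell misses a small compact set. -/
def St_SCL : Prop := ∀ (g k : ℕ) (A : Set (E (g + k))) (a : E (g + k)) (δ : ℝ), IsCompact A →
  dimH A ≤ ((2 * g : ℕ) : ℝ≥0∞) → 0 < δ →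
  IsOpen {B : Mx g k | ∃ s ∈ Ioo 0 δ, ∀ w ∈ A, ‖pX (w - a)‖ = s →
    pY (w - a) ≠ Matrix.of B *ᵥ pX (w - a)} ∧
  Dense {B : Mx g k | ∃ s ∈ Ioo 0 δ, ∀ w ∈ A, ‖pX (w - a)‖ = s →
    pY (w - a) ≠ Matrix.of B *ᵥ pX (w - a)}

/-- The scales around a point, in coordinates. -/
def St_SC0 : Prop := ∀ (g k : ℕ) (U A N : Set (E (g + k))) (ψ : E (g + k) → E k) (a : E (g + k)),
  IsOpen U → (∀ w ∈ U, HolN ψ w ∧ dP ψ w ≠ 0) → IsCompact A → dimH A ≤ ((2 * g : ℕ) : ℝ≥0∞) →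
  N ∈ 𝓝 a → ∃ (m : ℕ) (L : Fin (m + 1) → E (g + k) ≃L[ℂ] E (g + k)) (c : ℝ), 0 ≤ c ∧
    (∀ i, (∀ w, ‖w‖ ≤ 2 → a + L i w ∈ N) ∧ (∀ w ∈ shell g k, a + L i w ∉ A) ∧
      ∀ w, a + L i w ∈ U →
        w ∈ closure {w' | a + L i w' ∈ U ∧ (jx (fun u => ψ (a + L i u)) w').det ≠ 0}) ∧
    ∀ w ∈ U, ∃ i, dP ψ w ≤ c * jq (fun u => ψ (a + L i u)) ((L i).symm (w - a))

/-- The area formula. -/
def St_ARE : Prop := ∀ (g k : ℕ) (U : Set (E (g + k))) (ψ : E (g + k) → E k), IsOpen U →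
  (∀ w ∈ U, HolN ψ w) → IsOpen (Rg U ψ) ∧ ContinuousOn (gp ψ) U ∧ ∀ T, MeasurableSet T →
    MeasurableSet (Rg U ψ ∩ gp ψ ⁻¹' T) ∧
    (∀ F : E (g + k) → ℝ≥0∞, ContinuousOn F (Rg U ψ) →
      AEMeasurable (fun v => ∑' w : fb U ψ v, F w) ∧
      ∫⁻ w in Rg U ψ ∩ gp ψ ⁻¹' T, F w * ENNReal.ofReal (jq ψ w) =
        ∫⁻ v in T, ∑' w : fb U ψ v, F w) ∧
    ∀ φ : E (g + k) → ℂ, ContinuousOn φ (Rg U ψ) →
      IntegrableOn (fun w => φ w * jq ψ w) (Rg U ψ ∩ gp ψ ⁻¹' T) →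
      IntegrableOn (fun v => ∑' w : fb U ψ v, φ w) T ∧
      ∫ w in Rg U ψ ∩ gp ψ ⁻¹' T, φ w * jq ψ w = ∫ v in T, ∑' w : fb U ψ v, φ w

/-- The lemma of Weyl on an open set. -/
def St_WEU : Prop := ∀ (n : ℕ) (D : Set (E n)) (G : E n → ℂ), IsOpen D → LocallyIntegrableOn G D →
  (∀ θ : E n → ℂ, ContDiff ℝ ∞ θ → HasCompactSupport θ → tsupport θ ⊆ D →
    ∀ j, ∫ v in D, dz j θ v * star (G v) = 0) →
  ∃ F : E n → ℂ, DifferentiableOn ℂ F D ∧ ∀ᵐ v, v ∈ D → F v = G v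

/-- The traces are holomorphic. -/
def St_TR1 : Prop := ∀ (g k : ℕ) (U : Set (E (g + k))) (ψ : E (g + k) → E k) (Z : Set (E k))
  (c : ℝ), Eu U ψ Z c → (∀ᵐ v, v ∈ Dz g Z → (fb U ψ v).Finite) ∧
  ∀ φ : E (g + k) → ℂ, DifferentiableOn ℂ φ (ball 0 2) → ∃ F : E (g + k) → ℂ,
    DifferentiableOn ℂ F (Dz g Z) ∧ ∀ᵐ v, v ∈ Dz g Z → F v = ∑' w : fb U ψ v, φ w

/-- The number of sheets is bounded and locally constant. -/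
def St_CNT : Prop := ∀ (g k : ℕ) (U : Set (E (g + k))) (ψ : E (g + k) → E k) (Z : Set (E k))
  (c : ℝ), Eu U ψ Z c → ∃ R ρ, Cn U ψ Z R ρ

/-- The sheets near a point with the right number of regular points. -/
def St_LOC : Prop := ∀ (g k : ℕ) (U : Set (E (g + k))) (ψ : E (g + k) → E k) (Z : Set (E k))
  (c : ℝ) (R r : ℕ) (ρ : E k → ℕ), Eu U ψ Z c → Cn U ψ Z R ρ → ∀ v ∈ Dz g Z, ρ (pX v) = r →
  (fb U ψ v).encard = r → ∃ σ : Fin r → E (g + k) → E (g + k),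
    (∀ j, HolN (σ j) v ∧ ∀ ξ : E k, fderiv ℂ (σ j) v (ap 0 ξ) = ap 0 ((jx ψ (σ j v))⁻¹ *ᵥ ξ)) ∧
    ∀ᶠ v' in 𝓝 v, Function.Injective (fun j => σ j v') ∧ range (fun j => σ j v') = fb U ψ v'

/-- The sheets exist. -/
def St_SHT : Prop := ∀ (g k : ℕ) (U : Set (E (g + k))) (ψ : E (g + k) → E k) (Z : Set (E k))
  (c : ℝ) (R r : ℕ) (ρ : E k → ℕ), Eu U ψ Z c → Cn U ψ Z R ρ →
  ∃ a : E g → E k → Fin r → E (g + k), Sh U ψ {s | s ∈ Z ∧ ρ s = r} a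

/-- The area formula for the sheets. -/
def St_ARS : Prop := ∀ (g k r : ℕ) (U : Set (E (g + k))) (ψ : E (g + k) → E k) (V : Set (E k))
  (a : E g → E k → Fin r → E (g + k)), IsOpen U → (∀ w ∈ U, HolN ψ w) → Sh U ψ V a →
  ∀ (Y : Set (E g)) (S : Set (E k)), IsOpen Y → Y ⊆ ball 0 1 → IsOpen S → S ⊆ V →
    ∀ F : E (g + k) → ℝ≥0∞, ContinuousOn F (Rg U ψ) →
    IsOpen {w | w ∈ Rg U ψ ∧ pY w ∈ Y ∧ ψ w ∈ S} ∧
    AEMeasurable (fun v : E g × E k => ∑ j, F (a v.1 v.2 j)) (volume.restrict (Y ×ˢ S)) ∧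
    ∫⁻ v in Y ×ˢ S, ∑ j, F (a v.1 v.2 j) =
      ∫⁻ w in {w | w ∈ Rg U ψ ∧ pY w ∈ Y ∧ ψ w ∈ S}, F w * ENNReal.ofReal (jq ψ w)

/-- The energy of a trace, in coordinates. -/
def St_EN1 : Prop := ∀ (g k r : ℕ) (U : Set (E (g + k))) (ψ : E (g + k) → E k) (V : Set (E k))
  (a : E g → E k → Fin r → E (g + k)) (φ : E (g + k) → ℂ) (y : E g), IsOpen U →
  (∀ w ∈ U, HolN ψ w) → IsOpen V → Sh U ψ V a → DifferentiableOn ℂ φ (ball 0 2) → ‖y‖ < 1 →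
  ∃ c : ℝ, 0 ≤ c ∧ ∀ θ : E k → ℝ, Continuous θ → (∀ s, 0 ≤ θ s) → ∀ ξ : E k,
    ∫⁻ s in V, ENNReal.ofReal (θ s * normSq (fderiv ℂ (fun s => ∑ j, φ (a y s j)) s ξ)) ≤
      ENNReal.ofReal c * ∫⁻ w in {w | w ∈ U ∧ ‖w‖ < 1},
        ENNReal.ofReal (θ (ψ w) * nsq ((jx ψ w).adjugate *ᵥ ξ))

/-! ### The manifold -/

/-- Affine changes of charts. -/
def St_AFF : Prop := ∀ (n : ℕ) (M : Mf n), ∀ e ∈ M.C, ∀ (a : E n) (L : E n ≃L[ℂ] E n),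
  ∃ e' ∈ M.C, e'.source = e.source ∧ (∀ w, w ∈ e'.target ↔ a + L w ∈ e.target) ∧
    (∀ w, e'.symm w = e.symm (a + L w)) ∧ ∀ x, e' x = L.symm (e x - a)

/-- Comparison with the flat objects of a chart. -/
def St_CMP : Prop := ∀ (g k : ℕ) (M : Mf (g + k)) [M.Cpt] (H : M.Fam (Mat (g + k)))
  (p : M.X → ℝ) (z : M.X → E k) (C : ℝ) (e : M.Ch) (K : Set (E (g + k))), Fb H p z C → e ∈ M.C →
  IsCompact K → K ⊆ e.target → ∃ c : ℝ, 1 ≤ c ∧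
    (∀ w ∈ K, 0 < p (e.symm w) → 0 ≤ dP (z ∘ e.symm) w ∧ 0 ≤ dn H z (e.symm w) ∧
      dP (z ∘ e.symm) w ≤ c * dn H z (e.symm w) ∧ dn H z (e.symm w) ≤ c * dP (z ∘ e.symm) w ∧
      jq (z ∘ e.symm) w ≤ dP (z ∘ e.symm) w ∧ ∀ ξ : E k,
        nsq ((jx (z ∘ e.symm) w).adjugate *ᵥ ξ) ≤ c * nq (hz H z (e.symm w)).adjugate ξ) ∧
    ∀ B, MeasurableSet B → B ⊆ K → MeasurableSet (e.symm '' B) ∧ ∀ F : M.X → ℝ≥0∞,
      ∫⁻ x in e.symm '' B, F x ∂M.mu H ≤ ENNReal.ofReal c * ∫⁻ w in B, F (e.symm w) ∧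
      ∫⁻ w in B, F (e.symm w) ≤ ENNReal.ofReal c * ∫⁻ x in e.symm '' B, F x ∂M.mu H

/-- Tame functions of the coordinates and of the map. -/
def St_TM2 : Prop := ∀ (n k : ℕ) (M : Mf n) [M.Cpt] (H : M.Fam (Mat n)) (p : M.X → ℝ)
  (z : M.X → E k) (C : ℝ) (e : M.Ch) (K : Set (E n)) (Θ : E n × E k → ℂ), Fb H p z C → e ∈ M.C →
  IsCompact K → K ⊆ e.target → ContDiff ℝ ∞ Θ → HasCompactSupport Θ → (∀ v, v.1 ∉ K → Θ v = 0) →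
  So p (e.source.indicator fun x => Θ (e x, z x)) ∧
  Gb p (g0 H p z C) (e.source.indicator fun x => Θ (e x, z x)) ∧
  ∃ c : ℝ, ∀ x, ‖e.source.indicator (fun x => Θ (e x, z x)) x‖ ≤ c

/-- The formula of Green in a chart. -/
def St_GRC : Prop := ∀ (n k : ℕ) (M : Mf n) [M.Cpt] (H : M.Fam (Mat n)) (p : M.X → ℝ)
  (z : M.X → E k) (C : ℝ) (e : M.Ch) (K : Set (E n)) (β₁ : E n → ℝ) (β₂ : E k → ℝ) (u₁ : E n → ℂ)
  (u₂ : E k → ℂ) (Θ : E n × E k → ℂ), Fb H p z C → e ∈ M.C → IsCompact K → K ⊆ e.target →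
  ContDiff ℝ ∞ β₁ → (∀ w, w ∉ K → β₁ w = 0) → Tst β₂ → ContDiff ℝ ∞ u₁ → (∀ w, w ∉ K → u₁ w = 0) →
  ContDiff ℝ ∞ u₂ → HasCompactSupport u₂ → ContDiff ℝ ∞ Θ → HasCompactSupport Θ →
  (∀ v, v.1 ∉ K → Θ v = 0) →
  IntegrableOn (gI (fun w => ((β₁ w + β₂ (z (e.symm w)) : ℝ) : ℂ))
    (fun w => u₁ w + u₂ (z (e.symm w))) fun w => Θ (w, z (e.symm w)))
    {w | w ∈ K ∧ 0 < p (e.symm w)} ∧
  ∫ w in {w | w ∈ K ∧ 0 < p (e.symm w)}, gI (fun w => ((β₁ w + β₂ (z (e.symm w)) : ℝ) : ℂ))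
    (fun w => u₁ w + u₂ (z (e.symm w))) (fun w => Θ (w, z (e.symm w))) w = 0

/-- The monotony formula. -/
def St_MO5 : Prop := ∀ g k : ℕ, ∃ c : ℝ, 0 < c ∧ ∀ (M : Mf (g + k)) [M.Cpt]
  (H : M.Fam (Mat (g + k))) (p : M.X → ℝ) (z : M.X → E k) (C : ℝ) (e : M.Ch) (a : E (g + k))
  (s ρ : ℝ) (θ : E k → ℝ), Fb H p z C → e ∈ M.C → 0 < s → 2 * s ≤ ρ →
  closedBall a ρ ⊆ e.target → Tst θ → (∀ y, 0 ≤ θ y) →
  ENNReal.ofReal (c * ρ ^ (2 * g)) * ∫⁻ w in {w | nsq (w - a) ≤ s ^ 2 ∧ 0 < p (e.symm w)},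
      ENNReal.ofReal (θ (z (e.symm w)) * dP (z ∘ e.symm) w) ≤
    ENNReal.ofReal (s ^ (2 * g)) * ∫⁻ w in {w | nsq (w - a) ≤ ρ ^ 2 ∧ 0 < p (e.symm w)},
      ENNReal.ofReal (θ (z (e.symm w)) * dP (z ∘ e.symm) w)

/-- The lower bound of the mass. -/
def St_LEL : Prop := ∀ (g k : ℕ) (M : Mf (g + k)) [M.Cpt] (H : M.Fam (Mat (g + k)))
  (p : M.X → ℝ) (z : M.X → E k) (C V : ℝ) (r Ψ : E k → ℝ) (e : M.Ch), Hy H p z C V r Ψ →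
  e ∈ M.C → closedBall 0 4 ⊆ e.target → ∃ κ : ℝ, 0 < κ ∧ ∀ (a : E (g + k)) (ρ : ℝ) (y : E k)
    (φ : M.X → ℝ), ‖a‖ ≤ 2 → 0 < ρ → ρ ≤ 1 → Good H p z r p V y →
    e.symm a ∈ Gh {x | 0 < p x} z y → M.Sm φ → (∀ x, 0 ≤ φ x) →
    (∀ w ∈ closedBall a (2 * ρ), 1 ≤ φ (e.symm w)) →
    ∀ᶠ b in nb y, κ * ρ ^ (2 * g) ≤ fi H p z r φ b.1 b.2

/-- The fibres are lower semicontinuous at the good points. -/
def St_LSC : Prop := ∀ (g k : ℕ) (M : Mf (g + k)) [M.Cpt] (H : M.Fam (Mat (g + k)))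
  (p : M.X → ℝ) (z : M.X → E k) (C V : ℝ) (r Ψ : E k → ℝ), Hy H p z C V r Ψ →
  ∀ y, Good H p z r p V y → ∀ x ∈ Gh {x | 0 < p x} z y, ∀ N ∈ 𝓝 x,
    ∀ᶠ y' in 𝓝 y, (Gh {x | 0 < p x} z y' ∩ N).Nonempty

/-- The limit of good fibres is small. -/
def St_HAU : Prop := ∀ (g k : ℕ) (M : Mf (g + k)) [M.Cpt] (H : M.Fam (Mat (g + k)))
  (p : M.X → ℝ) (z : M.X → E k) (C V : ℝ) (r Ψ : E k → ℝ) (W : Ultrafilter (E k)),
  Hy H p z C V r Ψ → (∀ᶠ y in W, Good H p z r p V y) → Sml (2 * g) (Lm {x | 0 < p x} z W)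

/-- The scales around a point. -/
def St_SC1 : Prop := ∀ (g k : ℕ) (M : Mf (g + k)) [M.Cpt] (H : M.Fam (Mat (g + k)))
  (p : M.X → ℝ) (z : M.X → E k) (C V : ℝ) (r Ψ : E k → ℝ) (Q : M.X → Set M.X) (A : Set M.X),
  Hy H p z C V r Ψ → (∀ x, Q x ∈ 𝓝 x) → IsClosed A → Sml (2 * g) A →
  ∀ x, ∃ N S c, Fa H p z Q A N S c ∧ x ∈ N

/-- The scales around a small closed set. -/
def St_SC2 : Prop := ∀ (g k : ℕ) (M : Mf (g + k)) [M.Cpt] (H : M.Fam (Mat (g + k)))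
  (p : M.X → ℝ) (z : M.X → E k) (C V : ℝ) (r Ψ : E k → ℝ) (Q : M.X → Set M.X) (A : Set M.X),
  Hy H p z C V r Ψ → (∀ x, Q x ∈ 𝓝 x) → IsClosed A → Sml (2 * g) A →
  ∃ S c, Fa H p z Q A univ S c

/-- Weak holomorphy of the traces. -/
def St_WHO : Prop := ∀ (g k : ℕ) (M : Mf (g + k)) [M.Cpt] (H : M.Fam (Mat (g + k)))
  (p : M.X → ℝ) (z : M.X → E k) (C : ℝ) (e : M.Ch), Fb H p z C → e ∈ M.C →
  closedBall 0 2 ⊆ e.target → Wk (Uc p e) (z ∘ e.symm) (Zs p z e)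

/-- A scale read in its chart. -/
def St_EUC : Prop := ∀ (g k : ℕ) (M : Mf (g + k)) [M.Cpt] (H : M.Fam (Mat (g + k)))
  (p : M.X → ℝ) (z : M.X → E k) (C V : ℝ) (e : M.Ch), Fb H p z C → Vol H p z V → Sc p z e →
  IsCompact (Ks e) ∧ (∃ c, Eu (Uc p e) (z ∘ e.symm) (Zs p z e) c) ∧
  ∀ w, ‖w‖ < 2 → ∀ s, w ∈ Gh (Uc p e) (z ∘ e.symm) s ↔ e.symm w ∈ Gh {x | 0 < p x} z s

/-- The two inequalities of a scale. -/
def St_UPL : Prop := ∀ (g k r : ℕ) (M : Mf (g + k)) [M.Cpt] (H : M.Fam (Mat (g + k)))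
  (p : M.X → ℝ) (z : M.X → E k) (C : ℝ) (e : M.Ch) (V : Set (E k))
  (a : E g → E k → Fin r → E (g + k)), Fb H p z C → Sc p z e → IsOpen V →
  Sh (Uc p e) (z ∘ e.symm) V a → ∃ c : ℝ, 0 ≤ c ∧ ∀ φ : M.X → ℝ, Continuous φ → (∀ x, 0 ≤ φ x) →
    (∀ ϑ : E k → ℝ, Continuous ϑ → (∀ s, 0 ≤ ϑ s) →
      ∫⁻ w in ball (0 : E g) 1 ×ˢ V, ENNReal.ofReal (ϑ w.2 * ∑ j, φ (e.symm (a w.1 w.2 j))) ≤
        ENNReal.ofReal c *
          ∫⁻ x in {x | 0 < p x}, ENNReal.ofReal (ϑ (z x) * φ x * dn H z x) ∂M.mu H) ∧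
    ∀ S, IsOpen S → S ⊆ V →
      IsOpen {x | 0 < p x ∧ z x ∈ S ∧ x ∈ e.source ∧ ‖e x‖ < 1 / 2} ∧
      ContinuousOn (fun x => φ x * jq (z ∘ e.symm) (e x))
        {x | 0 < p x ∧ z x ∈ S ∧ x ∈ e.source ∧ ‖e x‖ < 1 / 2} ∧
      ∫⁻ x in {x | 0 < p x ∧ z x ∈ S ∧ x ∈ e.source ∧ ‖e x‖ < 1 / 2},
          ENNReal.ofReal (φ x * jq (z ∘ e.symm) (e x)) ∂M.mu H ≤ ENNReal.ofReal c *
        ∫⁻ w in ball (0 : E g) (1 / 2) ×ˢ S, ENNReal.ofReal (∑ j, φ (e.symm (a w.1 w.2 j)))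

/-- The covering. -/
def St_CVR : Prop := ∀ (g k : ℕ) (M : Mf (g + k)) [M.Cpt] (H : M.Fam (Mat (g + k)))
  (p : M.X → ℝ) (z : M.X → E k) (C c : ℝ) (Q : M.X → Set M.X) (A : Set M.X) (S : Finset M.Ch)
  (V : Set (E k)) (r : S → ℕ) (a : ∀ e : S, E g → E k → Fin (r e) → E (g + k)), Fb H p z C →
  Fa H p z Q A univ S c → IsOpen V →
  (∀ e : S, Sh (Uc p e.1) (z ∘ e.1.symm) V (a e)) →
  ∃ cv : Cov H p z V, ∀ i, ∃ x, (cv.b i).W ⊆ Q x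

/-- The energy of a trace. -/
def St_ENM : Prop := ∀ (g k r : ℕ) (M : Mf (g + k)) [M.Cpt] (H : M.Fam (Mat (g + k)))
  (p : M.X → ℝ) (z : M.X → E k) (C : ℝ) (e : M.Ch) (V : Set (E k))
  (a : E g → E k → Fin r → E (g + k)) (φ : E (g + k) → ℂ) (y : E g), Fb H p z C → Sc p z e →
  IsOpen V → Sh (Uc p e) (z ∘ e.symm) V a → DifferentiableOn ℂ φ (ball 0 2) → ‖y‖ < 1 →
  ∃ c : ℝ, 0 ≤ c ∧ En H p z V (fun s => ∑ j, φ (a y s j)) c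

/-- From the weak bound to the smoothed bound. -/
def St_EN2 : Prop := ∀ (n k m : ℕ) (M : Mf n) [M.Cpt] (H : M.Fam (Mat n)) (p : M.X → ℝ)
  (z : M.X → E k) (C c : ℝ) (r Ψ : E k → ℝ) (V : Set (E k)) (f : E k → E m), Fb H p z C →
  Rad r Ψ → IsOpen V → DifferentiableOn ℂ f V → 0 ≤ c → (∀ i, En H p z V (fun s => f s i) c) →
  Cu H p z r V f (m * c)

/-- Finitely many traces keep the fibres near the limit set. -/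
def St_SEP : Prop := ∀ (g k : ℕ) (M : Mf (g + k)) [M.Cpt] (H : M.Fam (Mat (g + k)))
  (p : M.X → ℝ) (z : M.X → E k) (c : ℝ) (Q : M.X → Set M.X) (A : Set M.X) (S : Finset M.Ch)
  (V : Set (E k)) (r : S → ℕ) (a : ∀ e : S, E g → E k → Fin (r e) → E (g + k))
  (W : Ultrafilter (E k)) (N : Set M.X), Fa H p z Q A univ S c →
  (∀ e : S, Sh (Uc p e.1) (z ∘ e.1.symm) V (a e)) → V ∈ W → IsOpen N →
  Lm {x | 0 < p x} z W ⊆ N → ∃ (m : ℕ) (F : Fin m → E k → ℂ) (l : Fin m → ℂ) (ε : ℝ), 0 < ε ∧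
    (∀ i, Tendsto (F i) W (𝓝 (l i)) ∧ ∃ (e : S) (φ : E (g + k) → ℂ) (y : E g),
      Differentiable ℂ φ ∧ ‖y‖ < 1 ∧ F i = fun s => ∑ j, φ (a e y s j)) ∧
    ∀ s ∈ V, (∀ i, ‖F i s - l i‖ ≤ ε) → Gh {x | 0 < p x} z s ⊆ N

/-- The cell of an ultrafilter. -/
def St_PAT : Prop := ∀ (g k : ℕ) (M : Mf (g + k)) [M.Cpt] (H : M.Fam (Mat (g + k)))
  (p : M.X → ℝ) (z : M.X → E k) (C V : ℝ) (r Ψ : E k → ℝ) (Q : M.X → Set M.X)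
  (W : Ultrafilter (E k)), Hy H p z C V r Ψ → (∀ x, Q x ∈ 𝓝 x) →
  (∀ᶠ y in W, Good H p z r p V y) →
  ∃ P : Pat H p z r V Q, ∀ᶠ y in W, y ∈ P.V ∧ nsq (P.f y) < 1

/-- The theorem: finitely many cells cover the good points. -/
def St_CY : Prop := ∀ (n k : ℕ) (M : Mf n) [M.Cpt] (H : M.Fam (Mat n)) (p : M.X → ℝ)
  (z : M.X → E k) (C V : ℝ) (r Ψ : E k → ℝ) (Q : M.X → Set M.X), Hy H p z C V r Ψ →
  (∀ x, Q x ∈ 𝓝 x) → ∃ (N : ℕ) (P : Fin N → Pat H p z r V Q),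
    ∀ y, Good H p z r p V y → ∃ i, y ∈ (P i).V ∧ nsq ((P i).f y) < 1

end Pool.Agent.Lib.CY
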